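import Mathlib

/-!
# Components of forms over an extension
-/

namespace Pool.Agent.H.MP_31a675_nt.W

open MvPolynomial

variable {K : Type} [Field K] {N : ℕ} {K' : Type} [Field K'] [Algebra K K']

/-- A form over `K'` is a combination of forms over `K` with coefficients which are linearly
independent over `K`. -/
theorem exists_comp [FiniteDimensional K K'] (D : ℕ) (P : MvPolynomial (Fin (N + 1)) K')
    (hP : P.IsHomogeneous D) :
    ∃ G : Fin (Module.finrank K K') → MvPolynomial (Fin (N + 1)) K,
      (∀ l, (G l).IsHomogeneous D) ∧
      P = ∑ l, C (Module.finBasis K K' l) * map (algebraMap K K') (G l) := by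
  let G : Fin (Module.finrank K K') → MvPolynomial (Fin (N + 1)) K := fun l =>
    ∑ d ∈ P.support, monomial d ((Module.finBasis K K').repr (P.coeff d) l)
  have hG : ∀ l e, (G l).coeff e = (Module.finBasis K K').repr (P.coeff e) l := by
    intro l e
    simp only [G, coeff_sum, coeff_monomial]
    rw [Finset.sum_ite_eq']
    split_ifs with he
    · rfl
    · rw [notMem_support_iff.1 he]
      simp
  refine ⟨G, fun l d hd => ?_, ?_⟩
  · apply hP
    intro h0
    apply hd
    rw [hG, h0]
    simp
  · ext e
    rw [coeff_sum]
    simp only [coeff_C_mul, coeff_map, hG]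
    conv_lhs => rw [← (Module.finBasis K K').sum_repr (P.coeff e)]
    refine Finset.sum_congr rfl fun l _ => ?_
    rw [Algebra.smul_def, mul_comm]

/-- A combination with coefficients which are linearly independent over `K` vanishes at a point over
`K` if and only if all terms do. -/
theorem eval_comp [FiniteDimensional K K']
    (G : Fin (Module.finrank K K') → MvPolynomial (Fin (N + 1)) K) (x : Fin (N + 1) → K) :
    eval (fun i => algebraMap K K' (x i))
      (∑ l, C (Module.finBasis K K' l) * map (algebraMap K K') (G l)) = 0 ↔
      ∀ l, eval x (G l) = 0 := by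
  have h1 : eval (fun i => algebraMap K K' (x i))
      (∑ l, C (Module.finBasis K K' l) * map (algebraMap K K') (G l)) =
      ∑ l, eval x (G l) • Module.finBasis K K' l := by
    rw [map_sum]
    refine Finset.sum_congr rfl fun l _ => ?_
    rw [map_mul, eval_C, eval_map, Algebra.smul_def, mul_comm]
    congr 1
    have h2 := eval₂_comp_left (algebraMap K K') (RingHom.id K) x (G l)
    rw [RingHom.comp_id] at h2
    exact h2.symm
  rw [h1]
  constructor
  · intro h
    exact Fintype.linearIndependent_iff.1 (Module.finBasis K K').linearIndependent _ h
  · intro h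
    refine Finset.sum_eq_zero fun l _ => ?_
    rw [h l, zero_smul]

end Pool.Agent.H.MP_31a675_nt.W
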