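import Mathlib

/-!
# The greedy choice of a family with independent products
-/

namespace Pool.Agent.H.MP_31a675_nt.W

/-- Let `W t`, `t < M`, be elements such that the complexity of `W t` is at most `c` times a common
bound `S ≥ 1` for the earlier ones, and suppose that no `ρ + 1` of them, with sum of complexities at
most `(1 + c) ^ (ρ + 1)`, have linearly independent products. Then all have complexity at most
`(1 + c) ^ ρ`.

Proof by induction on `t ≤ M`: there are `r ≤ ρ`, indices `τ : Fin r → ℕ` below `t`, complexities `e i` of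
`W (τ i)` with `∑ e i ≤ (1 + c) ^ r`, such that the products of the `W (τ i)` are independent and all
`W t'`, `t' < t`, have complexity at most `(1 + c) ^ r`. For the step, `W t` has complexity at most
`c * (1 + c) ^ r`; if the products with `W t` added are dependent then `W t` has complexity at most
`∑ e i`; otherwise add it, `(1 + c) ^ r + c * (1 + c) ^ r = (1 + c) ^ (r + 1)`, and `r = ρ` is
impossible by `hbound`. -/
theorem greedy {K L : Type} [Field K] [Field L] [Algebra K L] (Cx : ℕ → L → Prop)
    (hmono : ∀ E E' u, E ≤ E' → Cx E u → Cx E' u)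
    (hdep : ∀ (r : ℕ) (u : Fin r → L) (e : Fin r → ℕ) (w : L), (∀ i, Cx (e i) (u i)) →
      LinearIndependent K (fun J : Fin r → Fin 2 => ∏ i, (![1, u i] : Fin 2 → L) (J i)) →
      ¬ LinearIndependent K (fun J : Fin (r + 1) → Fin 2 =>
        ∏ i, (![1, (Fin.snoc u w : Fin (r + 1) → L) i] : Fin 2 → L) (J i)) →
      Cx (∑ i, e i) w)
    (c ρ M : ℕ) (W : ℕ → L)
    (hrule : ∀ t < M, ∀ S, 1 ≤ S → (∀ t' < t, Cx S (W t')) → Cx (c * S) (W t))
    (hbound : ∀ (τ : Fin (ρ + 1) → ℕ) (e : Fin (ρ + 1) → ℕ), (∀ i, τ i < M) →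
      (∀ i, Cx (e i) (W (τ i))) → ∑ i, e i ≤ (1 + c) ^ (ρ + 1) →
      ¬ LinearIndependent K (fun J : Fin (ρ + 1) → Fin 2 =>
        ∏ i, (![1, W (τ i)] : Fin 2 → L) (J i))) :
    ∀ t < M, Cx ((1 + c) ^ ρ) (W t) := by
  have main : ∀ t ≤ M, ∃ (r : ℕ) (τ e : Fin r → ℕ), r ≤ ρ ∧ (∀ i, τ i < t) ∧
      (∀ i, Cx (e i) (W (τ i))) ∧ ∑ i, e i ≤ (1 + c) ^ r ∧
      LinearIndependent K (fun J : Fin r → Fin 2 => ∏ i, (![1, W (τ i)] : Fin 2 → L) (J i)) ∧
      ∀ t' < t, Cx ((1 + c) ^ r) (W t') := by
    intro t
    induction t with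
    | zero =>
      intro _
      refine ⟨0, Fin.elim0, Fin.elim0, Nat.zero_le _, fun i => i.elim0, fun i => i.elim0, by simp, ?_,
        fun t' h => absurd h (Nat.not_lt_zero _)⟩
      apply LinearIndependent.of_subsingleton (default : Fin 0 → Fin 2)
      simp
    | succ t ih =>
      intro ht
      obtain ⟨r, τ, e, hr, hτ, he, hs, hli, hall⟩ := ih (by omega)
      have hpos : 1 ≤ (1 + c) ^ r := Nat.one_le_pow _ _ (by omega)
      have hWt : Cx (c * (1 + c) ^ r) (W t) := hrule t (by omega) _ hpos hall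
      have hsn : (Fin.snoc (fun i => W (τ i)) (W t) : Fin (r + 1) → L)
          = fun i => W ((Fin.snoc τ t : Fin (r + 1) → ℕ) i) := by
        funext i
        refine Fin.lastCases ?_ (fun j => ?_) i
        · simp
        · simp
      have hcx : ∀ i, Cx ((Fin.snoc e (c * (1 + c) ^ r) : Fin (r + 1) → ℕ) i)
          (W ((Fin.snoc τ t : Fin (r + 1) → ℕ) i)) := by
        intro i
        refine Fin.lastCases ?_ (fun j => ?_) i
        · simpa using hWt
        · simpa using he j
      have hsum : ∑ i, (Fin.snoc e (c * (1 + c) ^ r) : Fin (r + 1) → ℕ) i ≤ (1 + c) ^ (r + 1) := by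
        rw [Fin.sum_univ_castSucc]
        simp only [Fin.snoc_castSucc, Fin.snoc_last]
        calc ∑ i, e i + c * (1 + c) ^ r ≤ (1 + c) ^ r + c * (1 + c) ^ r := by omega
          _ = (1 + c) ^ (r + 1) := by ring
      by_cases hL : LinearIndependent K (fun J : Fin (r + 1) → Fin 2 =>
        ∏ i, (![1, (Fin.snoc (fun i => W (τ i)) (W t) : Fin (r + 1) → L) i] : Fin 2 → L) (J i))
      · rw [hsn] at hL
        rcases Nat.lt_or_ge r ρ with hlt | hge
        · refine ⟨r + 1, (Fin.snoc τ t : Fin (r + 1) → ℕ),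
            (Fin.snoc e (c * (1 + c) ^ r) : Fin (r + 1) → ℕ), hlt, ?_, hcx, hsum, hL, ?_⟩
          · intro i
            refine Fin.lastCases ?_ (fun j => ?_) i
            · simp
            · simpa using (hτ j).trans (Nat.lt_succ_self t)
          · intro t' ht'
            rcases Nat.lt_succ_iff_lt_or_eq.1 ht' with h1 | h1
            · exact hmono _ _ _ (Nat.pow_le_pow_right (by omega) (Nat.le_succ r)) (hall t' h1)
            · subst h1
              refine hmono _ _ _ ?_ hWt
              calc c * (1 + c) ^ r ≤ (1 + c) * (1 + c) ^ r := Nat.mul_le_mul_right _ (by omega)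
                _ = (1 + c) ^ (r + 1) := by ring
        · have hre : r = ρ := le_antisymm hr hge
          subst hre
          exfalso
          refine hbound (Fin.snoc τ t : Fin (r + 1) → ℕ)
            (Fin.snoc e (c * (1 + c) ^ r) : Fin (r + 1) → ℕ) ?_ hcx hsum hL
          intro i
          refine Fin.lastCases ?_ (fun j => ?_) i
          · simpa using ht
          · simpa using (hτ j).trans (by omega : t < M)
      · have hd : Cx (∑ i, e i) (W t) := hdep r (fun i => W (τ i)) e (W t) he hli hL
        refine ⟨r, τ, e, hr, fun i => (hτ i).trans (Nat.lt_succ_self t), he, hs, hli, ?_⟩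
        intro t' ht'
        rcases Nat.lt_succ_iff_lt_or_eq.1 ht' with h1 | h1
        · exact hall t' h1
        · subst h1
          exact hmono _ _ _ hs hd
  intro t ht
  obtain ⟨r, τ, e, hr, -, -, -, -, hall⟩ := main M le_rfl
  exact hmono _ _ _ (Nat.pow_le_pow_right (by omega) hr) (hall t ht)

end Pool.Agent.H.MP_31a675_nt.W
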