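import Pool.Agent.H.MP_31a675_nt.W.Vals

/-!
# Relations between values
-/

namespace Pool.Agent.H.MP_31a675_nt.W

open MvPolynomial

variable {K : Type} [Field K] {N : ℕ} {L : Type} [Field L] [Algebra K L]

/-- Elements with independent products contradict a relation between their values. Let the `u i` be
`P i / Q i` with degrees at most `e i`, and take `Θ` from `clearM` for the relation `ξ`; it vanishes at
the points `x n`, `n ∈ A` (`val_transfer`), so `aeval y Θ = 0` by `hrob`, and the same relation holds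
for the `u i`. -/
theorem not_indep (y : Fin N → L) (x : ℕ → Fin N → K) (A : Set ℕ)
    (hxy : ∀ n ∈ A, ∀ g : MvPolynomial (Fin N) K, aeval y g = 0 → eval (x n) g = 0) (E : ℕ)
    (hrob : ∀ Θ : MvPolynomial (Fin N) K, Θ.totalDegree ≤ E → (∀ n ∈ A, eval (x n) Θ = 0) →
      aeval y Θ = 0)
    (m : ℕ) (u : Fin m → L) (w : ℕ → Fin m → K) (hval : ∀ i, Val y x A (u i) fun n => w n i)
    (e : Fin m → ℕ) (hcx : ∀ i, Cx K y (e i) (u i)) (he : ∑ i, e i ≤ E)
    (ξ : (Fin m → Fin 2) → K) (hξ : ξ ≠ 0)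
    (hrel : ∀ n ∈ A, ∑ J, ξ J * ∏ i, (![1, w n i] : Fin 2 → K) (J i) = 0) :
    ¬ LinearIndependent K fun J : Fin m → Fin 2 => ∏ i, (![1, u i] : Fin 2 → L) (J i) := by
  classical
  intro hind
  choose P Q hP hQ hQ0 hPQ using hcx
  obtain ⟨Θ, hΘ, hcl⟩ := clearM ξ e P Q hP hQ
  have hx0 : ∀ n ∈ A, eval (x n) Θ = 0 := by
    intro n hn
    have h1 := hcl (A := K) (aeval (x n)) (w n) (by
      intro i
      have h2 := val_transfer y x A hxy (u i) (fun n => w n i) (hval i) (P i) (Q i) (hPQ i) n hn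
      simpa [MvPolynomial.aeval_eq_eval] using h2)
    have h3 : ∑ J, algebraMap K K (ξ J) * ∏ i, (![1, w n i] : Fin 2 → K) (J i) = 0 := by
      simpa using hrel n hn
    rw [h3, mul_zero] at h1
    simpa [MvPolynomial.aeval_eq_eval] using h1
  have hy0 : aeval y Θ = 0 := hrob Θ (hΘ.trans he) hx0
  have h4 := hcl (A := L) (aeval y) u (by
    intro i
    rw [← hPQ i, mul_comm])
  rw [hy0] at h4
  have h5 : (∏ i, aeval y (Q i)) ≠ 0 := Finset.prod_ne_zero_iff.mpr fun i _ => hQ0 i
  have h6 : ∑ J, algebraMap K L (ξ J) * ∏ i, (![1, u i] : Fin 2 → L) (J i) = 0 := by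
    rcases mul_eq_zero.mp h4.symm with h | h
    · exact absurd h h5
    · exact h
  rw [Fintype.linearIndependent_iff] at hind
  apply hξ
  funext J
  exact hind ξ (by simpa [Algebra.smul_def] using h6) J

end Pool.Agent.H.MP_31a675_nt.W
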