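import Pool.Agent.H.MP_31a675_nt.W.CxL
import Pool.Agent.H.MP_31a675_nt.W.Greedy
import Pool.Agent.H.MP_31a675_nt.W.NotInd

/-!
# The iterates have small complexity on a robust variety
-/

namespace Pool.Agent.H.MP_31a675_nt.W

open MvPolynomial

variable {K : Type} [Field K] {N : ℕ} {L : Type} [Field L] [Algebra K L]

/-- **The iterates have small complexity.** Apply `greedy` to the elements
`W t = gorb φ y (t / N) (t % N)`, `M = N * (s + 1)`, `c = N * δ`: `cx_dep`, `cx_self`, `cx_step`,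
`not_indep` with `val_orbit`. -/
theorem cx_bound (hN : 1 ≤ N) (δ : ℕ) (hδ : 1 ≤ δ) (φ : Fin (N + 1) → MvPolynomial (Fin N) K)
    (hφ : ∀ i, (φ i).totalDegree ≤ δ) (y : Fin N → L) (x : ℕ → Fin N → K) (A : Set ℕ)
    (hA : A.Nonempty)
    (hxy : ∀ n ∈ A, ∀ g : MvPolynomial (Fin N) K, aeval y g = 0 → eval (x n) g = 0)
    (h0 : ∀ n, eval (x n) (φ 0) ≠ 0)
    (hx : ∀ n i, x (n + 1) i = eval (x n) (φ i.succ) / eval (x n) (φ 0)) (s ρ : ℕ)
    (hrob : ∀ Θ : MvPolynomial (Fin N) K, Θ.totalDegree ≤ (1 + N * δ) ^ (ρ + 1) →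
      (∀ n ∈ A, eval (x n) Θ = 0) → aeval y Θ = 0)
    (hdep : ∀ (tm : Fin (ρ + 1) → ℕ) (c : Fin (ρ + 1) → Fin N), (∀ i, tm i ≤ s) →
      ∃ ξ : (Fin (ρ + 1) → Fin 2) → K, ξ ≠ 0 ∧
        ∀ n ∈ A, ∑ J, ξ J * ∏ i, (![1, x (n + tm i) (c i)] : Fin 2 → K) (J i) = 0)
    (j : ℕ) (hj : j ≤ s) (i : Fin N) : Cx K y ((1 + N * δ) ^ ρ) (gorb φ y j i) := by
  have horb := val_orbit φ y x A hA hxy h0 hx
  have hmod : ∀ t : ℕ, t % N < N := fun t => Nat.mod_lt t hN
  have hW : ∀ (j : ℕ) (i : Fin N),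
      gorb φ y ((N * j + i) / N) ⟨(N * j + i) % N, hmod _⟩ = gorb φ y j i := by
    intro j i
    have h1 : (N * j + (i : ℕ)) / N = j := by
      rw [Nat.mul_add_div hN, Nat.div_eq_of_lt i.2, add_zero]
    have h2 : (⟨(N * j + (i : ℕ)) % N, hmod _⟩ : Fin N) = i := by
      apply Fin.ext
      change (N * j + (i : ℕ)) % N = i
      rw [Nat.mul_add_mod, Nat.mod_eq_of_lt i.2]
    rw [h1, h2]
  have key := greedy (K := K) (Cx K y) (cx_mono y)
    (fun r u e w hu hli hnli => cx_dep y r u e w hu hli hnli) (N * δ) ρ (N * (s + 1))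
    (fun t => gorb φ y (t / N) ⟨t % N, hmod t⟩) ?_ ?_ (N * j + i) ?_
  · have h3 := hW j i
    simp only [h3] at key
    exact key
  · intro t ht S hS hprev
    rcases Nat.eq_zero_or_pos (t / N) with h1 | h1
    · rw [h1]
      refine cx_mono y 1 _ _ ?_ (cx_self y _)
      exact Nat.succ_le_of_lt (Nat.mul_pos (Nat.mul_pos hN hδ) hS)
    · obtain ⟨q, hq⟩ : ∃ q, t / N = q + 1 := ⟨t / N - 1, by omega⟩
      rw [hq]
      refine cx_step φ δ hφ y (gorb φ y q) S (fun l => ?_) (horb q).1 _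
      have h2 : N * q + (l : ℕ) < t := by
        have h3 : N * (t / N) ≤ t := Nat.mul_div_le t N
        rw [hq, Nat.mul_add, Nat.mul_one] at h3
        have := l.2
        omega
      have h4 := hprev (N * q + l) h2
      simp only [hW q l] at h4
      exact h4
  · intro τ e hτ he hsum
    obtain ⟨ξ, hξ, hrel⟩ := hdep (fun l => τ l / N) (fun l => ⟨τ l % N, hmod _⟩) (fun l => by
      have h1 : τ l / N < s + 1 := Nat.div_lt_of_lt_mul (hτ l)
      omega)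
    exact not_indep y x A hxy ((1 + N * δ) ^ (ρ + 1)) hrob (ρ + 1)
      (fun l => gorb φ y (τ l / N) ⟨τ l % N, hmod (τ l)⟩)
      (fun n l => x (n + τ l / N) ⟨τ l % N, hmod (τ l)⟩)
      (fun l => (horb (τ l / N)).2 ⟨τ l % N, hmod (τ l)⟩) e he hsum ξ hξ hrel
  · have h1 := i.2
    have h2 : N * j ≤ N * s := Nat.mul_le_mul_left N hj
    rw [Nat.mul_add, Nat.mul_one]
    omega

end Pool.Agent.H.MP_31a675_nt.W
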