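import Pool.Agent.H.MP_31a675_nt.W.Defs

/-!
# Monic equations and elimination
-/

namespace Pool.Agent.H.MP_31a675_nt.W

open MvPolynomial

variable {K : Type} [Field K] {N : ℕ}

/-- Degrees of the coefficients of a product of polynomials over `MvPolynomial (Fin k) K`. -/
theorem char_prod_degree {k D : ℕ} {ι : Type} (s : Finset ι)
    (f : ι → Polynomial (MvPolynomial (Fin k) K))
    (hf : ∀ i ∈ s, ∀ t, ((f i).coeff t).totalDegree ≤ D) (t : ℕ) :
    ((∏ i ∈ s, f i).coeff t).totalDegree ≤ s.card * D := by
  classical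
  induction s using Finset.induction_on generalizing t with
  | empty =>
    simp only [Finset.prod_empty, Finset.card_empty, zero_mul, Nat.le_zero]
    rw [Polynomial.coeff_one]
    split_ifs <;> simp
  | insert a s ha ih =>
    rw [Finset.prod_insert ha, Finset.card_insert_of_notMem ha, Polynomial.coeff_mul]
    refine le_trans (MvPolynomial.totalDegree_finset_sum _ _) ?_
    refine Finset.sup_le fun p _ => ?_
    refine le_trans (MvPolynomial.totalDegree_mul _ _) ?_
    have h1 := hf a (Finset.mem_insert_self _ _) p.1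
    have h2 := ih (fun i hi => hf i (Finset.mem_insert_of_mem hi)) p.2
    calc ((f a).coeff p.1).totalDegree + ((∏ i ∈ s, f i).coeff p.2).totalDegree
        ≤ D + s.card * D := add_le_add h1 h2
      _ = (s.card + 1) * D := by ring

/-- Degrees in a determinant over `MvPolynomial (Fin k) K`: expand `Matrix.det_apply`. -/
theorem det_degree {k μ D : ℕ}
    (M : Matrix (Fin μ) (Fin μ) (Polynomial (MvPolynomial (Fin k) K)))
    (hM : ∀ i j t, ((M i j).coeff t).totalDegree ≤ D) (t : ℕ) :
    (M.det.coeff t).totalDegree ≤ μ * D := by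
  classical
  rw [Matrix.det_apply, Polynomial.finset_sum_coeff]
  refine le_trans (MvPolynomial.totalDegree_finset_sum _ _) ?_
  refine Finset.sup_le fun σ _ => ?_
  have h := char_prod_degree (D := D) Finset.univ (fun i => M (σ i) i) (fun i _ t => hM _ _ _) t
  rw [Finset.card_univ, Fintype.card_fin] at h
  rcases Int.units_eq_one_or (Equiv.Perm.sign σ) with hs | hs
  · rw [hs, one_smul]; exact h
  · rw [hs, Units.neg_smul, one_smul, Polynomial.coeff_neg, MvPolynomial.totalDegree_neg]
    exact h

/-- Every polynomial `φ` satisfies modulo `I` a monic equation of degree `μ` over the polynomial ring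
in the `z i`: the characteristic polynomial of the matrix `C` of the multiplication by `φ`. (In the
residue ring the vector `b` is in the kernel of `φ - C`, so `det (φ - C)` kills all `b j`, hence also
`1`, which is a combination of the `b j`.) The entries have degree at most `e + μ`. -/
theorem sys_char {I : Ideal (MvPolynomial (Fin N) K)} {k μ : ℕ}
    {z : Fin k → MvPolynomial (Fin N) K} {b : Fin μ → MvPolynomial (Fin N) K} (h : Sys I z b)
    (φ : MvPolynomial (Fin N) K) (e : ℕ) (he : φ.totalDegree ≤ e) :
    ∃ χ : Polynomial (MvPolynomial (Fin k) K), χ.Monic ∧ χ.natDegree = μ ∧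
      (∀ t, (χ.coeff t).totalDegree ≤ μ * (e + μ)) ∧
      Polynomial.eval₂ (aeval z : MvPolynomial (Fin k) K →ₐ[K] MvPolynomial (Fin N) K).toRingHom φ χ
        ∈ I := by
  classical
  have hex : ∀ i : Fin μ, ∃ p : Fin μ → MvPolynomial (Fin k) K,
      (∀ j, (p j).totalDegree ≤ e + μ) ∧ φ * b i - ∑ j, aeval z (p j) * b j ∈ I := by
    intro i
    refine h.span (e + μ) (φ * b i) ?_
    refine le_trans (MvPolynomial.totalDegree_mul _ _) ?_
    exact add_le_add he (h.bdeg i).le
  choose C hCdeg hCI using hex
  obtain ⟨o, -, ho⟩ := h.span 0 1 (by simp)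
  set f : MvPolynomial (Fin k) K →+* MvPolynomial (Fin N) K :=
    (aeval z : MvPolynomial (Fin k) K →ₐ[K] MvPolynomial (Fin N) K).toRingHom with hf
  let CM : Matrix (Fin μ) (Fin μ) (MvPolynomial (Fin k) K) := Matrix.of C
  refine ⟨CM.charpoly, Matrix.charpoly_monic CM, ?_, ?_, ?_⟩
  · rw [Matrix.charpoly_natDegree_eq_dim, Fintype.card_fin]
  · intro t
    refine det_degree _ ?_ t
    intro i j t
    rw [Matrix.charmatrix_apply, Polynomial.coeff_sub]
    refine le_trans (MvPolynomial.totalDegree_sub _ _) ?_
    refine max_le ?_ ?_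
    · rw [Matrix.diagonal_apply]
      split_ifs
      · rw [Polynomial.coeff_X]
        split_ifs <;> simp
      · simp
    · rw [Polynomial.coeff_C]
      split_ifs
      · exact hCdeg i j
      · simp
  · -- evaluation
    have hmap : Polynomial.eval₂ f φ CM.charpoly =
        (Matrix.of fun i j => (if i = j then φ else 0) - f (C i j)).det := by
      rw [Matrix.charpoly, ← Polynomial.coe_eval₂RingHom, RingHom.map_det]
      congr 1
      ext1 i j
      simp only [RingHom.mapMatrix_apply, Matrix.map_apply, Matrix.of_apply,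
        Polynomial.coe_eval₂RingHom, Matrix.charmatrix_apply, Matrix.diagonal_apply]
      rw [Polynomial.eval₂_sub, Polynomial.eval₂_C]
      congr 1
      split_ifs <;> simp
    rw [hmap]
    set M : Matrix (Fin μ) (Fin μ) (MvPolynomial (Fin N) K) :=
      Matrix.of fun i j => (if i = j then φ else 0) - f (C i j) with hM
    have hrow : ∀ i, (M.mulVec b) i ∈ I := by
      intro i
      have : (M.mulVec b) i = φ * b i - ∑ j, aeval z (C i j) * b j := by
        simp only [Matrix.mulVec, dotProduct, hM, Matrix.of_apply, sub_mul, ite_mul, zero_mul,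
          Finset.sum_sub_distrib, Finset.sum_ite_eq, Finset.mem_univ, if_true]
        rfl
      rw [this]
      exact hCI i
    have hdet : ∀ i, M.det * b i ∈ I := by
      intro i
      have h1 : M.adjugate.mulVec (M.mulVec b) = M.det • b := by
        rw [Matrix.mulVec_mulVec, Matrix.adjugate_mul, Matrix.smul_mulVec, Matrix.one_mulVec]
      have h2 : (M.adjugate.mulVec (M.mulVec b)) i ∈ I := by
        simp only [Matrix.mulVec, dotProduct]
        refine Ideal.sum_mem _ fun j _ => ?_
        exact Ideal.mul_mem_left _ _ (hrow j)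
      rw [h1] at h2
      simpa using h2
    have h3 : M.det * (∑ j, aeval z (o j) * b j) ∈ I := by
      rw [Finset.mul_sum]
      refine Ideal.sum_mem _ fun j _ => ?_
      have : M.det * (aeval z (o j) * b j) = aeval z (o j) * (M.det * b j) := by ring
      rw [this]
      exact Ideal.mul_mem_left _ _ (hdet j)
    have h4 : M.det * (1 - ∑ j, aeval z (o j) * b j) ∈ I := Ideal.mul_mem_left _ _ ho
    have h5 := I.add_mem h4 h3
    have h6 : M.det * (1 - ∑ j, aeval z (o j) * b j) + M.det * (∑ j, aeval z (o j) * b j)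
        = M.det := by ring
    rw [h6] at h5
    exact h5

/-- The lowest nonzero coefficient of an equation. -/
theorem char_lowest {k B : ℕ} (f : MvPolynomial (Fin k) K →+* MvPolynomial (Fin N) K)
    (q : Ideal (MvPolynomial (Fin N) K)) (hq : q.IsPrime)
    (φ : MvPolynomial (Fin N) K) (hφ : φ ∉ q) (n : ℕ) :
    ∀ χ : Polynomial (MvPolynomial (Fin k) K), χ.natDegree ≤ n → χ ≠ 0 →
      (∀ t, (χ.coeff t).totalDegree ≤ B) → Polynomial.eval₂ f φ χ ∈ q →
      ∃ c : MvPolynomial (Fin k) K, c ≠ 0 ∧ c.totalDegree ≤ B ∧ f c ∈ q ⊔ Ideal.span {φ} := by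
  induction n with
  | zero =>
    intro χ hn h0 hB hev
    have hc : χ = Polynomial.C (χ.coeff 0) := Polynomial.eq_C_of_natDegree_le_zero hn
    refine ⟨χ.coeff 0, ?_, hB 0, ?_⟩
    · intro h
      rw [h, map_zero] at hc
      exact h0 hc
    · rw [hc, Polynomial.eval₂_C] at hev
      exact Ideal.mem_sup_left hev
  | succ n ih =>
    intro χ hn h0 hB hev
    have hsplit : Polynomial.eval₂ f φ χ
        = Polynomial.eval₂ f φ χ.divX * φ + f (χ.coeff 0) := by
      conv_lhs => rw [← Polynomial.divX_mul_X_add χ]
      rw [Polynomial.eval₂_add, Polynomial.eval₂_mul_X, Polynomial.eval₂_C]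
    by_cases hc : χ.coeff 0 = 0
    · rw [hsplit, hc, map_zero, add_zero] at hev
      have hev' : Polynomial.eval₂ f φ χ.divX ∈ q := by
        rcases hq.mem_or_mem hev with h | h
        · exact h
        · exact absurd h hφ
      refine ih χ.divX ?_ ?_ ?_ hev'
      · rw [Polynomial.natDegree_divX_eq_natDegree_tsub_one]
        omega
      · intro h
        apply h0
        rw [← Polynomial.divX_mul_X_add χ, h, hc]
        simp
      · intro t
        rw [Polynomial.coeff_divX]
        exact hB _
    · refine ⟨χ.coeff 0, hc, hB 0, ?_⟩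
      have : f (χ.coeff 0) = Polynomial.eval₂ f φ χ - Polynomial.eval₂ f φ χ.divX * φ := by
        rw [hsplit]; ring
      rw [this]
      refine Ideal.sub_mem _ (Ideal.mem_sup_left hev) (Ideal.mem_sup_right ?_)
      exact Ideal.mul_mem_left _ _ (Ideal.mem_span_singleton_self φ)

/-- Elimination: if `φ` is not in the prime `q ⊇ I`, and `q` contains no nonzero polynomial in the
`z i`, then `q + (φ)` contains a nonzero polynomial in the `z i` of bounded degree: the lowest nonzero
coefficient of `sys_char`. -/
theorem sys_elim {I : Ideal (MvPolynomial (Fin N) K)} {k μ : ℕ}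
    {z : Fin k → MvPolynomial (Fin N) K} {b : Fin μ → MvPolynomial (Fin N) K} (h : Sys I z b)
    (q : Ideal (MvPolynomial (Fin N) K)) (hq : q.IsPrime) (hI : I ≤ q)
    (hz : ∀ p : MvPolynomial (Fin k) K, aeval z p ∈ q → p = 0)
    (φ : MvPolynomial (Fin N) K) (hφ : φ ∉ q) (e : ℕ) (he : φ.totalDegree ≤ e) :
    ∃ c : MvPolynomial (Fin k) K, c ≠ 0 ∧ c.totalDegree ≤ μ * (e + μ) ∧
      aeval z c ∈ q ⊔ Ideal.span {φ} := by
  obtain ⟨χ, hmon, -, hdeg, hev⟩ := sys_char h φ e he
  exact char_lowest _ q hq φ hφ χ.natDegree χ le_rfl hmon.ne_zero hdeg (hI hev)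

end Pool.Agent.H.MP_31a675_nt.W
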