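import Mathlib

/-!
# Homogenization
-/

namespace Pool.Agent.H.MP_31a675_nt.W

open MvPolynomial

variable {K : Type} [Field K] {N : ℕ}

/-- A polynomial of degree at most `D` is obtained from a form of degree `D` by `X 0 ↦ 1`: take
`∑ m, coeff m P * X 0 ^ (D - |m|) * ∏ i, X i.succ ^ m i`. -/
theorem exists_hom (D : ℕ) (P : MvPolynomial (Fin N) K) (hP : P.totalDegree ≤ D) :
    ∃ F : MvPolynomial (Fin (N + 1)) K, F.IsHomogeneous D ∧
      aeval (Fin.cons 1 X : Fin (N + 1) → MvPolynomial (Fin N) K) F = P := by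
  classical
  refine ⟨∑ m ∈ P.support, monomial (Finsupp.cons (D - m.degree) m) (coeff m P), ?_, ?_⟩
  · refine IsHomogeneous.sum _ _ _ fun m hm => ?_
    refine isHomogeneous_monomial _ ?_
    have hle : m.degree ≤ D := le_trans (le_totalDegree (p := P) hm) hP
    have : (Finsupp.cons (D - m.degree) m).degree = (D - m.degree) + m.degree := by
      rw [Finsupp.degree_eq_sum, Fin.sum_univ_succ, Finsupp.degree_eq_sum]
      simp only [Finsupp.cons_zero, Finsupp.cons_succ]
    rw [this]
    omega
  · rw [map_sum]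
    conv_rhs => rw [as_sum P]
    refine Finset.sum_congr rfl fun m _ => ?_
    rw [aeval_monomial, monomial_eq, Finsupp.prod_fintype _ _ (fun i => pow_zero _),
      Finsupp.prod_fintype _ _ (fun i => pow_zero _), Fin.prod_univ_succ]
    simp only [Finsupp.cons_zero, Finsupp.cons_succ, Fin.cons_zero, Fin.cons_succ, one_pow, one_mul]
    rfl

/-- The value of a form at a point with `x 0 ≠ 0`. -/
theorem eval_hom {A : Type} [Field A] [Algebra K A] (D : ℕ) (F : MvPolynomial (Fin (N + 1)) K)
    (hF : F.IsHomogeneous D) (x : Fin (N + 1) → A) (hx : x 0 ≠ 0) :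
    aeval x F = x 0 ^ D * aeval (fun i : Fin N => x i.succ / x 0)
      (aeval (Fin.cons 1 X : Fin (N + 1) → MvPolynomial (Fin N) K) F) := by
  classical
  set y : Fin (N + 1) → A := Fin.cons 1 (fun i : Fin N => x i.succ / x 0) with hy
  have h1 : aeval (fun i : Fin N => x i.succ / x 0)
      (aeval (Fin.cons 1 X : Fin (N + 1) → MvPolynomial (Fin N) K) F) = aeval y F := by
    have h2 : (aeval (fun i : Fin N => x i.succ / x 0) : MvPolynomial (Fin N) K →ₐ[K] A).comp
        (aeval (Fin.cons 1 X : Fin (N + 1) → MvPolynomial (Fin N) K)) = aeval y := by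
      rw [comp_aeval]
      congr 1
      ext i
      refine Fin.cases ?_ (fun j => ?_) i
      · simp [hy]
      · simp [hy]
    exact DFunLike.congr_fun h2 F
  rw [h1, aeval_def, aeval_def, eval₂_eq', eval₂_eq', Finset.mul_sum]
  refine Finset.sum_congr rfl fun m hm => ?_
  have hdeg : ∑ i, m i = D := by
    have h3 := hF (mem_support_iff.mp hm)
    rw [← h3, Finsupp.weight_apply, Finsupp.sum_fintype _ _ (fun i => by simp)]
    simp
  have hxy : ∀ i, x i = x 0 * y i := by
    intro i
    refine Fin.cases ?_ (fun j => ?_) i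
    · simp [hy]
    · simp only [hy, Fin.cons_succ]
      field_simp
  have h4 : ∏ i, x i ^ m i = x 0 ^ D * ∏ i, y i ^ m i := by
    calc ∏ i, x i ^ m i = ∏ i, (x 0 ^ m i * y i ^ m i) := by
          refine Finset.prod_congr rfl fun i _ => ?_
          conv_lhs => rw [hxy i]
          rw [mul_pow]
      _ = (∏ i, x 0 ^ m i) * ∏ i, y i ^ m i := Finset.prod_mul_distrib
      _ = x 0 ^ D * ∏ i, y i ^ m i := by rw [Finset.prod_pow_eq_pow_sum, hdeg]
  rw [h4]
  ring

/-- A form which vanishes for `X 0 ↦ 1` is zero. -/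
theorem hom_inj (D : ℕ) (F : MvPolynomial (Fin (N + 1)) K) (hF : F.IsHomogeneous D)
    (h : aeval (Fin.cons 1 X : Fin (N + 1) → MvPolynomial (Fin N) K) F = 0) : F = 0 := by
  classical
  let R := MvPolynomial (Fin (N + 1)) K
  let L := FractionRing R
  have hinj : Function.Injective (algebraMap R L) := IsFractionRing.injective R L
  have hx : algebraMap R L (X 0) ≠ 0 := by
    intro h0
    have := hinj (h0.trans (map_zero _).symm)
    exact X_ne_zero 0 this
  have key := eval_hom (A := L) D F hF (fun i => algebraMap R L (X i)) hx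
  rw [h, map_zero, mul_zero] at key
  have h2 : aeval (fun i => algebraMap R L (X i)) F = algebraMap R L F := by
    have h3 : (aeval (fun i => algebraMap R L (X i)) : MvPolynomial (Fin (N + 1)) K →ₐ[K] L)
        = (Algebra.ofId R L).restrictScalars K := by
      refine algHom_ext fun i => ?_
      rw [aeval_X]
      rfl
    rw [h3]
    rfl
  rw [h2] at key
  exact hinj (key.trans (map_zero _).symm)

end Pool.Agent.H.MP_31a675_nt.W
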