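import Pool.Agent.H.MP_31a675_nt.W.PDefs
import Pool.Agent.H.MP_31a675_nt.W.Hom

/-!
# The chart `ℓ = 1`
-/

namespace Pool.Agent.H.MP_31a675_nt.W

open MvPolynomial

variable {K : Type} [Field K] {N : ℕ} {K' : Type} [Field K'] [Algebra K K']

theorem chart_aeval_deg {σ τ : Type} {L : Type} [Field L] (g : σ → MvPolynomial τ L)
    (hg : ∀ i, (g i).totalDegree ≤ 1) (P : MvPolynomial σ L) :
    (aeval g P).totalDegree ≤ P.totalDegree := by
  classical
  rw [aeval_def, eval₂_eq]
  refine (totalDegree_finsetSum _ _).trans ?_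
  refine Finset.sup_le fun m hm => ?_
  refine (totalDegree_mul _ _).trans ?_
  have h1 : (algebraMap L (MvPolynomial τ L) (coeff m P)).totalDegree = 0 := totalDegree_C _
  rw [h1, zero_add]
  refine (totalDegree_finsetProd _ _).trans ?_
  have h2 : ∑ i ∈ m.support, (g i ^ m i).totalDegree ≤ ∑ i ∈ m.support, m i := by
    refine Finset.sum_le_sum fun i _ => ?_
    refine (totalDegree_pow _ _).trans ?_
    calc m i * (g i).totalDegree ≤ m i * 1 := Nat.mul_le_mul_left _ (hg i)
      _ = m i := mul_one _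
  exact h2.trans (le_totalDegree hm)

theorem chart_sg_deg (ℓ : Fin (N + 1) → K') (P : MvPolynomial (Fin (N + 1)) K') :
    (sg ℓ P).totalDegree ≤ P.totalDegree := by
  refine chart_aeval_deg _ (fun i => ?_) P
  refine Fin.cases ?_ (fun j => ?_) i
  · rw [Fin.cons_zero]
    refine (totalDegree_sub _ _).trans (max_le ?_ ?_)
    · rw [totalDegree_one]
      exact Nat.zero_le _
    · refine (totalDegree_finsetSum _ _).trans (Finset.sup_le fun k _ => ?_)
      refine (totalDegree_mul _ _).trans ?_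
      rw [totalDegree_C, zero_add, totalDegree_X]
  · rw [Fin.cons_succ, totalDegree_X]

theorem chart_map_deg (P : MvPolynomial (Fin (N + 1)) K) (d : ℕ) (hP : P.IsHomogeneous d) :
    (map (algebraMap K K') P).totalDegree ≤ d :=
  (hP.map (algebraMap K K')).totalDegree_le

theorem phi_degree (ℓ : Fin (N + 1) → K') (F : Fin (N + 1) → MvPolynomial (Fin (N + 1)) K) (d : ℕ)
    (hF : ∀ i, (F i).IsHomogeneous d) (i : Fin (N + 1)) : (phi ℓ F i).totalDegree ≤ d := by
  have h : ∀ j, (sg ℓ (map (algebraMap K K') (F j))).totalDegree ≤ d := fun j =>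
    (chart_sg_deg ℓ _).trans (chart_map_deg _ _ (hF j))
  refine Fin.cases ?_ (fun j => ?_) i
  · show (∑ j, C (ℓ j) * sg ℓ (map (algebraMap K K') (F j))).totalDegree ≤ d
    refine (totalDegree_finsetSum _ _).trans (Finset.sup_le fun k _ => ?_)
    refine (totalDegree_mul _ _).trans ?_
    rw [totalDegree_C, zero_add]
    exact h k
  · exact h j.succ

theorem chart_hom {L A : Type} [Field L] [Field A] [Algebra L A] {σ : Type} [Fintype σ] (D : ℕ)
    (P : MvPolynomial σ L) (hP : P.IsHomogeneous D) (x y : σ → A) (s : A)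
    (hxy : ∀ i, x i = s * y i) : aeval x P = s ^ D * aeval y P := by
  classical
  rw [aeval_def, aeval_def, eval₂_eq', eval₂_eq', Finset.mul_sum]
  refine Finset.sum_congr rfl fun m hm => ?_
  have hdeg : ∑ i, m i = D := by
    have h3 := hP (mem_support_iff.mp hm)
    rw [← h3, Finsupp.weight_apply, Finsupp.sum_fintype _ _ (fun i => by simp)]
    simp
  have h4 : ∏ i, x i ^ m i = s ^ D * ∏ i, y i ^ m i := by
    calc ∏ i, x i ^ m i = ∏ i, (s ^ m i * y i ^ m i) := by
          refine Finset.prod_congr rfl fun i _ => ?_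
          rw [hxy i, mul_pow]
      _ = (∏ i, s ^ m i) * ∏ i, y i ^ m i := Finset.prod_mul_distrib
      _ = s ^ D * ∏ i, y i ^ m i := by rw [Finset.prod_pow_eq_pow_sum, hdeg]
  rw [h4]
  ring

/-- The value of a form at a point, in the chart; also for points over extensions `A` of `K'`. -/
theorem eval_sg {A : Type} [Field A] [Algebra K' A] (ℓ : Fin (N + 1) → K') (h0 : ℓ 0 = 1) (D : ℕ)
    (P : MvPolynomial (Fin (N + 1)) K') (hP : P.IsHomogeneous D) (x : Fin (N + 1) → A)
    (hx : ∑ j, algebraMap K' A (ℓ j) * x j ≠ 0) :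
    aeval x P = (∑ j, algebraMap K' A (ℓ j) * x j) ^ D *
      aeval (fun i : Fin N => x i.succ / ∑ j, algebraMap K' A (ℓ j) * x j) (sg ℓ P) := by
  set s := ∑ j, algebraMap K' A (ℓ j) * x j with hs
  have h1 : (aeval (fun i : Fin N => x i.succ / s) : MvPolynomial (Fin N) K' →ₐ[K'] A).comp
      (sg ℓ) = aeval (fun i => x i / s) := by
    refine algHom_ext fun i => ?_
    rw [AlgHom.comp_apply, aeval_X]
    unfold sg
    rw [aeval_X]
    refine Fin.cases ?_ (fun j => ?_) i
    · rw [Fin.cons_zero, map_sub, map_one, map_sum]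
      have h2 : ∑ i : Fin N, aeval (fun i : Fin N => x i.succ / s) (C (ℓ i.succ) * X i) =
          (∑ i : Fin N, algebraMap K' A (ℓ i.succ) * x i.succ) / s := by
        rw [Finset.sum_div]
        refine Finset.sum_congr rfl fun i _ => ?_
        rw [map_mul, aeval_X, aeval_C, mul_div_assoc]
      rw [h2]
      have h3 : s = x 0 + ∑ i : Fin N, algebraMap K' A (ℓ i.succ) * x i.succ := by
        rw [hs, Fin.sum_univ_succ, h0, map_one, one_mul]
      rw [eq_div_iff hx, sub_mul, one_mul, div_mul_cancel₀ _ hx]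
      linear_combination h3
    · rw [Fin.cons_succ, aeval_X]
  have h4 : aeval (fun i : Fin N => x i.succ / s) (sg ℓ P) = aeval (fun i => x i / s) P :=
    DFunLike.congr_fun h1 P
  rw [h4]
  exact chart_hom D P hP x _ s fun i => (mul_div_cancel₀ _ hx).symm

/-- The orbit in the chart: `eval_sg` for `P = F i` and `A = K'`. -/
theorem aff_orbit (ℓ : Fin (N + 1) → K') (h0 : ℓ 0 = 1)
    (hℓ : ∀ x : Fin (N + 1) → K, ∑ i, ℓ i * algebraMap K K' (x i) = 0 → x = 0)
    (F : Fin (N + 1) → MvPolynomial (Fin (N + 1)) K) (d : ℕ) (hF : ∀ i, (F i).IsHomogeneous d)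
    (x : Fin (N + 1) → K) (hx : ∀ n, orb F x n ≠ 0) (n : ℕ) :
    eval (aff ℓ (orb F x n)) (phi ℓ F 0) ≠ 0 ∧
      ∀ i, aff ℓ (orb F x (n + 1)) i =
        eval (aff ℓ (orb F x n)) (phi ℓ F i.succ) / eval (aff ℓ (orb F x n)) (phi ℓ F 0) := by
  have hs : ∀ n, ∑ j, ℓ j * algebraMap K K' (orb F x n j) ≠ 0 := fun n h => hx n (hℓ _ h)
  have key : ∀ j, algebraMap K K' (orb F x (n + 1) j) =
      (∑ j, ℓ j * algebraMap K K' (orb F x n j)) ^ d *
        eval (aff ℓ (orb F x n)) (sg ℓ (map (algebraMap K K') (F j))) := by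
    intro j
    have h1 := eval_sg (A := K') ℓ h0 d (map (algebraMap K K') (F j))
      ((hF j).map (algebraMap K K')) (fun i => algebraMap K K' (orb F x n i)) (hs n)
    have h2 : aeval (fun i => algebraMap K K' (orb F x n i)) (map (algebraMap K K') (F j)) =
        algebraMap K K' (orb F x (n + 1) j) := by
      have h3 : orb F x (n + 1) = ev F (orb F x n) := Function.iterate_succ_apply' _ _ _
      rw [h3]
      show _ = algebraMap K K' (eval (orb F x n) (F j))
      rw [aeval_map_algebraMap]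
      have h4 : aeval (algebraMap K K' ∘ orb F x n) (F j) =
          algebraMap K K' (aeval (orb F x n) (F j)) := aeval_algebraMap_apply K' (orb F x n) (F j)
      exact h4
    rw [← h2, h1]
    rfl
  have h00 : (∑ j, ℓ j * algebraMap K K' (orb F x n j)) ^ d *
      eval (aff ℓ (orb F x n)) (phi ℓ F 0) = ∑ j, ℓ j * algebraMap K K' (orb F x (n + 1) j) := by
    show _ * eval _ (∑ j, C (ℓ j) * sg ℓ (map (algebraMap K K') (F j))) = _
    rw [map_sum, Finset.mul_sum]
    refine Finset.sum_congr rfl fun j _ => ?_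
    rw [key j, map_mul, eval_C]
    ring
  have hsd : (∑ j, ℓ j * algebraMap K K' (orb F x n j)) ^ d ≠ 0 := pow_ne_zero _ (hs n)
  refine ⟨fun h => ?_, fun i => ?_⟩
  · rw [h, mul_zero] at h00
    exact hs (n + 1) h00.symm
  · show algebraMap K K' (orb F x (n + 1) i.succ) / _ = _
    rw [← h00, key i.succ, mul_div_mul_left _ _ hsd]
    rfl

/-- Every polynomial of degree at most `D` comes from a form of degree `D`: substitute
`X 0 ↦ ∑ C (ℓ j) * X j` in the form of `exists_hom`. -/
theorem exists_form (ℓ : Fin (N + 1) → K') (h0 : ℓ 0 = 1) (D : ℕ) (g : MvPolynomial (Fin N) K')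
    (hg : g.totalDegree ≤ D) :
    ∃ P : MvPolynomial (Fin (N + 1)) K', P.IsHomogeneous D ∧ sg ℓ P = g := by
  obtain ⟨F, hF, hFg⟩ := exists_hom D g hg
  refine ⟨aeval (Fin.cons (∑ j, C (ℓ j) * X j) (fun i : Fin N => X i.succ) :
    Fin (N + 1) → MvPolynomial (Fin (N + 1)) K') F, ?_, ?_⟩
  · have h1 := hF.aeval (Fin.cons (∑ j, C (ℓ j) * X j) (fun i : Fin N => X i.succ) :
      Fin (N + 1) → MvPolynomial (Fin (N + 1)) K') (n := 1) ?_
    · rwa [one_mul] at h1
    · intro i
      refine Fin.cases ?_ (fun j => ?_) i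
      · rw [Fin.cons_zero]
        refine IsHomogeneous.sum _ _ _ fun j _ => ?_
        have h2 := (isHomogeneous_C (Fin (N + 1)) (ℓ j)).mul (isHomogeneous_X K' j)
        rwa [zero_add] at h2
      · rw [Fin.cons_succ]
        exact isHomogeneous_X K' _
  · rw [← hFg]
    have h1 : (sg ℓ).comp (aeval (Fin.cons (∑ j, C (ℓ j) * X j) (fun i : Fin N => X i.succ) :
        Fin (N + 1) → MvPolynomial (Fin (N + 1)) K')) =
        aeval (Fin.cons 1 X : Fin (N + 1) → MvPolynomial (Fin N) K') := by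
      refine algHom_ext fun i => ?_
      rw [AlgHom.comp_apply, aeval_X, aeval_X]
      refine Fin.cases ?_ (fun j => ?_) i
      · rw [Fin.cons_zero, Fin.cons_zero, map_sum, Fin.sum_univ_succ]
        have h2 : ∀ j, sg ℓ (C (ℓ j) * X j) = C (ℓ j) * (Fin.cons
            (1 - ∑ i : Fin N, C (ℓ i.succ) * X i) X : Fin (N + 1) → MvPolynomial (Fin N) K') j := by
          intro j
          rw [map_mul]
          unfold sg
          rw [aeval_X]
          congr 1
          exact aeval_C _ _
        rw [h2 0, Fin.cons_zero, h0, map_one, one_mul]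
        have h3 : ∑ i : Fin N, sg ℓ (C (ℓ i.succ) * X i.succ) = ∑ i : Fin N, C (ℓ i.succ) * X i :=
          Finset.sum_congr rfl fun i _ => by rw [h2 i.succ, Fin.cons_succ]
        rw [h3]
        ring
      · rw [Fin.cons_succ, Fin.cons_succ]
        unfold sg
        rw [aeval_X, Fin.cons_succ]
    exact DFunLike.congr_fun h1 F

end Pool.Agent.H.MP_31a675_nt.W
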