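import Pool.Agent.H.MP_31a675_nt.W.Clr

/-!
# Values of elements of a function field at points of an orbit
-/

namespace Pool.Agent.H.MP_31a675_nt.W

open MvPolynomial

variable {K : Type} [Field K] {N : ℕ} {L : Type} [Field L] [Algebra K L]

/-- Transfer: another representation `u = P (y) / Q (y)` gives the same values. If
`u = P' / Q'` is the representation from `hu` then `P * Q' - P' * Q` vanishes at `y`, so at `x n`. -/
theorem val_transfer (y : Fin N → L) (x : ℕ → Fin N → K) (A : Set ℕ)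
    (hxy : ∀ n ∈ A, ∀ g : MvPolynomial (Fin N) K, aeval y g = 0 → eval (x n) g = 0)
    (u : L) (w : ℕ → K) (hu : Val y x A u w) (P Q : MvPolynomial (Fin N) K)
    (h : u * aeval y Q = aeval y P) (n : ℕ) (hn : n ∈ A) :
    eval (x n) P = eval (x n) Q * w n := by
  obtain ⟨P', Q', h1, _, h3, h4⟩ := hu
  have h5 : aeval y (P * Q' - P' * Q) = 0 := by
    rw [map_sub, map_mul, map_mul, ← h, ← h3]
    ring
  have h6 := hxy n hn _ h5
  rw [map_sub, map_mul, map_mul, h4 n hn, sub_eq_zero] at h6
  apply mul_right_cancel₀ (h1 n hn)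
  rw [h6]
  ring

/-- Values of polynomials in elements with values: `clear`. -/
theorem val_aeval (y : Fin N → L) (x : ℕ → Fin N → K) (A : Set ℕ) {r : ℕ} (u : Fin r → L)
    (w : ℕ → Fin r → K) (hu : ∀ i, Val y x A (u i) fun n => w n i) (g : MvPolynomial (Fin r) K) :
    Val y x A (aeval u g) fun n => eval (w n) g := by
  classical
  choose P Q h1 h2 h3 h4 using hu
  set S : ℕ := Finset.univ.sup (fun i => (P i).totalDegree) ⊔
    Finset.univ.sup (fun i => (Q i).totalDegree) with hS
  obtain ⟨Θ, -, hΘ⟩ := clear g.totalDegree S g le_rfl P Q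
    (fun i => le_trans (Finset.le_sup (f := fun i => (P i).totalDegree) (Finset.mem_univ i))
      le_sup_left)
    (fun i => le_trans (Finset.le_sup (f := fun i => (Q i).totalDegree) (Finset.mem_univ i))
      le_sup_right)
  refine ⟨Θ, (∏ i, Q i) ^ g.totalDegree, ?_, ?_, ?_, ?_⟩
  · intro n hn
    rw [map_pow, map_prod]
    exact pow_ne_zero _ (Finset.prod_ne_zero_iff.mpr fun i _ => h1 i n hn)
  · rw [map_pow, map_prod]
    exact pow_ne_zero _ (Finset.prod_ne_zero_iff.mpr fun i _ => h2 i)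
  · have h5 := hΘ (aeval y : MvPolynomial (Fin N) K →ₐ[K] L) u fun i => by
      rw [← h3 i, mul_comm]
    rw [h5, map_pow, map_prod]
    ring
  · intro n hn
    have h5 := hΘ (aeval (x n) : MvPolynomial (Fin N) K →ₐ[K] K) (w n) fun i => by
      have := h4 i n hn
      simpa [MvPolynomial.coe_aeval_eq_eval] using this
    have h6 : ∀ (M : ℕ) (v : Fin M → K) (p : MvPolynomial (Fin M) K),
        aeval v p = eval v p := by
      intro M v p
      rw [MvPolynomial.aeval_eq_eval]
    rw [h6, h6] at h5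
    rw [h5, map_pow, map_prod]
    simp only [h6]

/-- Quotients. -/
theorem val_div (y : Fin N → L) (x : ℕ → Fin N → K) (A : Set ℕ) (hA : A.Nonempty)
    (hxy : ∀ n ∈ A, ∀ g : MvPolynomial (Fin N) K, aeval y g = 0 → eval (x n) g = 0)
    (u v : L) (w w' : ℕ → K) (hu : Val y x A u w) (hv : Val y x A v w') (h0 : ∀ n ∈ A, w' n ≠ 0) :
    v ≠ 0 ∧ Val y x A (u / v) fun n => w n / w' n := by
  obtain ⟨P, Q, h1, h2, h3, h4⟩ := hu
  obtain ⟨P', Q', h1', h2', h3', h4'⟩ := hv
  have hv0 : v ≠ 0 := by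
    intro hv
    obtain ⟨n, hn⟩ := hA
    rw [hv, zero_mul] at h3'
    have h5 := hxy n hn P' h3'.symm
    rw [h4' n hn] at h5
    exact mul_ne_zero (h1' n hn) (h0 n hn) h5
  refine ⟨hv0, P * Q', Q * P', ?_, ?_, ?_, ?_⟩
  · intro n hn
    rw [map_mul, h4' n hn]
    exact mul_ne_zero (h1 n hn) (mul_ne_zero (h1' n hn) (h0 n hn))
  · rw [map_mul, ← h3']
    exact mul_ne_zero h2 (mul_ne_zero hv0 h2')
  · rw [map_mul, map_mul, ← h3', ← h3]
    field_simp
  · intro n hn
    have h6 := h0 n hn
    rw [map_mul, map_mul, h4 n hn, h4' n hn]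
    field_simp

/-- The generic orbit has the orbit as its values. Induction on `j`: `val_aeval` for the components of
`φ`, then `val_div`. -/
theorem val_orbit (φ : Fin (N + 1) → MvPolynomial (Fin N) K) (y : Fin N → L) (x : ℕ → Fin N → K)
    (A : Set ℕ) (hA : A.Nonempty)
    (hxy : ∀ n ∈ A, ∀ g : MvPolynomial (Fin N) K, aeval y g = 0 → eval (x n) g = 0)
    (h0 : ∀ n, eval (x n) (φ 0) ≠ 0)
    (hx : ∀ n i, x (n + 1) i = eval (x n) (φ i.succ) / eval (x n) (φ 0)) (j : ℕ) :
    aeval (gorb φ y j) (φ 0) ≠ 0 ∧ ∀ i, Val y x A (gorb φ y j i) fun n => x (n + j) i := by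
  have hmain : ∀ j : ℕ, ∀ i, Val y x A (gorb φ y j i) fun n => x (n + j) i := by
    intro j
    induction j with
    | zero =>
      intro i
      refine ⟨X i, 1, fun n _ => by simp, by simp, ?_, fun n _ => by simp⟩
      simp [gorb]
    | succ j ih =>
      intro i
      have e1 := val_aeval y x A (gorb φ y j) (fun n => x (n + j)) ih (φ 0)
      have e2 := val_aeval y x A (gorb φ y j) (fun n => x (n + j)) ih (φ i.succ)
      have e3 := (val_div y x A hA hxy _ _ _ _ e2 e1 fun n _ => h0 (n + j)).2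
      have e4 : (fun n => x (n + (j + 1)) i) =
          fun n => eval (x (n + j)) (φ i.succ) / eval (x (n + j)) (φ 0) := by
        funext n
        exact hx (n + j) i
      rw [e4]
      exact e3
  refine ⟨?_, hmain j⟩
  have e1 := val_aeval y x A (gorb φ y j) (fun n => x (n + j)) (hmain j) (φ 0)
  exact (val_div y x A hA hxy _ _ _ _ e1 e1 fun n _ => h0 (n + j)).1

end Pool.Agent.H.MP_31a675_nt.W
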