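import Pool.Agent.H.MP_31a675_nt.W.ChartP
import Pool.Agent.H.MP_31a675_nt.W.Vals

/-!
# Complexity in the chart and degrees
-/

namespace Pool.Agent.H.MP_31a675_nt.W

open MvPolynomial

variable {K : Type} [Field K] {N : ℕ} {K' : Type} [Field K'] [Algebra K K']

theorem chartD_itp_hom {M : ℕ} (F : Fin M → MvPolynomial (Fin M) K) (d : ℕ)
    (hF : ∀ i, (F i).IsHomogeneous d) (n : ℕ) (i : Fin M) : (itp F n i).IsHomogeneous (d ^ n) := by
  induction n generalizing i with
  | zero =>
    have h : itp F 0 i = X i := by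
      unfold itp
      rw [Function.iterate_zero_apply]
    rw [h, pow_zero]
    exact isHomogeneous_X K i
  | succ n ih =>
    rw [itp_succ, pow_succ]
    exact (hF i).aeval (itp F n) ih

/-- The components of the iterates in the chart, step from `j` to `j + 1`. -/
theorem chartD_step (ℓ : Fin (N + 1) → K') (F : Fin (N + 1) → MvPolynomial (Fin (N + 1)) K)
    {L : Type} [Field L] [Algebra K' L] (y : Fin N → L) (j : ℕ) (a : Fin (N + 1)) :
    aeval y (sg ℓ (map (algebraMap K K') (itp F (j + 1) a))) =
      aeval (fun b => aeval y (sg ℓ (map (algebraMap K K') (itp F j b))))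
        (map (algebraMap K K') (F a)) := by
  rw [itp_succ]
  generalize F a = P
  induction P using MvPolynomial.induction_on with
  | C c =>
    simp only [algHom_C, algebraMap_eq, map_C]
  | add p q hp hq =>
    simp only [map_add, hp, hq]
  | mul_X p i hp =>
    simp only [map_mul, hp, aeval_X, map_X]

/-- The iterates in the chart: with `f a = aeval y (sg ℓ (itp F j a))` the sum `∑ ℓ a * f a` is not
zero and `gorb (phi ℓ F) y j i` is the quotient of `f i.succ` by it. Induction on `j`: `itp_succ`,
`eval_sg` with `A = L`. -/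
theorem gorb_chart (ℓ : Fin (N + 1) → K') (h0 : ℓ 0 = 1)
    (F : Fin (N + 1) → MvPolynomial (Fin (N + 1)) K) (d : ℕ) (hF : ∀ i, (F i).IsHomogeneous d)
    {L : Type} [Field L] [Algebra K' L] (y : Fin N → L)
    (hy : ∀ j, aeval (gorb (phi ℓ F) y j) (phi ℓ F 0) ≠ 0) (j : ℕ) :
    (∑ a, algebraMap K' L (ℓ a) * aeval y (sg ℓ (map (algebraMap K K') (itp F j a)))) ≠ 0 ∧
    ∀ i : Fin N, gorb (phi ℓ F) y j i *
      (∑ a, algebraMap K' L (ℓ a) * aeval y (sg ℓ (map (algebraMap K K') (itp F j a)))) =
        aeval y (sg ℓ (map (algebraMap K K') (itp F j i.succ))) := by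
  induction j with
  | zero =>
    have hX : ∀ a, sg ℓ (map (algebraMap K K') (itp F 0 a)) =
        (Fin.cons (1 - ∑ i : Fin N, C (ℓ i.succ) * X i) X :
          Fin (N + 1) → MvPolynomial (Fin N) K') a := by
      intro a
      have h : itp F 0 a = X a := by
        unfold itp
        rw [Function.iterate_zero_apply]
      rw [h, map_X]
      unfold sg
      rw [aeval_X]
    have hs : (∑ a, algebraMap K' L (ℓ a) *
        aeval y (sg ℓ (map (algebraMap K K') (itp F 0 a)))) = 1 := by
      rw [Fin.sum_univ_succ, hX 0, Fin.cons_zero, h0, map_one, one_mul, map_sub, map_one, map_sum]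
      have h1 : ∑ i : Fin N, algebraMap K' L (ℓ i.succ) *
          aeval y (sg ℓ (map (algebraMap K K') (itp F 0 i.succ))) =
          ∑ i : Fin N, aeval y (C (ℓ i.succ) * X i : MvPolynomial (Fin N) K') := by
        refine Finset.sum_congr rfl fun i _ => ?_
        rw [hX i.succ, Fin.cons_succ, map_mul, aeval_C]
      rw [h1, sub_add_cancel]
    refine ⟨by rw [hs]; exact one_ne_zero, fun i => ?_⟩
    rw [hs, mul_one, hX i.succ, Fin.cons_succ, aeval_X]
    rfl
  | succ j ih =>
    obtain ⟨hne, hg⟩ := ih
    set f : Fin (N + 1) → L := fun b => aeval y (sg ℓ (map (algebraMap K K') (itp F j b))) with hf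
    set s : L := ∑ a, algebraMap K' L (ℓ a) * f a with hs
    have hgo : gorb (phi ℓ F) y j = fun i : Fin N => f i.succ / s := by
      funext i
      rw [eq_div_iff hne]
      exact hg i
    have key : ∀ a, aeval y (sg ℓ (map (algebraMap K K') (itp F (j + 1) a))) =
        s ^ d * aeval (gorb (phi ℓ F) y j) (sg ℓ (map (algebraMap K K') (F a))) := by
      intro a
      rw [chartD_step, hgo]
      exact eval_sg ℓ h0 d (map (algebraMap K K') (F a)) ((hF a).map _) f hne
    have hsum : (∑ a, algebraMap K' L (ℓ a) *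
        aeval y (sg ℓ (map (algebraMap K K') (itp F (j + 1) a)))) =
        s ^ d * aeval (gorb (phi ℓ F) y j) (phi ℓ F 0) := by
      have h1 : phi ℓ F 0 = ∑ j, C (ℓ j) * sg ℓ (map (algebraMap K K') (F j)) := rfl
      rw [h1, map_sum, Finset.mul_sum]
      refine Finset.sum_congr rfl fun a _ => ?_
      rw [key a, map_mul, aeval_C]
      ring
    refine ⟨by rw [hsum]; exact mul_ne_zero (pow_ne_zero _ hne) (hy j), fun i => ?_⟩
    rw [hsum, key i.succ]
    show aeval (gorb (phi ℓ F) y j) (phi ℓ F i.succ) / aeval (gorb (phi ℓ F) y j) (phi ℓ F 0) *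
      (s ^ d * aeval (gorb (phi ℓ F) y j) (phi ℓ F 0)) = _
    have h2 : phi ℓ F i.succ = sg ℓ (map (algebraMap K K') (F i.succ)) := rfl
    have h3 := hy j
    rw [← h2]
    field_simp

/-- If the coordinates of the `j`-th iterate in the chart have complexity at most `E` then the degree
of the iterate is at most `N * E`. Let the coordinates be `P i / Q i`, `D` the product of the `Q i` and
`H (i + 1) = P i * ∏ l ≠ i, Q l`, `H 0 = D - ∑ ℓ (i + 1) * H (i + 1)`. With `f` as in `gorb_chart`,
`f a * H b (y) = f b * H a (y)`, and some `H a (y)` is not zero. Let `G' a` be forms of degree `N * E`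
over `K'` with `sg ℓ (G' a) = H a` (`exists_form`). The form `itp a * G' b - itp b * G' a` is mapped to
`chartIdeal`, so it vanishes on the orbit; take the components over `K` for a suitable `l`
(`exists_comp`, `eval_comp`). -/
theorem deg_le [FiniteDimensional K K'] (ℓ : Fin (N + 1) → K') (h0 : ℓ 0 = 1)
    (hℓ : ∀ x : Fin (N + 1) → K, ∑ i, ℓ i * algebraMap K K' (x i) = 0 → x = 0)
    (F : Fin (N + 1) → MvPolynomial (Fin (N + 1)) K) (d : ℕ) (hF : ∀ i, (F i).IsHomogeneous d)
    (p : Ideal (MvPolynomial (Fin (N + 1)) K)) (hp : p.IsPrime) (hhom : IsHom p)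
    (x : Fin (N + 1) → K) (hx : ∀ n, orb F x n ≠ 0) (hd : DenseIn p F x)
    {L : Type} [Field L] [Algebra K' L] (y : Fin N → L)
    (hy : ∀ g : MvPolynomial (Fin N) K', aeval y g = 0 ↔ g ∈ chartIdeal ℓ p) (j E : ℕ)
    (hcx : ∀ i, Cx K' y E (gorb (phi ℓ F) y j i)) : degX p F j ≤ N * E := by
  classical
  have hmem := mem_chart ℓ h0 hℓ F p hhom x hx hd
  have haff := aff_orbit ℓ h0 hℓ F d hF x hx
  have hval : ∀ j, aeval (gorb (phi ℓ F) y j) (phi ℓ F 0) ≠ 0 := fun j =>
    (val_orbit (phi ℓ F) y (fun n => aff ℓ (orb F x n)) Set.univ ⟨0, trivial⟩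
      (fun n _ g hg => (hmem g).1 ((hy g).1 hg) n) (fun n => (haff n).1) (fun n => (haff n).2) j).1
  obtain ⟨hs, hg⟩ := gorb_chart ℓ h0 F d hF y hval j
  set f : Fin (N + 1) → L := fun b => aeval y (sg ℓ (map (algebraMap K K') (itp F j b))) with hf
  set s : L := ∑ a, algebraMap K' L (ℓ a) * f a with hsdef
  choose P Q hP hQ hQ0 hPQ using hcx
  set D : MvPolynomial (Fin N) K' := ∏ i, Q i with hD
  have hDdeg : D.totalDegree ≤ N * E := by
    refine (totalDegree_finsetProd _ _).trans ?_
    refine (Finset.sum_le_sum fun i _ => hQ i).trans ?_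
    simp
  have hD0 : aeval y D ≠ 0 := by
    rw [hD, map_prod]
    exact Finset.prod_ne_zero_iff.2 fun i _ => hQ0 i
  let H' : Fin N → MvPolynomial (Fin N) K' := fun i => P i * ∏ l ∈ Finset.univ.erase i, Q l
  have hH'deg : ∀ i, (H' i).totalDegree ≤ N * E := by
    intro i
    refine (totalDegree_mul _ _).trans ?_
    have h1 : (∏ l ∈ Finset.univ.erase i, Q l).totalDegree ≤ (N - 1) * E := by
      refine (totalDegree_finsetProd _ _).trans ?_
      refine (Finset.sum_le_sum fun i _ => hQ i).trans ?_
      simp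
    have h2 : E + (N - 1) * E = N * E := by
      have hN : 1 ≤ N := Nat.succ_le_of_lt (lt_of_le_of_lt (Nat.zero_le _) i.isLt)
      obtain ⟨M, rfl⟩ := Nat.exists_eq_add_of_le hN
      simp only [Nat.add_sub_cancel_left]
      ring
    calc (P i).totalDegree + (∏ l ∈ Finset.univ.erase i, Q l).totalDegree
        ≤ E + (N - 1) * E := add_le_add (hP i) h1
      _ = N * E := h2
  have hH'y : ∀ i, aeval y (H' i) = gorb (phi ℓ F) y j i * aeval y D := by
    intro i
    show aeval y (P i * ∏ l ∈ Finset.univ.erase i, Q l) = _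
    rw [hD, ← Finset.mul_prod_erase Finset.univ Q (Finset.mem_univ i), map_mul, map_mul, ← hPQ i]
    ring
  let H : Fin (N + 1) → MvPolynomial (Fin N) K' :=
    Fin.cons (D - ∑ i : Fin N, C (ℓ i.succ) * H' i) H'
  have hHdeg : ∀ a, (H a).totalDegree ≤ N * E := by
    intro a
    refine Fin.cases ?_ (fun i => ?_) a
    · show (D - ∑ i : Fin N, C (ℓ i.succ) * H' i).totalDegree ≤ N * E
      refine (totalDegree_sub _ _).trans (max_le hDdeg ?_)
      refine (totalDegree_finsetSum _ _).trans (Finset.sup_le fun i _ => ?_)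
      refine (totalDegree_mul _ _).trans ?_
      rw [totalDegree_C, zero_add]
      exact hH'deg i
    · exact hH'deg i
  have hHy : ∀ a, aeval y (H a) * s = f a * aeval y D := by
    intro a
    refine Fin.cases ?_ (fun i => ?_) a
    · show aeval y (D - ∑ i : Fin N, C (ℓ i.succ) * H' i) * s = _
      rw [map_sub, map_sum, sub_mul, Finset.sum_mul]
      have h1 : ∑ i : Fin N, aeval y (C (ℓ i.succ) * H' i) * s =
          ∑ i : Fin N, algebraMap K' L (ℓ i.succ) * f i.succ * aeval y D := by
        refine Finset.sum_congr rfl fun i _ => ?_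
        rw [map_mul, aeval_C, hH'y i]
        have h2 := hg i
        have h3 : gorb (phi ℓ F) y j i * s = f i.succ := h2
        linear_combination (algebraMap K' L (ℓ i.succ) * aeval y D) * h3
      rw [h1, ← Finset.sum_mul, mul_comm (aeval y D) s, ← sub_mul]
      congr 1
      rw [hsdef, Fin.sum_univ_succ, h0, map_one, one_mul]
      ring
    · show aeval y (H' i) * s = _
      rw [hH'y i]
      have h3 : gorb (phi ℓ F) y j i * s = f i.succ := hg i
      linear_combination (aeval y D) * h3
  have hcross : ∀ a b, f a * aeval y (H b) = f b * aeval y (H a) := by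
    intro a b
    apply mul_right_cancel₀ hs
    show f a * aeval y (H b) * s = f b * aeval y (H a) * s
    linear_combination f a * hHy b - f b * hHy a
  choose G' hG' hG'H using fun a => exists_form ℓ h0 (N * E) (H a) (hHdeg a)
  choose Gc hGc hGc' using fun a => exists_comp (K := K) (N * E) (G' a) (hG' a)
  -- the forms over `K'` vanish on the orbit
  have hvan : ∀ a b n, eval (fun i => algebraMap K K' (orb F x n i))
      (map (algebraMap K K') (itp F j a) * G' b - map (algebraMap K K') (itp F j b) * G' a) = 0 := by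
    intro a b n
    have hhomab : (map (algebraMap K K') (itp F j a) * G' b -
        map (algebraMap K K') (itp F j b) * G' a).IsHomogeneous (d ^ j + N * E) :=
      (((chartD_itp_hom F d hF j a).map _).mul (hG' b)).sub
        (((chartD_itp_hom F d hF j b).map _).mul (hG' a))
    rw [chartP_eval ℓ h0 hℓ _ _ hhomab (orb F x n) (hx n)]
    refine (hmem _).1 ((hy _).1 ?_) n
    rw [map_sub, map_mul, map_mul, map_sub, map_mul, map_mul, hG'H, hG'H]
    exact sub_eq_zero.2 (hcross a b)
  have hvan' : ∀ a b l, itp F j a * Gc b l - itp F j b * Gc a l ∈ p := by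
    intro a b l
    have hhomab : (itp F j a * Gc b l - itp F j b * Gc a l).IsHomogeneous (d ^ j + N * E) :=
      ((chartD_itp_hom F d hF j a).mul (hGc b l)).sub ((chartD_itp_hom F d hF j b).mul (hGc a l))
    refine (hd _ _ hhomab).1 fun n => ?_
    have h1 : map (algebraMap K K') (itp F j a) * G' b - map (algebraMap K K') (itp F j b) * G' a =
        ∑ l, C (Module.finBasis K K' l) *
          map (algebraMap K K') (itp F j a * Gc b l - itp F j b * Gc a l) := by
      conv_lhs => rw [hGc' a, hGc' b, Finset.mul_sum, Finset.mul_sum, ← Finset.sum_sub_distrib]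
      refine Finset.sum_congr rfl fun l _ => ?_
      rw [map_sub, map_mul, map_mul]
      ring
    have h2 := hvan a b n
    rw [h1] at h2
    exact (eval_comp _ _).1 h2 l
  have hex : ∃ a l, Gc a l ∉ p := by
    by_contra hcon
    push Not at hcon
    have h1 : ∀ a, aeval y (H a) = 0 := by
      intro a
      rw [hy, ← hG'H a, hGc' a, map_sum]
      refine Ideal.sum_mem _ fun l _ => ?_
      rw [map_mul]
      exact Ideal.mul_mem_left _ _ (Ideal.subset_span ⟨Gc a l, hcon a l, rfl⟩)
    have h2 : aeval y D = 0 := by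
      have h3 : D = H 0 + ∑ i : Fin N, C (ℓ i.succ) * H i.succ := by
        show D = (D - ∑ i : Fin N, C (ℓ i.succ) * H' i) + ∑ i : Fin N, C (ℓ i.succ) * H' i
        ring
      rw [h3, map_add, h1 0, map_sum, zero_add]
      refine Finset.sum_eq_zero fun i _ => ?_
      rw [map_mul, h1 i.succ, mul_zero]
    exact hD0 h2
  obtain ⟨a, l, hal⟩ := hex
  refine Nat.sInf_le ⟨fun b => Gc b l, fun b => hGc b l, ⟨a, hal⟩, fun a b => hvan' a b l⟩

end Pool.Agent.H.MP_31a675_nt.W
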