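import Pool.Agent.H.MP_31a675_nt.W.Chart
import Pool.Agent.H.MP_31a675_nt.W.Bas

/-!
# The ideal of the variety in the chart
-/

namespace Pool.Agent.H.MP_31a675_nt.W

open MvPolynomial

variable {K : Type} [Field K] {N : ℕ} {K' : Type} [Field K'] [Algebra K K']

/-- The value of a form over `K'` at a point over `K`, in the chart. -/
theorem chartP_eval (ℓ : Fin (N + 1) → K') (h0 : ℓ 0 = 1)
    (hℓ : ∀ x : Fin (N + 1) → K, ∑ i, ℓ i * algebraMap K K' (x i) = 0 → x = 0)
    (D : ℕ) (P : MvPolynomial (Fin (N + 1)) K') (hP : P.IsHomogeneous D)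
    (y : Fin (N + 1) → K) (hy : y ≠ 0) :
    eval (fun i => algebraMap K K' (y i)) P = 0 ↔ eval (aff ℓ y) (sg ℓ P) = 0 := by
  have hs : ∑ j, ℓ j * algebraMap K K' (y j) ≠ 0 := fun h => hy (hℓ y h)
  have hs' : ∑ j, algebraMap K' K' (ℓ j) * algebraMap K K' (y j) ≠ 0 := by
    simpa only [Algebra.algebraMap_self, RingHom.id_apply] using hs
  have key := eval_sg (A := K') ℓ h0 D P hP (fun i => algebraMap K K' (y i)) hs'
  simp only [Algebra.algebraMap_self, RingHom.id_apply] at key
  have hae : ∀ {σ : Type} (f : σ → K') (Q : MvPolynomial σ K'), aeval f Q = eval f Q :=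
    fun f Q => rfl
  rw [hae, hae] at key
  have key2 : eval (fun i => algebraMap K K' (y i)) P =
      (∑ j, ℓ j * algebraMap K K' (y j)) ^ D * eval (aff ℓ y) (sg ℓ P) := key
  rw [key2]
  constructor
  · intro h
    rcases mul_eq_zero.mp h with h | h
    · exact absurd h (pow_ne_zero _ hs)
    · exact h
  · intro h
    rw [h, mul_zero]

/-- A polynomial in the chart comes from a combination of forms over `K`. -/
theorem chartP_form [FiniteDimensional K K'] (ℓ : Fin (N + 1) → K') (h0 : ℓ 0 = 1)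
    (hℓ : ∀ x : Fin (N + 1) → K, ∑ i, ℓ i * algebraMap K K' (x i) = 0 → x = 0)
    (g : MvPolynomial (Fin N) K') :
    ∃ (D : ℕ) (G : Fin (Module.finrank K K') → MvPolynomial (Fin (N + 1)) K),
      (∀ l, (G l).IsHomogeneous D) ∧
      g = ∑ l, C (Module.finBasis K K' l) * sg ℓ (map (algebraMap K K') (G l)) ∧
      ∀ y : Fin (N + 1) → K, y ≠ 0 → (eval (aff ℓ y) g = 0 ↔ ∀ l, eval y (G l) = 0) := by
  obtain ⟨P, hP, hPg⟩ := exists_form ℓ h0 g.totalDegree g le_rfl
  obtain ⟨G, hG, hPG⟩ := exists_comp (K := K) g.totalDegree P hP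
  refine ⟨g.totalDegree, G, hG, ?_, ?_⟩
  · rw [← hPg]
    conv_lhs => rw [hPG]
    rw [map_sum]
    refine Finset.sum_congr rfl fun l _ => ?_
    rw [map_mul]
    congr 1
    exact (sg ℓ).commutes _
  · intro y hy
    have h1 := chartP_eval ℓ h0 hℓ g.totalDegree P hP y hy
    rw [hPg] at h1
    rw [← h1]
    conv_lhs => rw [hPG]
    exact eval_comp G y

/-- If the orbit of `x` is dense in the variety of `p` then the ideal in the chart consists of the
polynomials which vanish on the orbit. For one direction, `p` is generated by forms (`IsHom`), and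
`eval_sg`. For the other write `g = sg ℓ P` with a form `P` over `K'` (`exists_form`), `P = ∑ ω l * G l`
(`exists_comp`); all forms `G l` vanish on the orbit (`eval_comp`), so they are in `p`. -/
theorem mem_chart [FiniteDimensional K K'] (ℓ : Fin (N + 1) → K') (h0 : ℓ 0 = 1)
    (hℓ : ∀ x : Fin (N + 1) → K, ∑ i, ℓ i * algebraMap K K' (x i) = 0 → x = 0)
    (F : Fin (N + 1) → MvPolynomial (Fin (N + 1)) K) (p : Ideal (MvPolynomial (Fin (N + 1)) K))
    (hhom : IsHom p) (x : Fin (N + 1) → K) (hx : ∀ n, orb F x n ≠ 0) (hd : DenseIn p F x)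
    (g : MvPolynomial (Fin N) K') :
    g ∈ chartIdeal ℓ p ↔ ∀ n, eval (aff ℓ (orb F x n)) g = 0 := by
  constructor
  · intro hg n
    have hle : chartIdeal ℓ p ≤ RingHom.ker (eval (aff ℓ (orb F x n))) := by
      refine Ideal.span_le.mpr ?_
      rintro _ ⟨P, hP, rfl⟩
      have hcomp : ∀ k, eval (aff ℓ (orb F x n))
          (sg ℓ (map (algebraMap K K') (homogeneousComponent k P))) = 0 := by
        intro k
        have hk : (homogeneousComponent k P).IsHomogeneous k :=
          homogeneousComponent_isHomogeneous k P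
        have hk' : (map (algebraMap K K') (homogeneousComponent k P)).IsHomogeneous k := hk.map _
        refine (chartP_eval ℓ h0 hℓ k _ hk' (orb F x n) (hx n)).mp ?_
        have h1 := (hd k (homogeneousComponent k P) hk).mpr (hhom P hP k) n
        have h2 : eval (fun i => algebraMap K K' (orb F x n i))
            (map (algebraMap K K') (homogeneousComponent k P)) =
            algebraMap K K' (eval (orb F x n) (homogeneousComponent k P)) := by
          rw [eval_map]
          exact (eval₂_comp (algebraMap K K') (orb F x n) _).symm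
        rw [h2, h1, map_zero]
      show eval (aff ℓ (orb F x n)) (sg ℓ (map (algebraMap K K') P)) = 0
      rw [← sum_homogeneousComponent P, map_sum, map_sum, map_sum]
      exact Finset.sum_eq_zero fun k _ => hcomp k
    exact hle hg
  · intro hg
    obtain ⟨D, G, hG, hgG, hev⟩ := chartP_form ℓ h0 hℓ g
    have hGp : ∀ l, G l ∈ p := fun l =>
      (hd D (G l) (hG l)).mp fun n => (hev (orb F x n) (hx n)).mp (hg n) l
    rw [hgG]
    exact Ideal.sum_mem _ fun l _ =>
      Ideal.mul_mem_left _ _ (Ideal.subset_span ⟨G l, hGp l, rfl⟩)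

/-- The ideal in the chart is prime if there is a dense orbit of a point over `K`: if `g`, `h` are not
in it, then (as in `mem_chart`) there are forms `G, H ∉ p` over `K` such that at every point of the
orbit where `G H` is not zero also `g h` is not zero. -/
theorem chart_prime [FiniteDimensional K K'] (ℓ : Fin (N + 1) → K') (h0 : ℓ 0 = 1)
    (hℓ : ∀ x : Fin (N + 1) → K, ∑ i, ℓ i * algebraMap K K' (x i) = 0 → x = 0)
    (F : Fin (N + 1) → MvPolynomial (Fin (N + 1)) K) (p : Ideal (MvPolynomial (Fin (N + 1)) K))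
    (hp : p.IsPrime) (hhom : IsHom p) (x : Fin (N + 1) → K) (hx : ∀ n, orb F x n ≠ 0)
    (hd : DenseIn p F x) : (chartIdeal ℓ p).IsPrime := by
  have hmem := mem_chart ℓ h0 hℓ F p hhom x hx hd
  have hform : ∀ g : MvPolynomial (Fin N) K', g ∉ chartIdeal ℓ p →
      ∃ (D : ℕ) (G : MvPolynomial (Fin (N + 1)) K), G.IsHomogeneous D ∧ G ∉ p ∧
        ∀ n, eval (orb F x n) G ≠ 0 → eval (aff ℓ (orb F x n)) g ≠ 0 := by
    intro g hg
    obtain ⟨D, G, hG, hgG, hev⟩ := chartP_form ℓ h0 hℓ g
    have : ∃ l, G l ∉ p := by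
      by_contra hcon
      push Not at hcon
      refine hg ?_
      rw [hgG]
      exact Ideal.sum_mem _ fun l _ =>
        Ideal.mul_mem_left _ _ (Ideal.subset_span ⟨G l, hcon l, rfl⟩)
    obtain ⟨l, hl⟩ := this
    exact ⟨D, G l, hG l, hl, fun n hn h => hn ((hev (orb F x n) (hx n)).mp h l)⟩
  refine ⟨?_, ?_⟩
  · intro htop
    have h1 : (1 : MvPolynomial (Fin N) K') ∈ chartIdeal ℓ p := by rw [htop]; trivial
    have h2 := (hmem 1).mp h1 0
    rw [map_one] at h2
    exact one_ne_zero h2
  · intro g h hgh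
    by_contra hcon
    push Not at hcon
    obtain ⟨D₁, G, hG, hGp, hG'⟩ := hform g hcon.1
    obtain ⟨D₂, H, hH, hHp, hH'⟩ := hform h hcon.2
    have hGH : G * H ∉ p := fun hm => (hp.mem_or_mem hm).elim hGp hHp
    have hne : ¬ ∀ n, eval (orb F x n) (G * H) = 0 := fun hall =>
      hGH ((hd (D₁ + D₂) (G * H) (hG.mul hH)).mp hall)
    push Not at hne
    obtain ⟨n, hn⟩ := hne
    rw [map_mul] at hn
    have h1 := hG' n (left_ne_zero_of_mul hn)
    have h2 := hH' n (right_ne_zero_of_mul hn)
    have h3 := (hmem (g * h)).mp hgh n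
    rw [map_mul] at h3
    exact (mul_ne_zero h1 h2) h3

end Pool.Agent.H.MP_31a675_nt.W
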