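import Pool.Agent.H.MP_31a675_nt.W.Defs

/-!
# Clearing denominators
-/

namespace Pool.Agent.H.MP_31a675_nt.W

open MvPolynomial

variable {K : Type} [Field K] {N : ℕ}

/-- Substituting quotients `P i / Q i` in a polynomial of degree at most `e`: take
`∑ m, coeff m g * ∏ i, P i ^ m i * Q i ^ (e - m i)`. -/
theorem clear {r : ℕ} (e S : ℕ) (g : MvPolynomial (Fin r) K) (hg : g.totalDegree ≤ e)
    (P Q : Fin r → MvPolynomial (Fin N) K) (hP : ∀ i, (P i).totalDegree ≤ S)
    (hQ : ∀ i, (Q i).totalDegree ≤ S) :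
    ∃ Θ : MvPolynomial (Fin N) K, Θ.totalDegree ≤ r * e * S ∧
      ∀ {A : Type} [CommRing A] [Algebra K A] (f : MvPolynomial (Fin N) K →ₐ[K] A)
        (w : Fin r → A), (∀ i, f (P i) = f (Q i) * w i) →
        f Θ = (∏ i, f (Q i)) ^ e * aeval w g := by
  classical
  have hle : ∀ m ∈ g.support, ∀ i, m i ≤ e := by
    intro m hm i
    have h1 : (m.sum fun _ n => n) ≤ g.totalDegree := le_totalDegree hm
    have h2 : m i ≤ m.sum fun _ n => n := by
      rw [Finsupp.sum_fintype _ _ (fun _ => rfl)]
      exact Finset.single_le_sum (f := fun j => m j) (fun _ _ => Nat.zero_le _)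
        (Finset.mem_univ i)
    omega
  refine ⟨∑ m ∈ g.support, C (coeff m g) * ∏ i, (P i ^ m i * Q i ^ (e - m i)), ?_, ?_⟩
  · refine totalDegree_finsetSum_le ?_
    intro m hm
    refine (totalDegree_mul _ _).trans ?_
    rw [totalDegree_C, zero_add]
    refine (totalDegree_finset_prod _ _).trans ?_
    have : ∀ i ∈ (Finset.univ : Finset (Fin r)),
        (P i ^ m i * Q i ^ (e - m i)).totalDegree ≤ e * S := by
      intro i _
      refine (totalDegree_mul _ _).trans ?_
      have h1 : (P i ^ m i).totalDegree ≤ m i * S :=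
        (totalDegree_pow _ _).trans (Nat.mul_le_mul_left _ (hP i))
      have h2 : (Q i ^ (e - m i)).totalDegree ≤ (e - m i) * S :=
        (totalDegree_pow _ _).trans (Nat.mul_le_mul_left _ (hQ i))
      have h3 : m i * S + (e - m i) * S = e * S := by
        rw [← Nat.add_mul, Nat.add_sub_cancel' (hle m hm i)]
      omega
    refine (Finset.sum_le_sum this).trans ?_
    rw [Finset.sum_const, Finset.card_univ, Fintype.card_fin, smul_eq_mul, mul_assoc]
  · intro A _ _ f w hw
    rw [map_sum, aeval_def, eval₂_eq', Finset.mul_sum]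
    refine Finset.sum_congr rfl fun m hm => ?_
    rw [map_mul, map_prod, algHom_C]
    have h1 : ∏ i, f (P i ^ m i * Q i ^ (e - m i)) = (∏ i, f (Q i)) ^ e * ∏ i, w i ^ m i := by
      rw [← Finset.prod_pow, ← Finset.prod_mul_distrib]
      refine Finset.prod_congr rfl fun i _ => ?_
      rw [map_mul, map_pow, map_pow, hw i, mul_pow]
      have h3 : f (Q i) ^ e = f (Q i) ^ m i * f (Q i) ^ (e - m i) := by
        rw [← pow_add, Nat.add_sub_cancel' (hle m hm i)]
      rw [h3]
      ring
    rw [h1]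
    ring

/-- The multilinear case, with the sum of the degrees. -/
theorem clearM {m : ℕ} (ξ : (Fin m → Fin 2) → K) (e : Fin m → ℕ)
    (P Q : Fin m → MvPolynomial (Fin N) K) (hP : ∀ i, (P i).totalDegree ≤ e i)
    (hQ : ∀ i, (Q i).totalDegree ≤ e i) :
    ∃ Θ : MvPolynomial (Fin N) K, Θ.totalDegree ≤ ∑ i, e i ∧
      ∀ {A : Type} [CommRing A] [Algebra K A] (f : MvPolynomial (Fin N) K →ₐ[K] A)
        (w : Fin m → A), (∀ i, f (P i) = f (Q i) * w i) →
        f Θ = (∏ i, f (Q i)) * ∑ J, algebraMap K A (ξ J) * ∏ i, (![1, w i] : Fin 2 → A) (J i) := by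
  classical
  refine ⟨∑ J, C (ξ J) * ∏ i, (![Q i, P i] : Fin 2 → MvPolynomial (Fin N) K) (J i), ?_, ?_⟩
  · refine totalDegree_finsetSum_le ?_
    intro J _
    refine (totalDegree_mul _ _).trans ?_
    rw [totalDegree_C, zero_add]
    refine (totalDegree_finset_prod _ _).trans ?_
    refine Finset.sum_le_sum fun i _ => ?_
    have : ∀ j : Fin 2, ((![Q i, P i] : Fin 2 → MvPolynomial (Fin N) K) j).totalDegree ≤ e i := by
      intro j
      fin_cases j
      · exact hQ i
      · exact hP i
    exact this (J i)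
  · intro A _ _ f w hw
    rw [map_sum, Finset.mul_sum]
    refine Finset.sum_congr rfl fun J _ => ?_
    rw [map_mul, map_prod, algHom_C]
    have h1 : ∏ i, f ((![Q i, P i] : Fin 2 → MvPolynomial (Fin N) K) (J i))
        = (∏ i, f (Q i)) * ∏ i, (![1, w i] : Fin 2 → A) (J i) := by
      rw [← Finset.prod_mul_distrib]
      refine Finset.prod_congr rfl fun i _ => ?_
      have : ∀ j : Fin 2, f ((![Q i, P i] : Fin 2 → MvPolynomial (Fin N) K) j)
          = f (Q i) * (![1, w i] : Fin 2 → A) j := by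
        intro j
        fin_cases j
        · simp
        · simpa using hw i
      exact this (J i)
    rw [h1]
    ring

end Pool.Agent.H.MP_31a675_nt.W
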