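import Pool.Agent.H.MP_31a675_nt.W.Rel

/-!
# The components of a variety with a system
-/

namespace Pool.Agent.H.MP_31a675_nt.W

open MvPolynomial

variable {K : Type} [Field K] {N : ℕ}

/-- A minimal prime `q` of `I` contains no nonzero polynomial in the `z i`: if `aeval z p ∈ q` then
`aeval z p * y ∈ I` for some `y ∉ I` (`Ideal.exists_mul_mem_of_mem_minimalPrimes`); write `y` in the
basis and use `Sys.free`. -/
theorem sys_minimal {I : Ideal (MvPolynomial (Fin N) K)} {k μ : ℕ}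
    {z : Fin k → MvPolynomial (Fin N) K} {b : Fin μ → MvPolynomial (Fin N) K} (h : Sys I z b)
    (q : Ideal (MvPolynomial (Fin N) K)) (hq : q ∈ I.minimalPrimes)
    (p : MvPolynomial (Fin k) K) (hp : aeval z p ∈ q) : p = 0 := by
  by_contra hp0
  obtain ⟨y, hy, hxy⟩ := Ideal.exists_mul_mem_of_mem_minimalPrimes hq hp
  obtain ⟨c, _, hc⟩ := h.span y.totalDegree y le_rfl
  have h1 : ∑ j, aeval z (p * c j) * b j ∈ I := by
    have h2 : ∑ j, aeval z (p * c j) * b j =
        aeval z p * y - aeval z p * (y - ∑ j, aeval z (c j) * b j) := by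
      rw [mul_sub, sub_sub_cancel, Finset.mul_sum]
      refine Finset.sum_congr rfl fun j _ => ?_
      rw [map_mul, mul_assoc]
    rw [h2]
    exact I.sub_mem hxy (I.mul_mem_left _ hc)
  have h3 := h.free _ h1
  have h4 : ∀ j, c j = 0 := fun j => by
    have h5 := congrFun h3 j
    simp only [Pi.zero_apply, mul_eq_zero] at h5
    exact h5.resolve_left hp0
  apply hy
  have h6 : y = y - ∑ j, aeval z (c j) * b j := by
    simp [h4]
  rw [h6]
  exact hc

/-- There are at most `μ` minimal primes: otherwise take `μ + 1` of them, `q i`, and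
`θ i ∉ q i` in the intersection of the other `q j`; apply `sys_rel` and look modulo `q i`. -/
theorem sys_card {I : Ideal (MvPolynomial (Fin N) K)} {k μ : ℕ}
    {z : Fin k → MvPolynomial (Fin N) K} {b : Fin μ → MvPolynomial (Fin N) K} (h : Sys I z b)
    (S : Finset (Ideal (MvPolynomial (Fin N) K))) (hS : ∀ q ∈ S, q ∈ I.minimalPrimes) :
    S.card ≤ μ := by
  by_contra hcon
  obtain ⟨S', hS', hcard⟩ := Finset.exists_subset_card_eq (show μ + 1 ≤ S.card by omega)
  obtain ⟨q, hq⟩ : ∃ q : Fin (μ + 1) → Ideal (MvPolynomial (Fin N) K),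
      Function.Injective q ∧ ∀ i, q i ∈ S' := by
    refine ⟨fun i => (S'.equivFin.symm (Fin.cast hcard.symm i)).1, fun i j hij => ?_, fun i =>
      (S'.equivFin.symm (Fin.cast hcard.symm i)).2⟩
    have h1 := S'.equivFin.symm.injective (Subtype.ext hij)
    exact Fin.cast_injective _ h1
  have hmin : ∀ i, q i ∈ I.minimalPrimes := fun i => hS _ (hS' (hq.2 i))
  have hprime : ∀ i, (q i).IsPrime := fun i => (hmin i).1.1
  have hle : ∀ i, I ≤ q i := fun i => (hmin i).1.2
  have hθ : ∀ i, ∃ t : MvPolynomial (Fin N) K, (∀ j, j ≠ i → t ∈ q j) ∧ t ∉ q i := by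
    intro i
    have hex : ∀ j, j ≠ i → ∃ t, t ∈ q j ∧ t ∉ q i := by
      intro j hji
      by_contra hall
      push Not at hall
      have h1 : q j ≤ q i := fun t ht => hall t ht
      have h2 : q i ≤ q j := (hmin i).2 ⟨hprime j, hle j⟩ h1
      exact hji (hq.1 (le_antisymm h1 h2))
    choose! t ht1 ht2 using hex
    refine ⟨∏ j ∈ Finset.univ.erase i, t j, fun j hji => ?_, fun hmem => ?_⟩
    · exact (q j).mem_of_dvd (Finset.dvd_prod_of_mem t (Finset.mem_erase.2 ⟨hji, Finset.mem_univ _⟩))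
        (ht1 j hji)
    · obtain ⟨j, hj, hj2⟩ := ((hprime i).prod_mem_iff).1 hmem
      exact ht2 j (Finset.ne_of_mem_erase hj) hj2
  choose θ hθ1 hθ2 using hθ
  obtain ⟨p, hp0, hp⟩ := sys_rel h θ
  obtain ⟨i, hi⟩ : ∃ i, p i ≠ 0 := by
    by_contra hall
    push Not at hall
    exact hp0 (funext hall)
  have h1 : ∑ j, aeval z (p j) * θ j ∈ q i := hle i hp
  rw [← Finset.add_sum_erase _ _ (Finset.mem_univ i)] at h1
  have h2 : ∑ j ∈ Finset.univ.erase i, aeval z (p j) * θ j ∈ q i :=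
    Ideal.sum_mem _ fun j hj => (q i).mul_mem_left _ (hθ1 j i (Finset.ne_of_mem_erase hj).symm)
  have h3 : aeval z (p i) * θ i ∈ q i := ((q i).add_mem_iff_left h2).1 h1
  rcases (hprime i).mem_or_mem h3 with h4 | h4
  · exact hi (sys_minimal h (q i) (hmin i) (p i) h4)
  · exact hθ2 i h4

/-- The components. The kernel of the evaluation at `x` is a prime which contains `I`
(`Ideal.exists_minimalPrimes_le`). -/
theorem sys_comp {I : Ideal (MvPolynomial (Fin N) K)} {k μ : ℕ}
    {z : Fin k → MvPolynomial (Fin N) K} {b : Fin μ → MvPolynomial (Fin N) K} (h : Sys I z b) :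
    ∃ S : Finset (Ideal (MvPolynomial (Fin N) K)), S.card ≤ μ ∧
      (∀ q ∈ S, q.IsPrime ∧ I ≤ q ∧ ∀ p : MvPolynomial (Fin k) K, aeval z p ∈ q → p = 0) ∧
      ∀ x : Fin N → K, (∀ g ∈ I, eval x g = 0) → ∃ q ∈ S, ∀ g ∈ q, eval x g = 0 := by
  have hfin : I.minimalPrimes.Finite := Ideal.finite_minimalPrimes_of_isNoetherianRing _ I
  refine ⟨hfin.toFinset, sys_card h _ fun q hq => (hfin.mem_toFinset).1 hq, fun q hq => ?_,
    fun x hx => ?_⟩
  · have h1 := (hfin.mem_toFinset).1 hq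
    exact ⟨h1.1.1, h1.1.2, fun p hp => sys_minimal h q h1 p hp⟩
  · have hker : (RingHom.ker (eval x)).IsPrime := RingHom.ker_isPrime _
    have hI : I ≤ RingHom.ker (eval x) := fun g hg => RingHom.mem_ker.2 (hx g hg)
    obtain ⟨q, hq, hqle⟩ := Ideal.exists_minimalPrimes_le hI
    exact ⟨q, (hfin.mem_toFinset).2 hq, fun g hg => RingHom.mem_ker.1 (hqle hg)⟩

end Pool.Agent.H.MP_31a675_nt.W
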