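import Pool.Agent.H.MP_31a675_nt.W.Level
import Pool.Agent.H.MP_31a675_nt.W.Bound

/-!
# The top level
-/

namespace Pool.Agent.H.MP_31a675_nt.W

open MvPolynomial

variable {K : Type} [Field K] {N : ℕ}

/-- The top level: `q = p`, the system of `p`, and `A₁ = {n | n + s ≤ T}`. `robust` and `cx_bound`. -/
theorem core_top {K : Type} [Field K] [Infinite K] {N : ℕ} (hN : 1 ≤ N) (δ : ℕ) (hδ : 1 ≤ δ)
    (φ : Fin (N + 1) → MvPolynomial (Fin N) K) (hφ : ∀ i, (φ i).totalDegree ≤ δ)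
    (p : Ideal (MvPolynomial (Fin N) K)) (hp : p.IsPrime) {k μ : ℕ}
    {I : Ideal (MvPolynomial (Fin N) K)} {z : Fin (k + 1) → MvPolynomial (Fin N) K}
    {b : Fin μ → MvPolynomial (Fin N) K} (h : Sys I z b) (hI : I ≤ p)
    (hz : ∀ c : MvPolynomial (Fin (k + 1)) K, aeval z c ∈ p → c = 0)
    {L : Type} [Field L] [Algebra K L] (y : Fin N → L)
    (hy : ∀ g : MvPolynomial (Fin N) K, aeval y g = 0 ↔ g ∈ p)
    (x : ℕ → Fin N → K) (hxp : ∀ n, ∀ g ∈ p, eval (x n) g = 0) (h0 : ∀ n, eval (x n) (φ 0) ≠ 0)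
    (hx : ∀ n i, x (n + 1) i = eval (x n) (φ i.succ) / eval (x n) (φ 0))
    (T : ℕ) (m a s ρ : ℕ → ℕ) (hμ : μ ≤ m (k + 1)) (hnum : Num N δ T (k + 1) m a s ρ)
    (hnot : ¬ Lev x T (m k) (a k) k)
    (hdep : ∀ (tm : Fin (ρ (k + 1) + 1) → ℕ) (c : Fin (ρ (k + 1) + 1) → Fin N),
      (∀ i, tm i ≤ s (k + 1)) → ∃ ξ : (Fin (ρ (k + 1) + 1) → Fin 2) → K, ξ ≠ 0 ∧
        ∀ n, n + s (k + 1) ≤ T →
          ∑ J, ξ J * ∏ i, (![1, x (n + tm i) (c i)] : Fin 2 → K) (J i) = 0)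
    (j : ℕ) (hj : j ≤ s (k + 1)) (i : Fin N) :
    Cx K y ((1 + N * δ) ^ ρ (k + 1)) (gorb φ y j i) := by
  have hT := hnum.T_ge k (Nat.lt_succ_self k)
  have hm1 := hnum.m_pos (k + 1) le_rfl
  have ha1 := hnum.a_pos (k + 1) le_rfl
  have hmk := hnum.m_ge k (Nat.lt_succ_self k)
  have hak := hnum.a_ge k (Nat.lt_succ_self k)
  have hs2 : 2 * s (k + 1) ≤ T := by
    calc 2 * s (k + 1) = 2 * s (k + 1) * 1 * 1 := by ring
      _ ≤ 2 * s (k + 1) * a (k + 1) * m (k + 1) := by gcongr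
      _ ≤ T := hT
  have ha16 : 16 ≤ a k := by
    calc 16 = 16 * 1 ^ 2 * 1 ^ 2 := by norm_num
      _ ≤ 16 * a (k + 1) ^ 2 * m (k + 1) ^ 2 := by gcongr
      _ ≤ a k := hak
  refine cx_bound hN δ hδ φ hφ y x {n | n + s (k + 1) ≤ T} ⟨0, ?_⟩ ?_ h0 hx (s (k + 1))
    (ρ (k + 1)) ?_ ?_ j hj i
  · change 0 + s (k + 1) ≤ T
    omega
  · intro n _ g hg
    exact hxp n g ((hy g).1 hg)
  · intro Θ hΘ hΘ0
    by_contra hne
    have hΘp : Θ ∉ p := fun hmem => hne ((hy Θ).2 hmem)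
    have hmm : μ * (μ * ((1 + N * δ) ^ (ρ (k + 1) + 1) + μ)) ≤ m k := by
      refine le_trans ?_ hmk
      have h1 : (1 + N * δ) ^ (ρ (k + 1) + 1) ≤
          N * (m (k + 1) + 1) ^ 2 * (1 + N * δ) ^ (ρ (k + 1) + 1) := by
        have : 1 ≤ N * (m (k + 1) + 1) ^ 2 := Nat.succ_le_of_lt (by positivity)
        calc (1 + N * δ) ^ (ρ (k + 1) + 1) = 1 * (1 + N * δ) ^ (ρ (k + 1) + 1) := by ring
          _ ≤ _ := Nat.mul_le_mul_right _ this
      gcongr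
    have := robust x T (m k) (a k) k hnot h p hp hI hz Θ hΘp _ hΘ hmm
      ((Finset.range (T + 1)).filter fun n => n + s (k + 1) ≤ T) (Finset.filter_subset _ _)
      (fun n _ g hg => hxp n g hg) (fun n hn => hΘ0 n (Finset.mem_filter.1 hn).2)
    have hcard : T + 1 - s (k + 1) ≤
        ((Finset.range (T + 1)).filter fun n => n + s (k + 1) ≤ T).card := by
      have hsub : Finset.range (T + 1 - s (k + 1)) ⊆
          (Finset.range (T + 1)).filter fun n => n + s (k + 1) ≤ T := by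
        intro n hn
        rw [Finset.mem_range] at hn
        rw [Finset.mem_filter, Finset.mem_range]
        omega
      simpa using Finset.card_le_card hsub
    have h2 : (T + 1 - s (k + 1)) * 16 < T + 1 :=
      lt_of_le_of_lt (Nat.mul_le_mul hcard ha16) this
    omega
  · intro tm c htm
    obtain ⟨ξ, hξ, hξ0⟩ := hdep tm c htm
    exact ⟨ξ, hξ, fun n hn => hξ0 n hn⟩

end Pool.Agent.H.MP_31a675_nt.W
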