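import Pool.Agent.H.MP_31a675_nt.W.CoreLow
import Pool.Agent.H.MP_31a675_nt.W.CoreTop

/-!
# The algebraic core: a slow orbit is not dense, or the iterates have small degree
-/

namespace Pool.Agent.H.MP_31a675_nt.W

open MvPolynomial

variable {K : Type} [Field K] {N : ℕ}

/-- **The core.** `exists_level`, `core_low`, `core_top`. -/
theorem core {K : Type} [Field K] [Infinite K] {N : ℕ} (hN : 1 ≤ N) (δ : ℕ) (hδ : 1 ≤ δ)
    (φ : Fin (N + 1) → MvPolynomial (Fin N) K) (hφ : ∀ i, (φ i).totalDegree ≤ δ)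
    (p : Ideal (MvPolynomial (Fin N) K)) (hp : p.IsPrime) {r μ : ℕ}
    {I : Ideal (MvPolynomial (Fin N) K)} {z : Fin r → MvPolynomial (Fin N) K}
    {b : Fin μ → MvPolynomial (Fin N) K} (h : Sys I z b) (hI : I ≤ p)
    (hz : ∀ c : MvPolynomial (Fin r) K, aeval z c ∈ p → c = 0)
    {L : Type} [Field L] [Algebra K L] (y : Fin N → L)
    (hy : ∀ g : MvPolynomial (Fin N) K, aeval y g = 0 ↔ g ∈ p)
    (x : ℕ → Fin N → K) (hxp : ∀ n, ∀ g ∈ p, eval (x n) g = 0) (h0 : ∀ n, eval (x n) (φ 0) ≠ 0)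
    (hx : ∀ n i, x (n + 1) i = eval (x n) (φ i.succ) / eval (x n) (φ 0))
    (hinj : Function.Injective x)
    (T : ℕ) (m a s ρ : ℕ → ℕ) (hμ : μ ≤ m r) (hnum : Num N δ T r m a s ρ)
    (hdep : ∀ k < r, ∀ (tm : Fin (ρ (k + 1) + 1) → ℕ) (c : Fin (ρ (k + 1) + 1) → Fin N),
      (∀ i, tm i ≤ s (k + 1)) → ∃ ξ : (Fin (ρ (k + 1) + 1) → Fin 2) → K, ξ ≠ 0 ∧
        ∀ n, n + s (k + 1) ≤ T →
          ∑ J, ξ J * ∏ i, (![1, x (n + tm i) (c i)] : Fin 2 → K) (J i) = 0) :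
    (∃ g : MvPolynomial (Fin N) K, g ∉ p ∧ ∀ n, eval (x n) g = 0) ∨
      ∀ j ≤ s r, ∀ i, Cx K y ((1 + N * δ) ^ ρ r) (gorb φ y j i) := by
  have hr : Lev x T (m r) (a r) r :=
    ⟨μ, I, z, b, Finset.range (T + 1), h, hμ, Finset.Subset.refl _, by
      rw [Finset.card_range]
      exact Nat.le_mul_of_pos_right _ (hnum.a_pos r le_rfl), fun n _ g hg => hxp n g (hI hg)⟩
  obtain ⟨k, hk, hnot, hlev⟩ := exists_level x T hinj m a r hr hnum.zero
  by_cases hkr : k + 1 < r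
  · exact Or.inl (core_low hN δ hδ φ hφ p hp z hz x h0 hx T m a s ρ hnum k hkr hnot hlev
      (hdep k hk))
  · obtain rfl : r = k + 1 := by omega
    exact Or.inr fun j hj i => core_top hN δ hδ φ hφ p hp h hI hz y hy x hxp h0 hx T m a s ρ hμ
      hnum hnot (hdep k hk) j hj i

end Pool.Agent.H.MP_31a675_nt.W
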