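import Pool.Agent.H.MP_31a675_nt.W.TrDeg
import Pool.Agent.H.MP_31a675_nt.W.Vals

/-!
# An invariant subvariety gives an orbit which is not dense
-/

namespace Pool.Agent.H.MP_31a675_nt.W

open MvPolynomial

variable {K : Type} [Field K] {N : ℕ} {L : Type} [Field L] [Algebra K L]

/-- The values of the zero element vanish. -/
theorem dense_val_zero (y : Fin N → L) (x : ℕ → Fin N → K) (A : Set ℕ)
    (hxy : ∀ n ∈ A, ∀ g : MvPolynomial (Fin N) K, aeval y g = 0 → eval (x n) g = 0)
    (u : L) (w : ℕ → K) (hu : Val y x A u w) (h0 : u = 0) (n : ℕ) (hn : n ∈ A) : w n = 0 := by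
  have h := val_transfer y x A hxy u w hu 0 1 (by simp [h0]) n hn
  simpa using h.symm

/-- The points `x (n₀ + m d)` are on the variety of `y`. -/
theorem dense_points (φ : Fin (N + 1) → MvPolynomial (Fin N) K) (y : Fin N → L) (x : ℕ → Fin N → K)
    (h0 : ∀ n, eval (x n) (φ 0) ≠ 0)
    (hx : ∀ n i, x (n + 1) i = eval (x n) (φ i.succ) / eval (x n) (φ 0)) (n₀ d : ℕ)
    (hn₀ : ∀ g : MvPolynomial (Fin N) K, aeval y g = 0 → eval (x n₀) g = 0)
    (hinv : ∀ g : MvPolynomial (Fin N) K, aeval y g = 0 → aeval (gorb φ y d) g = 0) (m : ℕ) :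
    ∀ g : MvPolynomial (Fin N) K, aeval y g = 0 → eval (x (n₀ + m * d)) g = 0 := by
  induction m with
  | zero => simpa using hn₀
  | succ m ih =>
    intro g hg
    have hxy : ∀ n ∈ ({n₀ + m * d} : Set ℕ), ∀ g : MvPolynomial (Fin N) K,
        aeval y g = 0 → eval (x n) g = 0 := by
      intro n hn g hg
      rw [Set.mem_singleton_iff] at hn
      rw [hn]
      exact ih g hg
    have h1 := (val_orbit φ y x {n₀ + m * d} (Set.singleton_nonempty _) hxy h0 hx d).2
    have h2 := val_aeval y x {n₀ + m * d} (gorb φ y d) (fun n => x (n + d)) h1 g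
    have h3 := dense_val_zero y x _ hxy _ _ h2 (hinv g hg) (n₀ + m * d) rfl
    have h4 : n₀ + (m + 1) * d = n₀ + m * d + d := by ring
    rw [h4]
    exact h3

/-- If the variety with generic point `y` is mapped to itself by the `d`-th iterate and contains the
point `x n₀` then the orbit is not dense in the variety of the prime `p` (with a system in `k' > k`
variables). The points `x (n₀ + m d)` lie on the variety of `y`: induction on `m`, `val_orbit` and
`val_transfer` with `A = {n₀ + m d}`. For `i < d` apply `exists_rel` to the `z' l` evaluated at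
`gorb φ y i`: this gives `g i = aeval z' (c i) ∉ p`, which vanishes at the points `x (n₀ + m d + i)`.
Multiply the `g i` with the `z' 0 - C (eval (x n) (z' 0))`, `n < n₀`. -/
theorem not_dense {I I' p : Ideal (MvPolynomial (Fin N) K)} {k μ k' μ' : ℕ}
    {z : Fin k → MvPolynomial (Fin N) K} {b : Fin μ → MvPolynomial (Fin N) K} (h : Sys I z b)
    (hk : k < k') (z' : Fin k' → MvPolynomial (Fin N) K) (hp : p.IsPrime)
    (hz' : ∀ c : MvPolynomial (Fin k') K, aeval z' c ∈ p → c = 0)
    (φ : Fin (N + 1) → MvPolynomial (Fin N) K) (y : Fin N → L) (x : ℕ → Fin N → K)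
    (hy : ∀ g ∈ I, aeval y g = 0) (h0 : ∀ n, eval (x n) (φ 0) ≠ 0)
    (hx : ∀ n i, x (n + 1) i = eval (x n) (φ i.succ) / eval (x n) (φ 0)) (n₀ d : ℕ) (hd : 1 ≤ d)
    (hn₀ : ∀ g : MvPolynomial (Fin N) K, aeval y g = 0 → eval (x n₀) g = 0)
    (hinv : ∀ g : MvPolynomial (Fin N) K, aeval y g = 0 → aeval (gorb φ y d) g = 0) :
    ∃ g : MvPolynomial (Fin N) K, g ∉ p ∧ ∀ n, eval (x n) g = 0 := by
  classical
  have hpts := dense_points φ y x h0 hx n₀ d hn₀ hinv
  set A : Set ℕ := Set.range fun m => n₀ + m * d with hA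
  have hAne : A.Nonempty := ⟨_, ⟨0, rfl⟩⟩
  have hxy : ∀ n ∈ A, ∀ g : MvPolynomial (Fin N) K, aeval y g = 0 → eval (x n) g = 0 := by
    rintro n ⟨m, rfl⟩ g hg
    exact hpts m g hg
  have key : ∀ i : ℕ, ∃ c : MvPolynomial (Fin k') K, c ≠ 0 ∧
      ∀ m, eval (x (n₀ + m * d + i)) (aeval z' c) = 0 := by
    intro i
    have h1 := (val_orbit φ y x A hAne hxy h0 hx i).2
    have h2 : ∀ l, Val y x A (aeval (gorb φ y i) (z' l)) fun n => eval (x (n + i)) (z' l) :=
      fun l => val_aeval y x A (gorb φ y i) (fun n => x (n + i)) h1 (z' l)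
    have h3 : ∃ E, ∀ l, Cx K y E (aeval (gorb φ y i) (z' l)) := by
      choose P Q hQ hQ0 hPQ hw using h2
      refine ⟨∑ l, ((P l).totalDegree + (Q l).totalDegree), fun l =>
        ⟨P l, Q l, ?_, ?_, hQ0 l, hPQ l⟩⟩
      · have := Finset.single_le_sum (f := fun l => (P l).totalDegree + (Q l).totalDegree)
          (fun _ _ => Nat.zero_le _) (Finset.mem_univ l)
        omega
      · have := Finset.single_le_sum (f := fun l => (P l).totalDegree + (Q l).totalDegree)
          (fun _ _ => Nat.zero_le _) (Finset.mem_univ l)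
        omega
    obtain ⟨E, hE⟩ := h3
    obtain ⟨c, hc0, hc⟩ := exists_rel h y hy hk (fun l => aeval (gorb φ y i) (z' l)) E hE
    refine ⟨c, hc0, fun m => ?_⟩
    have h4 := val_aeval y x A (fun l => aeval (gorb φ y i) (z' l))
      (fun n l => eval (x (n + i)) (z' l)) h2 c
    have h5 := dense_val_zero y x A hxy _ _ h4 hc (n₀ + m * d) ⟨m, rfl⟩
    have h6 : eval (x (n₀ + m * d + i)) (aeval z' c) =
        eval (fun l => eval (x (n₀ + m * d + i)) (z' l)) c := by
      have : (eval (x (n₀ + m * d + i))).comp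
          (aeval z' : MvPolynomial (Fin k') K →ₐ[K] MvPolynomial (Fin N) K).toRingHom =
          eval (fun l => eval (x (n₀ + m * d + i)) (z' l)) := by
        apply MvPolynomial.ringHom_ext
        · intro r
          simp
        · intro j
          simp
      exact RingHom.congr_fun this c
    rw [h6]
    exact h5
  choose c hc0 hc using key
  have hk' : 0 < k' := by omega
  refine ⟨(∏ i ∈ Finset.range d, aeval z' (c i)) *
    ∏ n ∈ Finset.range n₀, (z' ⟨0, hk'⟩ - C (eval (x n) (z' ⟨0, hk'⟩))), ?_, ?_⟩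
  · intro hmem
    rcases hp.mem_or_mem hmem with h1 | h1
    · obtain ⟨i, -, hi⟩ := (hp.prod_mem_iff).1 h1
      exact hc0 i (hz' _ hi)
    · obtain ⟨n, -, hn⟩ := (hp.prod_mem_iff).1 h1
      have h2 : z' ⟨0, hk'⟩ - C (eval (x n) (z' ⟨0, hk'⟩)) =
          aeval z' (X ⟨0, hk'⟩ - C (eval (x n) (z' ⟨0, hk'⟩)) : MvPolynomial (Fin k') K) := by
        simp [MvPolynomial.algebraMap_eq]
      rw [h2] at hn
      have h3 := hz' _ hn
      have h4 := congrArg (fun q => coeff (Finsupp.single (⟨0, hk'⟩ : Fin k') 1) q) h3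
      have h5 : ¬ (0 : Fin k' →₀ ℕ) = Finsupp.single (⟨0, hk'⟩ : Fin k') 1 := by
        intro h
        have := DFunLike.congr_fun h (⟨0, hk'⟩ : Fin k')
        simp at this
      simp [coeff_C, h5] at h4
  · intro n
    rw [map_mul]
    rcases lt_or_ge n n₀ with hlt | hge
    · have : eval (x n) (∏ n ∈ Finset.range n₀, (z' ⟨0, hk'⟩ - C (eval (x n) (z' ⟨0, hk'⟩)))) = 0 := by
        rw [map_prod]
        exact Finset.prod_eq_zero (Finset.mem_range.2 hlt) (by simp)
      rw [this, mul_zero]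
    · have h1 : n = n₀ + (n - n₀) / d * d + (n - n₀) % d := by
        have := Nat.div_add_mod (n - n₀) d
        rw [mul_comm] at this
        omega
      have h2 : eval (x n) (∏ i ∈ Finset.range d, aeval z' (c i)) = 0 := by
        rw [map_prod]
        apply Finset.prod_eq_zero (Finset.mem_range.2 (Nat.mod_lt (n - n₀) (by omega)))
        have := hc ((n - n₀) % d) ((n - n₀) / d)
        rw [← h1] at this
        exact this
      rw [h2, zero_mul]

end Pool.Agent.H.MP_31a675_nt.W
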