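import Pool.Agent.H.MP_31a675_nt.W.Cut
import Pool.Agent.H.MP_31a675_nt.W.Vals

/-!
# Invariance of a robust variety under an iterate
-/

namespace Pool.Agent.H.MP_31a675_nt.W

open MvPolynomial

variable {K : Type} [Field K] {N : ℕ} {L : Type} [Field L] [Algebra K L]

/-- For `g ∈ q` of degree at most `(μ + 1) ^ 2` clear the denominators in `aeval (gorb φ y d) g`
(`clear`, with `e = (μ + 1) ^ 2` and degrees at most `S`); the polynomial obtained vanishes at the
`x n`, `n ∈ A'`, since `x n`, `x (n + d)` are on the variety (`val_orbit`, `val_transfer`). By `hrob` it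
vanishes at `y`. So `aeval (gorb φ y d) g = 0`, and `sys_cut` for the point `gorb φ y d` gives the
same for all `g ∈ q`. -/
theorem invariant [Infinite K] {I : Ideal (MvPolynomial (Fin N) K)} {k μ : ℕ}
    {z : Fin k → MvPolynomial (Fin N) K} {b : Fin μ → MvPolynomial (Fin N) K} (h : Sys I z b)
    (q : Ideal (MvPolynomial (Fin N) K)) (hq : q.IsPrime) (hI : I ≤ q)
    (hz : ∀ p : MvPolynomial (Fin k) K, aeval z p ∈ q → p = 0)
    (φ : Fin (N + 1) → MvPolynomial (Fin N) K) (y : Fin N → L)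
    (hy : ∀ g : MvPolynomial (Fin N) K, aeval y g = 0 ↔ g ∈ q) (x : ℕ → Fin N → K)
    (h0 : ∀ n, eval (x n) (φ 0) ≠ 0)
    (hx : ∀ n i, x (n + 1) i = eval (x n) (φ i.succ) / eval (x n) (φ 0)) (d S : ℕ)
    (hcx : ∀ i, Cx K y S (gorb φ y d i)) (A' : Set ℕ) (hA' : A'.Nonempty)
    (h1 : ∀ n ∈ A', ∀ g ∈ q, eval (x n) g = 0) (h2 : ∀ n ∈ A', ∀ g ∈ q, eval (x (n + d)) g = 0)
    (hrob : ∀ Θ : MvPolynomial (Fin N) K, Θ.totalDegree ≤ N * (μ + 1) ^ 2 * S →
      (∀ n ∈ A', eval (x n) Θ = 0) → aeval y Θ = 0) :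
    ∀ g : MvPolynomial (Fin N) K, aeval y g = 0 → aeval (gorb φ y d) g = 0 := by
  have hxy : ∀ n ∈ A', ∀ g : MvPolynomial (Fin N) K, aeval y g = 0 → eval (x n) g = 0 :=
    fun n hn g hg => h1 n hn g ((hy g).1 hg)
  have hval := (val_orbit φ y x A' hA' hxy h0 hx d).2
  choose P Q hP hQ hQ0 hPQ using hcx
  have key : ∀ g ∈ q, g.totalDegree ≤ (μ + 1) ^ 2 → aeval (gorb φ y d) g = 0 := by
    intro g hg hdeg
    obtain ⟨Θ, hΘ, hf⟩ := clear ((μ + 1) ^ 2) S g hdeg P Q hP hQ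
    have hΘ0 : aeval y Θ = 0 := by
      refine hrob Θ hΘ fun n hn => ?_
      have h3 := hf (aeval (x n) : MvPolynomial (Fin N) K →ₐ[K] K) (x (n + d)) (fun i => by
        have := val_transfer y x A' hxy (gorb φ y d i) (fun n => x (n + d) i) (hval i) (P i) (Q i)
          (hPQ i) n hn
        simpa [aeval_eq_eval] using this)
      have h4 : aeval (x (n + d)) g = (0 : K) := by
        have := h2 n hn g hg
        simpa [aeval_eq_eval] using this
      rw [h4, mul_zero] at h3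
      simpa [aeval_eq_eval] using h3
    have h5 := hf (aeval y : MvPolynomial (Fin N) K →ₐ[K] L) (gorb φ y d) (fun i => by
      rw [← hPQ i]; ring)
    rw [hΘ0] at h5
    have h6 : (∏ i, aeval y (Q i)) ^ (μ + 1) ^ 2 ≠ (0 : L) :=
      pow_ne_zero _ (Finset.prod_ne_zero_iff.2 fun i _ => hQ0 i)
    exact (mul_eq_zero.1 h5.symm).resolve_left h6
  intro g hg
  exact sys_cut h q hq hI hz (gorb φ y d) key g ((hy g).1 hg)

end Pool.Agent.H.MP_31a675_nt.W
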