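import Mathlib

/-!
# Recurrence: a large set of times meets one of its translates in a large set
-/

namespace Pool.Agent.H.MP_31a675_nt.W

/-- The size of the intersection of two translates, in terms of the difference. -/
theorem recur_inter (A : Finset ℕ) (i j : ℕ) (hij : i < j) :
    ((A.image fun n => n + i) ∩ (A.image fun n => n + j)).card ≤
      (A.filter fun n => n + (j - i) ∈ A).card := by
  have : ((A.image fun n => n + i) ∩ (A.image fun n => n + j)) ⊆
      (A.filter fun n => n + (j - i) ∈ A).image fun n => n + j := by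
    intro x hx
    rw [Finset.mem_inter, Finset.mem_image, Finset.mem_image] at hx
    obtain ⟨⟨a, ha, rfl⟩, b, hb, hab⟩ := hx
    rw [Finset.mem_image]
    refine ⟨b, Finset.mem_filter.2 ⟨hb, ?_⟩, hab⟩
    have : b + (j - i) = a := by omega
    rw [this]
    exact ha
  exact (Finset.card_le_card this).trans Finset.card_image_le

/-- The translates `A + i`, `i < u`, lie in `{0, ..., T}`, and the sum of their sizes is at least
`2 (T + 1)`. As the size of the union is at least the sum of the sizes minus the sum over the pairs
`i < j` of the sizes of the intersections, the last sum is at least `T + 1`; there are at most `u ^ 2`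
pairs; `(A + i) ∩ (A + j)` has the size of `{n ∈ A | n + (j - i) ∈ A}`. -/
theorem recur (A : Finset ℕ) (T u : ℕ) (hA : ∀ n ∈ A, n + u ≤ T) (hu : 2 * (T + 1) ≤ u * A.card) :
    ∃ d, 1 ≤ d ∧ d < u ∧ T + 1 ≤ (A.filter fun n => n + d ∈ A).card * u ^ 2 := by
  by_contra hcon
  push Not at hcon
  have hcon' : ∀ d, 1 ≤ d → d < u → (A.filter fun n => n + d ∈ A).card * u ^ 2 ≤ T := by
    intro d h1 h2
    have := hcon d h1 h2
    omega
  have hu0 : 0 < u := by
    rcases Nat.eq_zero_or_pos u with h | h
    · rw [h] at hu
      omega
    · exact h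
  set S : ℕ → Finset ℕ := fun i => A.image fun n => n + i with hS
  have hScard : ∀ i, (S i).card = A.card := by
    intro i
    exact Finset.card_image_of_injective _ (add_left_injective i)
  have hSsub : ∀ i ∈ Finset.range u, S i ⊆ Finset.range (T + 1) := by
    intro i hi x hx
    rw [Finset.mem_range] at hi
    rw [hS, Finset.mem_image] at hx
    obtain ⟨n, hn, rfl⟩ := hx
    have := hA n hn
    rw [Finset.mem_range]
    omega
  set g : ℕ → ℕ → ℕ := fun i x => if x ∈ S i then 1 else 0 with hg
  set f : ℕ → ℕ := fun x => ∑ i ∈ Finset.range u, g i x with hf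
  have h1 : ∑ x ∈ Finset.range (T + 1), f x = u * A.card := by
    rw [hf, Finset.sum_comm]
    have : ∀ i ∈ Finset.range u, ∑ x ∈ Finset.range (T + 1), g i x = A.card := by
      intro i hi
      rw [hg]
      simp only
      rw [← Finset.card_filter, ← hScard i]
      congr 1
      ext x
      rw [Finset.mem_filter]
      exact ⟨fun h => h.2, fun h => ⟨hSsub i hi h, h⟩⟩
    rw [Finset.sum_congr rfl this, Finset.sum_const, Finset.card_range, smul_eq_mul]
  have h2 : ∑ x ∈ Finset.range (T + 1), f x * f x =
      ∑ i ∈ Finset.range u, ∑ j ∈ Finset.range u, (S i ∩ S j).card := by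
    have e1 : ∀ x, f x * f x = ∑ i ∈ Finset.range u, ∑ j ∈ Finset.range u, g i x * g j x := by
      intro x
      rw [hf]
      simp only
      rw [Finset.sum_mul_sum]
    rw [Finset.sum_congr rfl fun x _ => e1 x, Finset.sum_comm]
    refine Finset.sum_congr rfl fun i hi => ?_
    rw [Finset.sum_comm]
    refine Finset.sum_congr rfl fun j hj => ?_
    have e2 : ∀ x, g i x * g j x = if x ∈ S i ∩ S j then 1 else 0 := by
      intro x
      rw [hg]
      simp only [Finset.mem_inter]
      by_cases p : x ∈ S i <;> by_cases q : x ∈ S j <;> simp [p, q]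
    rw [Finset.sum_congr rfl fun x _ => e2 x, ← Finset.card_filter]
    congr 1
    ext x
    rw [Finset.mem_filter]
    exact ⟨fun h => h.2, fun h => ⟨hSsub i hi (Finset.mem_inter.1 h).1, h⟩⟩
  have h3 : ∀ x, 3 * f x ≤ f x * f x + 2 := by
    intro x
    generalize f x = m
    rcases m with _ | _ | m
    · omega
    · omega
    · nlinarith
  have h4 : 3 * (u * A.card) ≤ (∑ x ∈ Finset.range (T + 1), f x * f x) + 2 * (T + 1) := by
    calc 3 * (u * A.card) = ∑ x ∈ Finset.range (T + 1), 3 * f x := by
          rw [← h1, Finset.mul_sum]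
      _ ≤ ∑ x ∈ Finset.range (T + 1), (f x * f x + 2) := Finset.sum_le_sum fun x _ => h3 x
      _ = _ := by
          rw [Finset.sum_add_distrib, Finset.sum_const, Finset.card_range, smul_eq_mul, mul_comm 2]
  have h5 : ∀ i ∈ Finset.range u, ∀ j ∈ Finset.range u,
      (S i ∩ S j).card * u ^ 2 ≤ (if i = j then A.card * u ^ 2 else 0) + T := by
    intro i hi j hj
    rw [Finset.mem_range] at hi hj
    by_cases hij : i = j
    · subst hij
      rw [if_pos rfl, Finset.inter_self, hScard]
      omega
    · rw [if_neg hij, zero_add]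
      rcases lt_or_gt_of_ne hij with h | h
      · have := recur_inter A i j h
        exact (Nat.mul_le_mul_right _ this).trans (hcon' (j - i) (by omega) (by omega))
      · have := recur_inter A j i h
        rw [Finset.inter_comm]
        exact (Nat.mul_le_mul_right _ this).trans (hcon' (i - j) (by omega) (by omega))
  have h6 : (∑ x ∈ Finset.range (T + 1), f x * f x) * u ^ 2 ≤ (u * A.card + T) * u ^ 2 := by
    rw [h2, Finset.sum_mul]
    have : ∀ i ∈ Finset.range u, (∑ j ∈ Finset.range u, (S i ∩ S j).card) * u ^ 2 ≤
        A.card * u ^ 2 + u * T := by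
      intro i hi
      rw [Finset.sum_mul]
      refine (Finset.sum_le_sum fun j hj => h5 i hi j hj).trans ?_
      rw [Finset.sum_add_distrib, Finset.sum_ite_eq, if_pos hi, Finset.sum_const,
        Finset.card_range, smul_eq_mul]
    refine (Finset.sum_le_sum this).trans ?_
    rw [Finset.sum_const, Finset.card_range, smul_eq_mul]
    apply le_of_eq
    ring
  have h7 := Nat.le_of_mul_le_mul_right h6 (by positivity)
  omega

end Pool.Agent.H.MP_31a675_nt.W
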