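import Pool.Agent.H.MP_31a675_nt.W.Level
import Pool.Agent.H.MP_31a675_nt.W.Comp
import Pool.Agent.H.MP_31a675_nt.W.Bound
import Pool.Agent.H.MP_31a675_nt.W.Recur
import Pool.Agent.H.MP_31a675_nt.W.Dense
import Pool.Agent.H.MP_31a675_nt.W.Inv

/-!
# The case of a level below the top
-/

namespace Pool.Agent.H.MP_31a675_nt.W

open MvPolynomial

variable {K : Type} [Field K] {N : ℕ}

/-- Every prime has a generic point: the fraction field of the residue ring. -/
theorem exists_generic {K : Type} [Field K] {N : ℕ} (q : Ideal (MvPolynomial (Fin N) K))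
    (hq : q.IsPrime) : ∃ (L : Type) (_ : Field L) (_ : Algebra K L) (y : Fin N → L),
      ∀ g : MvPolynomial (Fin N) K, aeval y g = 0 ↔ g ∈ q := by
  refine ⟨FractionRing (MvPolynomial (Fin N) K ⧸ q), inferInstance, inferInstance,
    fun i => algebraMap (MvPolynomial (Fin N) K ⧸ q) _ (Ideal.Quotient.mk q (X i)), fun g => ?_⟩
  have h1 : aeval (fun i => algebraMap (MvPolynomial (Fin N) K ⧸ q)
      (FractionRing (MvPolynomial (Fin N) K ⧸ q)) (Ideal.Quotient.mk q (X i))) g =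
      algebraMap (MvPolynomial (Fin N) K ⧸ q) (FractionRing (MvPolynomial (Fin N) K ⧸ q))
        (Ideal.Quotient.mk q g) := by
    have h2 : (aeval (fun i => algebraMap (MvPolynomial (Fin N) K ⧸ q)
        (FractionRing (MvPolynomial (Fin N) K ⧸ q)) (Ideal.Quotient.mk q (X i))) :
        MvPolynomial (Fin N) K →ₐ[K] _) =
        (IsScalarTower.toAlgHom K (MvPolynomial (Fin N) K ⧸ q)
          (FractionRing (MvPolynomial (Fin N) K ⧸ q))).comp (Ideal.Quotient.mkₐ K q) := by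
      apply MvPolynomial.algHom_ext
      intro i
      simp
    rw [h2]
    rfl
  rw [h1]
  constructor
  · intro h
    have h3 := (IsFractionRing.injective (MvPolynomial (Fin N) K ⧸ q)
      (FractionRing (MvPolynomial (Fin N) K ⧸ q))) (h.trans (map_zero _).symm)
    exact Ideal.Quotient.eq_zero_iff_mem.1 h3
  · intro h
    rw [Ideal.Quotient.eq_zero_iff_mem.2 h, map_zero]

/-- pigeonhole -/
theorem CoreLow_pigeon {α : Type*} [DecidableEq α] (A : Finset ℕ) (S : Finset α)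
    (f : ℕ → α → Prop) [∀ n q, Decidable (f n q)] (h : ∀ n ∈ A, ∃ q ∈ S, f n q)
    (hA : A.Nonempty) :
    ∃ q ∈ S, A.card ≤ S.card * (A.filter fun n => f n q).card := by
  obtain ⟨n₀, hn₀⟩ := hA
  obtain ⟨q₀, hq₀, -⟩ := h n₀ hn₀
  obtain ⟨q, hq, hmax⟩ := Finset.exists_max_image S (fun q => (A.filter fun n => f n q).card)
    ⟨q₀, hq₀⟩
  refine ⟨q, hq, ?_⟩
  have h1 : A ⊆ S.biUnion fun q => A.filter fun n => f n q := by
    intro n hn
    obtain ⟨q', hq', hf⟩ := h n hn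
    exact Finset.mem_biUnion.2 ⟨q', hq', Finset.mem_filter.2 ⟨hn, hf⟩⟩
  calc A.card ≤ (S.biUnion fun q => A.filter fun n => f n q).card := Finset.card_le_card h1
    _ ≤ ∑ q' ∈ S, (A.filter fun n => f n q').card := Finset.card_biUnion_le
    _ ≤ ∑ _q' ∈ S, (A.filter fun n => f n q).card := Finset.sum_le_sum fun q' hq' => hmax q' hq'
    _ = S.card * (A.filter fun n => f n q).card := by rw [Finset.sum_const, smul_eq_mul]

/-- The case of a level below the top. Let `(I, z, b, A)` be a system of level `k + 1` (`Lev`). By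
`sys_comp` and the pigeonhole principle there is a prime `q` with `(T + 1) ≤ |A_q| m a`. Let
`A₁ = {n ∈ A_q | n + s ≤ T}`; then `T + 1 ≤ 2 m a |A₁|` by `T_ge`. By `robust`, `m_ge`, `a_ge` a
polynomial of degree at most `N (m + 1) ^ 2 (1 + N δ) ^ (ρ + 1)` which vanishes on a subset `A'` of `A₁`
with `T + 1 ≤ |A'| 16 a ^ 2 m ^ 2` is in `q`. So `cx_bound` applies with `A = A₁`. `recur` with
`u = 4 a m` gives `d`; `invariant` with `A' = {n ∈ A₁ | n + d ∈ A₁}`, then `not_dense`. -/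
theorem core_low {K : Type} [Field K] [Infinite K] {N : ℕ} (hN : 1 ≤ N) (δ : ℕ) (hδ : 1 ≤ δ)
    (φ : Fin (N + 1) → MvPolynomial (Fin N) K) (hφ : ∀ i, (φ i).totalDegree ≤ δ)
    (p : Ideal (MvPolynomial (Fin N) K)) (hp : p.IsPrime) {r : ℕ}
    (z' : Fin r → MvPolynomial (Fin N) K)
    (hz' : ∀ c : MvPolynomial (Fin r) K, aeval z' c ∈ p → c = 0)
    (x : ℕ → Fin N → K) (h0 : ∀ n, eval (x n) (φ 0) ≠ 0)
    (hx : ∀ n i, x (n + 1) i = eval (x n) (φ i.succ) / eval (x n) (φ 0))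
    (T : ℕ) (m a s ρ : ℕ → ℕ) (hnum : Num N δ T r m a s ρ) (k : ℕ) (hk : k + 1 < r)
    (hnot : ¬ Lev x T (m k) (a k) k) (hlev : Lev x T (m (k + 1)) (a (k + 1)) (k + 1))
    (hdep : ∀ (tm : Fin (ρ (k + 1) + 1) → ℕ) (c : Fin (ρ (k + 1) + 1) → Fin N),
      (∀ i, tm i ≤ s (k + 1)) → ∃ ξ : (Fin (ρ (k + 1) + 1) → Fin 2) → K, ξ ≠ 0 ∧
        ∀ n, n + s (k + 1) ≤ T →
          ∑ J, ξ J * ∏ i, (![1, x (n + tm i) (c i)] : Fin 2 → K) (J i) = 0) :
    ∃ g : MvPolynomial (Fin N) K, g ∉ p ∧ ∀ n, eval (x n) g = 0 := by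
  classical
  obtain ⟨μ, I, z, b, A, hSys, hμ, hAT, hAcard, hAI⟩ := hlev
  obtain ⟨S, hScard, hSprime, hScover⟩ := sys_comp hSys
  have hkr : k < r := by omega
  have hm1 := hnum.m_pos (k + 1) (by omega)
  have ha1 := hnum.a_pos (k + 1) (by omega)
  have hs := hnum.s_ge k hkr
  have hTT := hnum.T_ge k hkr
  have hmm := hnum.m_ge k hkr
  have haa := hnum.a_ge k hkr
  generalize m (k + 1) = M at *
  generalize a (k + 1) = a' at *
  generalize s (k + 1) = s' at *
  generalize ρ (k + 1) = ρ' at *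
  have hAne : A.Nonempty := by
    rw [← Finset.card_pos]
    by_contra h
    have h' : A.card = 0 := by omega
    rw [h'] at hAcard
    omega
  obtain ⟨q, hqS, hqcard⟩ := CoreLow_pigeon A S (fun n q => ∀ g ∈ q, eval (x n) g = 0)
    (fun n hn => hScover (x n) (hAI n hn)) hAne
  obtain ⟨hq, hIq, hzq⟩ := hSprime q hqS
  set Aq := A.filter fun n => ∀ g ∈ q, eval (x n) g = 0 with hAq
  set A₁ := Aq.filter fun n => n + s' ≤ T with hA₁
  have hAqT : Aq ⊆ Finset.range (T + 1) := (Finset.filter_subset _ _).trans hAT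
  have hA₁T : A₁ ⊆ Finset.range (T + 1) := (Finset.filter_subset _ _).trans hAqT
  have hA₁q : ∀ n ∈ A₁, ∀ g ∈ q, eval (x n) g = 0 := fun n hn =>
    (Finset.mem_filter.1 (Finset.mem_filter.1 hn).1).2
  have hA₁s : ∀ n ∈ A₁, n + s' ≤ T := fun n hn => (Finset.mem_filter.1 hn).2
  -- the size of A₁
  have hcard1 : Aq.card ≤ A₁.card + s' := by
    have h1 : Aq ⊆ A₁ ∪ (Finset.Ico (T + 1 - s') (T + 1)) := by
      intro n hn
      have hnT := Finset.mem_range.1 (hAqT hn)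
      by_cases h : n + s' ≤ T
      · exact Finset.mem_union_left _ (Finset.mem_filter.2 ⟨hn, h⟩)
      · exact Finset.mem_union_right _ (Finset.mem_Ico.2 ⟨by omega, hnT⟩)
    refine (Finset.card_le_card h1).trans ((Finset.card_union_le _ _).trans ?_)
    rw [Nat.card_Ico]
    omega
  have hcard2 : T + 1 ≤ 2 * M * a' * A₁.card := by
    have h1 : T + 1 ≤ (M * Aq.card) * a' := by
      refine hAcard.trans (Nat.mul_le_mul_right _ (hqcard.trans ?_))
      exact Nat.mul_le_mul_right _ (hScard.trans hμ)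
    have h2 : (M * Aq.card) * a' ≤ (M * (A₁.card + s')) * a' :=
      Nat.mul_le_mul_right _ (Nat.mul_le_mul_left _ hcard1)
    have h3 : 2 * ((M * (A₁.card + s')) * a') = 2 * M * a' * A₁.card + 2 * s' * a' * M := by
      ring
    omega
  -- robustness
  have hrobust : ∀ (A' : Finset ℕ), A' ⊆ A₁ → T + 1 ≤ A'.card * (4 * a' * M) ^ 2 →
      ∀ Θ : MvPolynomial (Fin N) K,
        Θ.totalDegree ≤ N * (M + 1) ^ 2 * (1 + N * δ) ^ (ρ' + 1) →
        (∀ n ∈ A', eval (x n) Θ = 0) → Θ ∈ q := by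
    intro A' hA' hcard Θ hΘ hv
    by_contra hΘq
    have h1 := robust x T (m k) (a k) k hnot hSys q hq hIq hzq Θ hΘq
      (N * (M + 1) ^ 2 * (1 + N * δ) ^ (ρ' + 1)) hΘ ?_ A' (hA'.trans hA₁T)
      (fun n hn => hA₁q n (hA' hn)) hv
    · have h2 : A'.card * (4 * a' * M) ^ 2 ≤ A'.card * a k := by
        refine Nat.mul_le_mul_left _ (le_trans (le_of_eq ?_) haa)
        ring
      omega
    · refine le_trans ?_ hmm
      gcongr
  have hne : A₁.Nonempty := by
    rw [← Finset.card_pos]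
    by_contra h
    have h' : A₁.card = 0 := by omega
    rw [h'] at hcard2
    omega
  obtain ⟨L, _, _, y, hy⟩ := exists_generic q hq
  have hle1 : (1 + N * δ) ^ (ρ' + 1) ≤ N * (M + 1) ^ 2 * (1 + N * δ) ^ (ρ' + 1) := by
    refine Nat.le_mul_of_pos_left _ (Nat.mul_pos (by omega) (by positivity))
  have hA₁big : T + 1 ≤ A₁.card * (4 * a' * M) ^ 2 := by
    refine hcard2.trans ?_
    have h1 : 2 * M * a' ≤ (4 * a' * M) ^ 2 := by
      have h2 : 1 ≤ a' * M := Nat.mul_pos ha1 hm1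
      nlinarith
    calc 2 * M * a' * A₁.card ≤ (4 * a' * M) ^ 2 * A₁.card := Nat.mul_le_mul_right _ h1
      _ = _ := Nat.mul_comm _ _
  have hcx : ∀ j ≤ s', ∀ i, Cx K y ((1 + N * δ) ^ ρ') (gorb φ y j i) := fun j hj i =>
    cx_bound hN δ hδ φ hφ y x (A₁ : Set ℕ) (by simpa using hne)
      (fun n hn g hg => hA₁q n hn g ((hy g).1 hg)) h0 hx s' ρ'
      (fun Θ hΘ hv => (hy Θ).2 (hrobust A₁ (Finset.Subset.refl _) hA₁big Θ (hΘ.trans hle1) hv))
      (fun tm c htm => by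
        obtain ⟨ξ, hξ, h1⟩ := hdep tm c htm
        exact ⟨ξ, hξ, fun n hn => h1 n (hA₁s n hn)⟩) j hj i
  obtain ⟨d, hd1, hdu, hdcard⟩ := recur A₁ T (4 * a' * M)
    (fun n hn => by have := hA₁s n hn; omega) (by
      have h1 : 4 * a' * M * A₁.card = 2 * (2 * M * a' * A₁.card) := by ring
      omega)
  set A₂ := A₁.filter fun n => n + d ∈ A₁ with hA₂
  have hA₂ne : A₂.Nonempty := by
    rw [← Finset.card_pos]
    by_contra h
    have h' : A₂.card = 0 := by omega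
    rw [h'] at hdcard
    omega
  obtain ⟨n₀, hn₀⟩ := hA₂ne
  have hinv := invariant hSys q hq hIq hzq φ y hy x h0 hx d ((1 + N * δ) ^ ρ')
    (fun i => hcx d (by omega) i) (A₂ : Set ℕ) ⟨n₀, hn₀⟩
    (fun n hn g hg => hA₁q n (Finset.mem_filter.1 hn).1 g hg)
    (fun n hn g hg => hA₁q (n + d) (Finset.mem_filter.1 hn).2 g hg)
    (fun Θ hΘ hv => (hy Θ).2 (hrobust A₂ (Finset.filter_subset _ _) hdcard Θ (hΘ.trans ?_) hv))
  · exact not_dense (I' := I) (μ' := μ) hSys hk z' hp hz' φ y x (fun g hg => (hy g).2 (hIq hg)) h0 hx n₀ d hd1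
      (fun g hg => hA₁q n₀ (Finset.mem_filter.1 hn₀).1 g ((hy g).1 hg)) hinv
  · have h1 : (1 + N * δ) ^ ρ' ≤ (1 + N * δ) ^ (ρ' + 1) :=
      Nat.pow_le_pow_right (by omega) (by omega)
    gcongr

end Pool.Agent.H.MP_31a675_nt.W
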