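import Pool.Agent.H.MP_31a675_nt.W.Char

/-!
# Finiteness of the fibres
-/

namespace Pool.Agent.H.MP_31a675_nt.W

open MvPolynomial

variable {K : Type} [Field K] {N : ℕ}

/-- Over a given point `z (y)` there are only finitely many points of the variety of `q`: their
coordinates are roots of monic polynomials (`sys_char`). -/
theorem finite_fibre {I : Ideal (MvPolynomial (Fin N) K)} {k μ : ℕ}
    {z : Fin k → MvPolynomial (Fin N) K} {b : Fin μ → MvPolynomial (Fin N) K} (h : Sys I z b)
    {Ω : Type} [Field Ω] [Algebra K Ω] (ζ : Fin k → Ω) :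
    {v : Fin N → Ω | (∀ g ∈ I, aeval v g = 0) ∧ ∀ i, aeval v (z i) = ζ i}.Finite := by
  classical
  have hex : ∀ i : Fin N, ∃ χ : Polynomial (MvPolynomial (Fin k) K), χ.Monic ∧
      Polynomial.eval₂ (aeval z : MvPolynomial (Fin k) K →ₐ[K] MvPolynomial (Fin N) K).toRingHom
        (X i) χ ∈ I := by
    intro i
    obtain ⟨χ, h1, -, -, h2⟩ := sys_char h (X i) 1 (by simp)
    exact ⟨χ, h1, h2⟩
  choose χ hmon hχ using hex
  set F : Fin N → Polynomial Ω := fun i => (χ i).map
    (aeval ζ : MvPolynomial (Fin k) K →ₐ[K] Ω).toRingHom with hF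
  have hF0 : ∀ i, F i ≠ 0 := fun i => ((hmon i).map _).ne_zero
  refine Set.Finite.subset (s := Set.pi Set.univ fun i => {t : Ω | (F i).IsRoot t}) ?_ ?_
  · refine Set.Finite.pi fun i => ?_
    exact Polynomial.finite_setOfPred_isRoot (hF0 i)
  · rintro v ⟨hv, hz⟩
    simp only [Set.mem_pi, Set.mem_univ, true_imp_iff, Set.mem_ofPred_eq]
    intro i
    have h1 := hv _ (hχ i)
    have h2 : (aeval v : MvPolynomial (Fin N) K →ₐ[K] Ω).toRingHom.comp
        (aeval z : MvPolynomial (Fin k) K →ₐ[K] MvPolynomial (Fin N) K).toRingHom =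
        (aeval ζ : MvPolynomial (Fin k) K →ₐ[K] Ω).toRingHom := by
      have h3 : (aeval v : MvPolynomial (Fin N) K →ₐ[K] Ω).comp
          (aeval z : MvPolynomial (Fin k) K →ₐ[K] MvPolynomial (Fin N) K) = aeval ζ := by
        refine MvPolynomial.algHom_ext fun j => ?_
        simp [hz j]
      rw [← h3]
      rfl
    have h4 : aeval v (Polynomial.eval₂ (aeval z : MvPolynomial (Fin k) K →ₐ[K]
        MvPolynomial (Fin N) K).toRingHom (X i) (χ i)) =
        Polynomial.eval₂ (aeval ζ : MvPolynomial (Fin k) K →ₐ[K] Ω).toRingHom (v i) (χ i) := by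
      have h5 := Polynomial.hom_eval₂ (χ i) (aeval z : MvPolynomial (Fin k) K →ₐ[K]
        MvPolynomial (Fin N) K).toRingHom (aeval v : MvPolynomial (Fin N) K →ₐ[K] Ω).toRingHom
        (X i)
      rw [h2] at h5
      simpa using h5
    rw [Polynomial.IsRoot.def, hF]
    simp only
    rw [Polynomial.eval_map, ← h4, h1]

end Pool.Agent.H.MP_31a675_nt.W
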