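import Pool.Agent.H.MP_31a675_nt.W.CutB
import Pool.Agent.H.MP_31a675_nt.W.CutC

/-!
# A variety is cut out by its equations of small degree
-/

namespace Pool.Agent.H.MP_31a675_nt.W

open MvPolynomial

variable {K : Type} [Field K] {N : ℕ}

/-- **The equations of degree at most `(μ + 1) ^ 2` cut out the variety of `q`.** Pass to an algebraic
closure of `Ω`. For every linear form `w` there is `v` as in `exists_lift`; there are finitely many
`v`, and a vector space over an infinite field is not a finite union of proper subspaces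
(`Subspace.biUnion_ne_univ_of_top_notMem`), so one `v` has `w (v) = w (y)` for all linear forms
`w = ∑ c i * X i`; so `v = y`. -/
theorem sys_cut [Infinite K] {I : Ideal (MvPolynomial (Fin N) K)} {k μ : ℕ}
    {z : Fin k → MvPolynomial (Fin N) K} {b : Fin μ → MvPolynomial (Fin N) K} (h : Sys I z b)
    (q : Ideal (MvPolynomial (Fin N) K)) (hq : q.IsPrime) (hI : I ≤ q)
    (hz : ∀ p : MvPolynomial (Fin k) K, aeval z p ∈ q → p = 0)
    {Ω : Type} [Field Ω] [Algebra K Ω] (y : Fin N → Ω)
    (hy : ∀ g ∈ q, g.totalDegree ≤ (μ + 1) ^ 2 → aeval y g = 0) :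
    ∀ g ∈ q, aeval y g = 0 := by
  classical
  let Ω' := AlgebraicClosure Ω
  let y' : Fin N → Ω' := fun i => algebraMap Ω Ω' (y i)
  have hmap : ∀ g : MvPolynomial (Fin N) K, aeval y' g = algebraMap Ω Ω' (aeval y g) := by
    intro g
    exact aeval_algebraMap_apply Ω' y g
  have hy' : ∀ g ∈ q, g.totalDegree ≤ (μ + 1) ^ 2 → aeval y' g = 0 := by
    intro g hg hd
    rw [hmap, hy g hg hd, map_zero]
  have hfin := finite_fibre h (Ω := Ω') (fun i => aeval y' (z i))
  -- the finitely many points
  have hfin2 : {v : Fin N → Ω' | (∀ g ∈ q, aeval v g = 0) ∧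
      ∀ i, aeval v (z i) = aeval y' (z i)}.Finite :=
    hfin.subset fun v hv => ⟨fun g hg => hv.1 g (hI hg), hv.2⟩
  set S : Finset (Fin N → Ω') := hfin2.toFinset with hS
  -- the subspaces
  let L : (Fin N → Ω') → (Fin N → K) →ₗ[K] Ω' := fun v =>
    { toFun := fun c => ∑ i, c i • (v i - y' i)
      map_add' := by
        intro a b
        rw [← Finset.sum_add_distrib]
        exact Finset.sum_congr rfl fun i _ => by rw [Pi.add_apply, add_smul]
      map_smul' := by
        intro r a
        rw [RingHom.id_apply, Finset.smul_sum]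
        exact Finset.sum_congr rfl fun i _ => by rw [Pi.smul_apply, smul_assoc] }
  have hex : ∃ v ∈ S, LinearMap.ker (L v) = ⊤ := by
    by_contra hno
    push Not at hno
    have h1 := Subspace.biUnion_ne_univ_of_top_notMem (k := K) (E := Fin N → K)
      (s := S.image fun v => LinearMap.ker (L v)) (by
        intro hmem
        obtain ⟨v, hv, he⟩ := Finset.mem_image.1 hmem
        exact hno v hv he)
    apply h1
    rw [Set.eq_univ_iff_forall]
    intro c
    obtain ⟨v, hv1, hv2, hv3⟩ := exists_lift h q hq hI hz y' hy' (∑ i, C (c i) * X i) (by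
      refine (totalDegree_finsetSum_le (d := 1) fun i _ => ?_)
      refine (totalDegree_mul _ _).trans ?_
      rw [totalDegree_C, totalDegree_X])
    refine Set.mem_iUnion₂.2 ⟨LinearMap.ker (L v), Finset.mem_image.2 ⟨v, ?_, rfl⟩, ?_⟩
    · rw [hS, Set.Finite.mem_toFinset]
      exact ⟨hv1, hv2⟩
    · rw [SetLike.mem_coe, LinearMap.mem_ker]
      change ∑ i, c i • (v i - y' i) = 0
      rw [map_sum, map_sum] at hv3
      simp only [map_mul, aeval_C, aeval_X] at hv3
      simp only [Algebra.smul_def, mul_sub, Finset.sum_sub_distrib]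
      rw [hv3, sub_self]
  obtain ⟨v, hv, htop⟩ := hex
  rw [hS, Set.Finite.mem_toFinset] at hv
  have hvy : v = y' := by
    funext i
    have h2 : (Pi.single i 1 : Fin N → K) ∈ LinearMap.ker (L v) := by
      rw [htop]
      trivial
    rw [LinearMap.mem_ker] at h2
    change ∑ j, (Pi.single i 1 : Fin N → K) j • (v j - y' j) = 0 at h2
    rw [Finset.sum_eq_single i (fun j _ hj => by rw [Pi.single_eq_of_ne hj, zero_smul])
      (fun hi => absurd (Finset.mem_univ i) hi), Pi.single_eq_same, one_smul] at h2
    exact sub_eq_zero.1 h2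
  intro g hg
  have h3 := hv.1 g hg
  rw [hvy, hmap] at h3
  exact (map_eq_zero_iff _ (algebraMap Ω Ω').injective).1 h3

end Pool.Agent.H.MP_31a675_nt.W
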