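import Pool.Agent.H.MP_31a675_nt.W.Char

/-!
# The minimal equation of a linear form
-/

namespace Pool.Agent.H.MP_31a675_nt.W

open MvPolynomial

variable {K : Type} [Field K] {N : ℕ}

theorem CutA_deg {k : ℕ} (f : Fin k → MvPolynomial (Fin N) K) (hf : ∀ i, (f i).totalDegree ≤ 1)
    (p : MvPolynomial (Fin k) K) : (aeval f p).totalDegree ≤ p.totalDegree := by
  rw [aeval_def, eval₂_eq']
  refine (totalDegree_finset_sum _ _).trans (Finset.sup_le fun d hd => ?_)
  refine (totalDegree_mul _ _).trans ?_
  rw [algebraMap_eq, totalDegree_C, zero_add]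
  refine (totalDegree_finset_prod _ _).trans ?_
  refine le_trans ?_ (le_totalDegree hd)
  rw [Finsupp.sum_fintype _ _ (by simp)]
  refine Finset.sum_le_sum fun i _ => ?_
  refine (totalDegree_pow _ _).trans ?_
  calc d i * (f i).totalDegree ≤ d i * 1 := Nat.mul_le_mul_left _ (hf i)
    _ = d i := mul_one _

theorem CutA_eval {k : ℕ} (z : Fin k → MvPolynomial (Fin N) K) (w : MvPolynomial (Fin N) K)
    (p : MvPolynomial (Fin (k + 1)) K) :
    Polynomial.eval₂ (aeval z : MvPolynomial (Fin k) K →ₐ[K] MvPolynomial (Fin N) K).toRingHom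
        w (finSuccEquiv K k p) = aeval (Fin.cons w z : Fin (k + 1) → MvPolynomial (Fin N) K) p := by
  induction p using MvPolynomial.induction_on with
  | C a =>
    rw [finSuccEquiv_apply]
    simp
  | add p q hp hq => rw [map_add, Polynomial.eval₂_add, hp, hq, map_add]
  | mul_X p i hp =>
    rw [map_mul, Polynomial.eval₂_mul, hp, map_mul]
    congr 1
    refine Fin.cases ?_ (fun j => ?_) i
    · simp [finSuccEquiv_X_zero]
    · simp [finSuccEquiv_X_succ]

theorem CutA_symm_deg {k : ℕ} (χ : Polynomial (MvPolynomial (Fin k) K)) (D m : ℕ)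
    (hm : χ.natDegree ≤ m) (hD : ∀ t, (χ.coeff t).totalDegree ≤ D) :
    ((finSuccEquiv K k).symm χ).totalDegree ≤ D + m := by
  rw [χ.as_sum_range_C_mul_X_pow]
  rw [map_sum]
  refine (totalDegree_finset_sum _ _).trans (Finset.sup_le fun t ht => ?_)
  have h1 : (finSuccEquiv K k).symm (Polynomial.C (χ.coeff t) * Polynomial.X ^ t) =
      rename Fin.succ (χ.coeff t) * X 0 ^ t := by
    apply (finSuccEquiv K k).injective
    rw [AlgEquiv.apply_symm_apply, map_mul, map_pow, finSuccEquiv_X_zero]
    congr 1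
    generalize χ.coeff t = c
    induction c using MvPolynomial.induction_on with
    | C a => simp [finSuccEquiv_apply]
    | add p q hp hq => rw [map_add, map_add, map_add, ← hp, ← hq]
    | mul_X p i hp => rw [map_mul, map_mul, map_mul, ← hp, rename_X, finSuccEquiv_X_succ]
  rw [h1]
  refine (totalDegree_mul _ _).trans ?_
  refine add_le_add ((totalDegree_rename_le _ _).trans (hD t)) ?_
  refine (totalDegree_pow _ _).trans ?_
  rw [totalDegree_X, mul_one]
  have := Finset.mem_range.1 ht
  omega

/-- For every linear form `w` (or any polynomial of degree at most one) there is an equation of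
integral dependence of small degree which is the minimal polynomial. Let `P = MvPolynomial (Fin k) K`
and `B` the residue ring modulo `q`, an algebra over `P` by `z`; `P` is integrally closed and `B` is a
domain, integral over `P`. The minimal polynomial `Q` of `w` divides the polynomial `χ` of `sys_char`
(`minpoly.isIntegrallyClosed_dvd`). The total degree of `Q`, as a polynomial in `k + 1` variables
(`finSuccEquiv`), is at most the one of `χ` (`totalDegree_mul_of_isDomain`), which is at most
`μ * (1 + μ) + μ`. So `g = Q (z, w)` has total degree at most `(μ + 1) ^ 2`. The kernel of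
`P[T] → B`, `T ↦ w`, is generated by `Q`. -/
theorem exists_min {I : Ideal (MvPolynomial (Fin N) K)} {k μ : ℕ}
    {z : Fin k → MvPolynomial (Fin N) K} {b : Fin μ → MvPolynomial (Fin N) K} (h : Sys I z b)
    (q : Ideal (MvPolynomial (Fin N) K)) (hq : q.IsPrime) (hI : I ≤ q)
    (hz : ∀ p : MvPolynomial (Fin k) K, aeval z p ∈ q → p = 0)
    (w : MvPolynomial (Fin N) K) (hw : w.totalDegree ≤ 1) :
    ∃ Q : Polynomial (MvPolynomial (Fin k) K), Q.Monic ∧
      (Polynomial.eval₂ (aeval z : MvPolynomial (Fin k) K →ₐ[K] MvPolynomial (Fin N) K).toRingHom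
        w Q).totalDegree ≤ (μ + 1) ^ 2 ∧
      ∀ G : Polynomial (MvPolynomial (Fin k) K),
        Polynomial.eval₂ (aeval z : MvPolynomial (Fin k) K →ₐ[K] MvPolynomial (Fin N) K).toRingHom
          w G ∈ q ↔ Q ∣ G := by
  obtain ⟨χ, hmon, hdeg, hcoef, hev⟩ := sys_char h w 1 hw
  let φ : MvPolynomial (Fin k) K →+* (MvPolynomial (Fin N) K ⧸ q) :=
    (Ideal.Quotient.mk q).comp
      (aeval z : MvPolynomial (Fin k) K →ₐ[K] MvPolynomial (Fin N) K).toRingHom
  let _ : Algebra (MvPolynomial (Fin k) K) (MvPolynomial (Fin N) K ⧸ q) := φ.toAlgebra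
  have hφ : algebraMap (MvPolynomial (Fin k) K) (MvPolynomial (Fin N) K ⧸ q) = φ := rfl
  have hinj : Function.Injective (algebraMap (MvPolynomial (Fin k) K) (MvPolynomial (Fin N) K ⧸ q)) := by
    rw [injective_iff_map_eq_zero]
    intro p hp
    apply hz
    rw [hφ] at hp
    exact Ideal.Quotient.eq_zero_iff_mem.1 hp
  have hfs : FaithfulSMul (MvPolynomial (Fin k) K) (MvPolynomial (Fin N) K ⧸ q) :=
    (faithfulSMul_iff_algebraMap_injective _ _).2 hinj
  have hae : ∀ G : Polynomial (MvPolynomial (Fin k) K),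
      Polynomial.aeval (Ideal.Quotient.mk q w) G = Ideal.Quotient.mk q
        (Polynomial.eval₂ (aeval z : MvPolynomial (Fin k) K →ₐ[K] MvPolynomial (Fin N) K).toRingHom
          w G) := by
    intro G
    rw [Polynomial.hom_eval₂, Polynomial.aeval_def, hφ]
  have hiff : ∀ G : Polynomial (MvPolynomial (Fin k) K),
      Polynomial.eval₂ (aeval z : MvPolynomial (Fin k) K →ₐ[K] MvPolynomial (Fin N) K).toRingHom
          w G ∈ q ↔ Polynomial.aeval (Ideal.Quotient.mk q w) G = 0 := by
    intro G
    rw [hae, Ideal.Quotient.eq_zero_iff_mem]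
  have hint : IsIntegral (MvPolynomial (Fin k) K) (Ideal.Quotient.mk q w) :=
    ⟨χ, hmon, by rw [← Polynomial.aeval_def]; exact (hiff χ).1 (hI hev)⟩
  have hdvd : ∀ G : Polynomial (MvPolynomial (Fin k) K),
      Polynomial.aeval (Ideal.Quotient.mk q w) G = 0 ↔
        minpoly (MvPolynomial (Fin k) K) (Ideal.Quotient.mk q w) ∣ G := by
    intro G
    exact minpoly.isIntegrallyClosed_dvd_iff hint G
  refine ⟨minpoly (MvPolynomial (Fin k) K) (Ideal.Quotient.mk q w), minpoly.monic hint, ?_,
    fun G => (hiff G).trans (hdvd G)⟩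
  set Q := minpoly (MvPolynomial (Fin k) K) (Ideal.Quotient.mk q w) with hQ
  obtain ⟨R, hR⟩ := (hdvd χ).1 ((hiff χ).1 (hI hev))
  have h1 : Polynomial.eval₂ (aeval z : MvPolynomial (Fin k) K →ₐ[K] MvPolynomial (Fin N) K).toRingHom
      w Q = aeval (Fin.cons w z : Fin (k + 1) → MvPolynomial (Fin N) K)
        ((finSuccEquiv K k).symm Q) := by
    rw [← CutA_eval, AlgEquiv.apply_symm_apply]
  rw [h1]
  refine (CutA_deg _ (fun i => ?_) _).trans ?_
  · refine Fin.cases ?_ (fun j => ?_) i
    · simpa using hw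
    · simpa using h.zdeg j
  · have hχ0 : χ ≠ 0 := hmon.ne_zero
    have hR0 : R ≠ 0 := by
      rintro rfl
      exact hχ0 (by rw [hR, mul_zero])
    have hQ0 : Q ≠ 0 := by
      intro h0
      exact hχ0 (by rw [hR, h0, zero_mul])
    have h2 : ((finSuccEquiv K k).symm χ).totalDegree =
        ((finSuccEquiv K k).symm Q).totalDegree + ((finSuccEquiv K k).symm R).totalDegree := by
      rw [hR, map_mul]
      apply totalDegree_mul_of_isDomain
      · intro h0
        exact hQ0 ((map_eq_zero_iff _ (finSuccEquiv K k).symm.injective).1 h0)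
      · intro h0
        exact hR0 ((map_eq_zero_iff _ (finSuccEquiv K k).symm.injective).1 h0)
    have h3 := CutA_symm_deg χ (μ * (1 + μ)) μ hdeg.le hcoef
    have h4 : μ * (1 + μ) + μ ≤ (μ + 1) ^ 2 := by nlinarith
    omega

end Pool.Agent.H.MP_31a675_nt.W
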