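import Pool.Agent.H.MP_31a675_nt.W.CutA

/-!
# Lifting a root of the minimal equation to a point
-/

namespace Pool.Agent.H.MP_31a675_nt.W

open MvPolynomial

variable {K : Type} [Field K] {N : ℕ}

theorem CutB_ext {S B Ω : Type} [CommRing S] [CommRing B] [Field Ω] [IsAlgClosed Ω]
    (ev : S →+* B) (hev : ev.IsIntegral) (θ : S →+* Ω) (hk : RingHom.ker ev ≤ RingHom.ker θ) :
    ∃ ψ : B →+* Ω, ψ.comp ev = θ := by
  let : Algebra S B := ev.toAlgebra
  have hint : Algebra.IsIntegral S B := ⟨hev⟩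
  have hpr : (RingHom.ker θ).IsPrime := RingHom.ker_isPrime θ
  obtain ⟨P, -, hP, hc⟩ := Ideal.exists_ideal_over_prime_of_isIntegral (RingHom.ker θ)
    (⊥ : Ideal B) (by
      intro a ha
      refine hk ?_
      rw [RingHom.mem_ker]
      exact ha)
  have hl : ∀ a ∈ P.comap (algebraMap S B), θ a = 0 := fun a ha => by
    rw [hc] at ha
    exact ha
  let : Algebra (S ⧸ P.comap (algebraMap S B)) Ω :=
    (Ideal.Quotient.lift (P.comap (algebraMap S B)) θ hl).toAlgebra
  have hinj : Function.Injective (algebraMap (S ⧸ P.comap (algebraMap S B)) Ω) := by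
    rw [RingHom.injective_iff_ker_eq_bot, eq_bot_iff]
    intro x hx
    obtain ⟨a, rfl⟩ := Ideal.Quotient.mk_surjective x
    have h1 : θ a = 0 := hx
    have h2 : a ∈ P.comap (algebraMap S B) := by
      rw [hc]
      exact h1
    exact Ideal.Quotient.eq_zero_iff_mem.2 h2
  have hinj2 : Function.Injective
      (algebraMap (S ⧸ P.comap (algebraMap S B)) (B ⧸ P)) := Ideal.algebraMap_quotient_injective
  have hdom : IsDomain (S ⧸ P.comap (algebraMap S B)) :=
    (Ideal.Quotient.isDomain_iff_prime _).2 (by rw [hc]; exact hpr)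
  have hdomB : IsDomain (B ⧸ P) := (Ideal.Quotient.isDomain_iff_prime _).2 hP
  have ht1 : Module.IsTorsionFree (S ⧸ P.comap (algebraMap S B)) Ω :=
    Module.isTorsionFree_iff_algebraMap_injective.2 hinj
  have ht2 : Module.IsTorsionFree (S ⧸ P.comap (algebraMap S B)) (B ⧸ P) :=
    Module.isTorsionFree_iff_algebraMap_injective.2 hinj2
  have hi : Algebra.IsIntegral (S ⧸ P.comap (algebraMap S B)) (B ⧸ P) := by
    infer_instance
  have ha : Algebra.IsAlgebraic (S ⧸ P.comap (algebraMap S B)) (B ⧸ P) := by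
    infer_instance
  let L : (B ⧸ P) →ₐ[S ⧸ P.comap (algebraMap S B)] Ω := IsAlgClosed.lift
  refine ⟨L.toRingHom.comp (Ideal.Quotient.mk P), ?_⟩
  ext s
  have h1 : L (algebraMap (S ⧸ P.comap (algebraMap S B)) (B ⧸ P)
      (Ideal.Quotient.mk _ s)) = algebraMap (S ⧸ P.comap (algebraMap S B)) Ω
      (Ideal.Quotient.mk _ s) := L.commutes _
  exact h1

/-- If the minimal equation of `w` is satisfied by the point `y` over the algebraically closed field
`Ω`, then there is a point `v` of the variety of `q` with `z (v) = z (y)` and `w (v) = w (y)`. By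
`exists_min` the map `P[T] / (Q) → Ω`, `z ↦ z (y)`, `T ↦ w (y)` is defined on the subring `P[w]` of
`B`; `B` is integral over it. Let `𝔯` be its kernel; there is a prime of `B` over it
(`Ideal.exists_ideal_over_prime_of_isIntegral`), and `IsAlgClosed.lift` extends the map. -/
theorem exists_lift {I : Ideal (MvPolynomial (Fin N) K)} {k μ : ℕ}
    {z : Fin k → MvPolynomial (Fin N) K} {b : Fin μ → MvPolynomial (Fin N) K} (h : Sys I z b)
    (q : Ideal (MvPolynomial (Fin N) K)) (hq : q.IsPrime) (hI : I ≤ q)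
    (hz : ∀ p : MvPolynomial (Fin k) K, aeval z p ∈ q → p = 0)
    {Ω : Type} [Field Ω] [IsAlgClosed Ω] [Algebra K Ω] (y : Fin N → Ω)
    (hy : ∀ g ∈ q, g.totalDegree ≤ (μ + 1) ^ 2 → aeval y g = 0)
    (w : MvPolynomial (Fin N) K) (hw : w.totalDegree ≤ 1) :
    ∃ v : Fin N → Ω, (∀ g ∈ q, aeval v g = 0) ∧ (∀ i, aeval v (z i) = aeval y (z i)) ∧
      aeval v w = aeval y w := by
  obtain ⟨Q, -, hQdeg, hQ⟩ := exists_min h q hq hI hz w hw
  -- the two maps on `P[T]`
  let φ : MvPolynomial (Fin k) K →+* MvPolynomial (Fin N) K ⧸ q :=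
    (Ideal.Quotient.mk q).comp (aeval z : MvPolynomial (Fin k) K →ₐ[K] MvPolynomial (Fin N) K).toRingHom
  let ev0 : Polynomial (MvPolynomial (Fin k) K) →+* MvPolynomial (Fin N) K :=
    Polynomial.eval₂RingHom
      (aeval z : MvPolynomial (Fin k) K →ₐ[K] MvPolynomial (Fin N) K).toRingHom w
  let ev : Polynomial (MvPolynomial (Fin k) K) →+* MvPolynomial (Fin N) K ⧸ q :=
    (Ideal.Quotient.mk q).comp ev0
  let θ : Polynomial (MvPolynomial (Fin k) K) →+* Ω :=
    (aeval y : MvPolynomial (Fin N) K →ₐ[K] Ω).toRingHom.comp ev0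
  have hevC : ev.comp Polynomial.C = φ := by
    refine RingHom.ext fun x => ?_
    show Ideal.Quotient.mk q (Polynomial.eval₂ _ w (Polynomial.C x)) = _
    rw [Polynomial.eval₂_C]
    rfl
  have hint : φ.IsIntegral := by
    classical
    let : Algebra (MvPolynomial (Fin k) K) (MvPolynomial (Fin N) K ⧸ q) := φ.toAlgebra
    have hfin : Module.Finite (MvPolynomial (Fin k) K) (MvPolynomial (Fin N) K ⧸ q) := by
      refine ⟨⟨Finset.univ.image fun j => Ideal.Quotient.mk q (b j), ?_⟩⟩
      rw [eq_top_iff]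
      rintro x -
      obtain ⟨g, rfl⟩ := Ideal.Quotient.mk_surjective x
      obtain ⟨p, -, hp⟩ := h.span g.totalDegree g le_rfl
      have h1 : Ideal.Quotient.mk q g = ∑ j, p j • Ideal.Quotient.mk q (b j) := by
        have h2 := Ideal.Quotient.eq.2 (hI hp)
        rw [h2, map_sum]
        refine Finset.sum_congr rfl fun j _ => ?_
        rw [map_mul]
        rfl
      rw [h1]
      refine Submodule.sum_mem _ fun j _ => Submodule.smul_mem _ _ (Submodule.subset_span ?_)
      rw [Finset.coe_image]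
      exact ⟨j, Finset.mem_coe.2 (Finset.mem_univ j), rfl⟩
    have h1 : Algebra.IsIntegral (MvPolynomial (Fin k) K) (MvPolynomial (Fin N) K ⧸ q) :=
      Algebra.IsIntegral.of_finite _ _
    exact h1.isIntegral
  have hevint : ev.IsIntegral := RingHom.IsIntegral.tower_top Polynomial.C ev (by rwa [hevC])
  have hk : RingHom.ker ev ≤ RingHom.ker θ := by
    intro G hG
    have h1 : Polynomial.eval₂ (aeval z : MvPolynomial (Fin k) K →ₐ[K]
        MvPolynomial (Fin N) K).toRingHom w G ∈ q := Ideal.Quotient.eq_zero_iff_mem.1 hG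
    obtain ⟨G', rfl⟩ := (hQ G).1 h1
    have h2 : θ Q = 0 := hy _ ((hQ Q).2 dvd_rfl) hQdeg
    rw [RingHom.mem_ker, map_mul, h2, zero_mul]
  obtain ⟨ψ, hψ⟩ := CutB_ext ev hevint θ hk
  have hψ' : ∀ G, ψ (ev G) = θ G := fun G => by rw [← hψ]; rfl
  have hcomp : (aeval (fun i => ψ (Ideal.Quotient.mk q (X i))) :
      MvPolynomial (Fin N) K →ₐ[K] Ω).toRingHom = ψ.comp (Ideal.Quotient.mk q) := by
    refine MvPolynomial.ringHom_ext (fun c => ?_) (fun i => ?_)
    · have h1 := hψ' (Polynomial.C (C c))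
      have h2 : ev (Polynomial.C (C c)) = Ideal.Quotient.mk q (C c) := by
        show Ideal.Quotient.mk q (Polynomial.eval₂ _ w (Polynomial.C (C c))) = _
        rw [Polynomial.eval₂_C]
        show Ideal.Quotient.mk q (aeval z (C c)) = _
        rw [aeval_C]
        rfl
      have h3 : θ (Polynomial.C (C c)) = algebraMap K Ω c := by
        show aeval y (Polynomial.eval₂ _ w (Polynomial.C (C c))) = _
        rw [Polynomial.eval₂_C]
        show aeval y (aeval z (C c)) = _
        rw [aeval_C]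
        exact AlgHom.commutes _ _
      show aeval _ (C c) = ψ (Ideal.Quotient.mk q (C c))
      rw [aeval_C, ← h2, h1, h3]
    · show aeval _ (X i) = ψ (Ideal.Quotient.mk q (X i))
      rw [aeval_X]
  have hcomp' : ∀ g : MvPolynomial (Fin N) K,
      aeval (fun i => ψ (Ideal.Quotient.mk q (X i))) g = ψ (Ideal.Quotient.mk q g) := fun g =>
    RingHom.congr_fun hcomp g
  refine ⟨fun i => ψ (Ideal.Quotient.mk q (X i)), fun g hg => ?_, fun i => ?_, ?_⟩
  · rw [hcomp', Ideal.Quotient.eq_zero_iff_mem.2 hg, map_zero]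
  · rw [hcomp']
    have h1 := hψ' (Polynomial.C (X i))
    have h2 : ev (Polynomial.C (X i)) = Ideal.Quotient.mk q (z i) := by
      show Ideal.Quotient.mk q (Polynomial.eval₂ _ w (Polynomial.C (X i))) = _
      rw [Polynomial.eval₂_C]
      show Ideal.Quotient.mk q (aeval z (X i)) = _
      rw [aeval_X]
    have h3 : θ (Polynomial.C (X i)) = aeval y (z i) := by
      show aeval y (Polynomial.eval₂ _ w (Polynomial.C (X i))) = _
      rw [Polynomial.eval₂_C]
      show aeval y (aeval z (X i)) = _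
      rw [aeval_X]
    rw [← h2, h1, h3]
  · rw [hcomp']
    have h1 := hψ' Polynomial.X
    have h2 : ev Polynomial.X = Ideal.Quotient.mk q w := by
      show Ideal.Quotient.mk q (Polynomial.eval₂ _ w Polynomial.X) = _
      rw [Polynomial.eval₂_X]
    have h3 : θ Polynomial.X = aeval y w := by
      show aeval y (Polynomial.eval₂ _ w Polynomial.X) = _
      rw [Polynomial.eval₂_X]
    rw [← h2, h1, h3]

end Pool.Agent.H.MP_31a675_nt.W
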