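import Pool.Agent.H.MP_31a675_nt.W.Clr

/-!
# Complexity of elements of a function field
-/

namespace Pool.Agent.H.MP_31a675_nt.W

open MvPolynomial

variable {K : Type} [Field K] {N : ℕ} {L : Type} [Field L] [Algebra K L]

theorem cx_mono (y : Fin N → L) (E E' : ℕ) (u : L) (h : E ≤ E') (hu : Cx K y E u) : Cx K y E' u := by
  obtain ⟨P, Q, hP, hQ, h0, h1⟩ := hu
  exact ⟨P, Q, hP.trans h, hQ.trans h, h0, h1⟩

theorem cx_self (y : Fin N → L) (i : Fin N) : Cx K y 1 (y i) := by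
  refine ⟨X i, 1, ?_, ?_, ?_, ?_⟩
  · rw [totalDegree_X]
  · rw [totalDegree_one]; exact Nat.zero_le _
  · simp
  · simp

theorem cxl_prod (r : ℕ) (u : Fin r → L) (w : L) (J : Fin r → Fin 2) (c : Fin 2) :
    (∏ i, (![1, (Fin.snoc u w : Fin (r + 1) → L) i] : Fin 2 → L)
      ((Fin.snoc J c : Fin (r + 1) → Fin 2) i)) =
      (∏ i, (![1, u i] : Fin 2 → L) (J i)) * (![1, w] : Fin 2 → L) c := by
  rw [Fin.prod_univ_castSucc]
  simp

theorem cxl_sum (r : ℕ) (F : (Fin (r + 1) → Fin 2) → L) :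
    ∑ J, F J = ∑ J : Fin r → Fin 2, F (Fin.snoc J 0) + ∑ J : Fin r → Fin 2, F (Fin.snoc J 1) := by
  rw [← (Fin.snocEquiv (fun _ : Fin (r + 1) => Fin 2)).sum_comp F, Fintype.sum_prod_type,
    Fin.sum_univ_two]
  rfl

/-- If the products of the `u i` are linearly independent and become dependent when `w` is added, then
`A + w * B = 0` with combinations `A`, `B` of the products of the `u i` and `B ≠ 0`; use `clearM`. -/
theorem cx_dep (y : Fin N → L) (r : ℕ) (u : Fin r → L) (e : Fin r → ℕ) (w : L)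
    (hu : ∀ i, Cx K y (e i) (u i))
    (hli : LinearIndependent K fun J : Fin r → Fin 2 => ∏ i, (![1, u i] : Fin 2 → L) (J i))
    (hnli : ¬ LinearIndependent K fun J : Fin (r + 1) → Fin 2 =>
      ∏ i, (![1, (Fin.snoc u w : Fin (r + 1) → L) i] : Fin 2 → L) (J i)) :
    Cx K y (∑ i, e i) w := by
  classical
  choose P Q hP hQ hQ0 hPQ using hu
  rw [Fintype.not_linearIndependent_iff] at hnli
  obtain ⟨ξ, hξ, J0, hJ0⟩ := hnli
  rw [Fintype.linearIndependent_iff] at hli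
  set A : L := ∑ J : Fin r → Fin 2, algebraMap K L (ξ (Fin.snoc J 0)) *
    ∏ i, (![1, u i] : Fin 2 → L) (J i) with hA
  set B : L := ∑ J : Fin r → Fin 2, algebraMap K L (ξ (Fin.snoc J 1)) *
    ∏ i, (![1, u i] : Fin 2 → L) (J i) with hB
  have hAB : A + w * B = 0 := by
    rw [cxl_sum] at hξ
    rw [← hξ, hA, hB, Finset.mul_sum]
    congr 1
    · refine Finset.sum_congr rfl fun J _ => ?_
      rw [cxl_prod, Algebra.smul_def]
      simp
    · refine Finset.sum_congr rfl fun J _ => ?_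
      rw [cxl_prod, Algebra.smul_def]
      simp only [Matrix.cons_val_one, Matrix.cons_val_fin_one]
      ring
  have hB0 : B ≠ 0 := by
    intro hB0
    have h1 : ∀ J : Fin r → Fin 2, ξ (Fin.snoc J 1) = 0 := by
      refine hli (fun J => ξ (Fin.snoc J 1)) ?_
      rw [← hB0, hB]
      exact Finset.sum_congr rfl fun J _ => Algebra.smul_def _ _
    have hA0 : A = 0 := by
      rw [hB0, mul_zero, add_zero] at hAB
      exact hAB
    have h2 : ∀ J : Fin r → Fin 2, ξ (Fin.snoc J 0) = 0 := by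
      refine hli (fun J => ξ (Fin.snoc J 0)) ?_
      rw [← hA0, hA]
      exact Finset.sum_congr rfl fun J _ => Algebra.smul_def _ _
    apply hJ0
    have h3 : J0 = Fin.snoc (Fin.init J0) (J0 (Fin.last r)) := (Fin.snoc_init_self J0).symm
    rw [h3]
    rcases Fin.exists_fin_two.mp ⟨J0 (Fin.last r), rfl⟩ with h4 | h4
    · rw [h4]; exact h2 _
    · rw [h4]; exact h1 _
  obtain ⟨ΘA, hΘA, hfA⟩ := clearM (fun J => - ξ (Fin.snoc J 0)) e P Q hP hQ
  obtain ⟨ΘB, hΘB, hfB⟩ := clearM (fun J => ξ (Fin.snoc J 1)) e P Q hP hQ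
  have hPQ' : ∀ i, aeval y (P i) = aeval y (Q i) * u i := fun i => by
    rw [← hPQ i, mul_comm]
  have hA1 := hfA (aeval y) u hPQ'
  have hB1 := hfB (aeval y) u hPQ'
  have hprod : (∏ i, aeval y (Q i)) ≠ 0 := Finset.prod_ne_zero_iff.mpr fun i _ => hQ0 i
  refine ⟨ΘA, ΘB, hΘA, hΘB, ?_, ?_⟩
  · rw [hB1]
    exact mul_ne_zero hprod hB0
  · rw [hB1, hA1]
    have h5 : (∑ J : Fin r → Fin 2, algebraMap K L (- ξ (Fin.snoc J 0)) *
        ∏ i, (![1, u i] : Fin 2 → L) (J i)) = - A := by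
      rw [hA, ← Finset.sum_neg_distrib]
      refine Finset.sum_congr rfl fun J _ => ?_
      rw [map_neg, neg_mul]
    rw [h5]
    have h6 : w * B = - A := by
      rw [eq_neg_iff_add_eq_zero, add_comm]
      exact hAB
    rw [← h6]
    change w * ((∏ i, aeval y (Q i)) * B) = _
    ring

/-- One step of the rational map: `clear` with `g = φ i.succ` and `g = φ 0`, `e = δ`. -/
theorem cx_step (φ : Fin (N + 1) → MvPolynomial (Fin N) K) (δ : ℕ)
    (hφ : ∀ i, (φ i).totalDegree ≤ δ) (y v : Fin N → L) (S : ℕ) (hv : ∀ i, Cx K y S (v i))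
    (h0 : aeval v (φ 0) ≠ 0) (i : Fin N) :
    Cx K y (N * δ * S) (aeval v (φ i.succ) / aeval v (φ 0)) := by
  choose P Q hP hQ hQ0 hPQ using hv
  obtain ⟨Θ1, h1, hf1⟩ := clear δ S (φ i.succ) (hφ _) P Q hP hQ
  obtain ⟨Θ0, h2, hf0⟩ := clear δ S (φ 0) (hφ _) P Q hP hQ
  have hPQ' : ∀ i, aeval y (P i) = aeval y (Q i) * v i := fun i => by
    rw [← hPQ i, mul_comm]
  have hA1 := hf1 (aeval y) v hPQ'
  have hA0 := hf0 (aeval y) v hPQ'
  have hprod : (∏ i, aeval y (Q i)) ^ δ ≠ 0 :=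
    pow_ne_zero _ (Finset.prod_ne_zero_iff.mpr fun i _ => hQ0 i)
  refine ⟨Θ1, Θ0, h1, h2, ?_, ?_⟩
  · rw [hA0]
    exact mul_ne_zero hprod h0
  · rw [hA0, hA1]
    field_simp

end Pool.Agent.H.MP_31a675_nt.W
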