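import Mathlib

/-!
# Systems of coordinates, the generic orbit, complexity: definitions
-/

namespace Pool.Agent.H.MP_31a675_nt.W

open MvPolynomial

variable {K : Type} [Field K] {N : ℕ}

/-- A system for the ideal `I`: polynomials `z i` of degree at most one such that the residue classes
of the `b j` form a basis of the residue ring modulo `I` over the polynomial ring in the `z i`, with a
bound for the degrees of the coefficients. -/
structure Sys (I : Ideal (MvPolynomial (Fin N) K)) {k μ : ℕ} (z : Fin k → MvPolynomial (Fin N) K)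
    (b : Fin μ → MvPolynomial (Fin N) K) : Prop where
  zdeg : ∀ i, (z i).totalDegree ≤ 1
  bdeg : ∀ j, (b j).totalDegree < μ
  span : ∀ (E : ℕ) (g : MvPolynomial (Fin N) K), g.totalDegree ≤ E →
    ∃ p : Fin μ → MvPolynomial (Fin k) K, (∀ j, (p j).totalDegree ≤ E) ∧
      g - ∑ j, aeval z (p j) * b j ∈ I
  free : ∀ p : Fin μ → MvPolynomial (Fin k) K, ∑ j, aeval z (p j) * b j ∈ I → p = 0

/-- At least `(T + 1) / a` of the points `x n` with `n ≤ T` lie on a variety with a system in `k`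
variables of rank at most `m`. -/
def Lev (x : ℕ → Fin N → K) (T m a k : ℕ) : Prop :=
  ∃ (μ : ℕ) (I : Ideal (MvPolynomial (Fin N) K)) (z : Fin k → MvPolynomial (Fin N) K)
    (b : Fin μ → MvPolynomial (Fin N) K) (A : Finset ℕ),
    Sys I z b ∧ μ ≤ m ∧ A ⊆ Finset.range (T + 1) ∧ T + 1 ≤ A.card * a ∧
      ∀ n ∈ A, ∀ g ∈ I, eval (x n) g = 0

/-- The orbit of the point `y` under the rational map `x ↦ (φ 1 (x) / φ 0 (x), ..., φ N (x) / φ 0 (x))`;
`y` has coordinates in an extension `L` of `K`. -/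
noncomputable def gorb {L : Type} [Field L] [Algebra K L] (φ : Fin (N + 1) → MvPolynomial (Fin N) K)
    (y : Fin N → L) : ℕ → Fin N → L
  | 0 => y
  | n + 1 => fun i => aeval (gorb φ y n) (φ i.succ) / aeval (gorb φ y n) (φ 0)

/-- The element `u` of `L` is a quotient of two polynomials of degree at most `E` in `y`. -/
def Cx (K : Type) [Field K] {N : ℕ} {L : Type} [Field L] [Algebra K L] (y : Fin N → L) (E : ℕ)
    (u : L) : Prop :=
  ∃ P Q : MvPolynomial (Fin N) K, P.totalDegree ≤ E ∧ Q.totalDegree ≤ E ∧ aeval y Q ≠ 0 ∧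
    u * aeval y Q = aeval y P

/-- The element `u` of `L` is a quotient `P (y) / Q (y)`, where `Q` has no zero among the points
`x n`, `n ∈ A`, and `w n` is the value of `P / Q` at `x n`. -/
def Val {L : Type} [Field L] [Algebra K L] (y : Fin N → L) (x : ℕ → Fin N → K) (A : Set ℕ)
    (u : L) (w : ℕ → K) : Prop :=
  ∃ P Q : MvPolynomial (Fin N) K, (∀ n ∈ A, eval (x n) Q ≠ 0) ∧ aeval y Q ≠ 0 ∧
    u * aeval y Q = aeval y P ∧ ∀ n ∈ A, eval (x n) P = eval (x n) Q * w n

/-- The numerical conditions. The index `k` is the number of variables of the systems, `r` the one of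
the ambient variety. -/
structure Num (N δ T r : ℕ) (m a s ρ : ℕ → ℕ) : Prop where
  m_pos : ∀ k, k ≤ r → 1 ≤ m k
  a_pos : ∀ k, k ≤ r → 1 ≤ a k
  zero : m 0 * a 0 < T + 1
  s_ge : ∀ k, k < r → 4 * a (k + 1) * m (k + 1) ≤ s (k + 1)
  T_ge : ∀ k, k < r → 2 * s (k + 1) * a (k + 1) * m (k + 1) ≤ T
  m_ge : ∀ k, k < r → m (k + 1) * (m (k + 1) *
    (N * (m (k + 1) + 1) ^ 2 * (1 + N * δ) ^ (ρ (k + 1) + 1) + m (k + 1))) ≤ m k
  a_ge : ∀ k, k < r → 16 * a (k + 1) ^ 2 * m (k + 1) ^ 2 ≤ a k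

end Pool.Agent.H.MP_31a675_nt.W
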