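import Pool.Agent.H.MP_31a675_nt.W.WinL
import Pool.Agent.H.MP_31a675_nt.W.Hom
import Pool.Agent.H.MP_31a675_nt.W.Defs

/-!
# Relations along slow orbits of rational self-maps of affine space
-/

namespace Pool.Agent.H.MP_31a675_nt.W

open MvPolynomial NumberField Height

/-- Apply `windowL` with `r = N + 1`, the homogenizations of the `φ i` (`exists_hom`; `c = 0`),
`x n = (1, x n)`, `κ n = eval (x n) (φ 0)`, `T - s` for `T`, `s + 1` for `s`, `m = ρ + 1`,
`sel i = ![0, (c i).succ]`. -/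
theorem dep_aff {K : Type} [Field K] [NumberField K] {N : ℕ} (δ : ℕ) (hδ : 1 ≤ δ)
    (φ : Fin (N + 1) → MvPolynomial (Fin N) K) (hφ : ∀ i, (φ i).totalDegree ≤ δ) :
    ∃ C : ℝ, 1 ≤ C ∧ ∀ x : ℕ → Fin N → K, (∀ n, eval (x n) (φ 0) ≠ 0) →
      (∀ n i, x (n + 1) i = eval (x n) (φ i.succ) / eval (x n) (φ 0)) →
      ∀ (T s ρ Q : ℕ) (L : ℝ), 0 ≤ L → s ≤ T → (∀ n ≤ T, ht (x n) ≤ L) →
        2 * (Q + 1) ^ ((N + 1) * Module.finrank ℚ K + 2) ≤ 2 ^ (ρ + 1) →
        C * (s + ρ + 3) * (L + Real.log (T + 3)) < Chebyshev.theta Q →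
        ∀ (tm : Fin (ρ + 1) → ℕ) (c : Fin (ρ + 1) → Fin N), (∀ i, tm i ≤ s) →
          ∃ ξ : (Fin (ρ + 1) → Fin 2) → K, ξ ≠ 0 ∧ ∀ n, n + s ≤ T →
            ∑ J, ξ J * ∏ i, (![1, x (n + tm i) (c i)] : Fin 2 → K) (J i) = 0 := by
  choose F hF hF1 using fun i => exists_hom δ (φ i) (hφ i)
  obtain ⟨C, hC, hw⟩ := windowL δ 0 (fun _ => F) hδ (fun _ i => hF i)
  refine ⟨C, hC, ?_⟩
  intro x hx hrec T s ρ Q L hL hsT hht hcard htheta tm c htm
  have hval : ∀ n i, eval (Fin.cons 1 (x n) : Fin (N + 1) → K) (F i) = eval (x n) (φ i) := by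
    intro n i
    have h1 := eval_hom (A := K) δ (F i) (hF i) (Fin.cons 1 (x n)) (by simp)
    rw [hF1 i] at h1
    simp only [Fin.cons_zero, one_pow, one_mul, Fin.cons_succ, div_one] at h1
    rw [aeval_def, aeval_def, Algebra.algebraMap_self] at h1
    exact h1
  have h1 := hw (fun n => (Fin.cons 1 (x n) : Fin (N + 1) → K)) (fun n => eval (x n) (φ 0))
    (fun n h => by simpa using congrFun h 0) hx (by
      intro n i
      simp only [zero_add, Finset.range_one, Finset.sum_singleton, pow_zero, one_mul]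
      rw [hval]
      refine Fin.cases ?_ (fun j => ?_) i
      · rw [Fin.cons_zero, mul_one]
      · rw [Fin.cons_succ, hrec n j, mul_div_cancel₀ _ (hx n)])
    (ρ + 1) tm (fun i => ![0, (c i).succ]) (T - s) (s + 1) Q L hL
    (fun i => Nat.lt_succ_of_le (htm i)) (fun n hn => hht n (by omega)) (by omega) hcard (by
      have e1 : ((T - s : ℕ) : ℝ) + ((s + 1 : ℕ) : ℝ) + 2 = (T : ℝ) + 3 := by
        rw [Nat.cast_sub hsT]
        push_cast
        ring
      have e2 : ((s + 1 : ℕ) : ℝ) + ((ρ + 1 : ℕ) : ℝ) + 1 = (s : ℝ) + ρ + 3 := by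
        push_cast
        ring
      rw [e1, e2]
      exact htheta)
  obtain ⟨ξ, hξ, hsum⟩ := h1
  refine ⟨ξ, hξ, fun n hn => ?_⟩
  rw [← hsum n (by omega)]
  refine Finset.sum_congr rfl fun J _ => ?_
  congr 1
  refine Finset.prod_congr rfl fun i _ => ?_
  generalize J i = j
  fin_cases j
  · simp
  · simp

end Pool.Agent.H.MP_31a675_nt.W
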