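import Pool.Agent.H.MP_31a675_nt.W.Defs

/-!
# Division by a polynomial which is monic in the first variable
-/

namespace Pool.Agent.H.MP_31a675_nt.W

open MvPolynomial

variable {K : Type} [Field K] {k : ℕ}

/-- zero, or of total degree at most `E - i` -/
def DivOk (E i : ℕ) (x : MvPolynomial (Fin k) K) : Prop := x = 0 ∨ x.totalDegree + i ≤ E

theorem DivOk.sub {E i : ℕ} {x y : MvPolynomial (Fin k) K} (hx : DivOk E i x) (hy : DivOk E i y) :
    DivOk E i (x - y) := by
  rcases hx with rfl | hx
  · rcases hy with rfl | hy
    · left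
      simp
    · right
      rw [zero_sub, totalDegree_neg]
      exact hy
  · rcases hy with rfl | hy
    · right
      rw [sub_zero]
      exact hx
    · right
      have := totalDegree_sub x y
      omega

theorem div_core (P : Polynomial (MvPolynomial (Fin k) K)) (e : ℕ)
    (hP : ∀ i, DivOk e i (P.coeff i)) {c : K} (hc : c ≠ 0) (hPe : P.coeff e = C c) (E : ℕ) :
    ∀ (n : ℕ) (p : Polynomial (MvPolynomial (Fin k) K)), (∀ i, DivOk E i (p.coeff i)) →
      (∀ m, n ≤ m → p.coeff m = 0) →
      ∃ q r : Polynomial (MvPolynomial (Fin k) K), (∀ m, e ≤ m → r.coeff m = 0) ∧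
        (∀ i, DivOk E i (r.coeff i)) ∧ p = q * P + r := by
  intro n
  induction n with
  | zero =>
    intro p hp h0
    exact ⟨0, p, fun m _ => h0 m (Nat.zero_le m), hp, by simp⟩
  | succ n ih =>
    intro p hp h0
    rcases Nat.lt_or_ge n e with hn | hn
    · exact ⟨0, p, fun m hm => h0 m (by omega), hp, by simp⟩
    · obtain ⟨s, rfl⟩ : ∃ s, n = s + e := ⟨n - e, by omega⟩
      have hcoef : ∀ i, (Polynomial.C (p.coeff (s + e) * C c⁻¹) * Polynomial.X ^ s * P).coeff i =
          if s ≤ i then p.coeff (s + e) * C c⁻¹ * P.coeff (i - s) else 0 := by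
        intro i
        rw [mul_assoc, Polynomial.coeff_C_mul, Polynomial.coeff_X_pow_mul']
        split_ifs <;> simp
      have hPbig : ∀ j, e < j → P.coeff j = 0 := by
        intro j hj
        rcases hP j with h | h
        · exact h
        · omega
      obtain ⟨q, r, h1, h2, h3⟩ := ih (p - Polynomial.C (p.coeff (s + e) * C c⁻¹) *
        Polynomial.X ^ s * P) (fun i => by
          rw [Polynomial.coeff_sub]
          refine (hp i).sub ?_
          rw [hcoef]
          split_ifs with hi
          · rcases hp (s + e) with h | h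
            · left
              rw [h]
              simp
            · rcases hP (i - s) with h' | h'
              · left
                rw [h']
                simp
              · right
                have h4 := totalDegree_mul (p.coeff (s + e) * C c⁻¹) (P.coeff (i - s))
                have h5 := totalDegree_mul (p.coeff (s + e)) (C c⁻¹ : MvPolynomial (Fin k) K)
                rw [totalDegree_C] at h5
                omega
          · left
            rfl) (fun m hm => by
          rw [Polynomial.coeff_sub, hcoef, if_pos (by omega : s ≤ m)]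
          rcases Nat.lt_or_ge (s + e) m with hm' | hm'
          · rw [h0 m (by omega), hPbig (m - s) (by omega)]
            simp
          · obtain rfl : m = s + e := by omega
            rw [Nat.add_sub_cancel_left, hPe, mul_assoc, ← C_mul, inv_mul_cancel₀ hc]
            simp)
      refine ⟨q + Polynomial.C (p.coeff (s + e) * C c⁻¹) * Polynomial.X ^ s, r, h1, h2, ?_⟩
      rw [add_mul, add_right_comm, ← h3]
      ring

theorem div_ok (g : MvPolynomial (Fin (k + 1)) K) (E : ℕ) (hg : g.totalDegree ≤ E) (i : ℕ) :
    DivOk E i ((finSuccEquiv K k g).coeff i) := by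
  by_cases h : (finSuccEquiv K k g).coeff i = 0
  · exact Or.inl h
  · exact Or.inr ((totalDegree_coeff_finSuccEquiv_add_le g i h).trans hg)

theorem div_lead (π : MvPolynomial (Fin (k + 1)) K) (e : ℕ) (hdeg : π.totalDegree ≤ e) :
    (finSuccEquiv K k π).coeff e = C (coeff (Finsupp.single 0 e) π) := by
  have h1 : coeff 0 ((finSuccEquiv K k π).coeff e) = coeff (Finsupp.single 0 e) π := by
    rw [finSuccEquiv_coeff_coeff]
    congr 1
    ext i
    refine Fin.cases ?_ (fun j => ?_) i
    · simp
    · simp
  have h2 : ((finSuccEquiv K k π).coeff e).totalDegree = 0 := by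
    rcases div_ok π e hdeg e with h | h
    · rw [h]
      simp
    · omega
  rw [← h1]
  exact totalDegree_eq_zero_iff_eq_C.1 h2

theorem div_rename (p : MvPolynomial (Fin k) K) :
    finSuccEquiv K k (rename Fin.succ p) = Polynomial.C p := by
  induction p using MvPolynomial.induction_on with
  | C a =>
    rw [rename_C, finSuccEquiv_apply, eval₂Hom_C]
    rfl
  | add p q hp hq => rw [map_add, map_add, hp, hq, Polynomial.C_add]
  | mul_X p i hp => rw [map_mul, map_mul, hp, rename_X, finSuccEquiv_X_succ, Polynomial.C_mul]

/-- Division by a polynomial `π` of total degree at most `e` in which `X 0 ^ e` has a nonzero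
coefficient. It is enough to treat monomials `g` (linearity) of degree at most `E`; induction on the
exponent `a` of `X 0`: if `a ≥ e` then `g - c * g' * π`, with `g = X 0 ^ e * g'` and `c` a constant, is a
linear combination of monomials of total degree at most `E` with smaller exponents of `X 0`. -/
theorem exists_div (π : MvPolynomial (Fin (k + 1)) K) (e : ℕ) (hdeg : π.totalDegree ≤ e)
    (hmon : coeff (Finsupp.single 0 e) π ≠ 0) (E : ℕ) (g : MvPolynomial (Fin (k + 1)) K)
    (hg : g.totalDegree ≤ E) :
    ∃ (q : MvPolynomial (Fin (k + 1)) K) (r : Fin e → MvPolynomial (Fin k) K),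
      (∀ i, (r i).totalDegree ≤ E) ∧
      g = q * π + ∑ i, rename Fin.succ (r i) * X 0 ^ (i : ℕ) := by
  obtain ⟨q, r, h1, h2, h3⟩ := div_core (finSuccEquiv K k π) e (div_ok π e hdeg) hmon
    (div_lead π e hdeg) E ((finSuccEquiv K k g).natDegree + 1) (finSuccEquiv K k g)
    (div_ok g E hg) (fun m hm => Polynomial.coeff_eq_zero_of_natDegree_lt (by omega))
  refine ⟨(finSuccEquiv K k).symm q, fun i => r.coeff i, fun i => ?_, ?_⟩
  · rcases h2 i with h | h
    · simp only [h, totalDegree_zero, Nat.zero_le]
    · exact le_trans (Nat.le_add_right _ _) h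
  · apply (finSuccEquiv K k).injective
    rw [map_add, map_mul, AlgEquiv.apply_symm_apply, h3, map_sum]
    congr 1
    have h4 : ∀ i : Fin e, finSuccEquiv K k (rename Fin.succ (r.coeff i) * X 0 ^ (i : ℕ)) =
        Polynomial.C (r.coeff i) * Polynomial.X ^ (i : ℕ) := by
      intro i
      rw [map_mul, map_pow, div_rename, finSuccEquiv_X_zero]
    rw [Finset.sum_congr rfl fun i _ => h4 i,
      Fin.sum_univ_eq_sum_range (fun i => Polynomial.C (r.coeff i) * Polynomial.X ^ i) e]
    ext1 m
    rw [Polynomial.finsetSum_coeff]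
    simp only [Polynomial.coeff_C_mul, Polynomial.coeff_X_pow]
    rcases Nat.lt_or_ge m e with hm | hm
    · rw [Finset.sum_eq_single_of_mem m (Finset.mem_range.2 hm)]
      · simp
      · intro b _ hb
        rw [if_neg (Ne.symm hb)]
        simp
    · rw [h1 m hm, Finset.sum_eq_zero]
      intro i hi
      have := Finset.mem_range.1 hi
      rw [if_neg (by omega)]
      simp

/-- Uniqueness of the division: compare degrees in `X 0` (`degreeOf_mul_eq`, or `finSuccEquiv`). -/
theorem div_unique (π : MvPolynomial (Fin (k + 1)) K) (e : ℕ) (hdeg : π.totalDegree ≤ e)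
    (hmon : coeff (Finsupp.single 0 e) π ≠ 0) (q : MvPolynomial (Fin (k + 1)) K)
    (r : Fin e → MvPolynomial (Fin k) K)
    (h : q * π = ∑ i, rename Fin.succ (r i) * X 0 ^ (i : ℕ)) : r = 0 := by
  have h4 : ∀ i : Fin e, finSuccEquiv K k (rename Fin.succ (r i) * X 0 ^ (i : ℕ)) =
      Polynomial.C (r i) * Polynomial.X ^ (i : ℕ) := by
    intro i
    rw [map_mul, map_pow, div_rename, finSuccEquiv_X_zero]
  have h5 : finSuccEquiv K k q * finSuccEquiv K k π =
      ∑ i : Fin e, Polynomial.C (r i) * Polynomial.X ^ (i : ℕ) := by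
    rw [← map_mul, h, map_sum]
    exact Finset.sum_congr rfl fun i _ => h4 i
  have hlead := div_lead π e hdeg
  have hne : (finSuccEquiv K k π).coeff e ≠ 0 := by
    rw [hlead]
    exact fun h0 => hmon (C_injective _ _ (h0.trans (C_0).symm))
  have hcoef : ∀ m, (∑ i : Fin e, Polynomial.C (r i) * Polynomial.X ^ (i : ℕ)).coeff m =
      if hm : m < e then r ⟨m, hm⟩ else 0 := by
    intro m
    rw [Polynomial.finsetSum_coeff]
    simp only [Polynomial.coeff_C_mul, Polynomial.coeff_X_pow]
    split_ifs with hm
    · rw [Finset.sum_eq_single_of_mem (⟨m, hm⟩ : Fin e) (Finset.mem_univ _)]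
      · simp
      · intro b _ hb
        rw [if_neg (fun h6 => hb (Fin.ext h6.symm))]
        simp
    · refine Finset.sum_eq_zero fun i _ => ?_
      rw [if_neg (by omega)]
      simp
  have hq : finSuccEquiv K k q = 0 := by
    by_contra hq0
    have h6 : (finSuccEquiv K k q * finSuccEquiv K k π).natDegree =
        (finSuccEquiv K k q).natDegree + (finSuccEquiv K k π).natDegree :=
      Polynomial.natDegree_mul hq0 (fun h0 => hne (by rw [h0]; simp))
    have h7 : e ≤ (finSuccEquiv K k π).natDegree := Polynomial.le_natDegree_of_ne_zero hne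
    have h8 : (finSuccEquiv K k q * finSuccEquiv K k π).leadingCoeff ≠ 0 := by
      rw [Polynomial.leadingCoeff_ne_zero]
      exact mul_ne_zero hq0 (fun h0 => hne (by rw [h0]; simp))
    apply h8
    rw [Polynomial.leadingCoeff, h6, h5, hcoef, dif_neg (by omega)]
  funext i
  have h9 := hcoef i
  rw [← h5, hq, zero_mul, Polynomial.coeff_zero, dif_pos i.2] at h9
  exact h9.symm

end Pool.Agent.H.MP_31a675_nt.W
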