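import Pool.Agent.H.MP_31a675_nt.W.Sys

/-!
# Every prime has a system
-/

namespace Pool.Agent.H.MP_31a675_nt.W

open MvPolynomial

variable {K : Type} [Field K] {N : ℕ}

theorem exSys_one_le {q : Ideal (MvPolynomial (Fin N) K)} (hq : q.IsPrime) {k : ℕ}
    (z : Fin k → MvPolynomial (Fin N) K) (p : MvPolynomial (Fin k) K) (hp : p ≠ 0)
    (hpq : aeval z p ∈ q) : 1 ≤ p.totalDegree := by
  by_contra hlt
  have h0 : p.totalDegree = 0 := by omega
  rw [totalDegree_eq_zero_iff_eq_C] at h0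
  have hc : coeff 0 p ≠ 0 := by
    intro hc
    rw [hc, C_0] at h0
    exact hp h0
  rw [h0, aeval_C, algebraMap_eq] at hpq
  refine hq.ne_top ((Ideal.eq_top_iff_one _).2 ?_)
  have h1 : C (coeff 0 p)⁻¹ * C (coeff 0 p) ∈ q := Ideal.mul_mem_left _ _ hpq
  rwa [← C_mul, inv_mul_cancel₀ hc, C_1] at h1

theorem exSys_aux [Infinite K] (q : Ideal (MvPolynomial (Fin N) K)) (hq : q.IsPrime) :
    ∀ (k μ : ℕ) (I : Ideal (MvPolynomial (Fin N) K)) (z : Fin k → MvPolynomial (Fin N) K)
      (b : Fin μ → MvPolynomial (Fin N) K), Sys I z b → I ≤ q →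
    ∃ (k μ : ℕ) (I : Ideal (MvPolynomial (Fin N) K)) (z : Fin k → MvPolynomial (Fin N) K)
      (b : Fin μ → MvPolynomial (Fin N) K), Sys I z b ∧ I ≤ q ∧
      ∀ p : MvPolynomial (Fin k) K, aeval z p ∈ q → p = 0 := by
  intro k
  induction k with
  | zero =>
    intro μ I z b hs hI
    refine ⟨0, μ, I, z, b, hs, hI, fun p hp => ?_⟩
    by_contra hne
    have h1 := exSys_one_le hq z p hne hp
    have h2 : p = C (coeff 0 p) := by
      rw [MvPolynomial.eq_C_of_isEmpty p]
      simp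
    rw [h2, totalDegree_C] at h1
    omega
  | succ k ih =>
    intro μ I z b hs hI
    by_cases hall : ∀ p : MvPolynomial (Fin (k + 1)) K, aeval z p ∈ q → p = 0
    · exact ⟨k + 1, μ, I, z, b, hs, hI, hall⟩
    · push Not at hall
      obtain ⟨p, hp, hne⟩ := hall
      obtain ⟨z', b', hs'⟩ := sys_step hs p (exSys_one_le hq z p hne hp)
      refine ih _ _ z' b' hs' (sup_le hI ?_)
      rw [Ideal.span_singleton_le_iff_mem]
      exact hp

/-- Every prime has a system: add relations to `sys_bot` as long as `q` contains a nonzero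
polynomial in the `z i`. -/
theorem exists_sys [Infinite K] (q : Ideal (MvPolynomial (Fin N) K)) (hq : q.IsPrime) :
    ∃ (k μ : ℕ) (I : Ideal (MvPolynomial (Fin N) K)) (z : Fin k → MvPolynomial (Fin N) K)
      (b : Fin μ → MvPolynomial (Fin N) K), Sys I z b ∧ I ≤ q ∧
      ∀ p : MvPolynomial (Fin k) K, aeval z p ∈ q → p = 0 :=
  exSys_aux q hq N 1 ⊥ X (fun _ => 1) sys_bot bot_le

end Pool.Agent.H.MP_31a675_nt.W
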