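import Mathlib

/-!
# A linear form over an extension without zeros over the ground field
-/

namespace Pool.Agent.H.MP_31a675_nt.W

open Polynomial

/-- The polynomial `X ^ M - 2` is irreducible over the rational numbers (Eisenstein), `M ≥ 1`. -/
theorem irr_two (M : ℕ) (hM : 1 ≤ M) : Irreducible (X ^ M - C 2 : ℚ[X]) := by
  have hM0 : M ≠ 0 := by omega
  have hmon : (X ^ M - C 2 : ℤ[X]).Monic := monic_X_pow_sub_C 2 hM0
  have hprime : (Ideal.span {(2 : ℤ)}).IsPrime :=
    (Ideal.span_singleton_prime (by norm_num)).2 Int.prime_two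
  have hdeg : (X ^ M - C 2 : ℤ[X]).degree = M := degree_X_pow_sub_C hM 2
  have hirr : Irreducible (X ^ M - C 2 : ℤ[X]) := by
    refine irreducible_of_eisenstein_criterion hprime ?_ ?_ ?_ ?_ hmon.isPrimitive
    · rw [hmon.leadingCoeff, Ideal.mem_span_singleton]
      norm_num
    · intro n hn
      rw [hdeg] at hn
      have hn' : n < M := by exact_mod_cast hn
      rw [coeff_sub, coeff_X_pow, if_neg (by omega), coeff_C, Ideal.mem_span_singleton]
      split_ifs
      · exact ⟨-1, by norm_num⟩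
      · simp
    · rw [hdeg]
      exact_mod_cast hM
    · rw [coeff_sub, coeff_X_pow, if_neg (by omega), coeff_C_zero, Ideal.span_singleton_pow,
        Ideal.mem_span_singleton]
      norm_num
  have h1 := (IsPrimitive.Int.irreducible_iff_irreducible_map_cast hmon.isPrimitive).1 hirr
  have h2 : (X ^ M - C 2 : ℤ[X]).map (Int.castRingHom ℚ) = (X ^ M - C 2 : ℚ[X]) := by
    rw [Polynomial.map_sub, Polynomial.map_pow, map_X, map_C]
    norm_num
  rwa [h2] at h1

/-- Let `g = [K : ℚ]`, `M = (N + 1) g`, let `h` be an irreducible factor over `K` of `X ^ M - 2` and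
`K' = AdjoinRoot h`, `θ` its root. Then `[ℚ(θ) : ℚ] = M`, so `[K' : ℚ]` is at least `M` and at most `M g`,
and `[K' : K] ≥ N + 1`; the powers `ℓ i = θ ^ i`, `i ≤ N`, are linearly independent over `K`. -/
theorem exists_ext (N : ℕ) (K : Type) [Field K] [NumberField K] :
    ∃ (K' : Type) (_ : Field K') (_ : NumberField K') (_ : Algebra K K') (ℓ : Fin (N + 1) → K'),
      Module.finrank ℚ K' ≤ (N + 1) * Module.finrank ℚ K ^ 2 ∧ ℓ 0 = 1 ∧
        ∀ x : Fin (N + 1) → K, ∑ i, ℓ i * algebraMap K K' (x i) = 0 → x = 0 := by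
  classical
  set g := Module.finrank ℚ K with hg
  have hg1 : 1 ≤ g := Module.finrank_pos
  set M := (N + 1) * g with hMdef
  have hM : 1 ≤ M := Nat.mul_pos (Nat.succ_pos N) hg1
  have hmon : (X ^ M - C 2 : K[X]).Monic := monic_X_pow_sub_C 2 (by omega)
  have hdegK : (X ^ M - C 2 : K[X]).natDegree = M := natDegree_X_pow_sub_C
  have hnu : ¬ IsUnit (X ^ M - C 2 : K[X]) := by
    intro hu
    have := natDegree_eq_zero_of_isUnit hu
    omega
  obtain ⟨h, hirr, hdvd⟩ := WfDvdMonoid.exists_irreducible_factor hnu hmon.ne_zero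
  have hfact : Fact (Irreducible h) := ⟨hirr⟩
  have hh0 : h ≠ 0 := hirr.ne_zero
  have hle : h.natDegree ≤ M := by
    rw [← hdegK]
    exact natDegree_le_of_dvd hdvd hmon.ne_zero
  have hfinK : Module.finrank K (AdjoinRoot h) = h.natDegree := by
    rw [(AdjoinRoot.powerBasis hh0).finrank, AdjoinRoot.powerBasis_dim]
  have hfd : FiniteDimensional K (AdjoinRoot h) := (AdjoinRoot.powerBasis hh0).finite
  have hchar : CharZero (AdjoinRoot h) :=
    charZero_of_injective_algebraMap (algebraMap K (AdjoinRoot h)).injective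
  have htow : IsScalarTower ℚ K (AdjoinRoot h) :=
    IsScalarTower.of_algebraMap_eq' (Subsingleton.elim _ _)
  have hfdQ : FiniteDimensional ℚ (AdjoinRoot h) := FiniteDimensional.trans ℚ K (AdjoinRoot h)
  have hmul : Module.finrank ℚ K * Module.finrank K (AdjoinRoot h) =
      Module.finrank ℚ (AdjoinRoot h) := Module.finrank_mul_finrank ℚ K (AdjoinRoot h)
  have hroot : (AdjoinRoot.root h) ^ M = 2 := by
    obtain ⟨q, hq⟩ := hdvd
    have h1 : aeval (AdjoinRoot.root h) (X ^ M - C 2 : K[X]) = 0 := by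
      rw [hq, map_mul]
      have : aeval (AdjoinRoot.root h) h = 0 := by
        rw [AdjoinRoot.aeval_eq, AdjoinRoot.mk_self]
      rw [this, zero_mul]
    rw [map_sub, map_pow, aeval_X, aeval_C, sub_eq_zero] at h1
    rw [h1, map_ofNat]
  have hmin : minpoly ℚ (AdjoinRoot.root h) = X ^ M - C 2 := by
    refine (minpoly.eq_of_irreducible_of_monic (irr_two M hM) ?_
      (monic_X_pow_sub_C 2 (by omega))).symm
    rw [map_sub, map_pow, aeval_X, aeval_C, hroot, map_ofNat, sub_self]
  have hMle : M ≤ Module.finrank ℚ (AdjoinRoot h) := by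
    have h1 := minpoly.natDegree_le (A := ℚ) (AdjoinRoot.root h)
    rw [hmin, natDegree_X_pow_sub_C] at h1
    exact h1
  have hN : N + 1 ≤ h.natDegree := by
    rw [← hmul, hfinK, ← hg, hMdef, mul_comm] at hMle
    exact Nat.le_of_mul_le_mul_left hMle hg1
  refine ⟨AdjoinRoot h, inferInstance, @NumberField.mk _ _ hchar hfdQ, inferInstance,
    fun i => AdjoinRoot.root h ^ (i : ℕ), ?_, ?_, ?_⟩
  · rw [← hmul, hfinK, ← hg]
    calc g * h.natDegree ≤ g * ((N + 1) * g) := Nat.mul_le_mul_left _ hle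
      _ = (N + 1) * g ^ 2 := by ring
  · simp
  · intro x hx
    have h1 : AdjoinRoot.mk h (∑ i : Fin (N + 1), C (x i) * X ^ (i : ℕ)) = 0 := by
      rw [map_sum, ← hx]
      refine Finset.sum_congr rfl fun i _ => ?_
      rw [map_mul, map_pow, AdjoinRoot.mk_X, mul_comm]
      rfl
    rw [AdjoinRoot.mk_eq_zero] at h1
    have h2 : (∑ i : Fin (N + 1), C (x i) * X ^ (i : ℕ) : K[X]) = 0 := by
      refine eq_zero_of_dvd_of_natDegree_lt h1 (lt_of_lt_of_le ?_ hN)
      refine Nat.lt_succ_of_le (natDegree_sum_le_of_forall_le _ _ fun i _ => ?_)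
      refine (natDegree_C_mul_X_pow_le _ _).trans ?_
      have := i.2
      omega
    funext j
    have h3 := congrArg (fun p : K[X] => p.coeff (j : ℕ)) h2
    simp only [finsetSum_coeff, coeff_C_mul, coeff_X_pow, coeff_zero] at h3
    rw [Finset.sum_eq_single j] at h3
    · simpa using h3
    · intro i _ hij
      rw [if_neg, mul_zero]
      intro he
      exact hij (Fin.ext he.symm)
    · intro hj
      exact absurd (Finset.mem_univ j) hj

end Pool.Agent.H.MP_31a675_nt.W
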