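import Pool.Agent.H.MP_31a675_nt.W.FDefs
import Pool.Agent.H.MP_31a675_nt.W.Chart

/-!
# The chart `ℓ = 1` on the fibres
-/

namespace Pool.Agent.H.MP_31a675_nt.W

open MvPolynomial

variable {K : Type} [Field K] {k : ℕ} {K' : Type} [Field K'] [Algebra K K']

theorem fchart_sg_deg (ℓ : Fin (k + 1) → K') (P : MvPolynomial (Fin (k + 2)) K') :
    (sgF ℓ P).totalDegree ≤ P.totalDegree := by
  refine chart_aeval_deg _ (fun i => ?_) P
  refine Fin.cases ?_ (fun j => ?_) i
  · rw [Fin.cons_zero, totalDegree_X]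
  · rw [Fin.cons_succ]
    refine Fin.cases ?_ (fun j => ?_) j
    · rw [Fin.cons_zero]
      refine (totalDegree_sub _ _).trans (max_le ?_ ?_)
      · rw [totalDegree_one]
        exact Nat.zero_le _
      · refine (totalDegree_finsetSum _ _).trans (Finset.sup_le fun k _ => ?_)
        refine (totalDegree_mul _ _).trans ?_
        rw [totalDegree_C, zero_add, totalDegree_X]
    · rw [Fin.cons_succ, totalDegree_X]

theorem fchart_map_deg {σ : Type} (P : MvPolynomial σ K) (E : ℕ) (hP : P.totalDegree ≤ E) :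
    (map (algebraMap K K') P).totalDegree ≤ E :=
  (Finset.sup_mono (support_map_subset _ _)).trans hP

theorem fchart_map_whom {σ : Type} (w : σ → ℕ) (D : ℕ) (P : MvPolynomial σ K)
    (hP : IsWeightedHomogeneous w P D) :
    IsWeightedHomogeneous w (map (algebraMap K K') P) D := by
  intro m hm
  refine hP (fun h => hm ?_)
  rw [coeff_map, h, map_zero]

theorem phiF_degree (ℓ : Fin (k + 1) → K') (G : Fin (k + 1) → MvPolynomial (Fin (k + 2)) K) (E : ℕ)
    (hG : ∀ i, (G i).totalDegree ≤ E) (i : Fin (k + 2)) : (phiF ℓ G i).totalDegree ≤ E + 1 := by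
  have h : ∀ j, (sgF ℓ (map (algebraMap K K') (G j))).totalDegree ≤ E := fun j =>
    (fchart_sg_deg ℓ _).trans (fchart_map_deg _ _ (hG j))
  have hs : (∑ j, C (ℓ j) * sgF ℓ (map (algebraMap K K') (G j))).totalDegree ≤ E := by
    refine (totalDegree_finsetSum _ _).trans (Finset.sup_le fun j _ => ?_)
    refine (totalDegree_mul _ _).trans ?_
    rw [totalDegree_C, zero_add]
    exact h j
  refine Fin.cases ?_ (fun j => ?_) i
  · exact hs.trans (Nat.le_succ _)
  · refine Fin.cases ?_ (fun j => ?_) j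
    · show ((X 0 + 1) * ∑ j, C (ℓ j) * sgF ℓ (map (algebraMap K K') (G j))).totalDegree ≤ E + 1
      refine (totalDegree_mul _ _).trans ?_
      have h1 : (X 0 + 1 : MvPolynomial (Fin (k + 1)) K').totalDegree ≤ 1 := by
        refine (totalDegree_add _ _).trans (max_le ?_ ?_)
        · rw [totalDegree_X]
        · rw [totalDegree_one]
          exact Nat.zero_le _
      omega
    · exact (h j.succ).trans (Nat.le_succ _)

theorem fchart_hom {L A : Type} [Field L] [Field A] [Algebra L A] {σ : Type} [Fintype σ]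
    (w : σ → ℕ) (D : ℕ)
    (P : MvPolynomial σ L) (hP : IsWeightedHomogeneous w P D) (x y : σ → A) (s : A)
    (hxy : ∀ i, x i = s ^ w i * y i) : aeval x P = s ^ D * aeval y P := by
  classical
  rw [aeval_def, aeval_def, eval₂_eq', eval₂_eq', Finset.mul_sum]
  refine Finset.sum_congr rfl fun m hm => ?_
  have hdeg : ∑ i, w i * m i = D := by
    have h3 := hP (mem_support_iff.mp hm)
    rw [← h3, Finsupp.weight_apply, Finsupp.sum_fintype _ _ (fun i => by simp)]
    refine Finset.sum_congr rfl fun i _ => ?_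
    rw [smul_eq_mul, mul_comm]
  have h4 : ∏ i, x i ^ m i = s ^ D * ∏ i, y i ^ m i := by
    calc ∏ i, x i ^ m i = ∏ i, (s ^ (w i * m i) * y i ^ m i) := by
          refine Finset.prod_congr rfl fun i _ => ?_
          rw [hxy i, mul_pow, pow_mul]
      _ = (∏ i, s ^ (w i * m i)) * ∏ i, y i ^ m i := Finset.prod_mul_distrib
      _ = s ^ D * ∏ i, y i ^ m i := by rw [Finset.prod_pow_eq_pow_sum, hdeg]
  rw [h4]
  ring

/-- The value in the chart, without division. -/
theorem aeval_sgF {A : Type} [Field A] [Algebra K' A] (ℓ : Fin (k + 1) → K')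
    (P : MvPolynomial (Fin (k + 2)) K') (y : Fin (k + 1) → A) :
    aeval y (sgF ℓ P) = aeval (Fin.cons (y 0) (Fin.cons
      (1 - ∑ i : Fin k, algebraMap K' A (ℓ i.succ) * y i.succ) fun i => y i.succ) :
        Fin (k + 2) → A) P := by
  have h1 : (aeval y : MvPolynomial (Fin (k + 1)) K' →ₐ[K'] A).comp (sgF ℓ) =
      aeval (Fin.cons (y 0) (Fin.cons
      (1 - ∑ i : Fin k, algebraMap K' A (ℓ i.succ) * y i.succ) fun i => y i.succ) :
        Fin (k + 2) → A) := by
    refine algHom_ext fun i => ?_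
    rw [AlgHom.comp_apply, aeval_X]
    unfold sgF
    rw [aeval_X]
    refine Fin.cases ?_ (fun j => ?_) i
    · rw [Fin.cons_zero, Fin.cons_zero, aeval_X]
    · rw [Fin.cons_succ, Fin.cons_succ]
      refine Fin.cases ?_ (fun j => ?_) j
      · rw [Fin.cons_zero, Fin.cons_zero, map_sub, map_one, map_sum]
        congr 1
        refine Finset.sum_congr rfl fun i _ => ?_
        rw [map_mul, aeval_X, aeval_C]
      · rw [Fin.cons_succ, Fin.cons_succ, aeval_X]
  exact DFunLike.congr_fun h1 P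

/-- The value of a polynomial homogeneous in `y`, in the chart. -/
theorem eval_sgF {A : Type} [Field A] [Algebra K' A] (ℓ : Fin (k + 1) → K') (h0 : ℓ 0 = 1) (D : ℕ)
    (P : MvPolynomial (Fin (k + 2)) K') (hP : IsWeightedHomogeneous (wF k) P D)
    (x : Fin (k + 2) → A) (hx : ∑ j, algebraMap K' A (ℓ j) * x j.succ ≠ 0) :
    aeval x P = (∑ j, algebraMap K' A (ℓ j) * x j.succ) ^ D *
      aeval (Fin.cons (x 0) fun i : Fin k => x i.succ.succ / ∑ j, algebraMap K' A (ℓ j) * x j.succ :
        Fin (k + 1) → A) (sgF ℓ P) := by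
  set s := ∑ j, algebraMap K' A (ℓ j) * x j.succ with hs
  have h3 : s = x 1 + ∑ i : Fin k, algebraMap K' A (ℓ i.succ) * x i.succ.succ := by
    rw [hs, Fin.sum_univ_succ, h0, map_one, one_mul]
    rfl
  have h4 : (1 : A) - ∑ i : Fin k, algebraMap K' A (ℓ i.succ) * (x i.succ.succ / s) = x 1 / s := by
    have h2 : ∑ i : Fin k, algebraMap K' A (ℓ i.succ) * (x i.succ.succ / s) =
        (∑ i : Fin k, algebraMap K' A (ℓ i.succ) * x i.succ.succ) / s := by
      rw [Finset.sum_div]
      refine Finset.sum_congr rfl fun i _ => ?_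
      rw [mul_div_assoc]
    rw [h2, eq_div_iff hx, sub_mul, one_mul, div_mul_cancel₀ _ hx]
    linear_combination h3
  rw [aeval_sgF]
  refine fchart_hom (wF k) D P hP x _ s fun i => ?_
  refine Fin.cases ?_ (fun j => ?_) i
  · rw [Fin.cons_zero, Fin.cons_zero]
    show x 0 = s ^ 0 * x 0
    rw [pow_zero, one_mul]
  · rw [Fin.cons_succ]
    show x j.succ = s ^ 1 * _
    rw [pow_one]
    refine Fin.cases ?_ (fun j => ?_) j
    · rw [Fin.cons_zero]
      simp only [Fin.cons_succ]
      rw [h4, mul_div_cancel₀ _ hx]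
      rfl
    · rw [Fin.cons_succ, Fin.cons_succ, mul_div_cancel₀ _ hx]

/-- The orbit in the chart. -/
theorem affF_orbit (ℓ : Fin (k + 1) → K') (h0 : ℓ 0 = 1)
    (hℓ : ∀ x : Fin (k + 1) → K, ∑ i, ℓ i * algebraMap K K' (x i) = 0 → x = 0)
    (G : Fin (k + 1) → MvPolynomial (Fin (k + 2)) K) (d : ℕ)
    (hG : ∀ i, IsWeightedHomogeneous (wF k) (G i) d) (x : Fin (k + 2) → K)
    (hx : ∀ n, yo G x n ≠ 0) (n : ℕ) :
    eval (affF ℓ (orb (skew G) x n)) (phiF ℓ G 0) ≠ 0 ∧
      ∀ i, affF ℓ (orb (skew G) x (n + 1)) i = eval (affF ℓ (orb (skew G) x n)) (phiF ℓ G i.succ) /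
        eval (affF ℓ (orb (skew G) x n)) (phiF ℓ G 0) := by
  have hs : ∀ n, ∑ j : Fin (k + 1), ℓ j * algebraMap K K' (orb (skew G) x n j.succ) ≠ 0 :=
    fun n h => hx n (hℓ _ h)
  have key : ∀ j : Fin (k + 1), algebraMap K K' (orb (skew G) x (n + 1) j.succ) =
      (∑ j : Fin (k + 1), ℓ j * algebraMap K K' (orb (skew G) x n j.succ)) ^ d *
        eval (affF ℓ (orb (skew G) x n)) (sgF ℓ (map (algebraMap K K') (G j))) := by
    intro j
    have h1 := eval_sgF (A := K') ℓ h0 d (map (algebraMap K K') (G j))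
      (fchart_map_whom _ _ _ (hG j)) (fun i => algebraMap K K' (orb (skew G) x n i)) (hs n)
    have h2 : aeval (fun i => algebraMap K K' (orb (skew G) x n i)) (map (algebraMap K K') (G j)) =
        algebraMap K K' (orb (skew G) x (n + 1) j.succ) := by
      have h3 : orb (skew G) x (n + 1) = ev (skew G) (orb (skew G) x n) :=
        Function.iterate_succ_apply' _ _ _
      rw [h3]
      show _ = algebraMap K K' (eval (orb (skew G) x n) (G j))
      rw [aeval_map_algebraMap]
      have h4 : aeval (algebraMap K K' ∘ orb (skew G) x n) (G j) =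
          algebraMap K K' (aeval (orb (skew G) x n) (G j)) :=
        aeval_algebraMap_apply K' (orb (skew G) x n) (G j)
      exact h4
    rw [← h2, h1]
    rfl
  have h00 : (∑ j : Fin (k + 1), ℓ j * algebraMap K K' (orb (skew G) x n j.succ)) ^ d *
      eval (affF ℓ (orb (skew G) x n)) (phiF ℓ G 0) =
        ∑ j : Fin (k + 1), ℓ j * algebraMap K K' (orb (skew G) x (n + 1) j.succ) := by
    show _ * eval _ (∑ j, C (ℓ j) * sgF ℓ (map (algebraMap K K') (G j))) = _
    rw [map_sum, Finset.mul_sum]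
    refine Finset.sum_congr rfl fun j _ => ?_
    rw [key j, map_mul, eval_C]
    ring
  have hsd : (∑ j : Fin (k + 1), ℓ j * algebraMap K K' (orb (skew G) x n j.succ)) ^ d ≠ 0 :=
    pow_ne_zero _ (hs n)
  have hne : eval (affF ℓ (orb (skew G) x n)) (phiF ℓ G 0) ≠ 0 := by
    intro h
    rw [h, mul_zero] at h00
    exact hs (n + 1) h00.symm
  refine ⟨hne, fun i => ?_⟩
  refine Fin.cases ?_ (fun j => ?_) i
  · have h5 : eval (affF ℓ (orb (skew G) x n)) (phiF ℓ G (Fin.succ 0)) =
        (algebraMap K K' (orb (skew G) x n 0) + 1) *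
          eval (affF ℓ (orb (skew G) x n)) (phiF ℓ G 0) := by
      show eval _ ((X 0 + 1) * ∑ j, C (ℓ j) * sgF ℓ (map (algebraMap K K') (G j))) = _
      rw [map_mul, map_add, eval_X, map_one]
      rfl
    rw [h5, mul_div_cancel_right₀ _ hne]
    show algebraMap K K' (orb (skew G) x (n + 1) 0) = _
    rw [orb_zero, orb_zero]
    push_cast
    ring
  · show algebraMap K K' (orb (skew G) x (n + 1) j.succ.succ) /
      (∑ j : Fin (k + 1), ℓ j * algebraMap K K' (orb (skew G) x (n + 1) j.succ)) = _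
    rw [← h00, key j.succ, mul_div_mul_left _ _ hsd]
    rfl

theorem fchart_itp_zero (G : Fin (k + 1) → MvPolynomial (Fin (k + 2)) K) (n : ℕ) :
    itp (skew G) n 0 = X 0 + C (n : K) := by
  induction n with
  | zero =>
    show X 0 = _
    rw [Nat.cast_zero, C_0, add_zero]
  | succ n ih =>
    rw [itp_succ]
    show aeval (itp (skew G) n) (X 0 + 1) = _
    rw [map_add, aeval_X, ih, map_one]
    push_cast
    rw [C_add, C_1]
    ring

/-- The iterates in the chart: with `f a = aeval y (sgF ℓ (itp (skew G) j a.succ))` the sum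
`∑ ℓ a * f a` is not zero and `gorb (phiF ℓ G) y j i.succ` is the quotient of `f i.succ` by it.
Induction on `j`. -/
theorem gorbF (ℓ : Fin (k + 1) → K') (h0 : ℓ 0 = 1)
    (G : Fin (k + 1) → MvPolynomial (Fin (k + 2)) K) (d : ℕ)
    (hG : ∀ i, IsWeightedHomogeneous (wF k) (G i) d) {L : Type} [Field L] [Algebra K' L]
    (y : Fin (k + 1) → L) (hy : ∀ j, aeval (gorb (phiF ℓ G) y j) (phiF ℓ G 0) ≠ 0) (j : ℕ) :
    gorb (phiF ℓ G) y j 0 = y 0 + j ∧
    (∑ a : Fin (k + 1), algebraMap K' L (ℓ a) *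
      aeval y (sgF ℓ (map (algebraMap K K') (itp (skew G) j a.succ)))) ≠ 0 ∧
    ∀ i : Fin k, gorb (phiF ℓ G) y j i.succ *
      (∑ a : Fin (k + 1), algebraMap K' L (ℓ a) *
        aeval y (sgF ℓ (map (algebraMap K K') (itp (skew G) j a.succ)))) =
      aeval y (sgF ℓ (map (algebraMap K K') (itp (skew G) j i.succ.succ))) := by
  induction j with
  | zero =>
    have hf : ∀ a : Fin (k + 1), aeval y (sgF ℓ (map (algebraMap K K') (itp (skew G) 0 a.succ))) =
        (Fin.cons (1 - ∑ i : Fin k, algebraMap K' L (ℓ i.succ) * y i.succ) fun i => y i.succ :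
          Fin (k + 1) → L) a := by
      intro a
      have h1 : itp (skew G) 0 a.succ = X a.succ := rfl
      rw [h1, map_X, aeval_sgF, aeval_X, Fin.cons_succ]
    have hsum : ∑ a : Fin (k + 1), algebraMap K' L (ℓ a) *
        aeval y (sgF ℓ (map (algebraMap K K') (itp (skew G) 0 a.succ))) = 1 := by
      rw [Fin.sum_univ_succ, hf 0, Fin.cons_zero, h0, map_one, one_mul]
      have h2 : ∑ i : Fin k, algebraMap K' L (ℓ i.succ) *
          aeval y (sgF ℓ (map (algebraMap K K') (itp (skew G) 0 i.succ.succ))) =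
          ∑ i : Fin k, algebraMap K' L (ℓ i.succ) * y i.succ :=
        Finset.sum_congr rfl fun i _ => by rw [hf i.succ, Fin.cons_succ]
      rw [h2]
      ring
    refine ⟨?_, ?_, fun i => ?_⟩
    · show y 0 = _
      rw [Nat.cast_zero, add_zero]
    · rw [hsum]
      exact one_ne_zero
    · rw [hsum, hf i.succ, Fin.cons_succ, mul_one]
      rfl
  | succ j ih =>
    obtain ⟨ih0, ih1, ih2⟩ := ih
    set z : Fin (k + 2) → L := fun i =>
      aeval y (sgF ℓ (map (algebraMap K K') (itp (skew G) j i))) with hz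
    have hz0 : z 0 = y 0 + j := by
      show aeval y (sgF ℓ (map (algebraMap K K') (itp (skew G) j 0))) = _
      rw [fchart_itp_zero, aeval_sgF, map_add, map_X, map_C, map_add, aeval_X, aeval_C,
        Fin.cons_zero, map_natCast, map_natCast]
    have hpt : gorb (phiF ℓ G) y j = (Fin.cons (z 0) fun i : Fin k =>
        z i.succ.succ / ∑ a : Fin (k + 1), algebraMap K' L (ℓ a) * z a.succ :
          Fin (k + 1) → L) := by
      funext i
      refine Fin.cases ?_ (fun i => ?_) i
      · rw [Fin.cons_zero, hz0, ih0]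
      · rw [Fin.cons_succ, eq_div_iff ih1]
        exact ih2 i
    have hcomp : ∀ P : MvPolynomial (Fin (k + 2)) K,
        aeval y (sgF ℓ (map (algebraMap K K') (aeval (itp (skew G) j) P))) =
          aeval z (map (algebraMap K K') P) := by
      intro P
      induction P using MvPolynomial.induction_on with
      | C a =>
        rw [aeval_C, MvPolynomial.algebraMap_eq, map_C, aeval_C, aeval_sgF, aeval_C]
      | add p q hp hq =>
        rw [map_add, map_add, map_add, map_add, map_add, map_add, hp, hq]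
      | mul_X p i hp =>
        rw [map_mul, map_mul, map_mul, map_mul, map_mul, map_mul, hp, aeval_X, map_X, aeval_X]
    have hnew : ∀ a : Fin (k + 1),
        aeval y (sgF ℓ (map (algebraMap K K') (itp (skew G) (j + 1) a.succ))) =
          (∑ a : Fin (k + 1), algebraMap K' L (ℓ a) * z a.succ) ^ d *
            aeval (gorb (phiF ℓ G) y j) (sgF ℓ (map (algebraMap K K') (G a))) := by
      intro a
      rw [itp_succ, hcomp, hpt]
      exact eval_sgF (A := L) ℓ h0 d (map (algebraMap K K') (G a))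
        (fchart_map_whom _ _ _ (hG a)) z ih1
    have hsum : ∑ a : Fin (k + 1), algebraMap K' L (ℓ a) *
        aeval y (sgF ℓ (map (algebraMap K K') (itp (skew G) (j + 1) a.succ))) =
          (∑ a : Fin (k + 1), algebraMap K' L (ℓ a) * z a.succ) ^ d *
            aeval (gorb (phiF ℓ G) y j) (phiF ℓ G 0) := by
      show _ = _ * aeval _ (∑ j, C (ℓ j) * sgF ℓ (map (algebraMap K K') (G j)))
      rw [map_sum, Finset.mul_sum]
      refine Finset.sum_congr rfl fun a _ => ?_
      rw [hnew a, map_mul, aeval_C]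
      ring
    have hsd : (∑ a : Fin (k + 1), algebraMap K' L (ℓ a) * z a.succ) ^ d ≠ 0 :=
      pow_ne_zero _ ih1
    refine ⟨?_, ?_, fun i => ?_⟩
    · show aeval (gorb (phiF ℓ G) y j) (phiF ℓ G (Fin.succ 0)) /
        aeval (gorb (phiF ℓ G) y j) (phiF ℓ G 0) = _
      have h5 : aeval (gorb (phiF ℓ G) y j) (phiF ℓ G (Fin.succ 0)) =
          (gorb (phiF ℓ G) y j 0 + 1) * aeval (gorb (phiF ℓ G) y j) (phiF ℓ G 0) := by
        show aeval _ ((X 0 + 1) * ∑ j, C (ℓ j) * sgF ℓ (map (algebraMap K K') (G j))) = _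
        rw [map_mul, map_add, aeval_X, map_one]
        rfl
      rw [h5, mul_div_cancel_right₀ _ (hy j), ih0]
      push_cast
      ring
    · rw [hsum]
      exact mul_ne_zero hsd (hy j)
    · show aeval (gorb (phiF ℓ G) y j) (phiF ℓ G i.succ.succ) /
        aeval (gorb (phiF ℓ G) y j) (phiF ℓ G 0) * _ = _
      rw [hsum, hnew i.succ]
      show aeval (gorb (phiF ℓ G) y j) (sgF ℓ (map (algebraMap K K') (G i.succ))) /
        aeval (gorb (phiF ℓ G) y j) (phiF ℓ G 0) * _ = _
      have h6 := hy j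
      field_simp

end Pool.Agent.H.MP_31a675_nt.W
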