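import Pool.Agent.H.MP_31a675_nt.W.Dense
import Pool.Agent.H.MP_31a675_nt.W.FChart

/-!
# An invariant curve
-/

namespace Pool.Agent.H.MP_31a675_nt.W

open MvPolynomial

variable {K : Type} [Field K] {k : ℕ} {K' : Type} [Field K'] [Algebra K K']

/-- The exponent of the homogenized monomial. -/
noncomputable def fcExp (e : ℕ) (m : Fin 2 →₀ ℕ) : Fin 3 →₀ ℕ :=
  Finsupp.equivFunOnFinite.symm ![m 0, m 1, e - m 1]

theorem fcExp_inj (e : ℕ) : Function.Injective (fcExp e) := by
  intro m m' h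
  have h1 : ∀ i : Fin 3, fcExp e m i = fcExp e m' i := fun i => DFunLike.congr_fun h i
  have h2 := h1 0
  have h3 := h1 1
  simp only [fcExp, Finsupp.equivFunOnFinite_symm_apply_apply, Matrix.cons_val_zero,
    Matrix.cons_val_one] at h2 h3
  ext i
  fin_cases i
  · exact h2
  · exact h3

/-- A relation between an element `t` and the quotient of `u` and `v`, made homogeneous; `X 2` if
`v = 0`. -/
theorem rel_hom {L : Type} [Field L] [Algebra K' L] (t u v : L)
    (h : v ≠ 0 → ∃ p : MvPolynomial (Fin 2) K', p ≠ 0 ∧ aeval ![t, u / v] p = 0) :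
    ∃ (e : ℕ) (P : MvPolynomial (Fin 3) K'), P ≠ 0 ∧ IsWeightedHomogeneous ![0, 1, 1] P e ∧
      aeval ![t, u, v] P = 0 := by
  classical
  by_cases hv : v = 0
  · refine ⟨1, X 2, X_ne_zero _, ?_, ?_⟩
    · have := isWeightedHomogeneous_X K' (![0, 1, 1] : Fin 3 → ℕ) 2
      simpa using this
    · rw [aeval_X]
      simpa using hv
  · obtain ⟨p, hp, hp0⟩ := h hv
    set e := p.totalDegree with he
    refine ⟨e, ∑ m ∈ p.support, monomial (fcExp e m) (coeff m p), ?_, ?_, ?_⟩
    · obtain ⟨m₀, hm₀⟩ := MvPolynomial.ne_zero_iff.1 hp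
      refine MvPolynomial.ne_zero_iff.2 ⟨fcExp e m₀, ?_⟩
      rw [coeff_sum, Finset.sum_eq_single m₀]
      · rw [coeff_monomial, if_pos rfl]
        exact hm₀
      · intro m _ hm
        rw [coeff_monomial, if_neg]
        exact fun h => hm (fcExp_inj e h)
      · intro hm
        exact absurd (mem_support_iff.2 hm₀) hm
    · refine IsWeightedHomogeneous.sum _ _ _ fun m hm => ?_
      refine isWeightedHomogeneous_monomial _ _ _ ?_
      have hle : m 1 ≤ e := by
        have h1 : m.degree ≤ e := le_totalDegree hm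
        have h2 : m.degree = m 0 + m 1 := by
          rw [Finsupp.degree_eq_sum, Fin.sum_univ_two]
        omega
      rw [Finsupp.weight_apply, Finsupp.sum_fintype _ _ (fun i => by simp), Fin.sum_univ_three]
      simp only [fcExp, Finsupp.equivFunOnFinite_symm_apply_apply]
      simp
      omega
    · have h1 : aeval ![t, u, v] (∑ m ∈ p.support, monomial (fcExp e m) (coeff m p)) =
          v ^ e * aeval ![t, u / v] p := by
        rw [map_sum]
        conv_rhs => rw [as_sum p, map_sum, Finset.mul_sum]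
        refine Finset.sum_congr rfl fun m hm => ?_
        have hle : m 1 ≤ e := by
          have h1 : m.degree ≤ e := le_totalDegree hm
          have h2 : m.degree = m 0 + m 1 := by
            rw [Finsupp.degree_eq_sum, Fin.sum_univ_two]
          omega
        rw [aeval_monomial, aeval_monomial, Finsupp.prod_fintype _ _ (fun i => pow_zero _),
          Finsupp.prod_fintype _ _ (fun i => pow_zero _), Fin.prod_univ_three, Fin.prod_univ_two]
        simp only [fcExp, Finsupp.equivFunOnFinite_symm_apply_apply]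
        simp only [Matrix.cons_val_zero, Matrix.cons_val_one, Matrix.cons_val]
        have h3 : v ^ e = v ^ (e - m 1) * v ^ m 1 := by
          rw [← pow_add]
          congr 1
          omega
        rw [h3, div_pow]
        field_simp
      rw [h1, hp0, mul_zero]

/-- The value of a weighted homogeneous polynomial after a scaling. -/
theorem fc_scale (P : MvPolynomial (Fin 3) K') (e : ℕ)
    (hP : IsWeightedHomogeneous ![0, 1, 1] P e) (t u v S : K') :
    eval ![t, S * u, S * v] P = S ^ e * eval ![t, u, v] P := by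
  classical
  rw [eval_eq', eval_eq', Finset.mul_sum]
  refine Finset.sum_congr rfl fun m hm => ?_
  have h1 := hP (mem_support_iff.1 hm)
  rw [Finsupp.weight_apply, Finsupp.sum_fintype _ _ (fun i => by simp), Fin.sum_univ_three] at h1
  rw [Fin.prod_univ_three, Fin.prod_univ_three]
  simp at h1
  simp only [Matrix.cons_val_zero, Matrix.cons_val_one, Matrix.cons_val]
  rw [← h1, mul_pow, mul_pow, pow_add]
  ring

section Values

variable {N : ℕ} {L : Type} [Field L] [Algebra K' L]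

theorem fc_cx (y : Fin N → L) (x : ℕ → Fin N → K') (A : Set ℕ) (u : L) (w : ℕ → K')
    (hu : Val y x A u w) : ∃ E, Cx K' y E u := by
  obtain ⟨P, Q, -, hQ, h, -⟩ := hu
  exact ⟨P.totalDegree + Q.totalDegree, P, Q, by omega, by omega, hQ, h⟩

theorem fc_cx_mono (y : Fin N → L) {E E' : ℕ} (hE : E ≤ E') {u : L} (hu : Cx K' y E u) :
    Cx K' y E' u := by
  obtain ⟨P, Q, hP, hQ, hQ0, h⟩ := hu
  exact ⟨P, Q, hP.trans hE, hQ.trans hE, hQ0, h⟩

theorem fc_cx_div (y : Fin N → L) (x : ℕ → Fin N → K') (A : Set ℕ) (u v : L) (w w' : ℕ → K')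
    (hu : Val y x A u w) (hv : Val y x A v w') (h0 : v ≠ 0) : ∃ E, Cx K' y E (u / v) := by
  obtain ⟨P, Q, -, hQ, h, -⟩ := hu
  obtain ⟨P', Q', -, hQ', h', -⟩ := hv
  refine ⟨(P * Q').totalDegree + (Q * P').totalDegree, P * Q', Q * P', by omega, by omega, ?_, ?_⟩
  · rw [map_mul, ← h']
    exact mul_ne_zero hQ (mul_ne_zero h0 hQ')
  · rw [map_mul, map_mul, ← h, ← h']
    field_simp

end Values

/-- The linear form does not vanish on the orbit. -/
theorem fc_form_ne (ℓ : Fin (k + 1) → K')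
    (hℓ : ∀ x : Fin (k + 1) → K, ∑ i, ℓ i * algebraMap K K' (x i) = 0 → x = 0)
    (G : Fin (k + 1) → MvPolynomial (Fin (k + 2)) K) (x : Fin (k + 2) → K)
    (hx : ∀ n, yo G x n ≠ 0) (n : ℕ) :
    ∑ j, ℓ j * algebraMap K K' (orb (skew G) x n (Fin.succ j)) ≠ 0 :=
  fun h => hx n (hℓ (yo G x n) h)

/-- The relation for one residue class. -/
theorem fc_key (ℓ : Fin (k + 1) → K') (h0 : ℓ 0 = 1)
    (hℓ : ∀ x : Fin (k + 1) → K, ∑ i, ℓ i * algebraMap K K' (x i) = 0 → x = 0)
    (G : Fin (k + 1) → MvPolynomial (Fin (k + 2)) K) (d : ℕ)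
    (hG : ∀ i, IsWeightedHomogeneous (wF k) (G i) d) (x : Fin (k + 2) → K)
    (hx : ∀ n, yo G x n ≠ 0) {L : Type} [Field L] [Algebra K' L] (y : Fin (k + 1) → L)
    {I : Ideal (MvPolynomial (Fin (k + 1)) K')} {μ : ℕ} {z : Fin 1 → MvPolynomial (Fin (k + 1)) K'}
    {b : Fin μ → MvPolynomial (Fin (k + 1)) K'} (h : Sys I z b) (hy : ∀ g ∈ I, aeval y g = 0)
    (n₀ d' : ℕ)
    (hn₀ : ∀ g : MvPolynomial (Fin (k + 1)) K', aeval y g = 0 →
      eval (affF ℓ (orb (skew G) x n₀)) g = 0)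
    (hinv : ∀ g : MvPolynomial (Fin (k + 1)) K', aeval y g = 0 →
      aeval (gorb (phiF ℓ G) y d') g = 0) (a c : Fin (k + 1)) (i : ℕ) :
    ∃ (e : ℕ) (P : MvPolynomial (Fin 3) K'), P ≠ 0 ∧ IsWeightedHomogeneous ![0, 1, 1] P e ∧
      ∀ m, eval ![algebraMap K K' (orb (skew G) x (n₀ + m * d' + i) 0),
        algebraMap K K' (orb (skew G) x (n₀ + m * d' + i) a.succ),
        algebraMap K K' (orb (skew G) x (n₀ + m * d' + i) c.succ)] P = 0 := by
  classical
  set X' : ℕ → Fin (k + 1) → K' := fun n => affF ℓ (orb (skew G) x n) with hX'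
  have ho0 : ∀ n, eval (X' n) (phiF ℓ G 0) ≠ 0 := fun n => (affF_orbit ℓ h0 hℓ G d hG x hx n).1
  have ho : ∀ n i, X' (n + 1) i = eval (X' n) (phiF ℓ G i.succ) / eval (X' n) (phiF ℓ G 0) :=
    fun n => (affF_orbit ℓ h0 hℓ G d hG x hx n).2
  have hpts := dense_points (phiF ℓ G) y X' ho0 ho n₀ d' hn₀ hinv
  set A : Set ℕ := Set.range fun m => n₀ + m * d' with hA
  have hAne : A.Nonempty := ⟨_, ⟨0, rfl⟩⟩
  have hxy : ∀ n ∈ A, ∀ g : MvPolynomial (Fin (k + 1)) K', aeval y g = 0 → eval (X' n) g = 0 := by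
    rintro n ⟨m, rfl⟩ g hg
    exact hpts m g hg
  have h1 := (val_orbit (phiF ℓ G) y X' A hAne hxy ho0 ho i).2
  have h2 : ∀ g : MvPolynomial (Fin (k + 1)) K', Val y X' A (aeval (gorb (phiF ℓ G) y i) g)
      fun n => eval (X' (n + i)) g :=
    fun g => val_aeval y X' A (gorb (phiF ℓ G) y i) (fun n => X' (n + i)) h1 g
  set t : L := aeval (gorb (phiF ℓ G) y i) (X 0 : MvPolynomial (Fin (k + 1)) K') with ht
  set u : L := aeval (gorb (phiF ℓ G) y i) (sgF ℓ (X a.succ)) with hu
  set v : L := aeval (gorb (phiF ℓ G) y i) (sgF ℓ (X c.succ)) with hv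
  obtain ⟨e, P, hP, hPw, hP0⟩ := rel_hom (K' := K') t u v (fun hv0 => by
    obtain ⟨E₁, hE₁⟩ := fc_cx y X' A t _ (h2 (X 0))
    obtain ⟨E₂, hE₂⟩ := fc_cx_div y X' A u v _ _ (h2 (sgF ℓ (X a.succ))) (h2 (sgF ℓ (X c.succ))) hv0
    refine exists_rel h y hy (by norm_num : 1 < 2) ![t, u / v] (max E₁ E₂) (fun j => ?_)
    fin_cases j
    · exact fc_cx_mono y (le_max_left _ _) hE₁
    · exact fc_cx_mono y (le_max_right _ _) hE₂)
  refine ⟨e, P, hP, hPw, fun m => ?_⟩
  -- the values
  have h3 := val_aeval y X' A ![t, u, v]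
    (fun n => ![eval (X' (n + i)) (X 0), eval (X' (n + i)) (sgF ℓ (X a.succ)),
      eval (X' (n + i)) (sgF ℓ (X c.succ))]) (fun j => by
        fin_cases j
        · exact h2 (X 0)
        · exact h2 (sgF ℓ (X a.succ))
        · exact h2 (sgF ℓ (X c.succ))) P
  have h4 := dense_val_zero y X' A hxy _ _ h3 hP0 (n₀ + m * d') ⟨m, rfl⟩
  obtain ⟨n, hn⟩ : ∃ n, n = n₀ + m * d' + i := ⟨_, rfl⟩
  rw [← hn] at h4 ⊢
  -- homogeneous coordinates
  set S : K' := ∑ j, ℓ j * algebraMap K K' (orb (skew G) x n (Fin.succ j)) with hS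
  have hS0 : S ≠ 0 := fc_form_ne ℓ hℓ G x hx n
  have h5 : ∀ a : Fin (k + 1), algebraMap K K' (orb (skew G) x n a.succ) =
      S * eval (X' n) (sgF ℓ (X a.succ)) := by
    intro a
    have h6 := eval_sgF (A := K') ℓ h0 1 (X a.succ) (by
      have := isWeightedHomogeneous_X K' (wF k) a.succ
      simpa [wF] using this) (fun j => algebraMap K K' (orb (skew G) x n j)) hS0
    rw [aeval_X, pow_one] at h6
    rw [h6]
    rfl
  rw [h5 a, h5 c]
  have h7 : algebraMap K K' (orb (skew G) x n 0) = eval (X' n) (X 0 : MvPolynomial (Fin (k + 1)) K') := by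
    rw [eval_X]
    rfl
  rw [h7, fc_scale P e hPw, h4, mul_zero]

/-- The relations for an orbit on an invariant curve, as in `not_dense` with `k = 1`.
The points `affF ℓ (orb (skew G) x (n₀ + m d))` are on the curve (`dense_points`). For `i < d` apply
`rel_hom` and `exists_rel` to the values of `X 0`, `sgF ℓ (X a.succ)`, `sgF ℓ (X b.succ)` at
`gorb (phiF ℓ G) y i` (they have values in the sense of `Val`: `val_orbit`, `val_aeval`, so finite
complexity, as in the proof of `not_dense`). The relation `P i` vanishes at the points with index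
`n₀ + m d + i` (`dense_val_zero`), first in the affine coordinates, then by homogeneity in `y`
(`eval_sgF` for `X a.succ`). Multiply the `P i` with the `X 0 - C (t n)`, `n < n₀`. -/
theorem curve_rel (ℓ : Fin (k + 1) → K') (h0 : ℓ 0 = 1)
    (hℓ : ∀ x : Fin (k + 1) → K, ∑ i, ℓ i * algebraMap K K' (x i) = 0 → x = 0)
    (G : Fin (k + 1) → MvPolynomial (Fin (k + 2)) K) (d : ℕ)
    (hG : ∀ i, IsWeightedHomogeneous (wF k) (G i) d) (x : Fin (k + 2) → K)
    (hx : ∀ n, yo G x n ≠ 0) {L : Type} [Field L] [Algebra K' L] (y : Fin (k + 1) → L)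
    {I : Ideal (MvPolynomial (Fin (k + 1)) K')} {μ : ℕ} {z : Fin 1 → MvPolynomial (Fin (k + 1)) K'}
    {b : Fin μ → MvPolynomial (Fin (k + 1)) K'} (h : Sys I z b) (hy : ∀ g ∈ I, aeval y g = 0)
    (n₀ d' : ℕ) (hd' : 1 ≤ d')
    (hn₀ : ∀ g : MvPolynomial (Fin (k + 1)) K', aeval y g = 0 →
      eval (affF ℓ (orb (skew G) x n₀)) g = 0)
    (hinv : ∀ g : MvPolynomial (Fin (k + 1)) K', aeval y g = 0 →
      aeval (gorb (phiF ℓ G) y d') g = 0) (a c : Fin (k + 1)) :
    ∃ (e : ℕ) (P : MvPolynomial (Fin 3) K'), P ≠ 0 ∧ IsWeightedHomogeneous ![0, 1, 1] P e ∧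
      ∀ n, eval ![algebraMap K K' (orb (skew G) x n 0),
        algebraMap K K' (orb (skew G) x n a.succ), algebraMap K K' (orb (skew G) x n c.succ)] P = 0 := by
  classical
  choose e P hP hPw hP0 using
    fc_key ℓ h0 hℓ G d hG x hx y h hy n₀ d' hn₀ hinv a c
  set T : ℕ → K' := fun n => algebraMap K K' (orb (skew G) x n 0) with hT
  refine ⟨(∑ i ∈ Finset.range d', e i) + ∑ _n ∈ Finset.range n₀, 0,
    (∏ i ∈ Finset.range d', P i) * ∏ n ∈ Finset.range n₀, (X 0 - C (T n)), ?_, ?_, ?_⟩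
  · refine mul_ne_zero (Finset.prod_ne_zero_iff.2 fun i _ => hP i)
      (Finset.prod_ne_zero_iff.2 fun n _ h1 => ?_)
    have h2 := congrArg (eval (fun _ => T n + 1 : Fin 3 → K')) h1
    simp at h2
  · refine IsWeightedHomogeneous.mul (IsWeightedHomogeneous.prod _ _ _ fun i _ => hPw i)
      (IsWeightedHomogeneous.prod _ _ _ fun n _ => ?_)
    have h1 := isWeightedHomogeneous_X K' (![0, 1, 1] : Fin 3 → ℕ) 0
    have h2 := isWeightedHomogeneous_C (R := K') (![0, 1, 1] : Fin 3 → ℕ) (T n)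
    have h3 : (![0, 1, 1] : Fin 3 → ℕ) 0 = 0 := rfl
    rw [h3] at h1
    exact (weightedHomogeneousSubmodule K' (![0, 1, 1] : Fin 3 → ℕ) 0).sub_mem h1 h2
  · intro n
    rw [map_mul]
    rcases lt_or_ge n n₀ with hlt | hge
    · rw [map_prod (s := Finset.range n₀), Finset.prod_eq_zero (Finset.mem_range.2 hlt), mul_zero]
      simp [hT]
    · have h1 : n = n₀ + (n - n₀) / d' * d' + (n - n₀) % d' := by
        have := Nat.div_add_mod (n - n₀) d'
        rw [mul_comm] at this
        omega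
      rw [map_prod (s := Finset.range d'),
        Finset.prod_eq_zero (Finset.mem_range.2 (Nat.mod_lt (n - n₀) (by omega))), zero_mul]
      have h2 := hP0 ((n - n₀) % d') ((n - n₀) / d')
      rw [← h1] at h2
      exact h2

end Pool.Agent.H.MP_31a675_nt.W
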