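import Pool.Agent.H.MP_31a675_nt.W.FDefs

/-!
# The degree of a rational map on a variety, by dimensions of graded pieces
-/

namespace Pool.Agent.H.MP_31a675_nt.W

open MvPolynomial

variable {F : Type} [Field F] {L : Type} [Field L] [Algebra F L] {k : ℕ}

/-- The values at `η` of the forms of degree `n` over `F`. -/
noncomputable def Bn (F : Type) [Field F] {L : Type} [Field L] [Algebra F L] {k : ℕ}
    (η : Fin (k + 1) → L) (n : ℕ) : Submodule F L :=
  (homogeneousSubmodule (Fin (k + 1)) F n).map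
    (aeval η : MvPolynomial (Fin (k + 1)) F →ₐ[F] L).toLinearMap

theorem bn_mem {η : Fin (k + 1) → L} {n : ℕ} {p : MvPolynomial (Fin (k + 1)) F}
    (hp : p.IsHomogeneous n) : aeval η p ∈ Bn F η n :=
  Submodule.mem_map_of_mem (f := (aeval η : MvPolynomial (Fin (k + 1)) F →ₐ[F] L).toLinearMap) hp

theorem bn_exists {η : Fin (k + 1) → L} {n : ℕ} {a : L} (ha : a ∈ Bn F η n) :
    ∃ p : MvPolynomial (Fin (k + 1)) F, p.IsHomogeneous n ∧ aeval η p = a := by
  obtain ⟨p, hp, rfl⟩ := Submodule.mem_map.1 ha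
  exact ⟨p, hp, rfl⟩

theorem bn_mul (η : Fin (k + 1) → L) {m n : ℕ} {a b : L} (ha : a ∈ Bn F η m) (hb : b ∈ Bn F η n) :
    a * b ∈ Bn F η (m + n) := by
  obtain ⟨p, hp, rfl⟩ := bn_exists ha
  obtain ⟨q, hq, rfl⟩ := bn_exists hb
  rw [← map_mul]
  exact bn_mem (hp.mul hq)

theorem bn_finite (η : Fin (k + 1) → L) (n : ℕ) : Module.Finite F (Bn F η n) := by
  rw [Module.Finite.iff_fg]
  exact (homogeneousSubmodule_fg (Fin (k + 1)) F n).map _

theorem bn_pow (η : Fin (k + 1) → L) (a : Fin (k + 1)) (n : ℕ) : η a ^ n ∈ Bn F η n := by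
  have h := bn_mem (η := η) (isHomogeneous_X_pow (R := F) a n)
  rwa [map_pow, aeval_X] at h

theorem bn_prod (η : Fin (k + 1) → L) (d : Fin (k + 1) → ℕ) (n : ℕ) (hd : ∑ j, d j = n) :
    ∏ j, η j ^ d j ∈ Bn F η n := by
  have h := bn_mem (η := η) (IsHomogeneous.prod Finset.univ
    (fun j => (X j : MvPolynomial (Fin (k + 1)) F) ^ d j) d fun j _ => isHomogeneous_X_pow j (d j))
  rw [map_prod, hd] at h
  simpa only [map_pow, aeval_X] using h

/-- The elements `η a ^ i * η b ^ (n - i)` are linearly independent. -/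
theorem bn_big (η : Fin (k + 1) → L) (a b : Fin (k + 1)) (hb : η b ≠ 0)
    (htr : Transcendental F (η a / η b)) (n : ℕ) : n + 1 ≤ Module.finrank F (Bn F η n) := by
  have := bn_finite (F := F) η n
  have hmem : ∀ i : Fin (n + 1), η a ^ (i : ℕ) * η b ^ (n - (i : ℕ)) ∈ Bn F η n := by
    intro i
    have h := bn_mul η (bn_pow (F := F) η a (i : ℕ)) (bn_pow (F := F) η b (n - (i : ℕ)))
    rwa [Nat.add_sub_cancel' (by omega : (i : ℕ) ≤ n)] at h
  have hli : LinearIndependent F (fun i : Fin (n + 1) => (⟨_, hmem i⟩ : Bn F η n)) := by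
    rw [Fintype.linearIndependent_iff]
    intro c hc i
    have h1 : ∑ i : Fin (n + 1), c i • (η a ^ (i : ℕ) * η b ^ (n - (i : ℕ))) = 0 := by
      have h2 := congrArg (Submodule.subtype (Bn F η n)) hc
      rw [map_sum, map_zero] at h2
      simpa only [map_smul, Submodule.subtype_apply] using h2
    have h3 : Polynomial.aeval (η a / η b)
        (∑ i : Fin (n + 1), Polynomial.C (c i) * Polynomial.X ^ (i : ℕ)) = 0 := by
      have h4 : η b ^ n * Polynomial.aeval (η a / η b)
          (∑ i : Fin (n + 1), Polynomial.C (c i) * Polynomial.X ^ (i : ℕ)) = 0 := by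
        rw [map_sum, Finset.mul_sum, ← h1]
        refine Finset.sum_congr rfl fun i _ => ?_
        have h5 : η b ^ n = η b ^ (i : ℕ) * η b ^ (n - (i : ℕ)) := by
          rw [← pow_add, Nat.add_sub_cancel' (by omega : (i : ℕ) ≤ n)]
        rw [map_mul, map_pow, Polynomial.aeval_C, Polynomial.aeval_X, div_pow, h5, Algebra.smul_def]
        have h6 : η b ^ (i : ℕ) ≠ 0 := pow_ne_zero _ hb
        field_simp
      exact (mul_eq_zero.1 h4).resolve_left (pow_ne_zero _ hb)
    have h7 : (∑ i : Fin (n + 1), Polynomial.C (c i) * Polynomial.X ^ (i : ℕ)) = 0 := by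
      by_contra h8
      exact htr ⟨_, h8, h3⟩
    have h9 := congrArg (fun p => Polynomial.coeff p (i : ℕ)) h7
    simp only [Polynomial.finsetSum_coeff, Polynomial.coeff_C_mul, Polynomial.coeff_X_pow,
      Polynomial.coeff_zero] at h9
    rw [Finset.sum_eq_single_of_mem i (Finset.mem_univ _)] at h9
    · simpa using h9
    · intro j _ hj
      rw [if_neg (fun h => hj (Fin.ext h.symm)), mul_zero]
  have h := hli.fintype_card_le_finrank
  rwa [Fintype.card_fin] at h

/-- Every monomial of degree at least `(k + 1) M` is divisible by the `M`-th power of a variable. -/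
theorem bn_split (η : Fin (k + 1) → L) (M n : ℕ) (hn : (k + 1) * M ≤ n) (u : L)
    (hu : u ∈ Bn F η n) :
    ∃ v : Fin (k + 1) → L, (∀ l, v l ∈ Bn F η (n - M)) ∧ u = ∑ l, η l ^ M * v l := by
  obtain ⟨p, hp, rfl⟩ := bn_exists hu
  rw [aeval_def, eval₂_eq']
  refine Finset.sum_induction _
    (fun u => ∃ v : Fin (k + 1) → L, (∀ l, v l ∈ Bn F η (n - M)) ∧ u = ∑ l, η l ^ M * v l)
    ?_ ⟨0, fun l => zero_mem _, by simp⟩ ?_
  · rintro _ _ ⟨v, hv, rfl⟩ ⟨w, hw, rfl⟩
    refine ⟨v + w, fun l => add_mem (hv l) (hw l), ?_⟩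
    rw [← Finset.sum_add_distrib]
    refine Finset.sum_congr rfl fun l _ => ?_
    rw [Pi.add_apply, mul_add]
  · intro d hd
    have h1 : ∑ j, d j = n := by
      have h2 := hp (mem_support_iff.1 hd)
      rw [Finsupp.weight_apply, Finsupp.sum_fintype _ _ (fun i => by simp)] at h2
      simpa using h2
    obtain ⟨l, hl⟩ : ∃ l, M ≤ d l := by
      by_contra hcon
      push Not at hcon
      rcases Nat.eq_zero_or_pos M with rfl | hM
      · exact absurd (hcon 0) (by omega)
      · have h3 : ∑ j, d j ≤ ∑ _j : Fin (k + 1), (M - 1) :=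
          Finset.sum_le_sum fun j _ => by have := hcon j; omega
        rw [Finset.sum_const, Finset.card_univ, Fintype.card_fin, smul_eq_mul, h1] at h3
        have h4 : (k + 1) * (M - 1) < (k + 1) * M :=
          Nat.mul_lt_mul_of_pos_left (by omega) (by omega)
        omega
    classical
    refine ⟨fun j => if j = l then algebraMap F L (coeff d p) *
      ∏ i, η i ^ (if i = l then d i - M else d i) else 0, fun j => ?_, ?_⟩
    · dsimp only
      split_ifs with hj
      · rw [← Algebra.smul_def]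
        refine Submodule.smul_mem _ _ (bn_prod η _ _ ?_)
        rw [← h1, ← Finset.add_sum_erase _ _ (Finset.mem_univ l),
          ← Finset.add_sum_erase _ d (Finset.mem_univ l), if_pos rfl]
        have h5 : ∑ x ∈ Finset.univ.erase l, (if x = l then d x - M else d x) =
            ∑ x ∈ Finset.univ.erase l, d x :=
          Finset.sum_congr rfl fun x hx => if_neg (Finset.ne_of_mem_erase hx)
        rw [h5]
        omega
      · exact zero_mem _
    · rw [Finset.sum_eq_single_of_mem l (Finset.mem_univ _)]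
      · dsimp only
        rw [if_pos rfl, ← Finset.mul_prod_erase _ _ (Finset.mem_univ l),
          ← Finset.mul_prod_erase _ (fun i => η i ^ (if i = l then d i - M else d i))
            (Finset.mem_univ l), if_pos rfl]
        have h6 : ∏ x ∈ Finset.univ.erase l, η x ^ (if x = l then d x - M else d x) =
            ∏ x ∈ Finset.univ.erase l, η x ^ d x :=
          Finset.prod_congr rfl fun x hx => by rw [if_neg (Finset.ne_of_mem_erase hx)]
        have h7 : η l ^ d l = η l ^ M * η l ^ (d l - M) := by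
          rw [← pow_add, Nat.add_sub_cancel' hl]
        rw [h6, h7]
        ring
      · intro j _ hj
        dsimp only
        rw [if_neg hj, mul_zero]

/-- **The degree of a map without common zeros cannot be lowered.** Suppose `e < D`. Some `g i` is not
zero; let `σ = A i / g i`, so that `A j = σ * g j` for all `j` and `σ ≠ 0`. For `n ≥ (k + 1) M` and `u` in
`Bn n`, `bn_split` gives `u = ∑ l, η l ^ M * v l = ∑ i, (∑ l, c l i * v l) * g i`, so `σ * u` is in
`Bn (n - D + e)`, and `σ * η b ^ (D - e - 1) * u` is in `Bn (n - 1)`. So the dimension of `Bn n` does not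
grow for `n ≥ (k + 1) M`, which contradicts `bn_big`. -/
theorem hilb (η : Fin (k + 1) → L) (a b : Fin (k + 1)) (hb : η b ≠ 0)
    (htr : Transcendental F (η a / η b)) (g A : Fin (k + 1) → L) (D M e : ℕ) (hD : D ≤ M)
    (c : Fin (k + 1) → Fin (k + 1) → L) (hc : ∀ l i, c l i ∈ Bn F η (M - D))
    (hg : ∀ l, η l ^ M = ∑ i, c l i * g i) (hA : ∀ i, A i ∈ Bn F η e) (hA0 : ∃ i, A i ≠ 0)
    (hAg : ∀ i j, A i * g j = A j * g i) : D ≤ e := by
  by_contra hDe
  push Not at hDe
  obtain ⟨i0, hi0⟩ : ∃ i, g i ≠ 0 := by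
    by_contra hcon
    push Not at hcon
    have h1 := hg b
    simp only [hcon, mul_zero, Finset.sum_const_zero] at h1
    exact pow_ne_zero _ hb h1
  set σ := A i0 / g i0 with hσ
  have hσg : ∀ j, σ * g j = A j := by
    intro j
    rw [hσ, div_mul_eq_mul_div, hAg i0 j, mul_div_assoc, div_self hi0, mul_one]
  have hσ0 : σ ≠ 0 := by
    obtain ⟨i1, hi1⟩ := hA0
    intro h0
    apply hi1
    rw [← hσg i1, h0, zero_mul]
  have hstep : ∀ n, (k + 1) * M ≤ n → ∀ u ∈ Bn F η n,
      (σ * η b ^ (D - e - 1)) * u ∈ Bn F η (n - 1) := by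
    intro n hn u hu
    have hMn : M ≤ n := le_trans (Nat.le_mul_of_pos_left M (Nat.succ_pos k)) hn
    obtain ⟨v, hv, rfl⟩ := bn_split η M n hn u hu
    have h1 : (σ * η b ^ (D - e - 1)) * ∑ l, η l ^ M * v l =
        η b ^ (D - e - 1) * ∑ i, (∑ l, c l i * v l) * A i := by
      have h2 : ∑ l, η l ^ M * v l = ∑ i, (∑ l, c l i * v l) * g i := by
        simp only [hg, Finset.sum_mul]
        rw [Finset.sum_comm]
        refine Finset.sum_congr rfl fun i _ => Finset.sum_congr rfl fun l _ => ?_
        ring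
      rw [h2, mul_comm σ, mul_assoc, Finset.mul_sum]
      congr 1
      refine Finset.sum_congr rfl fun i _ => ?_
      rw [← hσg i]
      ring
    rw [h1]
    have h3 : ∑ i, (∑ l, c l i * v l) * A i ∈ Bn F η (M - D + (n - M) + e) :=
      Submodule.sum_mem _ fun i _ => bn_mul η
        (Submodule.sum_mem _ fun l _ => bn_mul η (hc l i) (hv l)) (hA i)
    have h4 := bn_mul η (bn_pow (F := F) η b (D - e - 1)) h3
    have h5 : D - e - 1 + (M - D + (n - M) + e) = n - 1 := by omega
    rwa [h5] at h4
  have hM : 1 ≤ (k + 1) * M := by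
    have : 1 ≤ M := by omega
    exact le_trans this (Nat.le_mul_of_pos_left M (Nat.succ_pos k))
  have hdim : ∀ n, (k + 1) * M ≤ n →
      Module.finrank F (Bn F η n) ≤ Module.finrank F (Bn F η (n - 1)) := by
    intro n hn
    have := bn_finite (F := F) η (n - 1)
    have hne : σ * η b ^ (D - e - 1) ≠ 0 := mul_ne_zero hσ0 (pow_ne_zero _ hb)
    refine LinearMap.finrank_le_finrank_of_injective
      (f := (LinearMap.mulLeft F (σ * η b ^ (D - e - 1))).restrict
        (fun u hu => by rw [LinearMap.mulLeft_apply]; exact hstep n hn u hu)) ?_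
    intro u w huw
    have h1 := congrArg Subtype.val huw
    rw [LinearMap.coe_restrict_apply, LinearMap.coe_restrict_apply, LinearMap.mulLeft_apply,
      LinearMap.mulLeft_apply] at h1
    exact Subtype.ext (mul_left_cancel₀ hne h1)
  have hbd : ∀ m, Module.finrank F (Bn F η ((k + 1) * M - 1 + m)) ≤
      Module.finrank F (Bn F η ((k + 1) * M - 1)) := by
    intro m
    induction m with
    | zero => exact le_rfl
    | succ m ih =>
      have h1 := hdim ((k + 1) * M - 1 + (m + 1)) (by omega)
      rw [show (k + 1) * M - 1 + (m + 1) - 1 = (k + 1) * M - 1 + m by omega] at h1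
      exact h1.trans ih
  have h1 := bn_big η a b hb htr
    ((k + 1) * M - 1 + Module.finrank F (Bn F η ((k + 1) * M - 1)))
  have h2 := hbd (Module.finrank F (Bn F η ((k + 1) * M - 1)))
  omega

/-- The value of a polynomial which is homogeneous of degree `n` in `y`. -/
theorem mem_bn {K : Type} [Field K] [Algebra K F] [Algebra K L] [IsScalarTower K F L] (τ : F)
    (η : Fin (k + 1) → L) (P : MvPolynomial (Fin (k + 2)) K) (n : ℕ)
    (hP : IsWeightedHomogeneous (wF k) P n) :
    aeval (Fin.cons (algebraMap F L τ) η : Fin (k + 2) → L) P ∈ Bn F η n := by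
  rw [aeval_def, eval₂_eq']
  refine Submodule.sum_mem _ fun d hd => ?_
  have h1 : ∑ j : Fin (k + 1), d j.succ = n := by
    have h2 := hP (mem_support_iff.1 hd)
    rw [Finsupp.weight_apply, Finsupp.sum_fintype _ _ (fun i => by simp), Fin.sum_univ_succ] at h2
    simpa [wF] using h2
  rw [Fin.prod_univ_succ]
  simp only [Fin.cons_zero, Fin.cons_succ]
  rw [← mul_assoc, IsScalarTower.algebraMap_apply K F L, ← map_pow, ← map_mul, ← Algebra.smul_def]
  exact Submodule.smul_mem _ _ (bn_prod η _ _ h1)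

/-- The value of a polynomial of degree at most `e`, if `1` is the value of a linear form: multiply
the value of a monomial with a power of the linear form. -/
theorem mem_bn_le {K : Type} [Field K] [Algebra K F] [Algebra K L] [IsScalarTower K F L] (τ : F)
    (η : Fin (k + 1) → L) (ℓ : Fin (k + 1) → K) (hℓ : ∑ j, algebraMap K L (ℓ j) * η j = 1)
    (P : MvPolynomial (Fin (k + 1)) K) (e : ℕ) (hP : P.totalDegree ≤ e) :
    aeval (Fin.cons (algebraMap F L τ) (fun i => η i.succ) : Fin (k + 1) → L) P ∈ Bn F η e := by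
  have hone : (1 : L) ∈ Bn F η 1 := by
    rw [← hℓ]
    refine Submodule.sum_mem _ fun j _ => ?_
    rw [IsScalarTower.algebraMap_apply K F L, ← Algebra.smul_def]
    refine Submodule.smul_mem _ _ ?_
    have h := bn_pow (F := F) η j 1
    rwa [pow_one] at h
  have hone' : ∀ m, (1 : L) ∈ Bn F η m := by
    intro m
    induction m with
    | zero =>
      have h := bn_pow (F := F) η 0 0
      rwa [pow_zero] at h
    | succ m ih =>
      have h := bn_mul η ih hone
      rwa [mul_one] at h
  rw [aeval_def, eval₂_eq']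
  refine Submodule.sum_mem _ fun d hd => ?_
  have h1 : ∑ j, d j ≤ e := by
    have h2 := (le_totalDegree hd).trans hP
    rwa [Finsupp.sum_fintype _ _ (fun i => rfl)] at h2
  rw [Fin.sum_univ_succ] at h1
  rw [Fin.prod_univ_succ]
  simp only [Fin.cons_zero, Fin.cons_succ]
  rw [← mul_assoc, IsScalarTower.algebraMap_apply K F L, ← map_pow, ← map_mul, ← Algebra.smul_def]
  refine Submodule.smul_mem _ _ ?_
  have h3 : ∏ i : Fin k, η i.succ ^ d i.succ ∈ Bn F η (∑ i : Fin k, d i.succ) := by
    have h4 := bn_prod (F := F) η (Fin.cons 0 fun i => d i.succ) (∑ i : Fin k, d i.succ) (by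
      rw [Fin.sum_univ_succ]
      simp)
    rw [Fin.prod_univ_succ] at h4
    simpa only [Fin.cons_zero, Fin.cons_succ, pow_zero, one_mul] using h4
  have h5 := bn_mul η h3 (hone' (e - ∑ i : Fin k, d i.succ))
  rwa [mul_one, Nat.add_sub_cancel' (by omega)] at h5

end Pool.Agent.H.MP_31a675_nt.W
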