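import Pool.Agent.H.MP_31a675_nt.W.FNull
import Pool.Agent.H.MP_31a675_nt.W.FHilb
import Pool.Agent.H.MP_31a675_nt.W.FChart

/-!
# The complexity of the iterates on a variety of dimension at least two
-/

namespace Pool.Agent.H.MP_31a675_nt.W

open MvPolynomial

variable {K : Type} [Field K] {k : ℕ} {K' : Type} [Field K'] [Algebra K K']

theorem FCx_map {m : ℕ} (w : Fin m → ℕ) (p : MvPolynomial (Fin m) K) (n : ℕ)
    (hp : IsWeightedHomogeneous w p n) :
    IsWeightedHomogeneous w (map (algebraMap K K') p) n := by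
  intro d hd
  apply hp
  intro h0
  apply hd
  rw [coeff_map, h0, map_zero]

theorem FCx_deg {m k : ℕ} (P Q : Fin k → MvPolynomial (Fin m) K') (E : ℕ)
    (hP : ∀ i, (P i).totalDegree ≤ E) (hQ : ∀ i, (Q i).totalDegree ≤ E) (i : Fin k) :
    (P i * ∏ l ∈ Finset.univ.erase i, Q l).totalDegree ≤ k * E := by
  refine (totalDegree_mul _ _).trans ?_
  have h1 : (∏ l ∈ Finset.univ.erase i, Q l).totalDegree ≤ (k - 1) * E := by
    refine (totalDegree_finset_prod _ _).trans ?_
    refine (Finset.sum_le_card_nsmul _ _ E fun l _ => hQ l).trans ?_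
    rw [Finset.card_erase_of_mem (Finset.mem_univ _), Finset.card_univ, Fintype.card_fin,
      smul_eq_mul]
  have hk : 0 < k := lt_of_le_of_lt (Nat.zero_le _) i.2
  obtain ⟨m', rfl⟩ : ∃ m', k = m' + 1 := ⟨k - 1, by omega⟩
  have h2 := hP i
  simp only [Nat.add_sub_cancel] at h1
  calc (P i).totalDegree + (∏ l ∈ Finset.univ.erase i, Q l).totalDegree ≤ E + m' * E :=
        add_le_add h2 h1
    _ = (m' + 1) * E := by ring

theorem FCx_degQ {m k : ℕ} (Q : Fin k → MvPolynomial (Fin m) K') (E : ℕ)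
    (hQ : ∀ i, (Q i).totalDegree ≤ E) : (∏ l, Q l).totalDegree ≤ k * E := by
  refine (totalDegree_finset_prod _ _).trans ?_
  refine (Finset.sum_le_card_nsmul _ _ E fun l _ => hQ l).trans ?_
  rw [Finset.card_univ, Fintype.card_fin, smul_eq_mul]

/-- The complexity of the `s`-th iterate on a variety with generic point `y = (t, y 1, ..., y k)` in the
chart, with `t` transcendental and some `y (i + 1)` transcendental over `F = K' (t)`. Let
`η = (1 - ∑ ℓ (i + 1) * y (i + 1), y 1, ..., y k)`, so `∑ ℓ j * η j = 1` and some `η a / η (i₀ + 1)` is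
transcendental over `F` (otherwise its sum with coefficients `ℓ a`, the inverse of `y (i₀ + 1)`, is
algebraic). Let `f a = aeval y (sgF ℓ (itp (skew G) s a.succ))`, the value of the iterate at `(t, η)`
(`aeval_sgF`). `pk_hom` for `itpF_pk`, divided by `c (t)`, gives `hg` of `hilb` for `g = f`,
`D = d ^ s`. With representations `P i / Q i` of the coordinates let `A (i + 1)` be the value of
`P i * ∏ l ≠ i, Q l` and `A 0` the value of `∏ Q l` minus `∑ ℓ (i + 1) * A (i + 1)`; by `gorbF`,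
`A i * f j = A j * f i`. By `mem_bn_le` the `A i` are in `Bn (k E)`. -/
theorem fib_cx (ℓ : Fin (k + 1) → K') (h0 : ℓ 0 = 1)
    (G : Fin (k + 1) → MvPolynomial (Fin (k + 2)) K) (d : ℕ)
    (hG : ∀ i, IsWeightedHomogeneous (wF k) (G i) d) (hz : NoZero G) {L : Type} [Field L]
    [Algebra K' L] (y : Fin (k + 1) → L)
    (hy : ∀ j, aeval (gorb (phiF ℓ G) y j) (phiF ℓ G 0) ≠ 0) (ht : Transcendental K' (y 0))
    (i₀ : Fin k) (hi₀ : Transcendental (IntermediateField.adjoin K' {y 0}) (y i₀.succ)) (s E : ℕ)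
    (hcx : ∀ i, Cx K' y E (gorb (phiF ℓ G) y s i)) : d ^ s ≤ k * E := by
  let F := IntermediateField.adjoin K' {y 0}
  let τ : F := ⟨y 0, IntermediateField.mem_adjoin_simple_self K' (y 0)⟩
  have hτ : algebraMap F L τ = y 0 := rfl
  obtain ⟨η, hη⟩ : ∃ η : Fin (k + 1) → L, η =
    Fin.cons (1 - ∑ i : Fin k, algebraMap K' L (ℓ i.succ) * y i.succ) fun i => y i.succ := ⟨_, rfl⟩
  have hη0 : η 0 = 1 - ∑ i : Fin k, algebraMap K' L (ℓ i.succ) * y i.succ := by rw [hη]; rfl
  have hηs : ∀ i : Fin k, η i.succ = y i.succ := by intro i; rw [hη]; rfl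
  have hsum : ∑ j, algebraMap K' L (ℓ j) * η j = 1 := by
    rw [Fin.sum_univ_succ, h0, map_one, one_mul, hη0]
    simp only [hηs]
    ring
  obtain ⟨c, M, A, hc0, hDM, hA, hrel⟩ := pk_hom (fun i : Fin (k + 1) => itp (skew G) s i.succ)
    (d ^ s) (itpF_hom G d hG s) (itpF_pk G hz s)
  let ev : MvPolynomial (Fin (k + 2)) K →+* L :=
    ((aeval (Fin.cons (y 0) η : Fin (k + 2) → L)) :
      MvPolynomial (Fin (k + 2)) K' →ₐ[K'] L).toRingHom.comp (map (algebraMap K K'))
  have hev : ∀ p, ev p = aeval (Fin.cons (y 0) η : Fin (k + 2) → L) (map (algebraMap K K') p) :=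
    fun p => rfl
  obtain ⟨f, hf⟩ : ∃ f : Fin (k + 1) → L, f = fun a => ev (itp (skew G) s a.succ) := ⟨_, rfl⟩
  have hfa : ∀ a, f a = aeval y (sgF ℓ (map (algebraMap K K') (itp (skew G) s a.succ))) := by
    intro a
    have h1 : f a = ev (itp (skew G) s a.succ) := by rw [hf]
    rw [h1, aeval_sgF, hev, hη]
  -- the value of c
  have hγe : ev (Polynomial.aeval (X 0) c) = Polynomial.aeval (y 0) (c.map (algebraMap K K')) := by
    rw [Polynomial.aeval_def, Polynomial.hom_eval₂, Polynomial.aeval_def, Polynomial.eval₂_map]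
    have h1 : ev (X 0) = y 0 := by rw [hev]; simp
    have h2 : ev.comp (algebraMap K (MvPolynomial (Fin (k + 2)) K)) =
        (algebraMap K' L).comp (algebraMap K K') := by
      ext a
      rw [RingHom.comp_apply, hev, algebraMap_eq, map_C, aeval_C, RingHom.comp_apply]
    rw [h1, h2]
  have hγ0 : Polynomial.aeval (y 0) (c.map (algebraMap K K')) ≠ 0 := by
    intro h
    have := (transcendental_iff.1 ht) _ h
    exact hc0 ((Polynomial.map_eq_zero_iff (algebraMap K K').injective).1 this)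
  have hγF : ∃ γ : F, algebraMap F L γ = Polynomial.aeval (y 0) (c.map (algebraMap K K')) := by
    refine ⟨Polynomial.aeval τ (c.map (algebraMap K K')), ?_⟩
    rw [← hτ, Polynomial.aeval_algebraMap_apply]
  obtain ⟨γ, hγ⟩ := hγF
  have hγne : algebraMap F L γ ≠ 0 := by rw [hγ]; exact hγ0
  have hrel' : ∀ l, η l ^ M = ∑ i, (γ⁻¹ • ev (A l i)) * f i := by
    intro l
    have h1 := congrArg ev (hrel l)
    rw [map_mul, hγe, ← hγ, map_pow, map_sum] at h1
    have h2 : ev (X l.succ) = η l := by rw [hev]; simp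
    rw [h2] at h1
    have h3 : η l ^ M = γ⁻¹ • ∑ i, ev (A l i * itp (skew G) s i.succ) := by
      rw [← h1, ← Algebra.smul_def, smul_smul, inv_mul_cancel₀ ?_, one_smul]
      intro h0
      rw [h0, map_zero] at hγne
      exact hγne rfl
    rw [h3, Finset.smul_sum]
    refine Finset.sum_congr rfl fun i _ => ?_
    rw [map_mul, hf, smul_mul_assoc]
  have hcB : ∀ l i, γ⁻¹ • ev (A l i) ∈ Bn F η (M - d ^ s) := by
    intro l i
    apply Submodule.smul_mem
    rw [hev, ← hτ]
    exact mem_bn τ η _ _ (FCx_map _ _ _ (hA l i))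
  -- the coordinates
  choose P Q hP hQ hQ0 hPQ using fun i : Fin k => hcx i.succ
  obtain ⟨-, hΛ, hu⟩ := gorbF ℓ h0 G d hG y hy s
  simp only [← hfa] at hΛ hu
  obtain ⟨Λ, hΛd⟩ : ∃ Λ, Λ = ∑ a : Fin (k + 1), algebraMap K' L (ℓ a) * f a := ⟨_, rfl⟩
  rw [← hΛd] at hΛ hu
  obtain ⟨u, hud⟩ : ∃ u : Fin k → L, u = fun i => gorb (phiF ℓ G) y s i.succ := ⟨_, rfl⟩
  have hu' : ∀ i, u i * Λ = f i.succ := by intro i; rw [hud]; exact hu i
  have hPQ' : ∀ i, u i * aeval y (Q i) = aeval y (P i) := by intro i; rw [hud]; exact hPQ i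
  obtain ⟨v, hv⟩ : ∃ v : Fin (k + 1) → L, v =
    Fin.cons (1 - ∑ i : Fin k, algebraMap K' L (ℓ i.succ) * u i) u := ⟨_, rfl⟩
  have hv0 : v 0 = 1 - ∑ i : Fin k, algebraMap K' L (ℓ i.succ) * u i := by rw [hv]; rfl
  have hvs : ∀ i : Fin k, v i.succ = u i := by intro i; rw [hv]; rfl
  have hfv : ∀ a, f a = Λ * v a := by
    intro a
    refine Fin.cases ?_ (fun i => ?_) a
    · have h1 := hΛd
      rw [Fin.sum_univ_succ, h0, map_one, one_mul] at h1
      have h2 : ∑ i : Fin k, algebraMap K' L (ℓ i.succ) * f i.succ =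
          Λ * ∑ i : Fin k, algebraMap K' L (ℓ i.succ) * u i := by
        rw [Finset.mul_sum]
        refine Finset.sum_congr rfl fun i _ => ?_
        rw [← hu' i]
        ring
      rw [h2] at h1
      rw [hv0, mul_sub, mul_one]
      rw [eq_sub_iff_add_eq]
      exact h1.symm
    · rw [hvs, ← hu' i, mul_comm]
  let R : Fin (k + 1) → MvPolynomial (Fin (k + 1)) K' :=
    Fin.cons (∏ l, Q l - ∑ i : Fin k, C (ℓ i.succ) * (P i * ∏ l ∈ Finset.univ.erase i, Q l))
      fun i => P i * ∏ l ∈ Finset.univ.erase i, Q l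
  have hR0 : R 0 = ∏ l, Q l -
      ∑ i : Fin k, C (ℓ i.succ) * (P i * ∏ l ∈ Finset.univ.erase i, Q l) := rfl
  have hRs : ∀ i : Fin k, R i.succ = P i * ∏ l ∈ Finset.univ.erase i, Q l := fun i => rfl
  have hPi : aeval y (∏ l, Q l) ≠ 0 := by
    rw [map_prod]
    exact Finset.prod_ne_zero_iff.2 fun l _ => hQ0 l
  have hRsv : ∀ i : Fin k, aeval y (P i * ∏ l ∈ Finset.univ.erase i, Q l) =
      aeval y (∏ l, Q l) * u i := by
    intro i
    rw [← Finset.mul_prod_erase Finset.univ Q (Finset.mem_univ i), map_mul, map_mul, ← hPQ' i]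
    ring
  have hRv : ∀ a, aeval y (R a) = aeval y (∏ l, Q l) * v a := by
    intro a
    refine Fin.cases ?_ (fun i => ?_) a
    · rw [hR0, hv0, map_sub, map_sum, mul_sub, mul_one, Finset.mul_sum]
      congr 1
      refine Finset.sum_congr rfl fun i _ => ?_
      rw [map_mul, hRsv i, aeval_C]
      ring
    · rw [hRs, hRsv, hvs]
  have hRdeg : ∀ a, (R a).totalDegree ≤ k * E := by
    intro a
    refine Fin.cases ?_ (fun i => ?_) a
    · rw [hR0]
      refine (totalDegree_sub _ _).trans (max_le (FCx_degQ Q E hQ) ?_)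
      refine (totalDegree_finset_sum _ _).trans (Finset.sup_le fun i _ => ?_)
      refine (totalDegree_mul _ _).trans ?_
      rw [totalDegree_C, zero_add]
      exact FCx_deg P Q E hP hQ i
    · rw [hRs]
      exact FCx_deg P Q E hP hQ i
  have hyc : (Fin.cons (algebraMap F L τ) (fun i => η i.succ) : Fin (k + 1) → L) = y := by
    funext a
    refine Fin.cases ?_ (fun i => ?_) a
    · rfl
    · simp [hηs]
  have hAB : ∀ a, aeval y (R a) ∈ Bn F η (k * E) := by
    intro a
    have h1 := mem_bn_le (F := F) τ η ℓ hsum (R a) (k * E) (hRdeg a)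
    rw [hyc] at h1
    exact h1
  have hb0 : η i₀.succ ≠ 0 := by
    rw [hηs]
    intro h
    rw [h] at hi₀
    exact hi₀ (isAlgebraic_zero)
  obtain ⟨a, ha⟩ : ∃ a, Transcendental F (η a / η i₀.succ) := by
    by_contra hcon
    push Not at hcon
    have hal : ∀ a, IsAlgebraic F (η a / η i₀.succ) := by
      intro a
      have := hcon a
      rwa [Transcendental, not_not] at this
    have h1 : IsAlgebraic F (∑ a, algebraMap K' L (ℓ a) * (η a / η i₀.succ)) := by
      have h2 : ∀ a, algebraMap K' L (ℓ a) * (η a / η i₀.succ) =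
          algebraMap F L (algebraMap K' F (ℓ a)) * (η a / η i₀.succ) := by
        intro a
        rw [← IsScalarTower.algebraMap_apply]
      simp only [h2]
      rw [← mem_algebraicClosure_iff]
      refine sum_mem fun a _ => ?_
      rw [mem_algebraicClosure_iff]
      exact (isAlgebraic_algebraMap _).mul (hal a)
    have h3 : ∑ a, algebraMap K' L (ℓ a) * (η a / η i₀.succ) = (η i₀.succ)⁻¹ := by
      simp only [← mul_div_assoc]
      rw [← Finset.sum_div, hsum, one_div]
    rw [h3] at h1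
    have h4 := h1.inv
    rw [inv_inv, hηs] at h4
    exact hi₀ h4
  refine hilb (F := F) η a i₀.succ hb0 ha f (fun a => aeval y (R a)) (d ^ s) M (k * E) hDM
    (fun l i => γ⁻¹ • ev (A l i)) hcB hrel' hAB ?_ ?_
  · by_contra hcon
    push Not at hcon
    have h1 : ∀ a, v a = 0 := by
      intro a
      have := hcon a
      rw [hRv] at this
      exact (mul_eq_zero.1 this).resolve_left hPi
    have h2 := hv0
    rw [h1 0] at h2
    have h3 : ∑ i : Fin k, algebraMap K' L (ℓ i.succ) * u i = 0 := by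
      refine Finset.sum_eq_zero fun i _ => ?_
      rw [← hvs, h1, mul_zero]
    rw [h3, sub_zero] at h2
    exact zero_ne_one h2
  · intro i j
    rw [hRv, hRv, hfv i, hfv j]
    ring

end Pool.Agent.H.MP_31a675_nt.W
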