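import Pool.Agent.H.MP_31a675_nt.Orbit
import Pool.Agent.H.MP_31a675_nt.W.Defs

/-!
# Rational self-maps of projective varieties: definitions
-/

namespace Pool.Agent.H.MP_31a675_nt.W

open MvPolynomial

variable {K : Type} [Field K] {N : ℕ}

/-- The ideal `p` is homogeneous. -/
def IsHom (p : Ideal (MvPolynomial (Fin (N + 1)) K)) : Prop :=
  ∀ P ∈ p, ∀ k, homogeneousComponent k P ∈ p

/-- The orbit of the point `x` of projective space under the map given by the forms `F i` is a
Zariski dense subset of the variety of the homogeneous prime ideal `p`: a form vanishes on the orbit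
if and only if it is in `p`. -/
def DenseIn (p : Ideal (MvPolynomial (Fin (N + 1)) K)) (F : Fin (N + 1) → MvPolynomial (Fin (N + 1)) K)
    (x : Fin (N + 1) → K) : Prop :=
  ∀ (k : ℕ) (P : MvPolynomial (Fin (N + 1)) K), P.IsHomogeneous k →
    ((∀ n, eval (orb F x n) P = 0) ↔ P ∈ p)

/-- The degree of the `n`-th iterate of the rational self-map of the variety of `p` given by the forms
`F i`: the least `m` such that the iterate is given by forms `G i` of degree `m`. -/
noncomputable def degX (p : Ideal (MvPolynomial (Fin (N + 1)) K))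
    (F : Fin (N + 1) → MvPolynomial (Fin (N + 1)) K) (n : ℕ) : ℕ :=
  sInf {m | ∃ G : Fin (N + 1) → MvPolynomial (Fin (N + 1)) K, (∀ i, (G i).IsHomogeneous m) ∧
    (∃ i, G i ∉ p) ∧ ∀ i j, itp F n i * G j - itp F n j * G i ∈ p}

section Chart

variable {K' : Type} [Field K'] [Algebra K K']

/-- The affine chart `ℓ = 1` of projective space, with coordinates `X 1, ..., X N` (`ℓ 0 = 1`). -/
noncomputable def sg (ℓ : Fin (N + 1) → K') :
    MvPolynomial (Fin (N + 1)) K' →ₐ[K'] MvPolynomial (Fin N) K' :=
  aeval (Fin.cons (1 - ∑ i : Fin N, C (ℓ i.succ) * X i) X :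
    Fin (N + 1) → MvPolynomial (Fin N) K')

/-- The map given by the forms `F i` in the chart `ℓ = 1`. -/
noncomputable def phi (ℓ : Fin (N + 1) → K') (F : Fin (N + 1) → MvPolynomial (Fin (N + 1)) K) :
    Fin (N + 1) → MvPolynomial (Fin N) K' :=
  Fin.cons (∑ j, C (ℓ j) * sg ℓ (map (algebraMap K K') (F j)))
    fun i => sg ℓ (map (algebraMap K K') (F i.succ))

/-- The coordinates of the point `x` in the chart `ℓ = 1`. -/
noncomputable def aff (ℓ : Fin (N + 1) → K') (x : Fin (N + 1) → K) : Fin N → K' :=
  fun i => algebraMap K K' (x i.succ) / ∑ j, ℓ j * algebraMap K K' (x j)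

/-- The ideal of the variety of `p` in the chart `ℓ = 1`. -/
noncomputable def chartIdeal (ℓ : Fin (N + 1) → K') (p : Ideal (MvPolynomial (Fin (N + 1)) K)) :
    Ideal (MvPolynomial (Fin N) K') :=
  Ideal.span ((fun P => sg ℓ (map (algebraMap K K') P)) '' (p : Set (MvPolynomial (Fin (N + 1)) K)))

end Chart

end Pool.Agent.H.MP_31a675_nt.W
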