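import Pool.Agent.H.MP_31a675_nt.Orbit
import Pool.Agent.H.MP_31a675_nt.W.PDefs

/-!
# Skew products over the translation with fibres projective spaces: definitions
-/

namespace Pool.Agent.H.MP_31a675_nt.W

open MvPolynomial Height

variable {K : Type} [Field K] {k : ℕ}

/-- The weights of the variables `t, y_0, ..., y_k`: a polynomial is weighted homogeneous of degree `e`
if it is homogeneous of degree `e` in `y`. -/
def wF (k : ℕ) : Fin (k + 2) → ℕ := Fin.cons 0 fun _ => 1

/-- The height of the point `([1 : t], [y])`, `x = (t, y_0, ..., y_k)`, relative to `K`. -/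
noncomputable def htF [NumberField K] (x : Fin (k + 2) → K) : ℝ :=
  logHeight₁ (x 0) + logHeight (Fin.tail x)

/-- The degree of the `n`-th iterate of `(t, [y]) ↦ (t + 1, [G (t, y)])`: the least `m` such that the
fibre component of the iterate is given by polynomials `H i`, homogeneous in `y` of the same degree, of
total degree at most `m`. -/
noncomputable def degF (G : Fin (k + 1) → MvPolynomial (Fin (k + 2)) K) (n : ℕ) : ℕ :=
  sInf {m | ∃ (e : ℕ) (H : Fin (k + 1) → MvPolynomial (Fin (k + 2)) K),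
    (∀ i, IsWeightedHomogeneous (wF k) (H i) e) ∧ (∀ i, (H i).totalDegree ≤ m) ∧ H ≠ 0 ∧
    ∀ i j, itp (skew G) n i.succ * H j = itp (skew G) n j.succ * H i}

/-- The points `(t, [y])`, `x n = (t, y_0, ..., y_k)`, lie on a curve: between `t` and any two of the
homogeneous coordinates there is a nonzero relation, homogeneous in the latter. -/
def OnCurve (x : ℕ → Fin (k + 2) → K) : Prop :=
  ∀ i j : Fin (k + 1), ∃ (e : ℕ) (P : MvPolynomial (Fin 3) K), P ≠ 0 ∧
    IsWeightedHomogeneous ![0, 1, 1] P e ∧ ∀ n, eval ![x n 0, x n i.succ, x n j.succ] P = 0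

section Chart

variable {K' : Type} [Field K'] [Algebra K K']

/-- The chart `ℓ (y) = 1` (`ℓ 0 = 1`), with coordinates `X 0 = t` and `X (i + 1) = y_(i + 1)`. -/
noncomputable def sgF (ℓ : Fin (k + 1) → K') :
    MvPolynomial (Fin (k + 2)) K' →ₐ[K'] MvPolynomial (Fin (k + 1)) K' :=
  aeval (Fin.cons (X 0) (Fin.cons (1 - ∑ i : Fin k, C (ℓ i.succ) * X i.succ) fun i => X i.succ) :
    Fin (k + 2) → MvPolynomial (Fin (k + 1)) K')

/-- The map `(t, [y]) ↦ (t + 1, [G (t, y)])` in the chart `ℓ = 1`. -/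
noncomputable def phiF (ℓ : Fin (k + 1) → K') (G : Fin (k + 1) → MvPolynomial (Fin (k + 2)) K) :
    Fin (k + 2) → MvPolynomial (Fin (k + 1)) K' :=
  Fin.cons (∑ j, C (ℓ j) * sgF ℓ (map (algebraMap K K') (G j)))
    (Fin.cons ((X 0 + 1) * ∑ j, C (ℓ j) * sgF ℓ (map (algebraMap K K') (G j)))
      fun i => sgF ℓ (map (algebraMap K K') (G i.succ)))

/-- The coordinates of the point `x = (t, y)` in the chart `ℓ = 1`. -/
noncomputable def affF (ℓ : Fin (k + 1) → K') (x : Fin (k + 2) → K) : Fin (k + 1) → K' :=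
  Fin.cons (algebraMap K K' (x 0)) (aff ℓ (Fin.tail x))

end Chart

end Pool.Agent.H.MP_31a675_nt.W
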