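import Pool.Agent.H.MP_31a675_nt.Null
import Pool.Agent.H.MP_31a675_nt.W.FDefs

/-!
# Families without common zeros over the generic fibre
-/

namespace Pool.Agent.H.MP_31a675_nt.W

open MvPolynomial

variable {K : Type} [Field K] {k : ℕ}

/-- The ideal generated by the `S i` contains `c (t) * y_j ^ M` for all `j`, with `c ≠ 0`. -/
def PK (S : Fin (k + 1) → MvPolynomial (Fin (k + 2)) K) : Prop :=
  ∃ (c : Polynomial K) (M : ℕ), c ≠ 0 ∧
    ∀ j : Fin (k + 1), Polynomial.aeval (X 0) c * X j.succ ^ M ∈ Ideal.span (Set.range S)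

/-- `null_poly`. -/
theorem pk_noZero (G : Fin (k + 1) → MvPolynomial (Fin (k + 2)) K) (h : NoZero G) : PK G := by
  obtain ⟨c, M, A, hc, -, hA⟩ := null_poly G h 0
  refine ⟨c, M, hc, fun j => ?_⟩
  rw [hA j, Ideal.mem_span_range_iff_exists_fun]
  exact ⟨A j, rfl⟩

theorem pk_skew_succ (G : Fin (k + 1) → MvPolynomial (Fin (k + 2)) K) (j : Fin (k + 1)) :
    skew G j.succ = G j := by
  unfold skew
  rw [Fin.cons_succ]

theorem pk_skew_zero (G : Fin (k + 1) → MvPolynomial (Fin (k + 2)) K) :
    skew G 0 = X 0 + 1 := by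
  unfold skew
  rw [Fin.cons_zero]

theorem pk_skew_poly (G : Fin (k + 1) → MvPolynomial (Fin (k + 2)) K) (p : Polynomial K) :
    aeval (skew G) (Polynomial.aeval (X 0 : MvPolynomial (Fin (k + 2)) K) p) =
      Polynomial.aeval (X 0) (p.comp (Polynomial.X + Polynomial.C 1)) := by
  rw [← Polynomial.aeval_algHom_apply, aeval_X, Polynomial.aeval_comp, map_add,
    Polynomial.aeval_X, Polynomial.aeval_C, map_one, pk_skew_zero]

/-- Composition with the skew product, as in `G.pp_comp` (file `G/PP.lean`): apply `aeval (skew G)` to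
the relations for `S`; the ideal of the images contains `c (t + 1) * G j ^ M`, hence `c (t + 1)` times a
high power of every element of the ideal of the `G j` (`Ideal.sum_pow_mem_span_pow`). -/
theorem pk_comp (G S : Fin (k + 1) → MvPolynomial (Fin (k + 2)) K) (hG : PK G) (hS : PK S) :
    PK fun i => aeval (skew G) (S i) := by
  classical
  obtain ⟨c, N, hc, hN⟩ := hG
  obtain ⟨c', N', hc', hN'⟩ := hS
  set J : Ideal (MvPolynomial (Fin (k + 2)) K) :=
    Ideal.span (Set.range fun i => aeval (skew G) (S i)) with hJ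
  set c'' : MvPolynomial (Fin (k + 2)) K :=
    Polynomial.aeval (X 0) (c'.comp (Polynomial.X + Polynomial.C 1)) with hc''
  have key : ∀ j : Fin (k + 1), c'' * G j ^ N' ∈ J := by
    intro j
    obtain ⟨a, ha⟩ := (Ideal.mem_span_range_iff_exists_fun).1 (hN' j)
    have h1 := congrArg (aeval (skew G)) ha
    rw [map_sum, map_mul, map_pow, aeval_X, pk_skew_succ, pk_skew_poly] at h1
    rw [hJ, Ideal.mem_span_range_iff_exists_fun]
    refine ⟨fun i => aeval (skew G) (a i), ?_⟩
    rw [← h1]
    exact Finset.sum_congr rfl fun i _ => by rw [map_mul]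
  set E : ℕ := (Finset.univ : Finset (Fin (k + 1))).card * N' + 1 with hE
  refine ⟨c'.comp (Polynomial.X + Polynomial.C 1) * c ^ E, N * E,
    mul_ne_zero ((Polynomial.comp_X_add_C_ne_zero_iff).2 hc') (pow_ne_zero _ hc), fun j => ?_⟩
  obtain ⟨r, hr⟩ := (Ideal.mem_span_range_iff_exists_fun).1 (hN j)
  have h1 : Polynomial.aeval (X 0 : MvPolynomial (Fin (k + 2)) K)
      (c'.comp (Polynomial.X + Polynomial.C 1) * c ^ E) * X j.succ ^ (N * E) =
      c'' * (∑ i, r i * G i) ^ E := by
    rw [hr, map_mul, map_pow, pow_mul, mul_pow, mul_assoc]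
  rw [h1]
  have h2 := Ideal.sum_pow_mem_span_pow (Finset.univ : Finset (Fin (k + 1)))
    (fun i => r i * G i) N'
  rw [← hE] at h2
  have h3 : ∀ x ∈ Ideal.span ((fun i => (r i * G i) ^ (N' + 1)) ''
      ((Finset.univ : Finset (Fin (k + 1))) : Set (Fin (k + 1)))), c'' * x ∈ J := by
    intro x hx
    induction hx using Submodule.span_induction with
    | mem x hx =>
      obtain ⟨i, -, rfl⟩ := hx
      have e : c'' * (r i * G i) ^ (N' + 1) = (r i ^ (N' + 1) * G i) * (c'' * G i ^ N') := by
        ring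
      show c'' * (r i * G i) ^ (N' + 1) ∈ J
      rw [e]
      exact Ideal.mul_mem_left _ _ (key i)
    | zero => rw [mul_zero]; exact J.zero_mem
    | add x y _ _ hx hy => rw [mul_add]; exact J.add_mem hx hy
    | smul a x _ hx =>
      have e : c'' * (a • x) = a * (c'' * x) := by rw [smul_eq_mul]; ring
      rw [e]
      exact Ideal.mul_mem_left _ _ hx
  exact h3 _ h2

theorem pk_skew_hom (G : Fin (k + 1) → MvPolynomial (Fin (k + 2)) K) (d : ℕ)
    (hG : ∀ i, IsWeightedHomogeneous (wF k) (G i) d) (A : MvPolynomial (Fin (k + 2)) K) (e : ℕ)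
    (hA : IsWeightedHomogeneous (wF k) A e) :
    IsWeightedHomogeneous (wF k) (aeval (skew G) A) (e * d) := by
  have h0 : ∀ i, IsWeightedHomogeneous (wF k) (skew G i) (wF k i * d) := by
    intro i
    refine Fin.cases ?_ (fun i => ?_) i
    · rw [pk_skew_zero]
      have h1 : wF k 0 = 0 := rfl
      have h2 := isWeightedHomogeneous_X K (wF k) 0
      rw [h1] at h2
      rw [h1, zero_mul]
      exact h2.add (isWeightedHomogeneous_one K (wF k))
    · rw [pk_skew_succ]
      have h1 : wF k i.succ = 1 := rfl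
      rw [h1, one_mul]
      exact hG i
  rw [aeval_def, eval₂_eq']
  apply IsWeightedHomogeneous.sum
  intro m hm
  rw [algebraMap_eq]
  apply IsWeightedHomogeneous.C_mul
  have h1 := IsWeightedHomogeneous.prod (w := wF k) Finset.univ (fun i => skew G i ^ m i)
    (fun i => m i • (wF k i * d)) (fun i _ => (h0 i).pow (m i))
  have h2 := hA (mem_support_iff.1 hm)
  rw [Finsupp.weight_apply, Finsupp.sum_fintype _ _ (by simp)] at h2
  have h3 : ∑ i, m i • (wF k i * d) = e * d := by
    rw [← h2, Finset.sum_mul]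
    refine Finset.sum_congr rfl fun i _ => ?_
    simp only [smul_eq_mul]
    ring
  rw [h3] at h1
  exact h1

theorem pk_itp_succ (G : Fin (k + 1) → MvPolynomial (Fin (k + 2)) K) (n : ℕ) (i : Fin (k + 2)) :
    itp (skew G) (n + 1) i = aeval (skew G) (itp (skew G) n i) := by
  unfold itp
  rw [Function.iterate_succ_apply']

theorem pk_itp_zero (G : Fin (k + 1) → MvPolynomial (Fin (k + 2)) K) (i : Fin (k + 2)) :
    itp (skew G) 0 i = X i := rfl

/-- As `G.itp_line_hom` (file `G/DegB.lean`). -/
theorem itpF_hom (G : Fin (k + 1) → MvPolynomial (Fin (k + 2)) K) (d : ℕ)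
    (hG : ∀ i, IsWeightedHomogeneous (wF k) (G i) d) (n : ℕ) (i : Fin (k + 1)) :
    IsWeightedHomogeneous (wF k) (itp (skew G) n i.succ) (d ^ n) := by
  induction n with
  | zero =>
    rw [pk_itp_zero, pow_zero]
    exact isWeightedHomogeneous_X K (wF k) i.succ
  | succ n ih =>
    rw [pk_itp_succ, pow_succ]
    exact pk_skew_hom G d hG _ _ ih

/-- The iterates: `pk_noZero`, `pk_comp`. -/
theorem itpF_pk (G : Fin (k + 1) → MvPolynomial (Fin (k + 2)) K) (h : NoZero G) (n : ℕ) :
    PK fun i : Fin (k + 1) => itp (skew G) n i.succ := by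
  induction n with
  | zero =>
    refine ⟨1, 1, one_ne_zero, fun j => ?_⟩
    rw [map_one, one_mul, pow_one]
    exact Ideal.subset_span ⟨j, rfl⟩
  | succ n ih =>
    have h1 := pk_comp G _ (pk_noZero G h) ih
    simpa only [pk_itp_succ] using h1

theorem pk_comp_mul (D : ℕ) (a b : MvPolynomial (Fin (k + 2)) K) (i : ℕ)
    (hb : IsWeightedHomogeneous (wF k) b D) :
    weightedHomogeneousComponent (wF k) (i + D) (a * b) =
      weightedHomogeneousComponent (wF k) i a * b := by
  let _ := weightedGradedAlgebra K (wF k)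
  have h := DirectSum.coe_decompose_mul_add_of_right_mem (weightedHomogeneousSubmodule K (wF k))
    (i := i) (j := D) (a := a) (b := b) hb
  have h1 : ∀ (φ : MvPolynomial (Fin (k + 2)) K) (m : ℕ),
      ((DirectSum.decompose (weightedHomogeneousSubmodule K (wF k)) φ) m :
        MvPolynomial (Fin (k + 2)) K) = weightedHomogeneousComponent (wF k) m φ :=
    fun φ m => weightedDecomposition.decompose'_apply K (wF k) φ m
  rw [h1, h1] at h
  exact h

theorem pk_poly_hom (c : Polynomial K) :
    IsWeightedHomogeneous (wF k) (Polynomial.aeval (X 0 : MvPolynomial (Fin (k + 2)) K) c) 0 := by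
  rw [Polynomial.aeval_eq_sum_range]
  apply IsWeightedHomogeneous.sum
  intro n _
  rw [smul_eq_C_mul]
  apply IsWeightedHomogeneous.C_mul
  have h1 : wF k 0 = 0 := rfl
  have h2 := (isWeightedHomogeneous_X K (wF k) 0).pow n
  rw [h1, smul_zero] at h2
  exact h2

/-- The coefficients may be taken homogeneous in `y`: multiply by `X j.succ ^ D`, then take the
homogeneous components of degree `M`. -/
theorem pk_hom (S : Fin (k + 1) → MvPolynomial (Fin (k + 2)) K) (D : ℕ)
    (hS : ∀ i, IsWeightedHomogeneous (wF k) (S i) D) (h : PK S) :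
    ∃ (c : Polynomial K) (M : ℕ) (A : Fin (k + 1) → Fin (k + 1) → MvPolynomial (Fin (k + 2)) K),
      c ≠ 0 ∧ D ≤ M ∧ (∀ j i, IsWeightedHomogeneous (wF k) (A j i) (M - D)) ∧
      ∀ j : Fin (k + 1), Polynomial.aeval (X 0) c * X j.succ ^ M = ∑ i, A j i * S i := by
  obtain ⟨c, M, hc, hM⟩ := h
  choose a ha using fun j => (Ideal.mem_span_range_iff_exists_fun).1 (hM j)
  refine ⟨c, M + D, fun j i => weightedHomogeneousComponent (wF k) M (X j.succ ^ D * a j i), hc,
    Nat.le_add_left _ _, fun j i => ?_, fun j => ?_⟩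
  · rw [Nat.add_sub_cancel]
    exact weightedHomogeneousComponent_isWeightedHomogeneous (w := wF k) M _
  · have h1 : IsWeightedHomogeneous (wF k)
        (Polynomial.aeval (X 0 : MvPolynomial (Fin (k + 2)) K) c * X j.succ ^ (M + D)) (M + D) := by
      have h2 := (isWeightedHomogeneous_X K (wF k) j.succ).pow (M + D)
      have h3 : (M + D) • wF k j.succ = M + D := by
        show (M + D) • 1 = M + D
        simp
      rw [h3] at h2
      have h4 := (pk_poly_hom (k := k) c).mul h2
      rwa [zero_add] at h4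
    have h5 : Polynomial.aeval (X 0 : MvPolynomial (Fin (k + 2)) K) c * X j.succ ^ (M + D) =
        ∑ i, (X j.succ ^ D * a j i) * S i := by
      have h6 := ha j
      calc Polynomial.aeval (X 0 : MvPolynomial (Fin (k + 2)) K) c * X j.succ ^ (M + D)
          = X j.succ ^ D * (Polynomial.aeval (X 0) c * X j.succ ^ M) := by ring
        _ = X j.succ ^ D * ∑ i, a j i * S i := by rw [h6]
        _ = _ := by
          rw [Finset.mul_sum]
          exact Finset.sum_congr rfl fun i _ => by ring
    rw [← h1.weightedHomogeneousComponent_same, h5, map_sum]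
    exact Finset.sum_congr rfl fun i _ => pk_comp_mul D _ _ M (hS i)

end Pool.Agent.H.MP_31a675_nt.W
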