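import Pool.Agent.H.MP_31a675_nt.DegUp
import Pool.Agent.H.MP_31a675_nt.DegLim
import Pool.Agent.H.MP_31a675_nt.Seq
import Pool.Agent.H.MP_31a675_nt.W.FNull
import Pool.Agent.H.MP_31a675_nt.W.FHilb

/-!
# The first dynamical degree
-/

namespace Pool.Agent.H.MP_31a675_nt.W

open MvPolynomial Filter Topology

variable {K : Type} [Field K] {k : ℕ}

/-- The weight of a monomial is its degree in `y`. -/
theorem degF_weight (m : Fin (k + 2) →₀ ℕ) : Finsupp.weight (wF k) m = yd m := by
  rw [Finsupp.weight_apply, Finsupp.sum_fintype _ _ (fun _ => by simp), Fin.sum_univ_succ]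
  unfold yd wF
  simp

/-- The members of a family as in `PK` are not all zero. -/
theorem degF_pk_ne (S : Fin (k + 1) → MvPolynomial (Fin (k + 2)) K) (h : PK S) :
    ∃ i, S i ≠ 0 := by
  by_contra hcon
  push Not at hcon
  obtain ⟨c, M, hc, h1⟩ := h
  have h2 := h1 0
  have h3 : Ideal.span (Set.range S) = ⊥ := by
    rw [Ideal.span_eq_bot]
    rintro x ⟨i, rfl⟩
    exact hcon i
  rw [h3, Ideal.mem_bot] at h2
  rcases mul_eq_zero.1 h2 with h4 | h4
  · have h5 : Transcendental K (X 0 : MvPolynomial (Fin (k + 2)) K) := transcendental_X K 0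
    exact hc ((transcendental_iff.1 h5) c h4)
  · exact pow_ne_zero M (X_ne_zero _) h4

/-- The total degree of a weighted homogeneous polynomial. -/
theorem degF_totalDegree (P : MvPolynomial (Fin (k + 2)) K) (e : ℕ)
    (h : IsWeightedHomogeneous (wF k) P e) (h0 : P ≠ 0) : e ≤ P.totalDegree := by
  obtain ⟨m, hm⟩ := ne_zero_iff.1 h0
  have h1 := h hm
  rw [degF_weight] at h1
  have h2 := le_totalDegree (mem_support_iff.2 hm)
  rw [Finsupp.sum_fintype _ _ (fun _ => rfl), Fin.sum_univ_succ] at h2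
  unfold yd at h1
  omega

/-- The map to `K(t)[y]`. -/
noncomputable def degF_rat : MvPolynomial (Fin (k + 1)) K →ₐ[K] MvPolynomial (Fin k) (RatFunc K) :=
  aeval (Fin.cons (C RatFunc.X) X : Fin (k + 1) → MvPolynomial (Fin k) (RatFunc K))

theorem degF_rat_inj :
    Function.Injective (degF_rat : MvPolynomial (Fin (k + 1)) K →ₐ[K] _) := by
  have h1 : (degF_rat : MvPolynomial (Fin (k + 1)) K →ₐ[K] _) =
      (MvPolynomial.mapAlgHom (IsScalarTower.toAlgHom K (Polynomial K) (RatFunc K)) :
        MvPolynomial (Fin k) (Polynomial K) →ₐ[K] MvPolynomial (Fin k) (RatFunc K)).comp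
      (((renameEquiv K (_root_.finSuccEquiv k)).trans (optionEquivRight K (Fin k)) :
        MvPolynomial (Fin (k + 1)) K ≃ₐ[K] MvPolynomial (Fin k) (Polynomial K)) :
        MvPolynomial (Fin (k + 1)) K →ₐ[K] MvPolynomial (Fin k) (Polynomial K)) := by
    apply MvPolynomial.algHom_ext
    intro i
    refine Fin.cases ?_ (fun i => ?_) i
    · simp [degF_rat]
    · simp [degF_rat]
  rw [h1]
  have h2 : Function.Injective (MvPolynomial.map (σ := Fin k)
      (algebraMap (Polynomial K) (RatFunc K))) :=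
    MvPolynomial.map_injective _ (RatFunc.algebraMap_injective K)
  intro a b hab
  have h3 := h2 hab
  exact (((renameEquiv K (_root_.finSuccEquiv k)).trans (optionEquivRight K (Fin k)) :
        MvPolynomial (Fin (k + 1)) K ≃ₐ[K] MvPolynomial (Fin k) (Polynomial K))).injective h3

/-- The quotient of two variables is transcendental. -/
theorem degF_trans {F : Type} [Field F] {n : ℕ} (a b : Fin n) (hab : a ≠ b) :
    Transcendental F (algebraMap (MvPolynomial (Fin n) F) (FractionRing (MvPolynomial (Fin n) F))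
      (X a) / algebraMap (MvPolynomial (Fin n) F) (FractionRing (MvPolynomial (Fin n) F)) (X b)) := by
  rw [transcendental_iff]
  intro p hp
  set x := algebraMap (MvPolynomial (Fin n) F) (FractionRing (MvPolynomial (Fin n) F)) (X a)
  set y := algebraMap (MvPolynomial (Fin n) F) (FractionRing (MvPolynomial (Fin n) F)) (X b)
  have hy : y ≠ 0 := by
    intro h
    exact X_ne_zero (R := F) b (IsFractionRing.injective _ (FractionRing (MvPolynomial (Fin n) F))
      (by rw [map_zero]; exact h))
  set Q : MvPolynomial (Fin n) F :=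
    ∑ i ∈ Finset.range (p.natDegree + 1), C (p.coeff i) * X a ^ i * X b ^ (p.natDegree - i) with hQ
  have h1 : algebraMap (MvPolynomial (Fin n) F) (FractionRing (MvPolynomial (Fin n) F)) Q = 0 := by
    have h2 : algebraMap (MvPolynomial (Fin n) F) (FractionRing (MvPolynomial (Fin n) F)) Q =
        Polynomial.aeval (x / y) p * y ^ p.natDegree := by
      rw [hQ, map_sum, Polynomial.aeval_eq_sum_range, Finset.sum_mul]
      refine Finset.sum_congr rfl fun i hi => ?_
      have hi' : i ≤ p.natDegree := Nat.lt_succ_iff.1 (Finset.mem_range.1 hi)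
      rw [map_mul, map_mul, map_pow, map_pow, Algebra.smul_def, div_pow,
        ← pow_sub_mul_pow y hi']
      have h3 : algebraMap (MvPolynomial (Fin n) F) (FractionRing (MvPolynomial (Fin n) F))
          (C (p.coeff i)) = algebraMap F (FractionRing (MvPolynomial (Fin n) F)) (p.coeff i) := rfl
      rw [h3]
      field_simp
      rfl
    rw [h2, hp, zero_mul]
  have h2 : Q = 0 := IsFractionRing.injective _ (FractionRing (MvPolynomial (Fin n) F))
    (by rw [map_zero]; exact h1)
  have h3 := congrArg (aeval (fun i : Fin n => if i = a then (Polynomial.X : Polynomial F) else 1)) h2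
  rw [map_zero, hQ, map_sum] at h3
  have h4 : ∑ i ∈ Finset.range (p.natDegree + 1), Polynomial.C (p.coeff i) * Polynomial.X ^ i = 0 := by
    rw [← h3]
    refine Finset.sum_congr rfl fun i _ => ?_
    rw [map_mul, map_mul, map_pow, map_pow, aeval_X, aeval_X, if_pos rfl, if_neg hab.symm, one_pow,
      mul_one, aeval_C]
    rfl
  rw [← Polynomial.as_sum_range_C_mul_X_pow] at h4
  exact h4

/-- The degree of the iterate is at least `d ^ n`: `hilb` with `F = RatFunc K`,
`L = FractionRing (MvPolynomial (Fin (k + 1)) F)`, `η i` the variables, and `g i`, `A i` the values of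
`itp (skew G) n i.succ` and `H i` at `(t, η)`; `itpF_pk`, `pk_hom`. The values are not zero for nonzero
polynomials (compare `toRat_inj` in `Null.lean`). -/
theorem degF_ge (hk : 1 ≤ k) (G : Fin (k + 1) → MvPolynomial (Fin (k + 2)) K) (d : ℕ)
    (hG : ∀ i, IsWeightedHomogeneous (wF k) (G i) d) (hz : NoZero G) (n : ℕ) :
    d ^ n ≤ degF G n := by
  have hpk := itpF_pk G hz n
  obtain ⟨i₀, hi₀⟩ := degF_pk_ne _ hpk
  have hne : {m | ∃ (e : ℕ) (H : Fin (k + 1) → MvPolynomial (Fin (k + 2)) K),
    (∀ i, IsWeightedHomogeneous (wF k) (H i) e) ∧ (∀ i, (H i).totalDegree ≤ m) ∧ H ≠ 0 ∧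
    ∀ i j, itp (skew G) n i.succ * H j = itp (skew G) n j.succ * H i}.Nonempty := by
    refine ⟨degIt (skew G) n, d ^ n, fun i => itp (skew G) n i.succ, fun i => itpF_hom G d hG n i,
      fun i => ?_, fun h => hi₀ (congrFun h i₀), fun i j => mul_comm _ _⟩
    exact Finset.le_sup (f := fun i => (itp (skew G) n i).totalDegree) (Finset.mem_univ i.succ)
  obtain ⟨e, H, hH, hHm, hH0, hHc⟩ := Nat.sInf_mem hne
  obtain ⟨j₀, hj₀⟩ : ∃ j, H j ≠ 0 := by
    by_contra h
    push Not at h
    exact hH0 (funext h)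
  have he : e ≤ degF G n := (degF_totalDegree _ _ (hH j₀) hj₀).trans (hHm j₀)
  refine le_trans ?_ he
  obtain ⟨c, M, A, hc, hM, hA, hAS⟩ := pk_hom (fun i => itp (skew G) n i.succ) (d ^ n)
    (fun i => itpF_hom G d hG n i) hpk
  set L := FractionRing (MvPolynomial (Fin (k + 1)) (RatFunc K)) with hL
  set η : Fin (k + 1) → L := fun i => algebraMap (MvPolynomial (Fin (k + 1)) (RatFunc K)) L (X i)
    with hη
  set val : MvPolynomial (Fin (k + 2)) K →ₐ[K] L :=
    aeval (Fin.cons (algebraMap (RatFunc K) L RatFunc.X) η : Fin (k + 2) → L) with hval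
  have hvr : ∀ P, val P = algebraMap (MvPolynomial (Fin (k + 1)) (RatFunc K)) L (degF_rat P) := by
    intro P
    have h1 : val = (IsScalarTower.toAlgHom K (MvPolynomial (Fin (k + 1)) (RatFunc K)) L).comp
        degF_rat := by
      apply MvPolynomial.algHom_ext
      intro i
      refine Fin.cases ?_ (fun i => ?_) i
      · rw [hval, aeval_X, AlgHom.comp_apply, degF_rat, aeval_X, Fin.cons_zero, Fin.cons_zero]
        rfl
      · rw [hval, aeval_X, AlgHom.comp_apply, degF_rat, aeval_X, Fin.cons_succ, Fin.cons_succ]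
        rfl
    rw [h1]
    rfl
  have hv0 : ∀ P, val P = 0 → P = 0 := by
    intro P hP
    rw [hvr] at hP
    apply degF_rat_inj
    rw [map_zero]
    apply IsFractionRing.injective _ L
    rw [map_zero]
    exact hP
  have hvc : val (Polynomial.aeval (X 0) c) ≠ 0 := by
    intro h
    have h5 : Transcendental K (X 0 : MvPolynomial (Fin (k + 2)) K) := transcendental_X K 0
    exact hc ((transcendental_iff.1 h5) c (hv0 _ h))
  have hvc' : val (Polynomial.aeval (X 0) c) =
      algebraMap (RatFunc K) L (algebraMap (Polynomial K) (RatFunc K) c) := by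
    have h1 : val.comp (Polynomial.aeval (X 0) : Polynomial K →ₐ[K] MvPolynomial (Fin (k + 2)) K) =
        (IsScalarTower.toAlgHom K (RatFunc K) L).comp
          (IsScalarTower.toAlgHom K (Polynomial K) (RatFunc K)) := by
      apply Polynomial.algHom_ext
      rw [AlgHom.comp_apply, AlgHom.comp_apply, Polynomial.aeval_X, hval, aeval_X, Fin.cons_zero]
      simp
    exact DFunLike.congr_fun h1 c
  have hvX : ∀ l : Fin (k + 1), val (X l.succ) = η l := by
    intro l
    rw [hval, aeval_X, Fin.cons_succ]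
  have hcF : algebraMap (Polynomial K) (RatFunc K) c ≠ 0 := by
    intro h
    apply hvc
    rw [hvc', h, map_zero]
  have hb : η 0 ≠ 0 := by
    intro h
    have h1 := hv0 (X (Fin.succ 0)) ((hvX 0).trans h)
    exact X_ne_zero _ h1
  have h01 : (⟨1, by omega⟩ : Fin (k + 1)) ≠ 0 := by
    intro h
    have := congrArg Fin.val h
    simp at this
  refine hilb (F := RatFunc K) η ⟨1, by omega⟩ 0 hb (degF_trans _ _ h01)
    (fun i => val (itp (skew G) n i.succ)) (fun i => val (H i)) (d ^ n) M e hM
    (fun l i => (algebraMap (Polynomial K) (RatFunc K) c)⁻¹ • val (A l i)) ?_ ?_ ?_ ?_ ?_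
  · intro l i
    exact Submodule.smul_mem _ _ (mem_bn RatFunc.X η (A l i) _ (hA l i))
  · intro l
    have h1 := congrArg val (hAS l)
    rw [map_mul, map_pow, map_sum, hvX, hvc'] at h1
    have h2 : ∀ i, (algebraMap (Polynomial K) (RatFunc K) c)⁻¹ • val (A l i) *
        val (itp (skew G) n i.succ) = (algebraMap (Polynomial K) (RatFunc K) c)⁻¹ •
        val (A l i * itp (skew G) n i.succ) := by
      intro i
      rw [map_mul, smul_mul_assoc]
    simp only [h2]
    rw [← Finset.smul_sum, ← h1, ← Algebra.smul_def, smul_smul, inv_mul_cancel₀ hcF, one_smul]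
  · intro i
    exact mem_bn RatFunc.X η (H i) _ (hH i)
  · exact ⟨j₀, fun h => hj₀ (hv0 _ h)⟩
  · intro i j
    have h1 := congrArg val (hHc j i)
    rw [map_mul, map_mul] at h1
    show val (H i) * val (itp (skew G) n j.succ) = val (H j) * val (itp (skew G) n i.succ)
    rw [mul_comm, h1, mul_comm]

/-- As `G.degLine_le` (file `G/DegB.lean`): `degIt_le`; some `itp (skew G) n i.succ` is not zero by
`itpF_pk`. -/
theorem degF_le (G : Fin (k + 1) → MvPolynomial (Fin (k + 2)) K) (d : ℕ) (hd : 2 ≤ d)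
    (hG : ∀ i, IsWeightedHomogeneous (wF k) (G i) d) (hz : NoZero G) :
    ∃ B : ℝ, 0 ≤ B ∧ ∀ n, (degF G n : ℝ) ≤ B * (d : ℝ) ^ n := by
  have hY : ∀ i, YLe d (G i) := by
    intro i m hm
    have h1 := hG i (mem_support_iff.1 hm)
    rw [degF_weight] at h1
    exact h1.le
  obtain ⟨B, hB0, hB⟩ := degIt_le G d hd hY
  refine ⟨B, hB0, fun n => ?_⟩
  refine le_trans ?_ (hB n)
  obtain ⟨i₀, hi₀⟩ := degF_pk_ne _ (itpF_pk G hz n)
  have h1 : degF G n ≤ degIt (skew G) n := by
    refine Nat.sInf_le ⟨d ^ n, fun i => itp (skew G) n i.succ, fun i => itpF_hom G d hG n i,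
      fun i => ?_, fun h => hi₀ (congrFun h i₀), fun i j => mul_comm _ _⟩
    exact Finset.le_sup (f := fun i => (itp (skew G) n i).totalDegree) (Finset.mem_univ i.succ)
  exact_mod_cast h1

/-- The first dynamical degree is `d`, as `G.degLine_lim`. -/
theorem degF_lim (hk : 1 ≤ k) (G : Fin (k + 1) → MvPolynomial (Fin (k + 2)) K) (d : ℕ) (hd : 2 ≤ d)
    (hG : ∀ i, IsWeightedHomogeneous (wF k) (G i) d) (hz : NoZero G) :
    Tendsto (fun n : ℕ => (degF G n : ℝ) ^ ((1 : ℝ) / n)) atTop (𝓝 (d : ℝ)) := by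
  obtain ⟨B, _, hB⟩ := degF_le G d hd hG hz
  have hge : ∀ n, ((d : ℝ) ^ n) ≤ (degF G n : ℝ) := by
    intro n
    exact_mod_cast degF_ge hk G d hG hz n
  have h := root_lim d hd (fun n => (degF G n : ℝ)) 1 B one_pos 0
    (fun n _ => by rw [one_mul]; exact hge n) hB
  refine h.congr fun n => ?_
  have h1 : (1 : ℝ) ≤ (degF G n : ℝ) := by
    have hd1 : (1 : ℝ) ≤ (d : ℝ) := by exact_mod_cast (by omega : 1 ≤ d)
    exact (one_le_pow₀ hd1).trans (hge n)
  rw [max_eq_left h1]

end Pool.Agent.H.MP_31a675_nt.W
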