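import Mathlib

/-!
# Descent of relations to a smaller field
-/

namespace Pool.Agent.H.MP_31a675_nt.W

open MvPolynomial

variable {K : Type} [Field K] {K' : Type} [Field K'] [Algebra K K'] {N : ℕ}

private noncomputable def fdescMap (l : K' →ₗ[K] K) (P : MvPolynomial (Fin N) K') :
    MvPolynomial (Fin N) K :=
  P.support.sum fun m => monomial m (l (coeff m P))

private theorem fdescMap_coeff (l : K' →ₗ[K] K) (P : MvPolynomial (Fin N) K')
    (m : Fin N →₀ ℕ) : coeff m (fdescMap l P) = l (coeff m P) := by
  classical
  unfold fdescMap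
  rw [coeff_sum]
  simp only [coeff_monomial]
  by_cases h : m ∈ P.support
  · rw [Finset.sum_eq_single m]
    · simp
    · intro b _ hb
      simp [hb]
    · intro h'
      exact absurd h h'
  · rw [Finset.sum_eq_zero]
    · rw [notMem_support_iff.mp h]
      simp
    · intro b hb
      have hne : b ≠ m := fun h' => h (h' ▸ hb)
      simp [hne]

/-- Apply a `K`-linear function `K' → K`, which does not vanish at some coefficient of `P`, to the
coefficients of `P` (compare `cmap` in `Null.lean`). -/
theorem descend (w : Fin N → ℕ) (P : MvPolynomial (Fin N) K') (e : ℕ) (h0 : P ≠ 0)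
    (hP : IsWeightedHomogeneous w P e) :
    ∃ Q : MvPolynomial (Fin N) K, Q ≠ 0 ∧ IsWeightedHomogeneous w Q e ∧
      ∀ x : Fin N → K, eval (fun i => algebraMap K K' (x i)) P = 0 → eval x Q = 0 := by
  classical
  obtain ⟨m, hm⟩ := ne_zero_iff.mp h0
  obtain ⟨l, hl⟩ : ∃ l : K' →ₗ[K] K, l (coeff m P) ≠ 0 := by
    by_contra hcon
    push Not at hcon
    exact hm ((Module.forall_dual_apply_eq_zero_iff K (coeff m P)).mp hcon)
  refine ⟨fdescMap l P, ?_, ?_, ?_⟩
  · intro h
    apply hl
    rw [← fdescMap_coeff, h, coeff_zero]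
  · intro d hd
    apply hP
    intro hc
    apply hd
    rw [fdescMap_coeff, hc, map_zero]
  · intro x hx
    have h1 : l (eval (fun i => algebraMap K K' (x i)) P) = eval x (fdescMap l P) := by
      unfold fdescMap
      rw [map_sum, eval_eq, map_sum]
      apply Finset.sum_congr rfl
      intro d _
      rw [eval_monomial]
      have h2 : (∏ i ∈ d.support, algebraMap K K' (x i) ^ d i)
          = algebraMap K K' (∏ i ∈ d.support, x i ^ d i) := by
        rw [map_prod]
        apply Finset.prod_congr rfl
        intro i _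
        rw [map_pow]
      rw [h2, mul_comm, ← Algebra.smul_def, map_smul, smul_eq_mul, mul_comm, Finsupp.prod]
    rw [← h1, hx, map_zero]

end Pool.Agent.H.MP_31a675_nt.W
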