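import Pool.Agent.H.MP_31a675_nt.W.FDefs

/-!
# Heights of values of a family of polynomials
-/

namespace Pool.Agent.H.MP_31a675_nt.W

open MvPolynomial Height

variable {K : Type} [Field K] [NumberField K] {k : ℕ}

/-- The exponent vectors of the monomials of degree `M` in `y_0, ..., y_k`. -/
private def htfFS (k M : ℕ) : Finset (Fin (k + 1) →₀ ℕ) :=
  (Finset.univ : Finset (Fin (k + 1))).finsuppAntidiag M

private theorem htfFS_mem {M : ℕ} {d : Fin (k + 1) →₀ ℕ} :
    d ∈ htfFS k M ↔ ∑ l, d l = M := by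
  rw [htfFS, Finset.mem_finsuppAntidiag]
  exact ⟨fun h => h.1, fun h => ⟨h, Finset.subset_univ _⟩⟩

/-- The exponent vector of `t ^ i * y ^ d`. -/
private noncomputable def htfFMon (M E : ℕ) (p : htfFS k M × Fin (E + 1)) : Fin (k + 2) →₀ ℕ :=
  Finsupp.cons (p.2 : ℕ) (p.1 : Fin (k + 1) →₀ ℕ)

private theorem htfFMon_zero (M E : ℕ) (p : htfFS k M × Fin (E + 1)) :
    htfFMon M E p 0 = p.2 := Finsupp.cons_zero _ _

private theorem htfFMon_succ (M E : ℕ) (p : htfFS k M × Fin (E + 1)) (l : Fin (k + 1)) :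
    htfFMon M E p l.succ = (p.1 : Fin (k + 1) →₀ ℕ) l := Finsupp.cons_succ _ _ _

private theorem htfFMon_inj (M E : ℕ) : Function.Injective (htfFMon (k := k) M E) := by
  intro p p' h
  have h0 := congrArg (fun f : Fin (k + 2) →₀ ℕ => f 0) h
  simp only [htfFMon_zero] at h0
  have h1 : (p.1 : Fin (k + 1) →₀ ℕ) = (p'.1 : Fin (k + 1) →₀ ℕ) := by
    ext l
    have h2 := congrArg (fun f : Fin (k + 2) →₀ ℕ => f l.succ) h
    simp only [htfFMon_succ] at h2
    exact h2
  exact Prod.ext (Subtype.ext h1) (Fin.ext h0)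

omit [NumberField K] in
/-- The value of a polynomial which is homogeneous of degree `M` in `y`. -/
private theorem htfF_eval (p : MvPolynomial (Fin (k + 2)) K) (M E : ℕ)
    (hp : IsWeightedHomogeneous (wF k) p M) (hE : p.totalDegree ≤ E) (t : K)
    (y : Fin (k + 1) → K) :
    eval (Fin.cons t y) p = ∑ j : htfFS k M,
      (∑ i : Fin (E + 1), coeff (htfFMon M E (j, i)) p * t ^ (i : ℕ)) *
        ∏ l, y l ^ (j : Fin (k + 1) →₀ ℕ) l := by
  classical
  rw [eval_eq']
  have h1 : ∀ j : htfFS k M,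
      (∑ i : Fin (E + 1), coeff (htfFMon M E (j, i)) p * t ^ (i : ℕ)) *
        ∏ l, y l ^ (j : Fin (k + 1) →₀ ℕ) l =
      ∑ i : Fin (E + 1), (fun d : Fin (k + 2) →₀ ℕ => coeff d p *
        ∏ i, (Fin.cons t y : Fin (k + 2) → K) i ^ d i) (htfFMon M E (j, i)) := by
    intro j
    rw [Finset.sum_mul]
    refine Finset.sum_congr rfl fun i _ => ?_
    show _ = coeff (htfFMon M E (j, i)) p *
        ∏ l, (Fin.cons t y : Fin (k + 2) → K) l ^ htfFMon M E (j, i) l
    have h2 : ∏ l, (Fin.cons t y : Fin (k + 2) → K) l ^ htfFMon M E (j, i) l =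
        t ^ (i : ℕ) * ∏ l, y l ^ (j : Fin (k + 1) →₀ ℕ) l := by
      rw [Fin.prod_univ_succ, htfFMon_zero, Fin.cons_zero]
      refine congrArg (t ^ (i : ℕ) * ·) (Finset.prod_congr rfl fun l _ => ?_)
      rw [htfFMon_succ, Fin.cons_succ]
    rw [h2, mul_assoc]
  rw [Finset.sum_congr rfl fun j _ => h1 j, ← Fintype.sum_prod_type'
    (f := fun j i => (fun d : Fin (k + 2) →₀ ℕ => coeff d p *
        ∏ i, (Fin.cons t y : Fin (k + 2) → K) i ^ d i) (htfFMon M E (j, i)))]
  rw [← Finset.sum_image (s := Finset.univ) (g := htfFMon M E)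
    (f := fun d : Fin (k + 2) →₀ ℕ => coeff d p *
      ∏ i, (Fin.cons t y : Fin (k + 2) → K) i ^ d i)
    (fun a _ b _ h => htfFMon_inj M E h)]
  refine Finset.sum_subset ?_ ?_
  · intro d hd
    rw [mem_support_iff] at hd
    have hw := hp hd
    have hw' : ∑ l : Fin (k + 1), d l.succ = M := by
      have h2 : (∑ l : Fin (k + 2), d l • wF k l) = ∑ l : Fin (k + 1), d l.succ := by
        rw [Fin.sum_univ_succ]
        simp only [wF, Fin.cons_zero, Fin.cons_succ, smul_eq_mul, mul_zero, mul_one, zero_add]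
      rw [← hw, Finsupp.weight_apply, Finsupp.sum_fintype _ _ (fun i => by simp), h2]
    have hd0 : d 0 ≤ E := by
      refine le_trans ?_ hE
      refine le_trans ?_ (le_totalDegree (mem_support_iff.2 hd))
      rw [Finsupp.sum_fintype _ _ (fun i => rfl), Fin.sum_univ_succ]
      exact Nat.le_add_right _ _
    rw [Finset.mem_image]
    refine ⟨(⟨Finsupp.tail d, htfFS_mem.2 ?_⟩, ⟨d 0, by omega⟩), Finset.mem_univ _, ?_⟩
    · rw [← hw']
      rfl
    · exact Finsupp.cons_tail d
  · intro d _ hd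
    rw [notMem_support_iff] at hd
    rw [hd, zero_mul]

/-- The height of the values at `(t, y)` of a family of polynomials homogeneous of degree `M` in `y`,
as `G.ht_family` (file `G/HtFam.lean`, there for two variables `y`): the values are the product of a
matrix, whose entries are polynomials in `t`, and the vector of the monomials of degree `M` in `y`. -/
theorem ht_familyF {ι : Type} [Fintype ι] [Nonempty ι] (q : ι → MvPolynomial (Fin (k + 2)) K) (M : ℕ)
    (hq : ∀ a, IsWeightedHomogeneous (wF k) (q a) M) :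
    ∃ C E : ℝ, 0 ≤ C ∧ 0 ≤ E ∧ ∀ (t : K) (y : Fin (k + 1) → K),
      logHeight (fun a => eval (Fin.cons t y) (q a)) ≤ C + E * logHeight₁ t + M * logHeight y := by
  classical
  set E : ℕ := Finset.univ.sup fun a => (q a).totalDegree with hE
  have hEa : ∀ a, (q a).totalDegree ≤ E := fun a =>
    Finset.le_sup (f := fun a => (q a).totalDegree) (Finset.mem_univ a)
  have : Nonempty (htfFS k M) := by
    refine ⟨⟨Finsupp.single 0 M, htfFS_mem.2 ?_⟩⟩
    rw [Fin.sum_univ_succ]
    simp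
  -- the monomials in `y`
  have hy : ∀ j : htfFS k M, (monomial (j : Fin (k + 1) →₀ ℕ) (1 : K) :
      MvPolynomial (Fin (k + 1)) K).IsHomogeneous M := by
    intro j
    refine isHomogeneous_monomial _ ?_
    rw [Finsupp.degree_eq_sum]
    exact htfFS_mem.1 j.2
  obtain ⟨C₁, hC₁⟩ := logHeight_eval_le' (K := K) hy
  -- the powers of `t`
  have ht : ∀ j : Fin (E + 1), (X 0 ^ (j : ℕ) * X 1 ^ (E - (j : ℕ)) :
      MvPolynomial (Fin 2) K).IsHomogeneous E := by
    intro j
    have h := (isHomogeneous_X_pow (R := K) (0 : Fin 2) (j : ℕ)).mul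
      (isHomogeneous_X_pow (R := K) (1 : Fin 2) (E - (j : ℕ)))
    have hj : (j : ℕ) + (E - (j : ℕ)) = E := by omega
    rwa [hj] at h
  obtain ⟨C₂, hC₂⟩ := logHeight_eval_le' (K := K) ht
  set B : (ι × htfFS k M) × Fin (E + 1) → K := fun p =>
    coeff (htfFMon M E (p.1.2, p.2)) (q p.1.1) with hB
  set C : ℝ := (totalWeight K : ℝ) * Real.log (Nat.card (htfFS k M)) +
    ((totalWeight K : ℝ) * Real.log (Nat.card (Fin (E + 1))) + logHeight B + C₂) + C₁
    with hC
  refine ⟨max C 0, E, le_max_right _ _, Nat.cast_nonneg _, fun t y => ?_⟩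
  set A : ι × htfFS k M → K := fun p => ∑ i : Fin (E + 1), B (p, i) * t ^ (i : ℕ) with hA
  have e1 : (fun a => eval (Fin.cons t y) (q a)) =
      fun a => ∑ j : htfFS k M, A (a, j) * ∏ l, y l ^ (j : Fin (k + 1) →₀ ℕ) l := by
    funext a
    exact htfF_eval (q a) M E (hq a) (hEa a) t y
  have h1 := logHeight_linearMap_apply_le (K := K) A
    (fun j : htfFS k M => ∏ l, y l ^ (j : Fin (k + 1) →₀ ℕ) l)
  have h2 := logHeight_linearMap_apply_le (K := K) B (fun i : Fin (E + 1) => t ^ (i : ℕ))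
  have h3 := hC₁ y
  have h4 := hC₂ ![t, 1]
  have e3 : (fun j : htfFS k M => eval y (monomial (j : Fin (k + 1) →₀ ℕ) (1 : K))) =
      fun j : htfFS k M => ∏ l, y l ^ (j : Fin (k + 1) →₀ ℕ) l := by
    funext j
    rw [eval_monomial, one_mul, Finsupp.prod_fintype _ _ (fun i => pow_zero _)]
  rw [e3] at h3
  simp only [map_mul, map_pow, eval_X, Matrix.cons_val_zero, Matrix.cons_val_one, one_pow,
    mul_one] at h4
  rw [← logHeight₁_eq_logHeight] at h4
  rw [e1]
  have h5 : C ≤ max C 0 := le_max_left _ _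
  rw [hC] at h5
  have h6 : logHeight A = logHeight (fun j => ∑ i, B (j, i) * t ^ (i : ℕ)) := rfl
  linarith

end Pool.Agent.H.MP_31a675_nt.W
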