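import Pool.Agent.H.MP_31a675_nt.PolyC
import Pool.Agent.H.MP_31a675_nt.W.FHtFam
import Pool.Agent.H.MP_31a675_nt.W.FNull

/-!
# The recursion for the heights
-/

namespace Pool.Agent.H.MP_31a675_nt.W

open MvPolynomial Height

variable {K : Type} [Field K] [NumberField K] {k : ℕ}

theorem fht_one_eq (t : K) : ht (one t) = logHeight₁ t := by
  rw [logHeight₁_eq_logHeight, logHeight_swap]
  unfold ht
  congr 1
  funext i
  refine Fin.cases ?_ (fun j => ?_) i
  · rfl
  · have hj : j = 0 := Subsingleton.elim _ _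
    subst hj
    rfl

/-- The values of a family along the orbit. -/
theorem fht_family {ι : Type} [Fintype ι] [Nonempty ι] (q : ι → MvPolynomial (Fin (k + 2)) K)
    (M : ℕ) (hq : ∀ a, IsWeightedHomogeneous (wF k) (q a) M) (t : K) (C₀ : ℝ) (hC₀ : 0 ≤ C₀) :
    ∃ C : ℝ, 0 ≤ C ∧ ∀ (n : ℕ) (y : Fin (k + 1) → K),
      C₀ + logHeight (fun a => eval (Fin.cons (t + n) y) (q a)) ≤
        M * logHeight y + C * Real.log ((n : ℝ) + 2) := by
  obtain ⟨C, E, hC, hE, h⟩ := ht_familyF q M hq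
  obtain ⟨C', hC', h'⟩ := ht_add_nat t
  have hl2 : 0 < Real.log 2 := Real.log_pos (by norm_num)
  refine ⟨(C₀ + C) / Real.log 2 + E * C', by positivity, fun n y => ?_⟩
  have h1 := h (t + n) y
  have h2 := h' n
  rw [fht_one_eq] at h2
  have hlog : Real.log 2 ≤ Real.log ((n : ℝ) + 2) :=
    Real.log_le_log (by norm_num) (by linarith [(Nat.cast_nonneg n : (0 : ℝ) ≤ n)])
  have h3 : C₀ + C ≤ (C₀ + C) / Real.log 2 * Real.log ((n : ℝ) + 2) := by
    rw [div_mul_eq_mul_div, le_div_iff₀ hl2]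
    exact mul_le_mul_of_nonneg_left hlog (by linarith)
  have h4 : E * logHeight₁ (t + n) ≤ E * (C' * Real.log ((n : ℝ) + 2)) :=
    mul_le_mul_of_nonneg_left h2 hE
  nlinarith [h1, h3, h4]

/-- As `G.upperLine` (file `G/HtRec.lean`). -/
theorem upperF (G : Fin (k + 1) → MvPolynomial (Fin (k + 2)) K) (d : ℕ)
    (hG : ∀ i, IsWeightedHomogeneous (wF k) (G i) d) (x : Fin (k + 2) → K) :
    ∃ C : ℝ, 0 ≤ C ∧ ∀ n : ℕ, logHeight (yo G x (n + 1)) ≤
      d * logHeight (yo G x n) + C * Real.log ((n : ℝ) + 2) := by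
  obtain ⟨C, hC, h⟩ := fht_family G d hG (x 0) 0 le_rfl
  refine ⟨C, hC, fun n => ?_⟩
  have h1 := h n (yo G x n)
  have h2 : yo G x (n + 1) = fun a => eval (Fin.cons (x 0 + n) (yo G x n)) (G a) :=
    funext fun i => yo_succ G x n i
  rw [h2]
  linarith

/-- As `G.lowerLine` (file `G/HtRec.lean`), with the identity of `pk_hom` for `S = G` instead of
`syl`. -/
theorem lowerF (G : Fin (k + 1) → MvPolynomial (Fin (k + 2)) K) (d : ℕ)
    (hG : ∀ i, IsWeightedHomogeneous (wF k) (G i) d) (hz : NoZero G) (x : Fin (k + 2) → K)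
    (hx : ∀ n, yo G x n ≠ 0) :
    ∃ (C : ℝ) (n₀ : ℕ), 0 ≤ C ∧ ∀ n : ℕ, n₀ ≤ n →
      d * logHeight (yo G x n) ≤
        logHeight (yo G x (n + 1)) + C * Real.log ((n : ℝ) + 2) := by
  obtain ⟨c, M, A, hc, hdM, hA, hid⟩ := pk_hom G d hG (pk_noZero G hz)
  set q : Fin (k + 1) × Fin (k + 1) → MvPolynomial (Fin (k + 2)) K := fun a => A a.1 a.2 with hqdef
  have hq : ∀ a, IsWeightedHomogeneous (wF k) (q a) (M - d) := fun a => hA a.1 a.2
  obtain ⟨C, hC, h⟩ := fht_family q (M - d) hq (x 0)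
    (totalWeight K * Real.log (Nat.card (Fin (k + 1))))
    (mul_nonneg (Nat.cast_nonneg _) (Real.log_natCast_nonneg _))
  obtain ⟨n₀, hn₀⟩ := eventually_ne c hc (x 0)
  refine ⟨C, n₀, hC, fun n hn => ?_⟩
  have hne := hn₀ n hn
  set t : K := x 0 + n with ht
  set y : Fin (k + 1) → K := yo G x n with hy
  have hyo : ∀ i, yo G x (n + 1) i = eval (Fin.cons t y) (G i) := fun i => yo_succ G x n i
  have hev : ∀ p : Polynomial K, eval (Fin.cons t y : Fin (k + 2) → K)
      (Polynomial.aeval (X 0 : MvPolynomial (Fin (k + 2)) K) p) = p.eval t := by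
    intro p
    have h1 := Polynomial.aeval_algHom_apply (aeval (Fin.cons t y : Fin (k + 2) → K))
      (X 0 : MvPolynomial (Fin (k + 2)) K) p
    rw [aeval_X, Fin.cons_zero] at h1
    rw [← Polynomial.coe_aeval_eq_eval, h1]
    rfl
  have hkey : (fun j => ∑ i, (fun a => eval (Fin.cons t y) (q a)) (j, i) * yo G x (n + 1) i) =
      (c.eval t) • y ^ M := by
    funext j
    have h1 := congrArg (eval (Fin.cons t y : Fin (k + 2) → K)) (hid j)
    rw [map_mul, hev, map_pow, eval_X, Fin.cons_succ, map_sum] at h1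
    rw [Pi.smul_apply, Pi.pow_apply, smul_eq_mul, h1]
    refine Finset.sum_congr rfl fun i _ => ?_
    rw [map_mul, hyo]
  have h1 := logHeight_linearMap_apply_le (fun a => eval (Fin.cons t y) (q a)) (yo G x (n + 1))
  rw [hkey, logHeight_smul_eq_logHeight _ hne, logHeight_pow] at h1
  have h2 := h n y
  rw [← ht] at h2
  rw [Nat.cast_sub hdM] at h2
  nlinarith [h1, h2]

end Pool.Agent.H.MP_31a675_nt.W
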