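import Pool.Agent.H.MP_31a675_nt.W.PDefs
import Pool.Agent.H.MP_31a675_nt.G.Norm

/-!
# Heights in the chart `ℓ = 1`
-/

namespace Pool.Agent.H.MP_31a675_nt.W

open MvPolynomial NumberField Height

/-- The height of a vector of algebraic integers: the finite places contribute at most one, and the
archimedean absolute values are at most the house. -/
theorem logHeight_integral {K : Type} [Field K] [NumberField K] {r : ℕ} (w : Fin r → 𝓞 K) (H : ℝ)
    (hH : 1 ≤ H) (hw : ∀ i, house ((w i : 𝓞 K) : K) ≤ H) :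
    logHeight (fun i => ((w i : 𝓞 K) : K)) ≤ Module.finrank ℚ K * Real.log H := by
  have hlog : 0 ≤ Real.log H := Real.log_nonneg hH
  by_cases hx : (fun i => ((w i : 𝓞 K) : K)) = 0
  · rw [hx, logHeight_zero]
    positivity
  obtain ⟨i₀, hi₀⟩ := Function.ne_iff.1 hx
  have : Nonempty (Fin r) := ⟨i₀⟩
  have hw0 : w ≠ 0 := by
    rintro rfl
    apply hx
    funext i
    simp
  -- finite places
  have hfin : (∏ᶠ v : FinitePlace K, ⨆ i, v ((w i : 𝓞 K) : K)) ≤ 1 := by
    have h1 := absNorm_mul_finprod_finitePlace_eq_one hw0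
    have h2 : (0 : ℝ) ≤ ∏ᶠ v : FinitePlace K, ⨆ i, v ((w i : 𝓞 K) : K) :=
      finprod_nonneg fun _ => Real.iSup_nonneg_of_nonnegHomClass ..
    have h3 : (1 : ℝ) ≤ ((Ideal.span (Set.range w)).absNorm : ℝ) := by
      have h4 : (Ideal.span (Set.range w)).absNorm ≠ 0 := by
        intro h5
        rw [h5] at h1
        simp at h1
      exact_mod_cast Nat.one_le_iff_ne_zero.2 h4
    nlinarith
  -- infinite places
  have hinf : ∀ v : InfinitePlace K, (⨆ i, v ((w i : 𝓞 K) : K)) ≤ H := by
    intro v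
    refine ciSup_le fun i => ?_
    refine le_trans ?_ (hw i)
    rw [← InfinitePlace.mk_embedding v, InfinitePlace.apply]
    exact norm_embedding_le_house _ _
  have hinf0 : ∀ v : InfinitePlace K, 0 ≤ (⨆ i, v ((w i : 𝓞 K) : K)) :=
    fun _ => Real.iSup_nonneg_of_nonnegHomClass ..
  have hprod : (∏ v : InfinitePlace K, (⨆ i, v ((w i : 𝓞 K) : K)) ^ v.mult) ≤
      H ^ Module.finrank ℚ K := by
    rw [← totalWeight_eq_finrank, totalWeight_eq_sum_mult, ← Finset.prod_pow_eq_pow_sum]
    exact Finset.prod_le_prod (fun v _ => pow_nonneg (hinf0 v) _)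
      fun v _ => pow_le_pow_left₀ (hinf0 v) (hinf v) _
  have hmul : mulHeight (fun i => ((w i : 𝓞 K) : K)) ≤ H ^ Module.finrank ℚ K := by
    rw [NumberField.mulHeight_eq hx]
    have h1 : (0 : ℝ) ≤ ∏ v : InfinitePlace K, (⨆ i, v ((w i : 𝓞 K) : K)) ^ v.mult :=
      Finset.prod_nonneg fun v _ => pow_nonneg (hinf0 v) _
    exact (mul_le_of_le_one_right h1 hfin).trans hprod
  rw [logHeight_eq_log_mulHeight, ← Real.log_pow]
  exact Real.log_le_log (by linarith [one_le_mulHeight (fun i => ((w i : 𝓞 K) : K))]) hmul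

/-- The house does not grow in an extension. -/
private theorem htExt_house {K : Type} [Field K] [NumberField K] {K' : Type} [Field K']
    [NumberField K'] [Algebra K K'] (a : K) : house (algebraMap K K' a) ≤ house a := by
  have key : ∀ φ : K' →+* ℂ, ‖φ (algebraMap K K' a)‖ ≤ house a := fun φ =>
    norm_embedding_le_house a (φ.comp (algebraMap K K'))
  rw [house_eq_sup' (algebraMap K K' a)]
  obtain ⟨φ, -, hφ⟩ := Finset.exists_mem_eq_sup' (Finset.univ_nonempty (α := K' →+* ℂ))
    (fun φ : K' →+* ℂ => ‖φ (algebraMap K K' a)‖₊)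
  rw [hφ]
  exact key φ

/-- The height over `K'` of the affine coordinates is bounded by a multiple of the height over `K`.
Take an integral representative `w` of `x` (`G.exists_repr`) and a positive integer `q` such that all
`q ℓ i` are integral; the vector `(q ℓ (w), q w 1, ..., q w N)` over `K'` is proportional to
`(1, aff ℓ x)` and integral (`Height.logHeight_smul_eq_logHeight`); the house of an element of `K` is
the same in `K'`. -/
theorem ht_aff {K : Type} [Field K] [NumberField K] {K' : Type} [Field K'] [NumberField K']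
    [Algebra K K'] {N : ℕ} (ℓ : Fin (N + 1) → K') (h0 : ℓ 0 = 1)
    (hℓ : ∀ x : Fin (N + 1) → K, ∑ i, ℓ i * algebraMap K K' (x i) = 0 → x = 0) :
    ∃ C : ℝ, 0 ≤ C ∧ ∀ x : Fin (N + 1) → K, x ≠ 0 → ht (aff ℓ x) ≤ C * (logHeight x + 1) := by
  classical
  obtain ⟨q, hq0, -, hqi⟩ := exists_den ℓ (∑ i, mulHeight₁ (ℓ i)) fun i =>
    Finset.single_le_sum (f := fun i => mulHeight₁ (ℓ i))
      (fun j _ => zero_le_one.trans (one_le_mulHeight₁ (ℓ j))) (Finset.mem_univ i)
  have hqK : (q : K') ≠ 0 := Nat.cast_ne_zero.2 hq0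
  set B : ℝ := ∑ j, house ((q : K') * ℓ j) + q + 1 with hB
  have hsum0 : 0 ≤ ∑ j, house ((q : K') * ℓ j) := Finset.sum_nonneg fun j _ => house_nonneg _
  have hq1 : (0 : ℝ) ≤ q := Nat.cast_nonneg q
  have hB1 : 1 ≤ B := by linarith
  have hlB : 0 ≤ Real.log B := Real.log_nonneg hB1
  refine ⟨Module.finrank ℚ K' * (Real.log B + ((N + 1 : ℕ) + 1)), by positivity, fun x hx => ?_⟩
  obtain ⟨c, w, hc, hw, hwh⟩ := G.exists_repr x hx
  have hlh : 0 ≤ logHeight x := logHeight_nonneg x
  set S : K' := ∑ j, ℓ j * algebraMap K K' (x j) with hS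
  have hS0 : S ≠ 0 := fun h => hx (hℓ x h)
  set E : ℝ := Real.exp (((N + 1 : ℕ) + 1) * logHeight x) with hE
  have hE1 : 1 ≤ E := Real.one_le_exp (by positivity)
  have hc' : algebraMap K K' c ≠ 0 := by
    rwa [Ne, FaithfulSMul.algebraMap_eq_zero_iff]
  -- the integral vector
  let u : Fin (N + 1) → K' := Fin.cons (∑ j, ((q : K') * ℓ j) * algebraMap K K' ((w j : 𝓞 K) : K))
    fun i => (q : K') * algebraMap K K' ((w i.succ : 𝓞 K) : K)
  have hwint : ∀ j, IsIntegral ℤ (algebraMap K K' ((w j : 𝓞 K) : K)) := fun j =>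
    (RingOfIntegers.isIntegral_coe (w j)).algebraMap
  have huint : ∀ i, IsIntegral ℤ (u i) := by
    intro i
    refine Fin.cases ?_ (fun i => ?_) i
    · show IsIntegral ℤ (∑ j, ((q : K') * ℓ j) * algebraMap K K' ((w j : 𝓞 K) : K))
      exact IsIntegral.sum _ fun j _ => (hqi j).mul (hwint j)
    · show IsIntegral ℤ ((q : K') * algebraMap K K' ((w i.succ : 𝓞 K) : K))
      exact (Den_natCast q).mul (hwint _)
  let W : Fin (N + 1) → 𝓞 K' := fun i => ⟨u i, huint i⟩
  have hwE : ∀ j, house (algebraMap K K' ((w j : 𝓞 K) : K)) ≤ E := fun j =>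
    (htExt_house _).trans (hwh j)
  have hBE : ∀ t : ℝ, t ≤ B → t * E ≤ B * E := fun t ht =>
    mul_le_mul_of_nonneg_right ht (by linarith)
  have huh : ∀ i, house ((W i : 𝓞 K') : K') ≤ B * E := by
    intro i
    show house (u i) ≤ B * E
    refine Fin.cases ?_ (fun i => ?_) i
    · show house (∑ j, ((q : K') * ℓ j) * algebraMap K K' ((w j : 𝓞 K) : K)) ≤ B * E
      refine (house_sum_le_sum_house _ _).trans ?_
      calc ∑ j, house (((q : K') * ℓ j) * algebraMap K K' ((w j : 𝓞 K) : K))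
          ≤ ∑ j, house ((q : K') * ℓ j) * E := by
            refine Finset.sum_le_sum fun j _ => (house_mul_le _ _).trans ?_
            exact mul_le_mul_of_nonneg_left (hwE j) (house_nonneg _)
        _ = (∑ j, house ((q : K') * ℓ j)) * E := by rw [Finset.sum_mul]
        _ ≤ B * E := hBE _ (by linarith)
    · show house ((q : K') * algebraMap K K' ((w i.succ : 𝓞 K) : K)) ≤ B * E
      rw [house_nat_mul]
      exact (mul_le_mul_of_nonneg_left (hwE _) hq1).trans (hBE _ (by linarith))
  have hu : (fun i => ((W i : 𝓞 K') : K')) =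
      ((q : K') * algebraMap K K' c * S) • (Fin.cons 1 (aff ℓ x) : Fin (N + 1) → K') := by
    funext i
    show u i = ((q : K') * algebraMap K K' c * S) • (Fin.cons 1 (aff ℓ x) : Fin (N + 1) → K') i
    rw [smul_eq_mul]
    refine Fin.cases ?_ (fun i => ?_) i
    · show (∑ j, ((q : K') * ℓ j) * algebraMap K K' ((w j : 𝓞 K) : K)) =
        (q : K') * algebraMap K K' c * S * 1
      rw [hS, mul_one, Finset.mul_sum]
      refine Finset.sum_congr rfl fun j _ => ?_
      rw [hw j, map_mul]
      ring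
    · show (q : K') * algebraMap K K' ((w i.succ : 𝓞 K) : K) =
        (q : K') * algebraMap K K' c * S * (algebraMap K K' (x i.succ) / S)
      rw [hw, map_mul]
      field_simp
  have h1 : ht (aff ℓ x) = logHeight (fun i => ((W i : 𝓞 K') : K')) := by
    rw [hu, logHeight_smul_eq_logHeight _ (mul_ne_zero (mul_ne_zero hqK hc') hS0)]
    rfl
  have hBE1 : 1 ≤ B * E := by nlinarith
  have h2 := logHeight_integral W (B * E) hBE1 huh
  rw [h1]
  refine h2.trans ?_
  rw [Real.log_mul (by linarith) (by linarith), hE, Real.log_exp, mul_assoc]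
  refine mul_le_mul_of_nonneg_left ?_ (Nat.cast_nonneg _)
  have h3 : 0 ≤ Real.log B * logHeight x := mul_nonneg hlB hlh
  have h4 : (0 : ℝ) ≤ ((N + 1 : ℕ) : ℝ) + 1 := by positivity
  nlinarith

end Pool.Agent.H.MP_31a675_nt.W
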