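import Pool.Agent.H.MP_31a675_nt.PolyC
import Pool.Agent.H.MP_31a675_nt.W.FDefs
import Pool.Agent.H.MP_31a675_nt.W.HtExt

/-!
# Heights in the chart
-/

namespace Pool.Agent.H.MP_31a675_nt.W

open MvPolynomial NumberField Height

/-- Adding a coordinate: at every place the maximum of `1`, `|t|`, `|y i|` is at most the product of
those of `1`, `|t|` and of `1`, `|y i|`. -/
theorem ht_cons {K : Type} [Field K] [NumberField K] {k : ℕ} (t : K) (y : Fin k → K) :
    ht (Fin.cons t y : Fin (k + 1) → K) ≤ ht (one t) + ht y :=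
  Pool.Agent.H.MP_31a675_nt.ht_cons t y

/-- The heights of the points of an orbit in the chart: `ht_cons`, `ht_add_nat` over `K'`, `ht_aff`. -/
theorem ht_affF {K : Type} [Field K] [NumberField K] {K' : Type} [Field K'] [NumberField K']
    [Algebra K K'] {k : ℕ} (ℓ : Fin (k + 1) → K') (h0 : ℓ 0 = 1)
    (hℓ : ∀ x : Fin (k + 1) → K, ∑ i, ℓ i * algebraMap K K' (x i) = 0 → x = 0) (t : K) :
    ∃ C : ℝ, 0 ≤ C ∧ ∀ (n : ℕ) (y : Fin (k + 1) → K), y ≠ 0 →
      ht (affF ℓ (Fin.cons (t + n) y : Fin (k + 2) → K)) ≤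
        C * (logHeight y + Real.log ((n : ℝ) + 2)) := by
  obtain ⟨C₁, hC₁, h₁⟩ := ht_add_nat (algebraMap K K' t)
  obtain ⟨C₂, hC₂, h₂⟩ := ht_aff (K := K) ℓ h0 hℓ
  have hl2 : 0 < Real.log 2 := Real.log_pos (by norm_num)
  refine ⟨C₁ + C₂ + C₂ / Real.log 2, by positivity, fun n y hy => ?_⟩
  have hlog : Real.log 2 ≤ Real.log ((n : ℝ) + 2) :=
    Real.log_le_log (by norm_num) (by linarith [(Nat.cast_nonneg n : (0 : ℝ) ≤ n)])
  have hlog0 : 0 ≤ Real.log ((n : ℝ) + 2) := hl2.le.trans hlog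
  have hy0 : 0 ≤ logHeight y := logHeight_nonneg y
  have heq : affF ℓ (Fin.cons (t + n) y : Fin (k + 2) → K) =
      (Fin.cons (algebraMap K K' t + n) (aff ℓ y) : Fin (k + 1) → K') := by
    unfold affF
    rw [Fin.tail_cons, Fin.cons_zero, map_add, map_natCast]
  rw [heq]
  have h3 := ht_cons (algebraMap K K' t + n) (aff ℓ y)
  have h4 := h₁ n
  have h5 := h₂ y hy
  have h6 : C₂ ≤ C₂ / Real.log 2 * Real.log ((n : ℝ) + 2) := by
    rw [div_mul_eq_mul_div, le_div_iff₀ hl2]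
    exact mul_le_mul_of_nonneg_left hlog hC₂
  have h7 : 0 ≤ C₁ * logHeight y := mul_nonneg hC₁ hy0
  have h8 : 0 ≤ C₂ / Real.log 2 * logHeight y := mul_nonneg (by positivity) hy0
  have h9 : 0 ≤ C₂ * Real.log ((n : ℝ) + 2) := mul_nonneg hC₂ hlog0
  nlinarith

end Pool.Agent.H.MP_31a675_nt.W
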