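import Mathlib

/-!
# Transcendental elements
-/

namespace Pool.Agent.H.MP_31a675_nt.W

open MvPolynomial

variable {K : Type} [Field K] {L : Type} [Field L] [Algebra K L] {k : ℕ}

/-- If the variety of `y` has two points over `K` with different first coordinates then the first
coordinate of `y` is transcendental: otherwise its minimal polynomial is irreducible and has two
roots in `K`. -/
theorem tr_zero (y : Fin (k + 1) → L) (x x' : Fin (k + 1) → K)
    (hx : ∀ g : MvPolynomial (Fin (k + 1)) K, aeval y g = 0 → eval x g = 0)
    (hx' : ∀ g : MvPolynomial (Fin (k + 1)) K, aeval y g = 0 → eval x' g = 0) (hne : x 0 ≠ x' 0) :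
    Transcendental K (y 0) := by
  intro halg
  have hint : IsIntegral K (y 0) := halg.isIntegral
  set p := minpoly K (y 0) with hp
  have hirr : Irreducible p := minpoly.irreducible hint
  have hmon : p.Monic := minpoly.monic hint
  have hkey : ∀ v : Fin (k + 1) → K,
      (∀ g : MvPolynomial (Fin (k + 1)) K, aeval y g = 0 → eval v g = 0) → p.eval (v 0) = 0 := by
    intro v hv
    have h1 : aeval y (Polynomial.aeval (X 0 : MvPolynomial (Fin (k + 1)) K) p) = 0 := by
      rw [← Polynomial.aeval_algHom_apply, aeval_X, hp, minpoly.aeval]
    have h2 := hv _ h1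
    have h3 : eval v (Polynomial.aeval (X 0 : MvPolynomial (Fin (k + 1)) K) p) =
        Polynomial.aeval (v 0) p := by
      have := Polynomial.aeval_algHom_apply (aeval v : MvPolynomial (Fin (k + 1)) K →ₐ[K] K)
        (X 0 : MvPolynomial (Fin (k + 1)) K) p
      rw [aeval_X] at this
      rw [this]
      rfl
    rw [h3] at h2
    simpa [Polynomial.aeval_def] using h2
  have h1 := hkey x hx
  have h2 := hkey x' hx'
  have h3 : Polynomial.X - Polynomial.C (x 0) ∣ p := Polynomial.dvd_iff_isRoot.mpr h1
  have h4 : Associated (Polynomial.X - Polynomial.C (x 0)) p :=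
    (Polynomial.irreducible_X_sub_C (x 0)).associated_of_dvd hirr h3
  have h5 : Polynomial.X - Polynomial.C (x 0) = p :=
    Polynomial.eq_of_monic_of_associated (Polynomial.monic_X_sub_C _) hmon h4
  rw [← h5] at h2
  simp only [Polynomial.eval_sub, Polynomial.eval_X, Polynomial.eval_C] at h2
  exact hne (sub_eq_zero.mp h2).symm

/-- If there are two algebraically independent polynomials in `y` then some coordinate of `y` is
transcendental over the field generated by the first one. Otherwise both are algebraic over it, but
its transcendence degree is at most one. -/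
theorem exists_tr (y : Fin (k + 1) → L) {m : ℕ} (hm : 2 ≤ m)
    (z : Fin m → MvPolynomial (Fin (k + 1)) K)
    (hz : ∀ p : MvPolynomial (Fin m) K, aeval y (aeval z p) = 0 → p = 0) :
    ∃ i : Fin k, Transcendental (IntermediateField.adjoin K {y 0}) (y i.succ) := by
  classical
  by_contra hcon
  push Not at hcon
  have hcon' : ∀ i : Fin k, IsAlgebraic (IntermediateField.adjoin K {y 0}) (y i.succ) := by
    intro i
    have := hcon i
    rwa [Transcendental, not_not] at this
  set s : Set L := {y 0} with hs
  have hind : AlgebraicIndependent K (fun i => aeval y (z i)) := by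
    rw [algebraicIndependent_iff]
    intro p hp
    apply hz p
    have : aeval y (aeval z p) = aeval (fun i => aeval y (z i)) p := by
      have := MvPolynomial.comp_aeval (R := K) z (aeval y : MvPolynomial (Fin (k + 1)) K →ₐ[K] L)
      exact DFunLike.congr_fun this p
    rw [this, hp]
  have halg0 : ∀ j : Fin (k + 1), IsAlgebraic (Algebra.adjoin K s) (y j) := by
    intro j
    refine Fin.cases ?_ (fun i => ?_) j
    · exact isAlgebraic_algebraMap (A := L)
        (⟨y 0, Algebra.subset_adjoin (Set.mem_singleton _)⟩ : Algebra.adjoin K s)
    · open scoped IntermediateField.algebraAdjoinAdjoin in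
      exact (IsFractionRing.isAlgebraic_iff (Algebra.adjoin K s)
        (IntermediateField.adjoin K s) L).mpr (hcon' i)
  have halg : ∀ P : MvPolynomial (Fin (k + 1)) K, IsAlgebraic (Algebra.adjoin K s) (aeval y P) := by
    intro P
    induction P using MvPolynomial.induction_on with
    | C a =>
      rw [aeval_C]
      have : algebraMap K L a = algebraMap (Algebra.adjoin K s) L (algebraMap K _ a) := rfl
      rw [this]
      exact isAlgebraic_algebraMap _
    | add p q hp hq =>
      rw [map_add]
      exact hp.add hq
    | mul_X p i hp =>
      rw [map_mul, aeval_X]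
      exact hp.mul (halg0 i)
  have hsub : (Set.range fun i => aeval y (z i)) ⊆ (AlgebraicIndependent.matroid K L).closure s := by
    rw [AlgebraicIndependent.matroid_closure_eq]
    rintro _ ⟨j, rfl⟩
    exact halg _
  have hindr : (AlgebraicIndependent.matroid K L).Indep (Set.range fun i => aeval y (z i)) := by
    rw [AlgebraicIndependent.matroid_indep_iff]
    exact hind.coe_range
  have h1 := hindr.encard_le_eRk_of_subset hsub
  rw [Matroid.eRk_closure_eq] at h1
  have h2 : (AlgebraicIndependent.matroid K L).eRk s ≤ s.encard := Matroid.eRk_le_encard _ _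
  have h3 : s.encard = 1 := by rw [hs, Set.encard_singleton]
  have h4 : (Set.range fun i => aeval y (z i)).encard = (m : ℕ∞) := by
    rw [← Set.image_univ, Set.InjOn.encard_image hind.injective.injOn]
    simp
  rw [h4] at h1
  rw [h3] at h2
  have h5 := h1.trans h2
  have h6 : m ≤ 1 := by exact_mod_cast h5
  omega

end Pool.Agent.H.MP_31a675_nt.W
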