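import Pool.Agent.H.MP_31a675_nt.W.ParamS
import Pool.Agent.H.MP_31a675_nt.W.Defs

/-!
# The choice of the parameters
-/

namespace Pool.Agent.H.MP_31a675_nt.W

theorem Params_m {Y N m t e e' : ℕ} (hY : 2 ≤ Y) (hN : N ≤ Y) (hm : m ≤ Y ^ e) (ht : t ≤ Y ^ e') :
    m * (m * (N * (m + 1) ^ 2 * t + m)) ≤ Y ^ (4 * e + e' + 4) := by
  have h1 : 1 ≤ Y ^ e := Nat.one_le_pow _ _ (by omega)
  have h1' : 1 ≤ Y ^ (3 + e + e') := Nat.one_le_pow _ _ (by omega)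
  have h2 : (m + 1) ^ 2 ≤ Y ^ (2 * e + 2) := by
    calc (m + 1) ^ 2 ≤ (Y ^ e * Y) ^ 2 := by
          refine Nat.pow_le_pow_left ?_ 2
          nlinarith
      _ = Y ^ (2 * e + 2) := by ring
  calc m * (m * (N * (m + 1) ^ 2 * t + m))
      ≤ Y ^ e * (Y ^ e * (Y * Y ^ (2 * e + 2) * Y ^ e' + Y ^ e)) := by gcongr
    _ = Y ^ e * (Y ^ e * (Y ^ e * (Y ^ (3 + e + e') + 1))) := by ring
    _ ≤ Y ^ e * (Y ^ e * (Y ^ e * (Y ^ (3 + e + e') * Y))) := by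
        gcongr
        nlinarith
    _ = Y ^ (4 * e + e' + 4) := by ring

theorem Params_a {Y a m e : ℕ} (hY : 2 ≤ Y) (ha : a ≤ Y ^ e) (hm : m ≤ Y ^ e) :
    16 * a ^ 2 * m ^ 2 ≤ Y ^ (4 * e + 4) := by
  have h16 : 16 ≤ Y ^ 4 := (Nat.pow_le_pow_left hY 4 : 2 ^ 4 ≤ Y ^ 4)
  calc 16 * a ^ 2 * m ^ 2 ≤ Y ^ 4 * (Y ^ e) ^ 2 * (Y ^ e) ^ 2 := by gcongr
    _ = Y ^ (4 * e + 4) := by ring

/-- one step of the recursion -/
def ParamsSt (N δ : ℕ) (R : ℕ → ℕ → ℕ) (m₀ Y : ℕ) : ℕ → ℕ × ℕ × ℕ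
  | 0 => (m₀, 1, Y)
  | j + 1 =>
    let m := (ParamsSt N δ R m₀ Y j).1
    let a := (ParamsSt N δ R m₀ Y j).2.1
    let s := (ParamsSt N δ R m₀ Y j).2.2
    (m * (m * (N * (m + 1) ^ 2 * (1 + N * δ) ^ (R j s + 1) + m)), 16 * a ^ 2 * m ^ 2,
      4 * (16 * a ^ 2 * m ^ 2) *
        (m * (m * (N * (m + 1) ^ 2 * (1 + N * δ) ^ (R j s + 1) + m))))

theorem Params_exp (e : ℕ) {lam : ℝ} (hl : 1 < lam) :
    ∃ Y₁ : ℕ, ∀ Y : ℕ, Y₁ ≤ Y → ((Y ^ e : ℕ) : ℝ) < lam ^ Y := by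
  have h := tendsto_pow_const_div_const_pow_of_one_lt e hl
  have h1 := (h.eventually (gt_mem_nhds zero_lt_one))
  obtain ⟨Y₁, hY₁⟩ := Filter.eventually_atTop.1 h1
  refine ⟨Y₁, fun Y hY => ?_⟩
  have h2 := hY₁ Y hY
  rw [div_lt_one (by positivity)] at h2
  push_cast
  exact h2

/-- The sequences are defined from the top `k = r` downwards: `m r = max 1 μ₀`, `a r = 1`, `s r = Y`,
`ρ (k + 1)`, `Q (k + 1)` from `param_step` (with `c = N * δ`), `m k` and `a k` the left sides of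
`Num.m_ge` and `Num.a_ge`, `s k = 4 * a k * m k` for `k < r`. All numbers at the level `k` are at most
`Y ^ e` with an exponent `e` which depends only on `N`, `δ`, `κ` and `r - k ≤ N` (for `Y` large, also
`μ₀ ≤ Y`); `G` is larger than four times the largest exponent. At the top
`(1 + N * δ) ^ ρ r ≤ Y ^ e' < lam ^ Y` for `Y` large. -/
theorem params (N δ κ : ℕ) : ∃ G : ℕ, 1 ≤ G ∧ ∀ r ≤ N, 1 ≤ r → ∀ (μ₀ s₀ : ℕ) (C lam : ℝ), 1 ≤ C →
    1 < lam → ∃ Y₀ : ℕ, ∀ Y T : ℕ, Y₀ ≤ Y → Y ^ G ≤ T →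
      ∃ m a s ρ Q : ℕ → ℕ, Num N δ T r m a s ρ ∧ μ₀ ≤ m r ∧ s₀ ≤ s r ∧
        (((1 + N * δ) ^ ρ r : ℕ) : ℝ) < lam ^ s r ∧
        ∀ k < r, s (k + 1) ≤ T ∧ 2 * (Q (k + 1) + 1) ^ κ ≤ 2 ^ (ρ (k + 1) + 1) ∧
          C * (s (k + 1) + ρ (k + 1) + 3) * (Y + Y) < Chebyshev.theta (Q (k + 1)) := by
  choose e' he' using param_step κ (N * δ)
  let ee : ℕ → ℕ := fun j => Nat.rec 1 (fun _ e => 8 * e + e' e + 10) j
  have ee0 : ee 0 = 1 := rfl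
  have ees : ∀ j, ee (j + 1) = 8 * ee j + e' (ee j) + 10 := fun j => rfl
  have eemono : Monotone ee := monotone_nat_of_le_succ fun j => by rw [ees]; omega
  refine ⟨3 * ee N + 1, by omega, fun r hrN hr μ₀ s₀ C lam hC hlam => ?_⟩
  choose Y0 hY0 using fun e => he' e C hC
  obtain ⟨Y₁, hY₁⟩ := Params_exp (e' (ee 0)) hlam
  refine ⟨((Finset.range (N + 1)).sup fun j => Y0 (ee j)) + 4 * max 1 μ₀ + s₀ + N + Y₁ + 2,
    fun Y T hY hT => ?_⟩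
  have hY2 : 2 ≤ Y := by omega
  have hYN : N ≤ Y := by omega
  have hYs : s₀ ≤ Y := by omega
  have hY1 : Y₁ ≤ Y := by omega
  have hYm : 4 * max 1 μ₀ ≤ Y := by omega
  have hYsup : ∀ j ≤ N, Y0 (ee j) ≤ Y := fun j hj => by
    have h : Y0 (ee j) ≤ (Finset.range (N + 1)).sup fun j => Y0 (ee j) :=
      Finset.le_sup (f := fun j => Y0 (ee j)) (Finset.mem_range.2 (Nat.lt_succ_of_le hj))
    omega
  have hex : ∀ j s : ℕ, ∃ ρ Q : ℕ, j ≤ N → s ≤ Y ^ ee j →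
      2 * (Q + 1) ^ κ ≤ 2 ^ (ρ + 1) ∧ C * (s + ρ + 3) * (Y + Y) < Chebyshev.theta Q ∧
        (1 + N * δ) ^ (ρ + 1) ≤ Y ^ e' (ee j) := by
    intro j s
    by_cases hj : j ≤ N
    · by_cases hs : s ≤ Y ^ ee j
      · obtain ⟨ρ, Q, h⟩ := (hY0 (ee j)).2 Y (hYsup j hj) s hs
        exact ⟨ρ, Q, fun _ _ => h⟩
      · exact ⟨0, 0, fun _ h => absurd h hs⟩
    · exact ⟨0, 0, fun h => absurd h hj⟩
  choose R Qf hRQ using hex
  set St := ParamsSt N δ R (max 1 μ₀) Y with hSt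
  have St0 : St 0 = (max 1 μ₀, 1, Y) := rfl
  have hm0 : 1 ≤ max 1 μ₀ := le_max_left _ _
  have inv : ∀ j ≤ N, 1 ≤ (St j).1 ∧ 1 ≤ (St j).2.1 ∧ (St j).1 ≤ Y ^ ee j ∧
      (St j).2.1 ≤ Y ^ ee j ∧ (St j).2.2 ≤ Y ^ ee j ∧
      4 * (St j).2.1 * (St j).1 ≤ (St j).2.2 := by
    intro j
    induction j with
    | zero =>
      intro _
      rw [ee0, pow_one]
      refine ⟨hm0, le_refl 1, ?_, ?_, le_refl Y, ?_⟩
      · show max 1 μ₀ ≤ Y
        omega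
      · show 1 ≤ Y
        omega
      · show 4 * 1 * max 1 μ₀ ≤ Y
        omega
    | succ j ih =>
      intro hj
      obtain ⟨h1, h2, h3, h4, h5, h6⟩ := ih (by omega)
      obtain ⟨-, -, h7⟩ := hRQ j (St j).2.2 (by omega) h5
      have hm := Params_m hY2 hYN h3 h7
      have ha := Params_a hY2 h4 h3
      have hmle : (St (j + 1)).1 ≤ Y ^ (4 * ee j + e' (ee j) + 4) := hm
      have hale : (St (j + 1)).2.1 ≤ Y ^ (4 * ee j + 4) := ha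
      have hs : (St (j + 1)).2.2 = 4 * (St (j + 1)).2.1 * (St (j + 1)).1 := rfl
      have hYpos : 0 < Y := by omega
      refine ⟨?_, ?_, hmle.trans (Nat.pow_le_pow_right hYpos (by rw [ees]; omega)),
        hale.trans (Nat.pow_le_pow_right hYpos (by rw [ees]; omega)), ?_, hs.ge⟩
      · show 1 ≤ (St j).1 * ((St j).1 * (N * ((St j).1 + 1) ^ 2 *
          (1 + N * δ) ^ (R j (St j).2.2 + 1) + (St j).1))
        exact Nat.mul_pos h1 (Nat.mul_pos h1 (Nat.add_pos_right _ h1))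
      · show 1 ≤ 16 * (St j).2.1 ^ 2 * (St j).1 ^ 2
        exact Nat.mul_pos (Nat.mul_pos (by norm_num) (pow_pos h2 2)) (pow_pos h1 2)
      · rw [hs]
        have h42 : 4 ≤ Y ^ 2 := (Nat.pow_le_pow_left hY2 2 : 2 ^ 2 ≤ Y ^ 2)
        calc 4 * (St (j + 1)).2.1 * (St (j + 1)).1
            ≤ Y ^ 2 * Y ^ (4 * ee j + 4) * Y ^ (4 * ee j + e' (ee j) + 4) := by gcongr
          _ = Y ^ ee (j + 1) := by
              rw [← pow_add, ← pow_add, ees]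
              congr 1
              ring
  have hYpos : 0 < Y := by omega
  have hpe : ∀ j ≤ N, Y ^ ee j ≤ Y ^ ee N := fun j hj => Nat.pow_le_pow_right hYpos (eemono hj)
  have h1N : 1 ≤ Y ^ ee N := Nat.one_le_pow _ _ hYpos
  have hT' : Y * (Y ^ ee N * Y ^ ee N * Y ^ ee N) ≤ T := by
    refine le_trans (le_of_eq ?_) hT
    ring
  have hsucc : ∀ k < r, r - k = (r - (k + 1)) + 1 := fun k hk => by omega
  refine ⟨fun k => (St (r - k)).1, fun k => (St (r - k)).2.1, fun k => (St (r - k)).2.2,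
    fun k => R (r - k) (St (r - k)).2.2, fun k => Qf (r - k) (St (r - k)).2.2,
    ⟨?_, ?_, ?_, ?_, ?_, ?_, ?_⟩, ?_, ?_, ?_, ?_⟩
  · intro k _
    exact (inv (r - k) (by omega)).1
  · intro k _
    exact (inv (r - k) (by omega)).2.1
  · obtain ⟨-, -, h3, h4, -, -⟩ := inv (r - 0) (by omega)
    have h5 := h3.trans (hpe _ (by omega : r - 0 ≤ N))
    have h6 := h4.trans (hpe _ (by omega : r - 0 ≤ N))
    have h7 := Nat.mul_le_mul h5 h6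
    refine Nat.lt_succ_of_le (h7.trans (le_trans ?_ hT'))
    calc Y ^ ee N * Y ^ ee N = 1 * (Y ^ ee N * Y ^ ee N * 1) := by ring
      _ ≤ Y * (Y ^ ee N * Y ^ ee N * Y ^ ee N) :=
        Nat.mul_le_mul hYpos (Nat.mul_le_mul (le_refl _) h1N)
  · intro k _
    exact (inv (r - (k + 1)) (by omega)).2.2.2.2.2
  · intro k _
    obtain ⟨-, -, h3, h4, h5, -⟩ := inv (r - (k + 1)) (by omega)
    have hj : r - (k + 1) ≤ N := by omega
    calc 2 * (St (r - (k + 1))).2.2 * (St (r - (k + 1))).2.1 * (St (r - (k + 1))).1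
        ≤ Y * Y ^ ee N * Y ^ ee N * Y ^ ee N :=
          Nat.mul_le_mul (Nat.mul_le_mul (Nat.mul_le_mul hY2 (h5.trans (hpe _ hj)))
            (h4.trans (hpe _ hj))) (h3.trans (hpe _ hj))
      _ = Y * (Y ^ ee N * Y ^ ee N * Y ^ ee N) := by ring
      _ ≤ T := hT'
  · intro k hk
    show _ ≤ (St (r - k)).1
    rw [hsucc k hk]
    exact le_refl _
  · intro k hk
    show _ ≤ (St (r - k)).2.1
    rw [hsucc k hk]
    exact le_refl _
  · show μ₀ ≤ (St (r - r)).1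
    rw [Nat.sub_self]
    exact le_max_right _ _
  · show s₀ ≤ (St (r - r)).2.2
    rw [Nat.sub_self]
    exact hYs
  · show (((1 + N * δ) ^ R (r - r) (St (r - r)).2.2 : ℕ) : ℝ) < lam ^ (St (r - r)).2.2
    rw [Nat.sub_self]
    obtain ⟨-, -, h7⟩ := hRQ 0 (St 0).2.2 (Nat.zero_le _) (inv 0 (Nat.zero_le _)).2.2.2.2.1
    refine lt_of_le_of_lt ?_ (hY₁ Y hY1)
    have h8 : (1 + N * δ) ^ R 0 (St 0).2.2 ≤ Y ^ e' (ee 0) :=
      (Nat.pow_le_pow_right (by omega) (Nat.le_succ _)).trans h7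
    exact_mod_cast h8
  · intro k hk
    have hj : r - (k + 1) ≤ N := by omega
    obtain ⟨-, -, h3, h4, h5, -⟩ := inv (r - (k + 1)) hj
    obtain ⟨h6, h7, -⟩ := hRQ (r - (k + 1)) (St (r - (k + 1))).2.2 hj h5
    refine ⟨?_, h6, h7⟩
    refine (h5.trans (hpe _ hj)).trans (le_trans ?_ hT')
    have h8 := Nat.mul_pos h1N h1N
    calc Y ^ ee N = 1 * (1 * 1 * Y ^ ee N) := by ring
      _ ≤ Y * (Y ^ ee N * Y ^ ee N * Y ^ ee N) :=
        Nat.mul_le_mul hYpos (Nat.mul_le_mul (Nat.mul_le_mul h1N h1N) (le_refl _))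

end Pool.Agent.H.MP_31a675_nt.W
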