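import Pool.Agent.H.MP_31a675_nt.W.Core
import Pool.Agent.H.MP_31a675_nt.W.ExSys
import Pool.Agent.H.MP_31a675_nt.W.DepA
import Pool.Agent.H.MP_31a675_nt.W.Params

/-!
# The height gap for rational self-maps of affine varieties
-/

namespace Pool.Agent.H.MP_31a675_nt.W

open MvPolynomial NumberField Height

/-- If the orbit is dense in the variety of `p`, and `p` is not a maximal ideal, then its points are
pairwise different. If `x i = x j` with `i < j` then all `x n` are among finitely many points; since `p`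
is not maximal, for every point some `g ∉ p` vanishes there; take the product. -/
theorem aff_inj {K : Type} [Field K] {N : ℕ} (φ : Fin (N + 1) → MvPolynomial (Fin N) K)
    (p : Ideal (MvPolynomial (Fin N) K)) (hp : p.IsPrime) (hmax : ¬ p.IsMaximal)
    (x : ℕ → Fin N → K) (hxp : ∀ n, ∀ g ∈ p, eval (x n) g = 0)
    (hx : ∀ n i, x (n + 1) i = eval (x n) (φ i.succ) / eval (x n) (φ 0))
    (hd : ∀ g : MvPolynomial (Fin N) K, (∀ n, eval (x n) g = 0) → g ∈ p) :
    Function.Injective x := by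
  classical
  intro i j hij
  by_contra hne
  -- the orbit is eventually periodic: all points are among finitely many
  obtain ⟨i, j, hlt, heq⟩ : ∃ i j : ℕ, i < j ∧ x i = x j := by
    rcases lt_or_gt_of_ne hne with h | h
    · exact ⟨i, j, h, hij⟩
    · exact ⟨j, i, h, hij.symm⟩
  have hall : ∀ n, ∃ m < j, x n = x m := by
    intro n
    induction n with
    | zero => exact ⟨0, by omega, rfl⟩
    | succ n ih =>
      obtain ⟨m, hm, he⟩ := ih
      have h1 : x (n + 1) = x (m + 1) := by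
        funext c
        rw [hx, hx, he]
      by_cases hmj : m + 1 < j
      · exact ⟨m + 1, hmj, h1⟩
      · have : m + 1 = j := by omega
        exact ⟨i, hlt, by rw [h1, this, heq]⟩
  have hg : ∀ m : ℕ, ∃ g : MvPolynomial (Fin N) K, g ∉ p ∧ eval (x m) g = 0 := by
    intro m
    by_contra hno
    push Not at hno
    apply hmax
    have hker : RingHom.ker (eval (x m)) = p := by
      apply le_antisymm
      · intro g hg
        by_contra hgp
        exact hno g hgp hg
      · intro g hg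
        exact hxp m g hg
    rw [← hker]
    refine RingHom.ker_isMaximal_of_surjective _ fun c => ⟨C c, by simp⟩
  choose g hg1 hg2 using hg
  have hprod : ∏ m ∈ Finset.range j, g m ∈ p := by
    apply hd
    intro n
    obtain ⟨m, hm, he⟩ := hall n
    rw [he, map_prod]
    exact Finset.prod_eq_zero (Finset.mem_range.2 hm) (hg2 m)
  obtain ⟨m, -, hm⟩ := (Ideal.IsPrime.prod_mem_iff (hp := hp)).1 hprod
  exact hg1 m hm

/-- If `p` is maximal and its variety has a `K`-point then all elements `gorb φ y j i` are constants. -/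
theorem cx_zero {K : Type} [Field K] {N : ℕ} (φ : Fin (N + 1) → MvPolynomial (Fin N) K)
    (p : Ideal (MvPolynomial (Fin N) K)) (hp : p.IsMaximal) (x : Fin N → K)
    (hxp : ∀ g ∈ p, eval x g = 0) {L : Type} [Field L] [Algebra K L] (y : Fin N → L)
    (hy : ∀ g : MvPolynomial (Fin N) K, aeval y g = 0 ↔ g ∈ p) (j : ℕ) (i : Fin N) :
    Cx K y 0 (gorb φ y j i) := by
  have hker : ∀ g : MvPolynomial (Fin N) K, eval x g = 0 → g ∈ p := by
    have h1 : p = RingHom.ker (eval x) := by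
      apply hp.eq_of_le (RingHom.ker_ne_top _)
      intro g hg
      exact hxp g hg
    intro g hg
    rw [h1]
    exact hg
  have hval : ∀ g : MvPolynomial (Fin N) K, aeval y g = algebraMap K L (eval x g) := by
    intro g
    have h1 : g - C (eval x g) ∈ p := by
      apply hker
      simp
    have h2 := (hy _).2 h1
    rw [map_sub, aeval_C, sub_eq_zero] at h2
    exact h2
  have hconst : ∀ j : ℕ, ∃ c : Fin N → K, gorb φ y j = fun i => algebraMap K L (c i) := by
    intro j
    induction j with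
    | zero =>
      refine ⟨x, funext fun i => ?_⟩
      have h1 := hval (X i)
      rw [aeval_X, eval_X] at h1
      exact h1
    | succ j ih =>
      obtain ⟨c, hc⟩ := ih
      refine ⟨fun i => aeval c (φ i.succ) / aeval c (φ 0), funext fun i => ?_⟩
      change aeval (gorb φ y j) (φ i.succ) / aeval (gorb φ y j) (φ 0) = _
      rw [hc, map_div₀, ← aeval_algebraMap_apply, ← aeval_algebraMap_apply]
      rfl
  obtain ⟨c, hc⟩ := hconst j
  refine ⟨C (c i), 1, by simp, by simp, by simp, ?_⟩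
  rw [hc]
  simp

/-- A prime which is not maximal has a system in at least one variable: for `k = 0` the residue ring
is a field. -/
theorem pos_of_not_maximal {K : Type} [Field K] {N : ℕ} (p : Ideal (MvPolynomial (Fin N) K))
    (hp : p.IsPrime) (hmax : ¬ p.IsMaximal) {k μ : ℕ} {I : Ideal (MvPolynomial (Fin N) K)}
    {z : Fin k → MvPolynomial (Fin N) K} {b : Fin μ → MvPolynomial (Fin N) K} (h : Sys I z b)
    (hI : I ≤ p) (hz : ∀ c : MvPolynomial (Fin k) K, aeval z c ∈ p → c = 0) : 1 ≤ k ∧ k ≤ N := by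
  classical
  constructor
  · by_contra hk
    obtain rfl : k = 0 := by omega
    apply hmax
    have := hp
    let q : MvPolynomial (Fin N) K →ₐ[K] (MvPolynomial (Fin N) K ⧸ p) := Ideal.Quotient.mkₐ K p
    have hfin : Module.Finite K (MvPolynomial (Fin N) K ⧸ p) := by
      refine ⟨(Finset.univ.image fun j => q (b j)), ?_⟩
      rw [eq_top_iff]
      rintro u -
      obtain ⟨g, rfl⟩ := Ideal.Quotient.mkₐ_surjective K p u
      obtain ⟨c, -, hc⟩ := h.span g.totalDegree g le_rfl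
      have h1 : q g = q (∑ j, aeval z (c j) * b j) := by
        have h2 := hI hc
        exact (Ideal.Quotient.mk_eq_mk_iff_sub_mem _ _).2 h2
      change q g ∈ _
      rw [h1, map_sum]
      refine Submodule.sum_mem _ fun j _ => ?_
      have h3 : aeval z (c j) = C (coeff 0 (c j)) := by
        conv_lhs => rw [eq_C_of_isEmpty (c j)]
        rw [aeval_C]
        rfl
      rw [h3, map_mul]
      have h4 : q (C (coeff 0 (c j))) = algebraMap K _ (coeff 0 (c j)) := by
        rw [← algebraMap_eq]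
        exact q.commutes _
      rw [h4, ← Algebra.smul_def]
      refine Submodule.smul_mem _ _ (Submodule.subset_span ?_)
      simp only [Finset.coe_image, Finset.coe_univ, Set.image_univ]
      exact ⟨j, rfl⟩
    have hart : IsArtinianRing (MvPolynomial (Fin N) K ⧸ p) := IsArtinianRing.of_finite K _
    exact Ideal.Quotient.maximal_of_isField _ (IsArtinianRing.isField_of_isDomain _)
  · have hind : AlgebraicIndependent K z := by
      rw [algebraicIndependent_iff]
      intro c hc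
      apply hz
      rw [hc]
      exact p.zero_mem
    have h1 := hind.cardinalMk_le_trdeg
    rw [MvPolynomial.trdeg_of_isDomain] at h1
    simpa using h1

/-- The largest `Y` with `Y ^ G ≤ T`, compared with `T ^ γ`, `γ = 1 / (2 G)`. -/
theorem exists_Y (G Y₀ : ℕ) (hG : 1 ≤ G) : ∃ T₀ : ℕ, ∀ T : ℕ, T₀ ≤ T → ∃ Y : ℕ, Y₀ ≤ Y ∧
    Y ^ G ≤ T ∧ (T : ℝ) ^ (1 / (2 * (G : ℝ))) ≤ Y ∧ Real.log (T + 3) ≤ Y := by
  have hG' : (0 : ℝ) < G := by exact_mod_cast hG
  have hε : (0 : ℝ) < 1 / (2 * (G : ℝ)) := by positivity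
  have h1 : Filter.Tendsto (fun T : ℕ => (T : ℝ) ^ (1 / (2 * (G : ℝ)))) Filter.atTop Filter.atTop :=
    (tendsto_rpow_atTop hε).comp tendsto_natCast_atTop_atTop
  have h2 : ∀ᶠ T : ℕ in Filter.atTop,
      |Real.log ((T : ℝ) + 3)| ≤ 1 * |((T : ℝ) + 3) ^ (1 / (2 * (G : ℝ)))| := by
    have h3 : Filter.Tendsto (fun T : ℕ => (T : ℝ) + 3) Filter.atTop Filter.atTop :=
      Filter.tendsto_atTop_add_const_right _ _ tendsto_natCast_atTop_atTop
    exact h3.eventually ((isLittleO_log_rpow_atTop hε).bound one_pos)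
  have h4 : ∀ᶠ T : ℕ in Filter.atTop, (Y₀ : ℝ) + 5 ≤ (T : ℝ) ^ (1 / (2 * (G : ℝ))) :=
    h1.eventually_ge_atTop _
  obtain ⟨T₀, hT₀⟩ := Filter.eventually_atTop.1 ((h2.and h4).and (Filter.eventually_ge_atTop 3))
  refine ⟨T₀, fun T hT => ?_⟩
  obtain ⟨⟨h5, h6⟩, h7⟩ := hT₀ T hT
  set u : ℝ := (T : ℝ) ^ (1 / (2 * (G : ℝ))) with hu
  have hu0 : 0 ≤ u := by positivity
  have hTnn : (0 : ℝ) ≤ T := Nat.cast_nonneg T
  have huG : (u ^ 2) ^ G = T := by
    rw [← pow_mul, hu, ← Real.rpow_natCast, ← Real.rpow_mul hTnn]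
    have : 1 / (2 * (G : ℝ)) * ((2 * G : ℕ) : ℝ) = 1 := by
      push_cast
      field_simp
    rw [this, Real.rpow_one]
  refine ⟨⌊u ^ 2⌋₊, ?_, ?_, ?_, ?_⟩
  · apply Nat.le_floor
    have hY : (0 : ℝ) ≤ Y₀ := Nat.cast_nonneg _
    nlinarith
  · have h8 : (⌊u ^ 2⌋₊ : ℝ) ≤ u ^ 2 := Nat.floor_le (by positivity)
    have h9 : ((⌊u ^ 2⌋₊ ^ G : ℕ) : ℝ) ≤ T := by
      push_cast
      rw [← huG]
      exact pow_le_pow_left₀ (Nat.cast_nonneg _) h8 G
    exact_mod_cast h9
  · have h8 : u ^ 2 < (⌊u ^ 2⌋₊ : ℝ) + 1 := Nat.lt_floor_add_one _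
    have hY : (0 : ℝ) ≤ Y₀ := Nat.cast_nonneg _
    nlinarith
  · have h8 : u ^ 2 < (⌊u ^ 2⌋₊ : ℝ) + 1 := Nat.lt_floor_add_one _
    have hY : (0 : ℝ) ≤ Y₀ := Nat.cast_nonneg _
    have h9 : ((T : ℝ) + 3) ^ (1 / (2 * (G : ℝ))) ≤ 2 * u := by
      have hT3 : (3 : ℝ) ≤ T := by exact_mod_cast h7
      calc ((T : ℝ) + 3) ^ (1 / (2 * (G : ℝ))) ≤ (2 * (T : ℝ)) ^ (1 / (2 * (G : ℝ))) :=
            Real.rpow_le_rpow (by linarith) (by linarith) hε.le
        _ = 2 ^ (1 / (2 * (G : ℝ))) * u := Real.mul_rpow (by norm_num) hTnn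
        _ ≤ 2 * u := by
            apply mul_le_mul_of_nonneg_right _ hu0
            calc (2 : ℝ) ^ (1 / (2 * (G : ℝ))) ≤ 2 ^ (1 : ℝ) := by
                  apply Real.rpow_le_rpow_of_exponent_le (by norm_num)
                  rw [div_le_one (by positivity)]
                  have : (1 : ℝ) ≤ G := by exact_mod_cast hG
                  linarith
              _ = 2 := Real.rpow_one 2
    rw [one_mul, abs_of_nonneg (Real.log_nonneg (by linarith)),
      abs_of_nonneg (by positivity)] at h5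
    nlinarith

/-- **The height gap for affine varieties.** `N`, `δ` and `g` determine `γ = 1 / (2 G)` with `G` from
`params` (`κ = (N + 1) * g + 2`). If all heights up to `T` are at most `T ^ γ` then `core` applies
(`exists_sys`, `dep_aff`, `params`, `exists_Y`), a contradiction. -/
theorem gap_aff (N δ g : ℕ) (hN : 1 ≤ N) (hδ : 1 ≤ δ) : ∃ γ : ℝ, 0 < γ ∧
    ∀ (K : Type) [Field K] [NumberField K], Module.finrank ℚ K ≤ g →
    ∀ (φ : Fin (N + 1) → MvPolynomial (Fin N) K), (∀ i, (φ i).totalDegree ≤ δ) →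
    ∀ (p : Ideal (MvPolynomial (Fin N) K)), p.IsPrime →
    ∀ (L : Type) [Field L] [Algebra K L] (y : Fin N → L),
      (∀ g : MvPolynomial (Fin N) K, aeval y g = 0 ↔ g ∈ p) →
    ∀ (lam : ℝ) (j₀ : ℕ), 1 < lam →
      (∀ j ≥ j₀, ∀ E : ℕ, (∀ i, Cx K y E (gorb φ y j i)) → lam ^ j ≤ E) →
    ∃ T₀ : ℕ, ∀ x : ℕ → Fin N → K, (∀ n, ∀ g ∈ p, eval (x n) g = 0) →
      (∀ n, eval (x n) (φ 0) ≠ 0) →
      (∀ n i, x (n + 1) i = eval (x n) (φ i.succ) / eval (x n) (φ 0)) →
      (∀ g : MvPolynomial (Fin N) K, (∀ n, eval (x n) g = 0) → g ∈ p) →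
      ∀ T, T₀ ≤ T → ∃ n ≤ T, (T : ℝ) ^ γ < ht (x n) := by
  obtain ⟨G, hG, hpar⟩ := params N δ ((N + 1) * g + 2)
  have hG' : (0 : ℝ) < G := by exact_mod_cast hG
  refine ⟨1 / (2 * (G : ℝ)), by positivity, ?_⟩
  intro K _ _ hg φ hφ p hp L _ _ y hy lam j₀ hlam hcx
  have : Infinite K := CharZero.infinite K
  by_cases hmax : p.IsMaximal
  · refine ⟨0, fun x hxp _ _ _ T _ => ?_⟩
    exfalso
    have h1 := hcx j₀ le_rfl 0 fun i => cx_zero φ p hmax (x 0) (hxp 0) y hy j₀ i
    have h2 : (0 : ℝ) < lam ^ j₀ := by positivity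
    simp only [Nat.cast_zero] at h1
    linarith
  · obtain ⟨k, μ, I, z, b, hsys, hI, hz⟩ := exists_sys p hp
    obtain ⟨hk1, hkN⟩ := pos_of_not_maximal p hp hmax hsys hI hz
    obtain ⟨C, hC, hdep⟩ := dep_aff δ hδ φ hφ
    obtain ⟨Y₀, hY₀⟩ := hpar k hkN hk1 μ j₀ C lam hC hlam
    obtain ⟨T₀, hT₀⟩ := exists_Y G Y₀ hG
    refine ⟨T₀, fun x hxp h0 hx hd T hT => ?_⟩
    by_contra hcon
    push Not at hcon
    obtain ⟨Y, hYY, hYT, hY1, hY2⟩ := hT₀ T hT
    obtain ⟨m, a, s, ρ, Q, hnum, hμ, hs, hlt, hall⟩ := hY₀ Y T hYY hYT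
    have hinj := aff_inj φ p hp hmax x hxp hx hd
    rcases core hN δ hδ φ hφ p hp hsys hI hz y hy x hxp h0 hx hinj T m a s ρ hμ hnum
      (by
        intro k' hk' tm c htm
        obtain ⟨h1, h2, h3⟩ := hall k' hk'
        refine hdep x h0 hx T (s (k' + 1)) (ρ (k' + 1)) (Q (k' + 1)) Y (Nat.cast_nonneg _) h1
          (fun n hn => (hcon n hn).trans hY1) ?_ ?_ tm c htm
        · refine le_trans ?_ h2
          refine Nat.mul_le_mul_left 2 (Nat.pow_le_pow_right (Nat.succ_pos _) ?_)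
          have := Nat.mul_le_mul_left (N + 1) hg
          omega
        · refine lt_of_le_of_lt ?_ h3
          refine mul_le_mul_of_nonneg_left ?_ (by positivity)
          linarith) with ⟨gg, hgg, hgg0⟩ | hfin
    · exact hgg (hd gg hgg0)
    · have h1 := hcx (s k) hs _ (hfin (s k) le_rfl)
      linarith

end Pool.Agent.H.MP_31a675_nt.W
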