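import Pool.Agent.H.MP_31a675_nt.W.Params

/-!
# The choice of the parameters, with growth at all levels
-/

namespace Pool.Agent.H.MP_31a675_nt.W

/-- one step of the recursion -/
def ParamsAt (N δ : ℕ) (R : ℕ → ℕ → ℕ) (m₀ Y : ℕ) : ℕ → ℕ × ℕ × ℕ
  | 0 => (m₀, 1, Y)
  | j + 1 =>
    let m := (ParamsAt N δ R m₀ Y j).1
    let a := (ParamsAt N δ R m₀ Y j).2.1
    let s := (ParamsAt N δ R m₀ Y j).2.2
    (m * (m * (N * (m + 1) ^ 2 * (1 + N * δ) ^ (R j s + 1) + m)), 16 * a ^ 2 * m ^ 2,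
      4 * (16 * a ^ 2 * m ^ 2) *
        (m * (m * (N * (m + 1) ^ 2 * (1 + N * δ) ^ (R j s + 1) + m))) * Y)

/-- As `params`, with `s k` multiplied by `Y` for `k < r`, so that `s k` is at least `Y` at all levels. -/
theorem params_all (N δ κ : ℕ) : ∃ G : ℕ, 1 ≤ G ∧ ∀ r ≤ N, 1 ≤ r → ∀ (μ₀ s₀ : ℕ) (C lam : ℝ),
    1 ≤ C → 1 < lam → ∃ Y₀ : ℕ, ∀ Y T : ℕ, Y₀ ≤ Y → Y ^ G ≤ T →
      ∃ m a s ρ Q : ℕ → ℕ, Num N δ T r m a s ρ ∧ μ₀ ≤ m r ∧
        ∀ k < r, s₀ ≤ s (k + 1) ∧ (((1 + N * δ) ^ ρ (k + 1) : ℕ) : ℝ) < lam ^ s (k + 1) ∧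
          s (k + 1) ≤ T ∧ 2 * (Q (k + 1) + 1) ^ κ ≤ 2 ^ (ρ (k + 1) + 1) ∧
          C * (s (k + 1) + ρ (k + 1) + 3) * (Y + Y) < Chebyshev.theta (Q (k + 1)) := by
  choose e' he' using param_step κ (N * δ)
  let ee : ℕ → ℕ := fun j => Nat.rec 1 (fun _ e => 8 * e + e' e + 11) j
  have ee0 : ee 0 = 1 := rfl
  have ees : ∀ j, ee (j + 1) = 8 * ee j + e' (ee j) + 11 := fun j => rfl
  have eemono : Monotone ee := monotone_nat_of_le_succ fun j => by rw [ees]; omega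
  refine ⟨3 * ee N + 1, by omega, fun r hrN hr μ₀ s₀ C lam hC hlam => ?_⟩
  choose Y0 hY0 using fun e => he' e C hC
  choose Y₁ hY₁ using fun j : ℕ => Params_exp (e' (ee j)) hlam
  refine ⟨((Finset.range (N + 1)).sup fun j => Y0 (ee j)) + 4 * max 1 μ₀ + s₀ + N +
    ((Finset.range (N + 1)).sup Y₁) + 2, fun Y T hY hT => ?_⟩
  have hY2 : 2 ≤ Y := by omega
  have hYN : N ≤ Y := by omega
  have hYs : s₀ ≤ Y := by omega
  have hY1 : ∀ j ≤ N, Y₁ j ≤ Y := fun j hj => by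
    have h : Y₁ j ≤ (Finset.range (N + 1)).sup Y₁ :=
      Finset.le_sup (f := Y₁) (Finset.mem_range.2 (Nat.lt_succ_of_le hj))
    omega
  have hYm : 4 * max 1 μ₀ ≤ Y := by omega
  have hYsup : ∀ j ≤ N, Y0 (ee j) ≤ Y := fun j hj => by
    have h : Y0 (ee j) ≤ (Finset.range (N + 1)).sup fun j => Y0 (ee j) :=
      Finset.le_sup (f := fun j => Y0 (ee j)) (Finset.mem_range.2 (Nat.lt_succ_of_le hj))
    omega
  have hex : ∀ j s : ℕ, ∃ ρ Q : ℕ, j ≤ N → s ≤ Y ^ ee j →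
      2 * (Q + 1) ^ κ ≤ 2 ^ (ρ + 1) ∧ C * (s + ρ + 3) * (Y + Y) < Chebyshev.theta Q ∧
        (1 + N * δ) ^ (ρ + 1) ≤ Y ^ e' (ee j) := by
    intro j s
    by_cases hj : j ≤ N
    · by_cases hs : s ≤ Y ^ ee j
      · obtain ⟨ρ, Q, h⟩ := (hY0 (ee j)).2 Y (hYsup j hj) s hs
        exact ⟨ρ, Q, fun _ _ => h⟩
      · exact ⟨0, 0, fun _ h => absurd h hs⟩
    · exact ⟨0, 0, fun h => absurd h hj⟩
  choose R Qf hRQ using hex
  set St := ParamsAt N δ R (max 1 μ₀) Y with hSt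
  have St0 : St 0 = (max 1 μ₀, 1, Y) := rfl
  have hm0 : 1 ≤ max 1 μ₀ := le_max_left _ _
  have inv : ∀ j ≤ N, 1 ≤ (St j).1 ∧ 1 ≤ (St j).2.1 ∧ (St j).1 ≤ Y ^ ee j ∧
      (St j).2.1 ≤ Y ^ ee j ∧ (St j).2.2 ≤ Y ^ ee j ∧
      4 * (St j).2.1 * (St j).1 ≤ (St j).2.2 ∧ Y ≤ (St j).2.2 := by
    intro j
    induction j with
    | zero =>
      intro _
      rw [ee0, pow_one]
      refine ⟨hm0, le_refl 1, ?_, ?_, le_refl Y, ?_, le_refl Y⟩
      · show max 1 μ₀ ≤ Y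
        omega
      · show 1 ≤ Y
        omega
      · show 4 * 1 * max 1 μ₀ ≤ Y
        omega
    | succ j ih =>
      intro hj
      obtain ⟨h1, h2, h3, h4, h5, h6, h6'⟩ := ih (by omega)
      obtain ⟨-, -, h7⟩ := hRQ j (St j).2.2 (by omega) h5
      have hm := Params_m hY2 hYN h3 h7
      have ha := Params_a hY2 h4 h3
      have hmle : (St (j + 1)).1 ≤ Y ^ (4 * ee j + e' (ee j) + 4) := hm
      have hale : (St (j + 1)).2.1 ≤ Y ^ (4 * ee j + 4) := ha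
      have hs : (St (j + 1)).2.2 = 4 * (St (j + 1)).2.1 * (St (j + 1)).1 * Y := rfl
      have hYpos : 0 < Y := by omega
      have hm1 : 1 ≤ (St (j + 1)).1 := by
        show 1 ≤ (St j).1 * ((St j).1 * (N * ((St j).1 + 1) ^ 2 *
          (1 + N * δ) ^ (R j (St j).2.2 + 1) + (St j).1))
        exact Nat.mul_pos h1 (Nat.mul_pos h1 (Nat.add_pos_right _ h1))
      have ha1 : 1 ≤ (St (j + 1)).2.1 := by
        show 1 ≤ 16 * (St j).2.1 ^ 2 * (St j).1 ^ 2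
        exact Nat.mul_pos (Nat.mul_pos (by norm_num) (pow_pos h2 2)) (pow_pos h1 2)
      refine ⟨hm1, ha1, hmle.trans (Nat.pow_le_pow_right hYpos (by rw [ees]; omega)),
        hale.trans (Nat.pow_le_pow_right hYpos (by rw [ees]; omega)), ?_, ?_, ?_⟩
      · rw [hs]
        have h42 : 4 ≤ Y ^ 2 := (Nat.pow_le_pow_left hY2 2 : 2 ^ 2 ≤ Y ^ 2)
        calc 4 * (St (j + 1)).2.1 * (St (j + 1)).1 * Y
            ≤ Y ^ 2 * Y ^ (4 * ee j + 4) * Y ^ (4 * ee j + e' (ee j) + 4) * Y := by gcongr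
          _ = Y ^ ee (j + 1) := by
              rw [← pow_add, ← pow_add, ← pow_succ, ees]
              congr 1
              ring
      · rw [hs]
        exact Nat.le_mul_of_pos_right _ hYpos
      · rw [hs]
        exact Nat.le_mul_of_pos_left _ (Nat.mul_pos (Nat.mul_pos (by norm_num) ha1) hm1)
  have hYpos : 0 < Y := by omega
  have hpe : ∀ j ≤ N, Y ^ ee j ≤ Y ^ ee N := fun j hj => Nat.pow_le_pow_right hYpos (eemono hj)
  have h1N : 1 ≤ Y ^ ee N := Nat.one_le_pow _ _ hYpos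
  have hT' : Y * (Y ^ ee N * Y ^ ee N * Y ^ ee N) ≤ T := by
    refine le_trans (le_of_eq ?_) hT
    ring
  have hsucc : ∀ k < r, r - k = (r - (k + 1)) + 1 := fun k hk => by omega
  refine ⟨fun k => (St (r - k)).1, fun k => (St (r - k)).2.1, fun k => (St (r - k)).2.2,
    fun k => R (r - k) (St (r - k)).2.2, fun k => Qf (r - k) (St (r - k)).2.2,
    ⟨?_, ?_, ?_, ?_, ?_, ?_, ?_⟩, ?_, ?_⟩
  · intro k _
    exact (inv (r - k) (by omega)).1
  · intro k _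
    exact (inv (r - k) (by omega)).2.1
  · obtain ⟨-, -, h3, h4, -, -, -⟩ := inv (r - 0) (by omega)
    have h5 := h3.trans (hpe _ (by omega : r - 0 ≤ N))
    have h6 := h4.trans (hpe _ (by omega : r - 0 ≤ N))
    have h7 := Nat.mul_le_mul h5 h6
    refine Nat.lt_succ_of_le (h7.trans (le_trans ?_ hT'))
    calc Y ^ ee N * Y ^ ee N = 1 * (Y ^ ee N * Y ^ ee N * 1) := by ring
      _ ≤ Y * (Y ^ ee N * Y ^ ee N * Y ^ ee N) :=
        Nat.mul_le_mul hYpos (Nat.mul_le_mul (le_refl _) h1N)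
  · intro k _
    exact (inv (r - (k + 1)) (by omega)).2.2.2.2.2.1
  · intro k _
    obtain ⟨-, -, h3, h4, h5, -, -⟩ := inv (r - (k + 1)) (by omega)
    have hj : r - (k + 1) ≤ N := by omega
    calc 2 * (St (r - (k + 1))).2.2 * (St (r - (k + 1))).2.1 * (St (r - (k + 1))).1
        ≤ Y * Y ^ ee N * Y ^ ee N * Y ^ ee N :=
          Nat.mul_le_mul (Nat.mul_le_mul (Nat.mul_le_mul hY2 (h5.trans (hpe _ hj)))
            (h4.trans (hpe _ hj))) (h3.trans (hpe _ hj))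
      _ = Y * (Y ^ ee N * Y ^ ee N * Y ^ ee N) := by ring
      _ ≤ T := hT'
  · intro k hk
    show _ ≤ (St (r - k)).1
    rw [hsucc k hk]
    exact le_refl _
  · intro k hk
    show _ ≤ (St (r - k)).2.1
    rw [hsucc k hk]
    exact le_refl _
  · show μ₀ ≤ (St (r - r)).1
    rw [Nat.sub_self]
    exact le_max_right _ _
  · intro k hk
    have hj : r - (k + 1) ≤ N := by omega
    obtain ⟨-, -, h3, h4, h5, -, h5'⟩ := inv (r - (k + 1)) hj
    obtain ⟨h6, h7, h7'⟩ := hRQ (r - (k + 1)) (St (r - (k + 1))).2.2 hj h5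
    refine ⟨hYs.trans h5', ?_, ?_, h6, h7⟩
    · refine lt_of_lt_of_le (lt_of_le_of_lt ?_ (hY₁ (r - (k + 1)) Y (hY1 _ hj)))
        (pow_le_pow_right₀ hlam.le h5')
      have h8 : (1 + N * δ) ^ R (r - (k + 1)) (St (r - (k + 1))).2.2 ≤ Y ^ e' (ee (r - (k + 1))) :=
        (Nat.pow_le_pow_right (by omega) (Nat.le_succ _)).trans h7'
      exact_mod_cast h8
    · refine (h5.trans (hpe _ hj)).trans (le_trans ?_ hT')
      have h8 := Nat.mul_pos h1N h1N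
      calc Y ^ ee N = 1 * (1 * 1 * Y ^ ee N) := by ring
        _ ≤ Y * (Y ^ ee N * Y ^ ee N * Y ^ ee N) :=
          Nat.mul_le_mul hYpos (Nat.mul_le_mul (Nat.mul_le_mul h1N h1N) (le_refl _))

end Pool.Agent.H.MP_31a675_nt.W
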