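import Pool.Agent.H.MP_31a675_nt.W.CoreLow
import Pool.Agent.H.MP_31a675_nt.W.DepA
import Pool.Agent.H.MP_31a675_nt.W.Params
import Pool.Agent.H.MP_31a675_nt.W.ParamsA
import Pool.Agent.H.MP_31a675_nt.W.GapAff
import Pool.Agent.H.MP_31a675_nt.W.Ext
import Pool.Agent.H.MP_31a675_nt.W.FHtC
import Pool.Agent.H.MP_31a675_nt.W.FTr
import Pool.Agent.H.MP_31a675_nt.W.FCx
import Pool.Agent.H.MP_31a675_nt.W.FCurve
import Pool.Agent.H.MP_31a675_nt.W.FDesc

/-!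
# Slow orbits lie on a curve
-/

namespace Pool.Agent.H.MP_31a675_nt.W

open MvPolynomial NumberField Height Filter Topology

/-- The common part of the proofs: a robust component, its generic point, the complexity bound and
invariance (as in `core_low`). -/
theorem fslow_gen {K : Type} [Field K] [Infinite K] {N : ℕ} (hN : 1 ≤ N) (δ : ℕ) (hδ : 1 ≤ δ)
    (φ : Fin (N + 1) → MvPolynomial (Fin N) K) (hφ : ∀ i, (φ i).totalDegree ≤ δ)
    (x : ℕ → Fin N → K) (h0 : ∀ n, eval (x n) (φ 0) ≠ 0)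
    (hx : ∀ n i, x (n + 1) i = eval (x n) (φ i.succ) / eval (x n) (φ 0))
    (T : ℕ) {r : ℕ} (m a s ρ : ℕ → ℕ) (hnum : Num N δ T r m a s ρ) (k : ℕ) (hkr : k < r)
    (hnot : ¬ Lev x T (m k) (a k) k) (hlev : Lev x T (m (k + 1)) (a (k + 1)) (k + 1))
    (hdep : ∀ (tm : Fin (ρ (k + 1) + 1) → ℕ) (c : Fin (ρ (k + 1) + 1) → Fin N),
      (∀ i, tm i ≤ s (k + 1)) → ∃ ξ : (Fin (ρ (k + 1) + 1) → Fin 2) → K, ξ ≠ 0 ∧
        ∀ n, n + s (k + 1) ≤ T →
          ∑ J, ξ J * ∏ i, (![1, x (n + tm i) (c i)] : Fin 2 → K) (J i) = 0) :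
    ∃ (μ : ℕ) (I : Ideal (MvPolynomial (Fin N) K)) (z : Fin (k + 1) → MvPolynomial (Fin N) K)
      (b : Fin μ → MvPolynomial (Fin N) K) (L : Type) (_ : Field L) (_ : Algebra K L)
      (y : Fin N → L) (A : Finset ℕ) (d n₀ : ℕ),
      Sys I z b ∧ (∀ g ∈ I, aeval y g = 0) ∧
      (∀ c : MvPolynomial (Fin (k + 1)) K, aeval y (aeval z c) = 0 → c = 0) ∧
      T + 1 ≤ 2 * m (k + 1) * a (k + 1) * A.card ∧
      (∀ n ∈ A, ∀ g : MvPolynomial (Fin N) K, aeval y g = 0 → eval (x n) g = 0) ∧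
      (∀ j ≤ s (k + 1), ∀ i, Cx K y ((1 + N * δ) ^ ρ (k + 1)) (gorb φ y j i)) ∧ 1 ≤ d ∧
      (∀ g : MvPolynomial (Fin N) K, aeval y g = 0 → eval (x n₀) g = 0) ∧
      (∀ g : MvPolynomial (Fin N) K, aeval y g = 0 → aeval (gorb φ y d) g = 0) := by
  classical
  obtain ⟨μ, I, z, b, A, hSys, hμ, hAT, hAcard, hAI⟩ := hlev
  obtain ⟨S, hScard, hSprime, hScover⟩ := sys_comp hSys
  have hm1 := hnum.m_pos (k + 1) (by omega)
  have ha1 := hnum.a_pos (k + 1) (by omega)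
  have hs := hnum.s_ge k hkr
  have hTT := hnum.T_ge k hkr
  have hmm := hnum.m_ge k hkr
  have haa := hnum.a_ge k hkr
  generalize m (k + 1) = M at *
  generalize a (k + 1) = a' at *
  generalize s (k + 1) = s' at *
  generalize ρ (k + 1) = ρ' at *
  have hAne : A.Nonempty := by
    rw [← Finset.card_pos]
    by_contra h
    have h' : A.card = 0 := by omega
    rw [h'] at hAcard
    omega
  obtain ⟨q, hqS, hqcard⟩ := CoreLow_pigeon A S (fun n q => ∀ g ∈ q, eval (x n) g = 0)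
    (fun n hn => hScover (x n) (hAI n hn)) hAne
  obtain ⟨hq, hIq, hzq⟩ := hSprime q hqS
  set Aq := A.filter fun n => ∀ g ∈ q, eval (x n) g = 0 with hAq
  set A₁ := Aq.filter fun n => n + s' ≤ T with hA₁
  have hAqT : Aq ⊆ Finset.range (T + 1) := (Finset.filter_subset _ _).trans hAT
  have hA₁T : A₁ ⊆ Finset.range (T + 1) := (Finset.filter_subset _ _).trans hAqT
  have hA₁q : ∀ n ∈ A₁, ∀ g ∈ q, eval (x n) g = 0 := fun n hn =>
    (Finset.mem_filter.1 (Finset.mem_filter.1 hn).1).2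
  have hA₁s : ∀ n ∈ A₁, n + s' ≤ T := fun n hn => (Finset.mem_filter.1 hn).2
  -- the size of A₁
  have hcard1 : Aq.card ≤ A₁.card + s' := by
    have h1 : Aq ⊆ A₁ ∪ (Finset.Ico (T + 1 - s') (T + 1)) := by
      intro n hn
      have hnT := Finset.mem_range.1 (hAqT hn)
      by_cases h : n + s' ≤ T
      · exact Finset.mem_union_left _ (Finset.mem_filter.2 ⟨hn, h⟩)
      · exact Finset.mem_union_right _ (Finset.mem_Ico.2 ⟨by omega, hnT⟩)
    refine (Finset.card_le_card h1).trans ((Finset.card_union_le _ _).trans ?_)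
    rw [Nat.card_Ico]
    omega
  have hcard2 : T + 1 ≤ 2 * M * a' * A₁.card := by
    have h1 : T + 1 ≤ (M * Aq.card) * a' := by
      refine hAcard.trans (Nat.mul_le_mul_right _ (hqcard.trans ?_))
      exact Nat.mul_le_mul_right _ (hScard.trans hμ)
    have h2 : (M * Aq.card) * a' ≤ (M * (A₁.card + s')) * a' :=
      Nat.mul_le_mul_right _ (Nat.mul_le_mul_left _ hcard1)
    have h3 : 2 * ((M * (A₁.card + s')) * a') = 2 * M * a' * A₁.card + 2 * s' * a' * M := by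
      ring
    omega
  -- robustness
  have hrobust : ∀ (A' : Finset ℕ), A' ⊆ A₁ → T + 1 ≤ A'.card * (4 * a' * M) ^ 2 →
      ∀ Θ : MvPolynomial (Fin N) K,
        Θ.totalDegree ≤ N * (M + 1) ^ 2 * (1 + N * δ) ^ (ρ' + 1) →
        (∀ n ∈ A', eval (x n) Θ = 0) → Θ ∈ q := by
    intro A' hA' hcard Θ hΘ hv
    by_contra hΘq
    have h1 := robust x T (m k) (a k) k hnot hSys q hq hIq hzq Θ hΘq
      (N * (M + 1) ^ 2 * (1 + N * δ) ^ (ρ' + 1)) hΘ ?_ A' (hA'.trans hA₁T)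
      (fun n hn => hA₁q n (hA' hn)) hv
    · have h2 : A'.card * (4 * a' * M) ^ 2 ≤ A'.card * a k := by
        refine Nat.mul_le_mul_left _ (le_trans (le_of_eq ?_) haa)
        ring
      omega
    · refine le_trans ?_ hmm
      gcongr
  have hne : A₁.Nonempty := by
    rw [← Finset.card_pos]
    by_contra h
    have h' : A₁.card = 0 := by omega
    rw [h'] at hcard2
    omega
  obtain ⟨L, _, _, y, hy⟩ := exists_generic q hq
  have hle1 : (1 + N * δ) ^ (ρ' + 1) ≤ N * (M + 1) ^ 2 * (1 + N * δ) ^ (ρ' + 1) := by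
    refine Nat.le_mul_of_pos_left _ (Nat.mul_pos (by omega) (by positivity))
  have hA₁big : T + 1 ≤ A₁.card * (4 * a' * M) ^ 2 := by
    refine hcard2.trans ?_
    have h1 : 2 * M * a' ≤ (4 * a' * M) ^ 2 := by
      have h2 : 1 ≤ a' * M := Nat.mul_pos ha1 hm1
      nlinarith
    calc 2 * M * a' * A₁.card ≤ (4 * a' * M) ^ 2 * A₁.card := Nat.mul_le_mul_right _ h1
      _ = _ := Nat.mul_comm _ _
  have hcx : ∀ j ≤ s', ∀ i, Cx K y ((1 + N * δ) ^ ρ') (gorb φ y j i) := fun j hj i =>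
    cx_bound hN δ hδ φ hφ y x (A₁ : Set ℕ) (by simpa using hne)
      (fun n hn g hg => hA₁q n hn g ((hy g).1 hg)) h0 hx s' ρ'
      (fun Θ hΘ hv => (hy Θ).2 (hrobust A₁ (Finset.Subset.refl _) hA₁big Θ (hΘ.trans hle1) hv))
      (fun tm c htm => by
        obtain ⟨ξ, hξ, h1⟩ := hdep tm c htm
        exact ⟨ξ, hξ, fun n hn => h1 n (hA₁s n hn)⟩) j hj i
  obtain ⟨d, hd1, hdu, hdcard⟩ := recur A₁ T (4 * a' * M)
    (fun n hn => by have := hA₁s n hn; omega) (by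
      have h1 : 4 * a' * M * A₁.card = 2 * (2 * M * a' * A₁.card) := by ring
      omega)
  set A₂ := A₁.filter fun n => n + d ∈ A₁ with hA₂
  have hA₂ne : A₂.Nonempty := by
    rw [← Finset.card_pos]
    by_contra h
    have h' : A₂.card = 0 := by omega
    rw [h'] at hdcard
    omega
  obtain ⟨n₀, hn₀⟩ := hA₂ne
  have hinv := invariant hSys q hq hIq hzq φ y hy x h0 hx d ((1 + N * δ) ^ ρ')
    (fun i => hcx d (by omega) i) (A₂ : Set ℕ) ⟨n₀, hn₀⟩
    (fun n hn g hg => hA₁q n (Finset.mem_filter.1 hn).1 g hg)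
    (fun n hn g hg => hA₁q (n + d) (Finset.mem_filter.1 hn).2 g hg)
    (fun Θ hΘ hv => (hy Θ).2 (hrobust A₂ (Finset.filter_subset _ _) hdcard Θ (hΘ.trans ?_) hv))
  · exact ⟨μ, I, z, b, L, _, _, y, A₁, d, n₀, hSys, fun g hg => (hy g).2 (hIq hg),
      fun c hc => hzq c ((hy _).1 hc), hcard2, fun n hn g hg => hA₁q n hn g ((hy g).1 hg), hcx, hd1,
      fun g hg => hA₁q n₀ (Finset.mem_filter.1 hn₀).1 g ((hy g).1 hg), hinv⟩
  · have h1 : (1 + N * δ) ^ ρ' ≤ (1 + N * δ) ^ (ρ' + 1) :=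
      Nat.pow_le_pow_right (by omega) (by omega)
    gcongr

/-- The level two or higher is impossible. Let `n ≠ n'` be in the set `A` of `level_V` (it has at least
two elements because `2 * s * a * m ≤ T` and `4 a m ≤ s`, `Num.T_ge`, `Num.s_ge`); the first coordinates
of `w n` and `w n'` are different. `tr_zero`, `exists_tr`, `val_orbit`, `fib_cx`. -/
theorem fib_level {K : Type} [Field K] {K' : Type} [Field K'] [Infinite K'] [CharZero K']
    [Algebra K K'] {k : ℕ} (ℓ : Fin (k + 1) → K') (h0 : ℓ 0 = 1)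
    (G : Fin (k + 1) → MvPolynomial (Fin (k + 2)) K) (d : ℕ)
    (hG : ∀ i, IsWeightedHomogeneous (wF k) (G i) d) (hz : NoZero G) (δ : ℕ) (hδ : 1 ≤ δ)
    (hφ : ∀ i, (phiF ℓ G i).totalDegree ≤ δ) (w : ℕ → Fin (k + 1) → K')
    (hw0 : ∀ n, eval (w n) (phiF ℓ G 0) ≠ 0)
    (hw : ∀ n i, w (n + 1) i = eval (w n) (phiF ℓ G i.succ) / eval (w n) (phiF ℓ G 0))
    (hwt : ∀ n n', n ≠ n' → w n 0 ≠ w n' 0)
    (T : ℕ) (m a s ρ : ℕ → ℕ) (hnum : Num (k + 1) δ T (k + 1) m a s ρ) (j : ℕ) (hj : j + 1 < k + 1)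
    (hnot : ¬ Lev w T (m (j + 1)) (a (j + 1)) (j + 1))
    (hlev : Lev w T (m (j + 2)) (a (j + 2)) (j + 2))
    (hdep : ∀ (tm : Fin (ρ (j + 2) + 1) → ℕ) (c : Fin (ρ (j + 2) + 1) → Fin (k + 1)),
      (∀ i, tm i ≤ s (j + 2)) → ∃ ξ : (Fin (ρ (j + 2) + 1) → Fin 2) → K', ξ ≠ 0 ∧
        ∀ n, n + s (j + 2) ≤ T →
          ∑ J, ξ J * ∏ i, (![1, w (n + tm i) (c i)] : Fin 2 → K') (J i) = 0) :
    d ^ s (j + 2) ≤ k * (1 + (k + 1) * δ) ^ ρ (j + 2) := by
  obtain ⟨μ, I, z, b, L, _, _, y, A, d', n₀, hSys, hI, hz2, hcard, hA, hcx, -, -, -⟩ :=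
    fslow_gen (Nat.succ_pos k) δ hδ (phiF ℓ G) hφ w hw0 hw T m a s ρ hnum (j + 1) hj hnot hlev hdep
  have hm1 := hnum.m_pos (j + 2) (by omega)
  have ha1 := hnum.a_pos (j + 2) (by omega)
  have hs := hnum.s_ge (j + 1) hj
  have hTT := hnum.T_ge (j + 1) hj
  have hcard2 : 1 < A.card := by
    by_contra hcon
    have h1 : A.card ≤ 1 := by omega
    have h2 : 1 ≤ s (j + 2) := by
      have : 1 ≤ 4 * a (j + 2) * m (j + 2) := Nat.mul_pos (Nat.mul_pos (by norm_num) ha1) hm1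
      exact this.trans hs
    have h3 : 2 * m (j + 2) * a (j + 2) * A.card ≤ 2 * m (j + 2) * a (j + 2) * 1 :=
      Nat.mul_le_mul_left _ h1
    have h4 : 2 * 1 * a (j + 2) * m (j + 2) ≤ 2 * s (j + 2) * a (j + 2) * m (j + 2) := by
      gcongr
    have h5 : 2 * m (j + 2) * a (j + 2) * 1 = 2 * 1 * a (j + 2) * m (j + 2) := by ring
    have h6 : T + 1 ≤ 2 * m (j + 2) * a (j + 2) * A.card := hcard
    have h7 : 2 * s (j + 2) * a (j + 2) * m (j + 2) ≤ T := hTT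
    omega
  obtain ⟨n, hn, n', hn', hne⟩ := Finset.one_lt_card.1 hcard2
  have ht : Transcendental K' (y 0) := tr_zero y (w n) (w n') (hA n hn) (hA n' hn') (hwt n n' hne)
  obtain ⟨i₀, hi₀⟩ := exists_tr y (by omega : 2 ≤ j + 1 + 1) z hz2
  exact fib_cx ℓ h0 G d hG hz y
    (fun l => (val_orbit (phiF ℓ G) y w (A : Set ℕ) ⟨n, hn⟩ (fun n hn => hA n hn) hw0 hw l).1)
    ht i₀ hi₀ (s (j + 2)) _ (fun i => hcx (s (j + 2)) le_rfl i)

theorem fslow_s0 (k : ℕ) : ∃ s₀ : ℕ, ∀ s, s₀ ≤ s → (k : ℝ) * (3 / 2) ^ s < 2 ^ s := by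
  have h1 : Tendsto (fun s : ℕ => (4 / 3 : ℝ) ^ s) atTop atTop :=
    tendsto_pow_atTop_atTop_of_one_lt (by norm_num)
  obtain ⟨s₀, hs₀⟩ := Filter.eventually_atTop.1 (h1.eventually_gt_atTop (k : ℝ))
  refine ⟨s₀, fun s hs => ?_⟩
  have h2 := hs₀ s hs
  calc (k : ℝ) * (3 / 2) ^ s < (4 / 3) ^ s * (3 / 2) ^ s := by
        apply mul_lt_mul_of_pos_right h2 (by positivity)
    _ = 2 ^ s := by
        rw [← mul_pow]
        norm_num

theorem fslow_log (G : ℕ) (hG : 1 ≤ G) (c : ℝ) (hc : 0 ≤ c) : ∃ T₁ : ℕ, ∀ T : ℕ, T₁ ≤ T →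
    c * Real.log ((T : ℝ) + 2) ≤ (T : ℝ) ^ (1 / (2 * (G : ℝ))) := by
  have hG' : (1 : ℝ) ≤ G := by exact_mod_cast hG
  have hε : (0 : ℝ) < 1 / (2 * (G : ℝ)) := by positivity
  have h3 : Tendsto (fun T : ℕ => (T : ℝ) + 2) atTop atTop :=
    Filter.tendsto_atTop_add_const_right _ _ tendsto_natCast_atTop_atTop
  have h2 : ∀ᶠ T : ℕ in atTop, |Real.log ((T : ℝ) + 2)| ≤
      (1 / (2 * (c + 1))) * |((T : ℝ) + 2) ^ (1 / (2 * (G : ℝ)))| :=
    h3.eventually ((isLittleO_log_rpow_atTop hε).bound (by positivity))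
  obtain ⟨T₁, hT₁⟩ := Filter.eventually_atTop.1 (h2.and (Filter.eventually_ge_atTop 2))
  refine ⟨T₁, fun T hT => ?_⟩
  obtain ⟨h4, h5⟩ := hT₁ T hT
  have h5' : (2 : ℝ) ≤ T := by exact_mod_cast h5
  have hlog : 0 ≤ Real.log ((T : ℝ) + 2) := Real.log_nonneg (by linarith)
  rw [abs_of_nonneg hlog, abs_of_nonneg (by positivity)] at h4
  have h9 : ((T : ℝ) + 2) ^ (1 / (2 * (G : ℝ))) ≤ 2 * (T : ℝ) ^ (1 / (2 * (G : ℝ))) := by
    calc ((T : ℝ) + 2) ^ (1 / (2 * (G : ℝ))) ≤ (2 * (T : ℝ)) ^ (1 / (2 * (G : ℝ))) :=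
          Real.rpow_le_rpow (by linarith) (by linarith) hε.le
      _ = 2 ^ (1 / (2 * (G : ℝ))) * (T : ℝ) ^ (1 / (2 * (G : ℝ))) :=
          Real.mul_rpow (by norm_num) (by linarith)
      _ ≤ 2 * (T : ℝ) ^ (1 / (2 * (G : ℝ))) := by
          apply mul_le_mul_of_nonneg_right _ (by positivity)
          calc (2 : ℝ) ^ (1 / (2 * (G : ℝ))) ≤ 2 ^ (1 : ℝ) := by
                apply Real.rpow_le_rpow_of_exponent_le (by norm_num)
                rw [div_le_one (by positivity)]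
                linarith
            _ = 2 := Real.rpow_one 2
  have h10 : 0 ≤ (T : ℝ) ^ (1 / (2 * (G : ℝ))) := by positivity
  calc c * Real.log ((T : ℝ) + 2)
      ≤ (c + 1) * ((1 / (2 * (c + 1))) * ((T : ℝ) + 2) ^ (1 / (2 * (G : ℝ)))) := by
        apply mul_le_mul (by linarith) h4 hlog (by linarith)
    _ = (1 / 2) * ((T : ℝ) + 2) ^ (1 / (2 * (G : ℝ))) := by
        field_simp
    _ ≤ (1 / 2) * (2 * (T : ℝ) ^ (1 / (2 * (G : ℝ)))) :=
        mul_le_mul_of_nonneg_left h9 (by norm_num)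
    _ = (T : ℝ) ^ (1 / (2 * (G : ℝ))) := by ring

/-- **Slow orbits lie on a curve.** Take `K'` and `ℓ` from `exists_ext`, the points
`w n = affF ℓ (orb (skew G) x n)` (`affF_orbit`), `δ = 1 +` a bound for the total degrees of the `G i`,
`N = r = k + 1`, `κ = (N + 1) * [K' : ℚ] + 2`, `params` with `μ₀ = 1`, `lam = 3 / 2` and `s₀` such that
`k * (3 / 2) ^ s < 2 ^ s` for `s ≥ s₀`; the heights of `w n`, `n ≤ T`, are at most
`C * log (T + 2) ≤ T ^ (1 / (2 G)) ≤ Y` for a large `T` (`ht_affF`, `exists_Y`), so `dep_aff` gives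
`hdep`. The level `k + 1` holds by `sys_bot` (`μ = 1`, all points). Take the least level
(`exists_level`). By `fib_level` it is one; then `level_inv`, `curve_rel`, `descend`. -/
theorem slowF {K : Type} [Field K] [NumberField K] {k : ℕ} (hk : 1 ≤ k)
    (G : Fin (k + 1) → MvPolynomial (Fin (k + 2)) K) (d : ℕ) (hd : 2 ≤ d)
    (hG : ∀ i, IsWeightedHomogeneous (wF k) (G i) d) (hz : NoZero G) (x : Fin (k + 2) → K)
    (hx : ∀ n, yo G x n ≠ 0) (B : ℝ) (hB : 0 ≤ B)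
    (h : ∀ n, logHeight (yo G x n) ≤ B * Real.log ((n : ℝ) + 2)) :
    OnCurve (orb (skew G) x) := by
  classical
  obtain ⟨K', _, _, _, ℓ, -, h0, hℓ⟩ := exists_ext k K
  have horb := affF_orbit ℓ h0 hℓ G d hG x hx
  obtain ⟨E, hE⟩ : ∃ E, ∀ i, (G i).totalDegree ≤ E :=
    ⟨∑ i, (G i).totalDegree, fun i => Finset.single_le_sum (f := fun i => (G i).totalDegree)
      (fun _ _ => Nat.zero_le _) (Finset.mem_univ i)⟩
  have hφ : ∀ i, (phiF ℓ G i).totalDegree ≤ E + 1 := phiF_degree ℓ G E hE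
  obtain ⟨C, hC, hdep⟩ := dep_aff (K := K') (N := k + 1) (E + 1) (by omega) (phiF ℓ G) hφ
  obtain ⟨Gp, hGp, hpar⟩ := params_all (k + 1) (E + 1) ((k + 1 + 1) * Module.finrank ℚ K' + 2)
  obtain ⟨s₀, hs₀⟩ := fslow_s0 k
  obtain ⟨Y₀, hY₀⟩ := hpar (k + 1) le_rfl (by omega) 1 s₀ C (3 / 2) hC (by norm_num)
  obtain ⟨T₀, hT₀⟩ := exists_Y Gp Y₀ hGp
  obtain ⟨C', hC', hht⟩ := ht_affF ℓ h0 hℓ (x 0)
  obtain ⟨T₁, hT₁⟩ := fslow_log Gp hGp (C' * (B + 1)) (by positivity)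
  have hT0 : T₀ ≤ max T₀ T₁ := le_max_left _ _
  have hT1 : T₁ ≤ max T₀ T₁ := le_max_right _ _
  generalize max T₀ T₁ = T at hT0 hT1
  obtain ⟨Y, hYY, hYT, hY1, hY2⟩ := hT₀ T hT0
  obtain ⟨m, a, s, ρ, Q, hnum, hμ, hall⟩ := hY₀ Y T hYY hYT
  have hheight : ∀ n ≤ T, ht (affF ℓ (orb (skew G) x n)) ≤ (Y : ℝ) := by
    intro n hn
    have h1 := hht n (yo G x n) (hx n)
    rw [← orb_eq] at h1
    refine h1.trans (le_trans ?_ ((hT₁ T hT1).trans hY1))
    have h2 := h n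
    have h3 : Real.log ((n : ℝ) + 2) ≤ Real.log ((T : ℝ) + 2) := by
      apply Real.log_le_log (by positivity)
      have : (n : ℝ) ≤ T := by exact_mod_cast hn
      linarith
    have h4 : B * Real.log ((n : ℝ) + 2) ≤ B * Real.log ((T : ℝ) + 2) :=
      mul_le_mul_of_nonneg_left h3 hB
    calc C' * (logHeight (yo G x n) + Real.log ((n : ℝ) + 2))
        ≤ C' * ((B + 1) * Real.log ((T : ℝ) + 2)) := by
          refine mul_le_mul_of_nonneg_left ?_ hC'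
          linarith
      _ = C' * (B + 1) * Real.log ((T : ℝ) + 2) := by ring
  have hwt : ∀ n n', n ≠ n' → affF ℓ (orb (skew G) x n) 0 ≠ affF ℓ (orb (skew G) x n') 0 := by
    intro n n' hne he
    have h1 : algebraMap K K' (orb (skew G) x n 0) = algebraMap K K' (orb (skew G) x n' 0) := he
    have h2 := (algebraMap K K').injective h1
    rw [orb_zero, orb_zero] at h2
    exact hne (Nat.cast_injective (add_left_cancel h2))
  have hinj : Function.Injective fun n => affF ℓ (orb (skew G) x n) := by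
    intro n n' he
    by_contra hne
    exact hwt n n' hne (congrFun he 0)
  have hr : Lev (fun n => affF ℓ (orb (skew G) x n)) T (m (k + 1)) (a (k + 1)) (k + 1) :=
    ⟨1, ⊥, X, fun _ => 1, Finset.range (T + 1), sys_bot, hμ, Finset.Subset.refl _, by
      rw [Finset.card_range]
      exact Nat.le_mul_of_pos_right _ (hnum.a_pos (k + 1) le_rfl), fun n _ g hg => by
        rw [Ideal.mem_bot.1 hg, map_zero]⟩
  obtain ⟨κ, hκ, hnot, hlev⟩ := exists_level _ T hinj m a (k + 1) hr hnum.zero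
  obtain ⟨h1, h2, h3, h4, h5⟩ := hall κ hκ
  have hdepκ := hdep (fun n => affF ℓ (orb (skew G) x n)) (fun n => (horb n).1)
    (fun n i => (horb n).2 i) T (s (κ + 1)) (ρ (κ + 1)) (Q (κ + 1)) Y (Nat.cast_nonneg _) h3
    hheight h4 (by
      refine lt_of_le_of_lt ?_ h5
      refine mul_le_mul_of_nonneg_left ?_ (by positivity)
      linarith)
  rcases κ with _ | j
  · obtain ⟨μ, I, z, b, L, _, _, y, A, d', n₀, hSys, hI, -, -, -, -, hd1, hn₀, hinv⟩ :=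
      fslow_gen (Nat.succ_pos k) (E + 1) (by omega) (phiF ℓ G) hφ
        (fun n => affF ℓ (orb (skew G) x n)) (fun n => (horb n).1) (fun n i => (horb n).2 i)
        T m a s ρ hnum 0 hκ hnot hlev hdepκ
    intro a' c'
    obtain ⟨e, P, hP0, hPw, hPv⟩ := curve_rel (z := z) ℓ h0 hℓ G d hG x hx y hSys hI n₀ d' hd1 hn₀
      hinv a' c'
    obtain ⟨R, hR0, hRw, hRv⟩ := descend (K := K) ![0, 1, 1] P e hP0 hPw
    refine ⟨e, R, hR0, hRw, fun n => hRv _ ?_⟩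
    rw [← hPv n]
    congr 2
    funext i
    fin_cases i <;> rfl
  · exfalso
    have h6 := fib_level ℓ h0 G d hG hz (E + 1) (by omega) hφ
      (fun n => affF ℓ (orb (skew G) x n)) (fun n => (horb n).1) (fun n i => (horb n).2 i) hwt
      T m a s ρ hnum j hκ hnot hlev hdepκ
    have h7 := hs₀ (s (j + 2)) h1
    have h8 : ((d : ℝ)) ^ s (j + 2) ≤ (k : ℝ) * (((1 + (k + 1) * (E + 1)) ^ ρ (j + 2) : ℕ) : ℝ) := by
      exact_mod_cast h6
    have h9 : (2 : ℝ) ^ s (j + 2) ≤ (d : ℝ) ^ s (j + 2) := by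
      gcongr
      exact_mod_cast hd
    have h10 : (k : ℝ) * (((1 + (k + 1) * (E + 1)) ^ ρ (j + 2) : ℕ) : ℝ) ≤
        (k : ℝ) * (3 / 2) ^ s (j + 2) :=
      mul_le_mul_of_nonneg_left h2.le (Nat.cast_nonneg _)
    linarith

end Pool.Agent.H.MP_31a675_nt.W
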