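import Pool.Agent.H.MP_31a675_nt.W.FDeg
import Pool.Agent.H.MP_31a675_nt.W.FHt
import Pool.Agent.H.MP_31a675_nt.W.FSlow

/-!
# Arithmetic degrees for skew products over the translation
-/

namespace Pool.Agent.H.MP_31a675_nt.W

open MvPolynomial NumberField Height Filter Topology

theorem FMain_ht {K : Type} [Field K] [NumberField K] {k : ℕ}
    (G : Fin (k + 1) → MvPolynomial (Fin (k + 2)) K) (x : Fin (k + 2) → K) (n : ℕ) :
    htF (orb (skew G) x n) = ht (one (x 0 + n)) + logHeight (yo G x n) := by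
  unfold htF
  rw [fht_one_eq, orb_zero]
  rfl

/-- **All points**: the arithmetic degree is `d`, or the heights are at most logarithmic and the orbit
lies on a curve: `upperF`, `lowerF`, `seq_one`, `seq_upper`, `root_lim`, `slowF`, as in `G.all_line`
(file `G/MainB.lean`). -/
theorem ksc_all {K : Type} [Field K] [NumberField K] {k : ℕ} (hk : 1 ≤ k)
    (G : Fin (k + 1) → MvPolynomial (Fin (k + 2)) K) (d : ℕ) (hd : 2 ≤ d)
    (hG : ∀ i, IsWeightedHomogeneous (wF k) (G i) d) (hz : NoZero G) (x : Fin (k + 2) → K)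
    (hx : ∀ n, yo G x n ≠ 0) :
    Tendsto (fun n : ℕ => (max (htF (orb (skew G) x n)) 1) ^ ((1 : ℝ) / n)) atTop
        (𝓝 (d : ℝ)) ∨
      ((∃ B : ℝ, ∀ n : ℕ, htF (orb (skew G) x n) ≤ B * Real.log ((n : ℝ) + 2)) ∧
        OnCurve (orb (skew G) x)) := by
  obtain ⟨C₁, hC₁, hup⟩ := upperF G d hG x
  obtain ⟨C₂, n₀, hC₂, hlow⟩ := lowerF G d hG hz x hx
  obtain ⟨C₃, hC₃, hadd⟩ := ht_add_nat (x 0)
  rcases seq_one d hd (fun n => logHeight (yo G x n)) C₂ hC₂ n₀ hlow with
    ⟨δ, hδ, n₁, hgr⟩ | ⟨B, n₁, hB, hlog⟩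
  · left
    obtain ⟨B, hB, hB'⟩ := seq_upper d hd (fun n => logHeight (yo G x n)) C₁ hC₁ hup
    refine root_lim d hd (fun n => htF (orb (skew G) x n)) δ (C₃ + B) hδ n₁
      (fun n hn => ?_) fun n => ?_
    · have h1 : δ * (d : ℝ) ^ n ≤ logHeight (yo G x n) := hgr n hn
      have h2 := ht_nonneg (one (x 0 + n))
      rw [FMain_ht]
      linarith
    · have hlog : Real.log ((n : ℝ) + 2) ≤ (d : ℝ) ^ n := by
        have h3 : Real.log ((n : ℝ) + 2) ≤ (n : ℝ) + 2 - 1 :=
          Real.log_le_sub_one_of_pos (by positivity)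
        have h4 : (n : ℝ) + 1 ≤ 2 ^ n := by
          exact_mod_cast Nat.succ_le_of_lt (Nat.lt_two_pow_self (n := n))
        have h5 : (2 : ℝ) ^ n ≤ (d : ℝ) ^ n := by
          apply pow_le_pow_left₀ (by norm_num)
          exact_mod_cast hd
        linarith
      have h6 : C₃ * Real.log ((n : ℝ) + 2) ≤ C₃ * (d : ℝ) ^ n :=
        mul_le_mul_of_nonneg_left hlog hC₃
      have h7 := hadd n
      have h8 : logHeight (yo G x n) ≤ B * (d : ℝ) ^ n := hB' n
      rw [FMain_ht, add_mul]
      linarith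
  · right
    obtain ⟨S, hS⟩ : ∃ S, S = ∑ m ∈ Finset.range n₁, logHeight (yo G x m) := ⟨_, rfl⟩
    have hS0 : 0 ≤ S := by
      rw [hS]
      exact Finset.sum_nonneg fun m _ => logHeight_nonneg _
    have hl2 : 0 < Real.log 2 := Real.log_pos (by norm_num)
    have hall : ∀ n : ℕ, logHeight (yo G x n) ≤
        (B + S / Real.log 2) * Real.log ((n : ℝ) + 2) := by
      intro n
      have hlog1 := Seq_pos n
      have hlog0 := (Seq_pos' n).le
      have hS3 : S ≤ S / Real.log 2 * Real.log ((n : ℝ) + 2) := by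
        calc S = S / Real.log 2 * Real.log 2 := by field_simp
          _ ≤ S / Real.log 2 * Real.log ((n : ℝ) + 2) :=
            mul_le_mul_of_nonneg_left hlog1 (by positivity)
      have hB2 : 0 ≤ B * Real.log ((n : ℝ) + 2) := mul_nonneg hB hlog0
      have hS4 : 0 ≤ S / Real.log 2 * Real.log ((n : ℝ) + 2) := by positivity
      rw [add_mul]
      rcases le_or_gt n₁ n with hn | hn
      · have h3 : logHeight (yo G x n) ≤ B * Real.log ((n : ℝ) + 2) := hlog n hn
        linarith
      · have h2 : logHeight (yo G x n) ≤ S := by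
          rw [hS]
          exact Finset.single_le_sum (f := fun m => logHeight (yo G x m))
            (fun m _ => logHeight_nonneg _) (Finset.mem_range.2 hn)
        linarith
    refine ⟨⟨C₃ + (B + S / Real.log 2), fun n => ?_⟩,
      slowF hk G d hd hG hz x hx (B + S / Real.log 2) (by positivity) hall⟩
    have h1 := hadd n
    have h2 := hall n
    rw [FMain_ht, add_mul C₃]
    linarith

end Pool.Agent.H.MP_31a675_nt.W
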