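import Pool.Agent.H.MP_31a675_nt.W.GapAff
import Pool.Agent.H.MP_31a675_nt.W.Ext
import Pool.Agent.H.MP_31a675_nt.W.HtExt
import Pool.Agent.H.MP_31a675_nt.W.ChartD

/-!
# The height gap for rational self-maps of projective varieties
-/

namespace Pool.Agent.H.MP_31a675_nt.W

open MvPolynomial NumberField Height Filter Topology

/-- From the growth of the degrees to a bound below. -/
theorem GapP_growth (N : ℕ) (D : ℕ → ℕ) (δ₁ lam lam' : ℝ) (h1 : 1 < lam) (h2 : lam < lam')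
    (h3 : lam' < δ₁) (h : Tendsto (fun n : ℕ => (D n : ℝ) ^ ((1 : ℝ) / n)) atTop (𝓝 δ₁)) :
    ∃ j₀ : ℕ, ∀ j ≥ j₀, ∀ E : ℕ, D j ≤ N * E → lam ^ j ≤ E := by
  have hl0 : 0 < lam := lt_trans one_pos h1
  have e1 : ∀ᶠ n : ℕ in atTop, lam' < (D n : ℝ) ^ ((1 : ℝ) / n) := h.eventually (lt_mem_nhds h3)
  have hr : 1 < lam' / lam := by rwa [one_lt_div hl0]
  have e2 : ∀ᶠ n : ℕ in atTop, (N : ℝ) ≤ (lam' / lam) ^ n :=
    (tendsto_pow_atTop_atTop_of_one_lt hr).eventually_ge_atTop _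
  have e3 : ∀ᶠ n : ℕ in atTop, 1 ≤ n := eventually_ge_atTop 1
  obtain ⟨j₀, hj⟩ := eventually_atTop.1 (e1.and (e2.and e3))
  refine ⟨j₀, fun j hjj E hE => ?_⟩
  obtain ⟨a1, a2, a3⟩ := hj j hjj
  have hj0 : (j : ℝ) ≠ 0 := by
    have : 0 < j := a3
    positivity
  have hD : lam' ^ j ≤ (D j : ℝ) := by
    have h5 : lam' ^ j ≤ ((D j : ℝ) ^ ((1 : ℝ) / j)) ^ j :=
      pow_le_pow_left₀ (le_of_lt (lt_trans hl0 h2)) a1.le j
    have h6 : ((D j : ℝ) ^ ((1 : ℝ) / j)) ^ j = D j := by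
      rw [← Real.rpow_natCast, ← Real.rpow_mul (Nat.cast_nonneg _), one_div,
        inv_mul_cancel₀ hj0, Real.rpow_one]
    rwa [h6] at h5
  have hE' : (D j : ℝ) ≤ N * E := by exact_mod_cast hE
  have h7 : (N : ℝ) * lam ^ j ≤ lam' ^ j := by
    rw [div_pow, le_div_iff₀ (pow_pos hl0 j)] at a2
    exact a2
  rcases Nat.eq_zero_or_pos N with hN | hN
  · exfalso
    have h8 : lam' ^ j ≤ 0 := by
      refine hD.trans (hE'.trans ?_)
      rw [hN]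
      simp
    exact absurd h8 (not_le.2 (pow_pos (lt_trans hl0 h2) j))
  · have hN' : (0 : ℝ) < N := by exact_mod_cast hN
    have h9 : (N : ℝ) * lam ^ j ≤ N * E := h7.trans (hD.trans hE')
    exact le_of_mul_le_mul_left h9 hN'

/-- The comparison of the exponents. -/
theorem GapP_exp (γ C : ℝ) (hγ : 0 < γ) (hC : 0 ≤ C) : ∃ T₁ : ℕ, ∀ T : ℕ, T₁ ≤ T →
    ∀ h H : ℝ, (T : ℝ) ^ γ < h → h ≤ C * (H + 1) → (T : ℝ) ^ (γ / 2) < H := by
  have h1 : Tendsto (fun n : ℕ => (n : ℝ) ^ (γ / 2)) atTop atTop :=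
    (tendsto_rpow_atTop (by positivity)).comp tendsto_natCast_atTop_atTop
  obtain ⟨T₁, hT₁⟩ := eventually_atTop.1 (h1.eventually_ge_atTop (2 * C + 1))
  refine ⟨T₁, fun T hT h H hh hH => ?_⟩
  have hu : 2 * C + 1 ≤ (T : ℝ) ^ (γ / 2) := hT₁ T hT
  have e1 : (T : ℝ) ^ γ = (T : ℝ) ^ (γ / 2) * (T : ℝ) ^ (γ / 2) := by
    rw [← Real.rpow_add_of_nonneg (Nat.cast_nonneg T) (by positivity) (by positivity)]
    congr 1
    ring
  set u := (T : ℝ) ^ (γ / 2) with hu_def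
  have hu1 : 1 ≤ u := by linarith
  have e2 : u * u < C * (H + 1) := by
    rw [← e1]
    exact lt_of_lt_of_le hh hH
  by_contra hcon
  push Not at hcon
  have e3 : C * (H + 1) ≤ C * (u + 1) := mul_le_mul_of_nonneg_left (by linarith) hC
  have e4 : (2 * C + 1) * u ≤ u * u := mul_le_mul_of_nonneg_right hu (by linarith)
  have e5 : C * 1 ≤ C * u := mul_le_mul_of_nonneg_left hu1 hC
  nlinarith

/-- **The height gap.** `γ` is half of the exponent from `gap_aff` for `N`, `d` and `(N + 1) g ^ 2`. If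
there is no point with a dense orbit there is nothing to prove. Otherwise take `K'` and `ℓ` from
`exists_ext`, the prime `chartIdeal ℓ p` (`chart_prime`, `mem_chart`), its generic point
(`exists_generic`); the growth of the degrees gives the hypothesis of `gap_aff` by `deg_le` (for
`1 < lam < δ₁`); the orbit is `aff ℓ (orb F x n)` (`aff_orbit`), its heights are compared by `ht_aff`. -/
theorem gapP (N d g : ℕ) (hN : 1 ≤ N) (hd : 1 ≤ d) : ∃ γ : ℝ, 0 < γ ∧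
    ∀ (K : Type) [Field K] [NumberField K], Module.finrank ℚ K = g →
    ∀ p : Ideal (MvPolynomial (Fin (N + 1)) K), p.IsPrime → IsHom p →
    ∀ F : Fin (N + 1) → MvPolynomial (Fin (N + 1)) K, (∀ i, (F i).IsHomogeneous d) →
    ∀ δ₁ : ℝ, 1 < δ₁ → Tendsto (fun n : ℕ => (degX p F n : ℝ) ^ ((1 : ℝ) / n)) atTop (𝓝 δ₁) →
    ∃ T₀ : ℕ, ∀ x : Fin (N + 1) → K, (∀ n, orb F x n ≠ 0) → DenseIn p F x →
      ∀ T, T₀ ≤ T → ∃ n ≤ T, (T : ℝ) ^ γ < logHeight (orb F x n) := by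
  obtain ⟨γ₁, hγ₁, H⟩ := gap_aff N d ((N + 1) * g ^ 2) hN hd
  refine ⟨γ₁ / 2, by positivity, ?_⟩
  intro K _ _ hg p hp hhom F hF δ₁ hδ₁ htend
  by_cases hex : ∃ x₀ : Fin (N + 1) → K, (∀ n, orb F x₀ n ≠ 0) ∧ DenseIn p F x₀
  swap
  · exact ⟨0, fun x hx hdx => absurd ⟨x, hx, hdx⟩ hex⟩
  obtain ⟨x₀, hx₀, hd₀⟩ := hex
  obtain ⟨K', iF, iN, iA, ℓ, hrank, h0, hℓ⟩ := exists_ext N K
  letI := iF
  haveI := iN
  letI := iA
  haveI : FiniteDimensional K K' := Module.Finite.of_restrictScalars_finite ℚ K K'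
  have hprime : (chartIdeal ℓ p).IsPrime := chart_prime ℓ h0 hℓ F p hp hhom x₀ hx₀ hd₀
  obtain ⟨L, iL, iAL, y, hy⟩ := exists_generic (chartIdeal ℓ p) hprime
  letI := iL
  letI := iAL
  obtain ⟨lam, hlam1, hlam2⟩ := exists_between hδ₁
  obtain ⟨lam', hlam3, hlam4⟩ := exists_between hlam2
  obtain ⟨j₀, hj₀⟩ := GapP_growth N (degX p F) δ₁ lam lam' hlam1 hlam3 hlam4 htend
  obtain ⟨T₀, hT₀⟩ := H K' (by rw [hg] at hrank; exact hrank) (phi ℓ F) (phi_degree ℓ F d hF)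
    (chartIdeal ℓ p) hprime L y hy lam j₀ hlam1
    (fun j hj E hE => hj₀ j hj E
      (deg_le ℓ h0 hℓ F d hF p hp hhom x₀ hx₀ hd₀ y hy j E hE))
  obtain ⟨C, hC, hCx⟩ := ht_aff (K := K) (K' := K') ℓ h0 hℓ
  obtain ⟨T₁, hT₁⟩ := GapP_exp γ₁ C hγ₁ hC
  refine ⟨max T₀ T₁, fun x hx hdx T hT => ?_⟩
  obtain ⟨n, hn, hlt⟩ := hT₀ (fun n => aff ℓ (orb F x n))
    (fun n g hg => (mem_chart ℓ h0 hℓ F p hhom x hx hdx g).1 hg n)
    (fun n => (aff_orbit ℓ h0 hℓ F d hF x hx n).1)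
    (fun n i => (aff_orbit ℓ h0 hℓ F d hF x hx n).2 i)
    (fun g hg => (mem_chart ℓ h0 hℓ F p hhom x hx hdx g).2 hg) T (le_trans (le_max_left _ _) hT)
  exact ⟨n, hn, hT₁ T (le_trans (le_max_right _ _) hT) _ _ hlt (hCx _ (hx n))⟩

end Pool.Agent.H.MP_31a675_nt.W
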