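import Pool.Agent.H.MP_31a675_nt.W.Rel

/-!
# A variety with a system in no variables has at most `μ` points
-/

namespace Pool.Agent.H.MP_31a675_nt.W

open MvPolynomial

variable {K : Type} [Field K] {N : ℕ}

/-- A polynomial which is one at `x` and zero at `y`. -/
private theorem sys_zero_two (x y : Fin N → K) (hxy : x ≠ y) :
    ∃ g : MvPolynomial (Fin N) K, eval x g = 1 ∧ eval y g = 0 := by
  obtain ⟨l, hl⟩ := Function.ne_iff.mp hxy
  refine ⟨C ((x l - y l)⁻¹) * (X l - C (y l)), ?_, ?_⟩
  · have : x l - y l ≠ 0 := sub_ne_zero.mpr hl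
    simp [inv_mul_cancel₀ this]
  · simp

/-- Polynomials dual to finitely many different points. -/
private theorem sys_zero_dual {m : ℕ} (x : Fin m → Fin N → K) (hx : Function.Injective x) :
    ∃ θ : Fin m → MvPolynomial (Fin N) K, ∀ i j, eval (x j) (θ i) = if i = j then 1 else 0 := by
  classical
  have h2 : ∀ i j : Fin m, i ≠ j → ∃ g : MvPolynomial (Fin N) K,
      eval (x i) g = 1 ∧ eval (x j) g = 0 := fun i j hij =>
    sys_zero_two (x i) (x j) fun h => hij (hx h)
  choose! g hg using h2
  refine ⟨fun i => ∏ j ∈ Finset.univ.erase i, g i j, fun i j => ?_⟩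
  rw [eval_prod]
  by_cases hij : i = j
  · subst hij
    rw [if_pos rfl]
    refine Finset.prod_eq_one fun l hl => ?_
    exact (hg i l (Finset.ne_of_mem_erase hl).symm).1
  · rw [if_neg hij]
    refine Finset.prod_eq_zero (i := j) (Finset.mem_erase.mpr ⟨fun h => hij h.symm,
      Finset.mem_univ _⟩) ?_
    exact (hg i j hij).2

/-- Otherwise take `μ + 1` points and for every point a polynomial which is one at this point and zero
at the others (a product of linear polynomials); apply `sys_rel`. The coefficients are constants. -/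
theorem sys_zero {I : Ideal (MvPolynomial (Fin N) K)} {μ : ℕ}
    {z : Fin 0 → MvPolynomial (Fin N) K} {b : Fin μ → MvPolynomial (Fin N) K} (h : Sys I z b)
    (s : Finset (Fin N → K)) (hs : ∀ x ∈ s, ∀ g ∈ I, eval x g = 0) : s.card ≤ μ := by
  classical
  by_contra hc
  push Not at hc
  obtain ⟨t, hts, htc⟩ := Finset.exists_subset_card_eq (show μ + 1 ≤ s.card from hc)
  let e : Fin (μ + 1) ≃ t := (Finset.equivFinOfCardEq htc).symm
  let x : Fin (μ + 1) → Fin N → K := fun i => (e i : Fin N → K)
  have hx : Function.Injective x := fun i j hij => e.injective (Subtype.ext hij)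
  obtain ⟨θ, hθ⟩ := sys_zero_dual x hx
  obtain ⟨p, hp, hI⟩ := sys_rel h θ
  apply hp
  funext j
  have h0 := hs (x j) (hts (e j).2) _ hI
  rw [map_sum] at h0
  have h1 : ∀ i, eval (x j) (aeval z (p i) * θ i) =
      if i = j then eval (x j) (aeval z (p i)) else 0 := by
    intro i
    rw [map_mul, hθ]
    by_cases hij : i = j
    · simp [hij]
    · simp [hij]
  rw [Finset.sum_congr rfl fun i _ => h1 i, Finset.sum_ite_eq' Finset.univ j,
    if_pos (Finset.mem_univ j)] at h0
  obtain ⟨c, hc'⟩ := C_surjective (Fin 0) (p j)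
  rw [← hc', aeval_C, algebraMap_eq, eval_C] at h0
  rw [← hc', h0, C_0]
  rfl

end Pool.Agent.H.MP_31a675_nt.W
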