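import Pool.Agent.H.MP_31a675_nt.W.Sys
import Pool.Agent.H.MP_31a675_nt.W.Char
import Pool.Agent.H.MP_31a675_nt.W.Zero

/-!
# Levels; robust primes
-/

namespace Pool.Agent.H.MP_31a675_nt.W

open MvPolynomial

variable {K : Type} [Field K] {N : ℕ}

/-- There is a least level. `Lev ... 0` fails by `sys_zero`, since the points are different. -/
theorem exists_level (x : ℕ → Fin N → K) (T : ℕ) (hinj : Function.Injective x) (m a : ℕ → ℕ) (r : ℕ)
    (hr : Lev x T (m r) (a r) r) (h0 : m 0 * a 0 < T + 1) :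
    ∃ k < r, ¬ Lev x T (m k) (a k) k ∧ Lev x T (m (k + 1)) (a (k + 1)) (k + 1) := by
  classical
  have hz : ¬ Lev x T (m 0) (a 0) 0 := by
    rintro ⟨μ, I, z, b, A, hS, hμ, -, hcard, hA⟩
    have h1 : (A.image x).card ≤ μ := by
      refine sys_zero hS (A.image x) fun y hy g hg => ?_
      obtain ⟨n, hn, rfl⟩ := Finset.mem_image.mp hy
      exact hA n hn g hg
    rw [Finset.card_image_of_injective A hinj] at h1
    have h2 : A.card * a 0 ≤ m 0 * a 0 := Nat.mul_le_mul_right _ (h1.trans hμ)
    omega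
  by_contra hcon
  push Not at hcon
  have hall : ∀ k, k ≤ r → ¬ Lev x T (m k) (a k) k := by
    intro k
    induction k with
    | zero => exact fun _ => hz
    | succ k ih => exact fun hk => hcon k (by omega) (ih (by omega))
  exact hall r le_rfl hr

/-- **Robustness.** If there is no level `k`, then a polynomial `φ` of degree at most `e` outside a
prime `q`, for a system in `k + 1` variables of small rank, vanishes at few of the points on the
variety of `q`. Use `sys_elim`; the polynomial `c (z)` vanishes at these points; if `c` is constant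
there are none; otherwise `sys_step` and the set of these points show that there is a level `k`. -/
theorem robust [Infinite K] (x : ℕ → Fin N → K) (T m a k : ℕ) (hnot : ¬ Lev x T m a k)
    {I : Ideal (MvPolynomial (Fin N) K)} {μ : ℕ} {z : Fin (k + 1) → MvPolynomial (Fin N) K}
    {b : Fin μ → MvPolynomial (Fin N) K} (h : Sys I z b)
    (q : Ideal (MvPolynomial (Fin N) K)) (hq : q.IsPrime) (hI : I ≤ q)
    (hz : ∀ p : MvPolynomial (Fin (k + 1)) K, aeval z p ∈ q → p = 0)
    (φ : MvPolynomial (Fin N) K) (hφ : φ ∉ q) (e : ℕ) (he : φ.totalDegree ≤ e)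
    (hm : μ * (μ * (e + μ)) ≤ m) (A : Finset ℕ) (hA : A ⊆ Finset.range (T + 1))
    (hAq : ∀ n ∈ A, ∀ g ∈ q, eval (x n) g = 0) (hAφ : ∀ n ∈ A, eval (x n) φ = 0) :
    A.card * a < T + 1 := by
  by_contra hcard
  push Not at hcard
  obtain ⟨c, hc0, hcdeg, hcmem⟩ := sys_elim h q hq hI hz φ hφ e he
  have hvan : ∀ n ∈ A, ∀ g ∈ q ⊔ Ideal.span {φ}, eval (x n) g = 0 := by
    intro n hn g hg
    have hle : q ⊔ Ideal.span {φ} ≤ RingHom.ker (eval (x n)) := by
      refine sup_le (fun g hg => hAq n hn g hg) ?_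
      rw [Ideal.span_le, Set.singleton_subset_iff]
      exact hAφ n hn
    exact hle hg
  have hAne : A.Nonempty := by
    rw [Finset.nonempty_iff_ne_empty]
    rintro rfl
    simp at hcard
  by_cases hdeg : 1 ≤ c.totalDegree
  · obtain ⟨z', b', hS⟩ := sys_step h c hdeg
    refine hnot ⟨μ * c.totalDegree, _, z', b', A, hS,
      (Nat.mul_le_mul_left μ hcdeg).trans hm, hA, hcard, fun n hn g hg => ?_⟩
    have hle : I ⊔ Ideal.span {aeval z c} ≤ RingHom.ker (eval (x n)) := by
      refine sup_le (fun g hg => hAq n hn g (hI hg)) ?_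
      rw [Ideal.span_le, Set.singleton_subset_iff]
      exact hvan n hn _ hcmem
    exact hle hg
  · obtain ⟨n, hn⟩ := hAne
    have hcC : c = C (coeff 0 c) := totalDegree_eq_zero_iff_eq_C.mp (by omega)
    have h0 := hvan n hn _ hcmem
    rw [hcC, aeval_C, algebraMap_eq, eval_C] at h0
    apply hc0
    rw [hcC, h0, C_0]

end Pool.Agent.H.MP_31a675_nt.W
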