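import Mathlib

/-!
# The choice of the parameters: one level
-/

namespace Pool.Agent.H.MP_31a675_nt.W

/-- A weak form of the lower bound of Chebyshev. -/
theorem ps_theta : ∃ n₀ : ℕ, ∀ n : ℕ, n₀ ≤ n → (n : ℝ) / 4 ≤ Chebyshev.theta n := by
  obtain ⟨C, hC⟩ := Chebyshev.psi_sub_theta_le_mul_sqrt
  have h1 : ∀ᶠ n : ℕ in Filter.atTop, 4 * (C + 2) ≤ Real.sqrt n :=
    (Real.tendsto_sqrt_atTop.comp tendsto_natCast_atTop_atTop).eventually_ge_atTop _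
  obtain ⟨n₀, hn₀⟩ := Filter.eventually_atTop.1 h1
  refine ⟨n₀, fun n hn => ?_⟩
  have h2 := hn₀ n hn
  have h3 := Chebyshev.psi_ge n
  have h4 := hC n
  have hn0 : (0 : ℝ) ≤ n := Nat.cast_nonneg n
  have hs0 := Real.sqrt_nonneg (n : ℝ)
  have hss : Real.sqrt n * Real.sqrt n = n := Real.mul_self_sqrt hn0
  have h5 : Real.log (n + 1) ≤ 2 * Real.sqrt n := by
    have h6 : Real.log ((n : ℝ) + 1) ≤ Real.log ((Real.sqrt n + 1) ^ 2) :=
      Real.log_le_log (by linarith) (by nlinarith)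
    rw [Real.log_pow] at h6
    have h7 := Real.log_le_sub_one_of_pos (by linarith : (0 : ℝ) < Real.sqrt n + 1)
    push_cast at h6
    linarith
  have h8 : (1 : ℝ) / 2 ≤ Real.log 2 := by
    have := Real.log_two_gt_d9
    linarith
  have h9 : (n : ℝ) * (1 / 2) ≤ n * Real.log 2 := mul_le_mul_of_nonneg_left h8 hn0
  have h10 : 4 * (C + 2) * Real.sqrt n ≤ Real.sqrt n * Real.sqrt n :=
    mul_le_mul_of_nonneg_right h2 hs0
  nlinarith

/-- A linear function of the logarithm is eventually smaller than the identity. -/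
theorem ps_log (A B : ℝ) (hB : 0 ≤ B) : ∃ n₀ : ℕ, ∀ n : ℕ, n₀ ≤ n → A + B * Real.log n < n := by
  have h1 := (Real.isLittleO_log_id_atTop.bound
    (show (0 : ℝ) < 1 / (2 * (B + 1)) by positivity))
  have h2 := tendsto_natCast_atTop_atTop (R := ℝ) |>.eventually h1
  have h3 : ∀ᶠ n : ℕ in Filter.atTop, 2 * A + 1 ≤ (n : ℝ) :=
    (tendsto_natCast_atTop_atTop (R := ℝ)).eventually_ge_atTop _
  obtain ⟨n₀, hn₀⟩ := Filter.eventually_atTop.1 (h2.and h3)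
  refine ⟨n₀, fun n hn => ?_⟩
  obtain ⟨h4, h5⟩ := hn₀ n hn
  have hn0 : (0 : ℝ) ≤ n := Nat.cast_nonneg n
  rw [id, Real.norm_of_nonneg (Real.log_natCast_nonneg n), Real.norm_of_nonneg hn0] at h4
  have h6 : B * Real.log n ≤ B * (1 / (2 * (B + 1)) * n) := mul_le_mul_of_nonneg_left h4 hB
  have h7 : B * (1 / (2 * (B + 1)) * n) ≤ (n : ℝ) / 2 := by
    have h8 : B * (1 / (2 * (B + 1)) * n) = (n / 2) * (B / (B + 1)) := by
      field_simp
    rw [h8]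
    have h9 : B / (B + 1) ≤ 1 := by
      rw [div_le_one (by linarith)]
      linarith
    calc (n : ℝ) / 2 * (B / (B + 1)) ≤ n / 2 * 1 := mul_le_mul_of_nonneg_left h9 (by linarith)
      _ = n / 2 := mul_one _
  linarith

/-- The upper bound for the power of two. -/
theorem ps_clog (n : ℕ) (hn : 1 ≤ n) : 2 ^ Nat.clog 2 (n + 1) ≤ 2 * n := by
  have h1 := Nat.pow_pred_clog_lt_self (b := 2) (by norm_num) (x := n + 1) (by omega)
  have hpos : 0 < Nat.clog 2 (n + 1) := Nat.clog_pos (by norm_num) (by omega)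
  obtain ⟨m, hm⟩ : ∃ m, Nat.clog 2 (n + 1) = m + 1 := ⟨Nat.clog 2 (n + 1) - 1, by omega⟩
  rw [hm] at h1 ⊢
  simp only [Nat.pred_succ] at h1
  rw [pow_succ]
  omega

/-- Take `Q = Y ^ (e + 2)` and `ρ = κ * Nat.clog 2 (Q + 1)`, so that `2 ^ (ρ + 1) ≤ 2 (2 (Q + 1)) ^ κ` and
`(1 + c) ^ (ρ + 1) ≤ (2 ^ (ρ + 1)) ^ Nat.clog 2 (1 + c)`; use `Chebyshev.theta_ge`. Look at
`G/Params.lean` for a similar computation. -/
theorem param_step (κ c e : ℕ) : ∃ e' : ℕ, ∀ C : ℝ, 1 ≤ C → ∃ Y₀ : ℕ, 1 ≤ Y₀ ∧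
    ∀ Y : ℕ, Y₀ ≤ Y → ∀ s : ℕ, s ≤ Y ^ e → ∃ ρ Q : ℕ, 2 * (Q + 1) ^ κ ≤ 2 ^ (ρ + 1) ∧
      C * (s + ρ + 3) * (Y + Y) < Chebyshev.theta Q ∧ (1 + c) ^ (ρ + 1) ≤ Y ^ e' := by
  refine ⟨(1 + κ + (e + 2) * κ) * Nat.clog 2 (1 + c), fun C hC => ?_⟩
  obtain ⟨n₁, hn₁⟩ := ps_theta
  obtain ⟨n₂, hn₂⟩ := ps_log (8 * C * (κ * (e + 2) + 4)) (16 * C * (κ * (e + 2))) (by positivity)
  refine ⟨max (max n₁ n₂) 2, le_trans (by norm_num) (le_max_right _ _), ?_⟩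
  intro Y hY s hs
  have hY1 : n₁ ≤ Y := (le_max_left _ _).trans ((le_max_left _ _).trans hY)
  have hY2 : n₂ ≤ Y := (le_max_right _ _).trans ((le_max_left _ _).trans hY)
  have hY3 : 2 ≤ Y := (le_max_right _ _).trans hY
  obtain ⟨Q, hQ⟩ : ∃ Q, Q = Y ^ (e + 2) := ⟨_, rfl⟩
  have hYQ : Y ≤ Q := by
    rw [hQ]
    exact Nat.le_self_pow (by omega) Y
  have hQ1 : 1 ≤ Q := by omega
  have hcl2 : Q + 1 ≤ 2 ^ Nat.clog 2 (Q + 1) := Nat.le_pow_clog (by norm_num) _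
  refine ⟨κ * Nat.clog 2 (Q + 1), Q, ?_, ?_, ?_⟩
  · calc 2 * (Q + 1) ^ κ ≤ 2 * (2 ^ Nat.clog 2 (Q + 1)) ^ κ := by gcongr
      _ = 2 ^ (κ * Nat.clog 2 (Q + 1) + 1) := by
        rw [pow_succ, ← pow_mul, mul_comm κ, mul_comm 2]
  · have hth := hn₁ Q (hY1.trans hYQ)
    refine lt_of_lt_of_le ?_ hth
    have hYr : (2 : ℝ) ≤ Y := by exact_mod_cast hY3
    have hYe : (1 : ℝ) ≤ (Y : ℝ) ^ e := one_le_pow₀ (by linarith)
    have hsr : (s : ℝ) ≤ (Y : ℝ) ^ e := by exact_mod_cast hs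
    have hQr : (Q : ℝ) = Y ^ e * Y * Y := by
      rw [hQ]
      push_cast
      ring
    -- the bound for the exponent
    have hcY : Nat.clog 2 (Q + 1) ≤ (e + 2) * Nat.clog 2 (Y + 1) := by
      have h1 : Q + 1 ≤ 2 ^ ((e + 2) * Nat.clog 2 (Y + 1)) := by
        have h2 : Y + 1 ≤ 2 ^ Nat.clog 2 (Y + 1) := Nat.le_pow_clog (by norm_num) _
        calc Q + 1 ≤ (Y + 1) ^ (e + 2) := by
              rw [hQ]
              have h3 : Y ^ (e + 2) < (Y + 1) ^ (e + 2) :=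
                Nat.pow_lt_pow_left (Nat.lt_succ_self Y) (by omega)
              omega
          _ ≤ (2 ^ Nat.clog 2 (Y + 1)) ^ (e + 2) := Nat.pow_le_pow_left h2 _
          _ = 2 ^ ((e + 2) * Nat.clog 2 (Y + 1)) := by rw [← pow_mul, mul_comm]
      exact (Nat.clog_le_iff_le_pow (by norm_num)).2 h1
    have hcr : (Nat.clog 2 (Y + 1) : ℝ) ≤ 1 + 2 * Real.log Y := by
      have h3 : Real.log ((2 : ℝ) ^ Nat.clog 2 (Y + 1)) ≤ Real.log (2 * (Y : ℝ)) := by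
        apply Real.log_le_log (by positivity)
        exact_mod_cast ps_clog Y (by omega)
      rw [Real.log_pow, Real.log_mul (by norm_num) (by linarith)] at h3
      have h4 : (1 : ℝ) / 2 ≤ Real.log 2 := by
        have := Real.log_two_gt_d9
        linarith
      have h5 : 0 ≤ Real.log Y := Real.log_natCast_nonneg Y
      nlinarith
    have hρ : ((κ * Nat.clog 2 (Q + 1) : ℕ) : ℝ) ≤ κ * (e + 2) * (1 + 2 * Real.log Y) := by
      have h1 : ((κ * Nat.clog 2 (Q + 1) : ℕ) : ℝ) ≤ κ * ((e + 2) * Nat.clog 2 (Y + 1)) := by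
        exact_mod_cast Nat.mul_le_mul_left κ hcY
      refine h1.trans ?_
      rw [mul_assoc]
      have hκ0 : (0 : ℝ) ≤ κ := Nat.cast_nonneg κ
      have he0 : (0 : ℝ) ≤ (e : ℝ) + 2 := by positivity
      exact mul_le_mul_of_nonneg_left (mul_le_mul_of_nonneg_left hcr he0) hκ0
    have hmain := hn₂ Y hY2
    obtain ⟨ρ, hρd⟩ : ∃ ρ : ℕ, ρ = κ * Nat.clog 2 (Q + 1) := ⟨_, rfl⟩
    rw [← hρd] at hρ ⊢
    have h8 : 8 * C * (ρ + 4) < Y := by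
      have h9 : 8 * C * ((ρ : ℝ) + 4) ≤ 8 * C * (κ * (e + 2) * (1 + 2 * Real.log Y) + 4) :=
        mul_le_mul_of_nonneg_left (by linarith) (by linarith)
      have h10 : 8 * C * (κ * (e + 2) * (1 + 2 * Real.log Y) + 4) =
          8 * C * (κ * (e + 2) + 4) + 16 * C * (κ * (e + 2)) * Real.log Y := by ring
      linarith
    have hρ0 : (0 : ℝ) ≤ ρ := Nat.cast_nonneg ρ
    have h11 : (s : ℝ) + ρ + 3 ≤ (ρ + 4) * Y ^ e := by nlinarith
    have h12 : C * (s + ρ + 3) ≤ C * ((ρ + 4) * Y ^ e) :=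
      mul_le_mul_of_nonneg_left h11 (by linarith)
    have h13 : C * (ρ + 4) * Y ^ e < Y / 8 * Y ^ e :=
      mul_lt_mul_of_pos_right (by linarith) (by linarith)
    have h14 : C * (s + ρ + 3) < Y / 8 * Y ^ e := by
      refine lt_of_le_of_lt h12 ?_
      rw [← mul_assoc]
      exact h13
    calc C * (s + ρ + 3) * ((Y : ℝ) + Y) < (Y / 8 * Y ^ e) * ((Y : ℝ) + Y) :=
          mul_lt_mul_of_pos_right h14 (by linarith)
      _ = (Q : ℝ) / 4 := by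
          rw [hQr]
          ring
  · have h1 : 1 + c ≤ 2 ^ Nat.clog 2 (1 + c) := Nat.le_pow_clog (by norm_num) _
    obtain ⟨b, hb⟩ : ∃ b, b = Nat.clog 2 (1 + c) := ⟨_, rfl⟩
    rw [← hb] at h1 ⊢
    obtain ⟨ρ, hρd⟩ : ∃ ρ : ℕ, ρ = κ * Nat.clog 2 (Q + 1) := ⟨_, rfl⟩
    rw [← hρd]
    have h2 : 2 ^ (ρ + 1) ≤ Y ^ (1 + κ + (e + 2) * κ) := by
      calc 2 ^ (ρ + 1) = 2 * (2 ^ Nat.clog 2 (Q + 1)) ^ κ := by
            rw [hρd, pow_succ, ← pow_mul, mul_comm κ, mul_comm 2]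
        _ ≤ 2 * (2 * Q) ^ κ := by
            gcongr
            exact ps_clog Q hQ1
        _ = 2 * 2 ^ κ * Y ^ ((e + 2) * κ) := by
            rw [mul_pow, hQ, ← pow_mul]
            ring
        _ ≤ Y * Y ^ κ * Y ^ ((e + 2) * κ) := by gcongr
        _ = Y ^ (1 + κ + (e + 2) * κ) := by
            rw [pow_add, pow_add, pow_one]
    calc (1 + c) ^ (ρ + 1) ≤ (2 ^ b) ^ (ρ + 1) := Nat.pow_le_pow_left h1 _
      _ = (2 ^ (ρ + 1)) ^ b := by rw [← pow_mul, ← pow_mul, mul_comm]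
      _ ≤ (Y ^ (1 + κ + (e + 2) * κ)) ^ b := Nat.pow_le_pow_left h2 _
      _ = Y ^ ((1 + κ + (e + 2) * κ) * b) := by rw [← pow_mul]

end Pool.Agent.H.MP_31a675_nt.W
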