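import Pool.Agent.H.MP_31a675_nt.W.Defs

/-!
# Linear relations over a system
-/

namespace Pool.Agent.H.MP_31a675_nt.W

open MvPolynomial

variable {K : Type} [Field K] {N : ℕ}

/-- More than `μ` elements satisfy a linear relation modulo `I` with coefficients in the polynomial
ring in the `z i`. Write them in the basis; the rows of the matrix are linearly dependent (add a zero
column and use `Matrix.exists_vecMul_eq_zero_iff`). -/
theorem sys_rel {I : Ideal (MvPolynomial (Fin N) K)} {k μ : ℕ}
    {z : Fin k → MvPolynomial (Fin N) K} {b : Fin μ → MvPolynomial (Fin N) K} (h : Sys I z b)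
    (θ : Fin (μ + 1) → MvPolynomial (Fin N) K) :
    ∃ p : Fin (μ + 1) → MvPolynomial (Fin k) K, p ≠ 0 ∧ ∑ i, aeval z (p i) * θ i ∈ I := by
  choose q _ hq using fun i => h.span (θ i).totalDegree (θ i) le_rfl
  have hdep : ¬ LinearIndependent (MvPolynomial (Fin k) K) q := by
    intro hli
    have h1 := hli.fintype_card_le_finrank
    simp at h1
  obtain ⟨p, hp, i, hi⟩ := Fintype.not_linearIndependent_iff.mp hdep
  refine ⟨p, fun h0 => hi (by rw [h0]; rfl), ?_⟩
  have hz : ∑ i, aeval z (p i) * (∑ j, aeval z (q i j) * b j) = 0 := by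
    have h1 : ∀ j, ∑ i, aeval z (p i) * aeval z (q i j) = 0 := by
      intro j
      have h2 := congrFun hp j
      simp only [Finset.sum_apply, Pi.smul_apply, smul_eq_mul, Pi.zero_apply] at h2
      have h3 := congrArg (aeval z) h2
      simpa only [map_sum, map_mul, map_zero] using h3
    simp only [Finset.mul_sum]
    rw [Finset.sum_comm]
    refine Finset.sum_eq_zero fun j _ => ?_
    have h4 : ∀ i, aeval z (p i) * (aeval z (q i j) * b j) =
        (aeval z (p i) * aeval z (q i j)) * b j := fun i => by ring
    simp only [h4]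
    rw [← Finset.sum_mul, h1 j, zero_mul]
  have h5 : ∑ i, aeval z (p i) * θ i =
      ∑ i, aeval z (p i) * (θ i - ∑ j, aeval z (q i j) * b j) := by
    simp only [mul_sub, Finset.sum_sub_distrib]
    rw [hz, sub_zero]
  rw [h5]
  exact Ideal.sum_mem _ fun i _ => Ideal.mul_mem_left _ _ (hq i)

end Pool.Agent.H.MP_31a675_nt.W
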