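import Pool.Agent.H.MP_31a675_nt.W.Defs

/-!
# Linear change of variables
-/

namespace Pool.Agent.H.MP_31a675_nt.W

open MvPolynomial

variable {K : Type} [Field K] {k : ℕ}

/-- The linear substitution `X 0 ↦ X 0`, `X i ↦ X i + c i * X 0`. -/
noncomputable def shear (c : Fin k → K) :
    MvPolynomial (Fin (k + 1)) K →ₐ[K] MvPolynomial (Fin (k + 1)) K :=
  aeval (Fin.cons (X 0) fun i => X i.succ + C (c i) * X 0)

theorem shear_aeval_degree {σ τ : Type} (f : σ → MvPolynomial τ K)
    (hf : ∀ i, (f i).totalDegree ≤ 1) (p : MvPolynomial σ K) :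
    (aeval f p).totalDegree ≤ p.totalDegree := by
  rw [aeval_def, eval₂_eq]
  refine totalDegree_finsetSum_le fun d hd => ?_
  refine (totalDegree_mul _ _).trans ?_
  rw [algebraMap_eq, totalDegree_C, zero_add]
  refine (totalDegree_finsetProd _ _).trans ?_
  refine le_trans (Finset.sum_le_sum fun i _ => (totalDegree_pow _ _).trans
    (Nat.mul_le_mul_left _ (hf i))) ?_
  simp only [mul_one]
  exact le_totalDegree hd

theorem shear_degree (c : Fin k → K) (p : MvPolynomial (Fin (k + 1)) K) :
    (shear c p).totalDegree ≤ p.totalDegree := by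
  refine shear_aeval_degree _ (fun i => ?_) p
  refine Fin.cases ?_ (fun j => ?_) i
  · rw [Fin.cons_zero, totalDegree_X]
  · rw [Fin.cons_succ]
    refine (totalDegree_add _ _).trans (max_le ?_ ?_)
    · rw [totalDegree_X]
    · refine (totalDegree_mul _ _).trans ?_
      rw [totalDegree_C, zero_add, totalDegree_X]

theorem shear_neg (c : Fin k → K) (p : MvPolynomial (Fin (k + 1)) K) :
    shear (fun i => -c i) (shear c p) = p := by
  have h : (shear (fun i => -c i)).comp (shear c) =
      AlgHom.id K (MvPolynomial (Fin (k + 1)) K) := by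
    apply MvPolynomial.algHom_ext
    intro i
    refine Fin.cases ?_ (fun j => ?_) i
    · simp [shear]
    · simp [shear]
  exact DFunLike.congr_fun h p

theorem shear_zero_of_eval [Infinite K] (q : MvPolynomial (Fin (k + 1)) K) (e : ℕ)
    (hq : q.IsHomogeneous e)
    (h : ∀ c : Fin k → K, eval (Fin.cons 1 c : Fin (k + 1) → K) q = 0) : q = 0 := by
  have h1 : X 0 * q = 0 := by
    apply MvPolynomial.funext
    intro x
    rw [map_mul, eval_X, map_zero]
    rcases eq_or_ne (x 0) 0 with h0 | h0
    · rw [h0, zero_mul]
    · have h2 : eval x q = x 0 ^ e * eval (fun i => x i / x 0) q := by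
        rw [eval_eq, eval_eq, Finset.mul_sum]
        refine Finset.sum_congr rfl fun d hd => ?_
        have hdeg : ∑ i ∈ d.support, d i = e := (hq.degree_eq_sum_deg_support hd).symm
        rw [← hdeg, ← Finset.prod_pow_eq_pow_sum, mul_left_comm, ← Finset.prod_mul_distrib]
        congr 1
        refine Finset.prod_congr rfl fun i _ => ?_
        rw [← mul_pow, mul_div_cancel₀ _ h0]
      have h3 : (fun i => x i / x 0) = (Fin.cons 1 (fun i => x i.succ / x 0) : Fin (k + 1) → K) := by
        funext i
        refine Fin.cases ?_ (fun j => ?_) i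
        · rw [Fin.cons_zero, div_self h0]
        · rw [Fin.cons_succ]
      rw [h2, h3, h, mul_zero, mul_zero]
  exact (mul_eq_zero.mp h1).resolve_left (X_ne_zero 0)

/-- Restriction to the line `X i = 0`, `i ≥ 1`. -/
noncomputable def shearPsi : MvPolynomial (Fin (k + 1)) K →ₐ[K] Polynomial K :=
  aeval (Fin.cons Polynomial.X fun _ => 0)

theorem shearPsi_coeff (q : MvPolynomial (Fin (k + 1)) K) (e : ℕ) :
    (shearPsi q).coeff e = coeff (Finsupp.single 0 e) q := by
  induction q using MvPolynomial.induction_on' with
  | monomial d a =>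
    rw [shearPsi, aeval_monomial, coeff_monomial]
    by_cases hd : ∃ j : Fin k, d j.succ ≠ 0
    · obtain ⟨j, hj⟩ := hd
      have h1 : (d.prod fun i n => ((Fin.cons Polynomial.X fun _ => 0 :
          Fin (k + 1) → Polynomial K) i) ^ n) = 0 := by
        refine Finset.prod_eq_zero (Finsupp.mem_support_iff.mpr hj) ?_
        show ((Fin.cons Polynomial.X fun _ => 0 :
          Fin (k + 1) → Polynomial K) j.succ) ^ d j.succ = 0
        rw [Fin.cons_succ, zero_pow hj]
      have h2 : d ≠ Finsupp.single 0 e := by
        rintro rfl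
        apply hj
        rw [Finsupp.single_apply, if_neg (Fin.succ_ne_zero j).symm]
      rw [h1, mul_zero, if_neg h2, Polynomial.coeff_zero]
    · push Not at hd
      obtain ⟨n, h1⟩ : ∃ n, d = Finsupp.single 0 n := by
        refine ⟨d 0, ?_⟩
        ext i
        refine Fin.cases ?_ (fun j => ?_) i
        · rw [Finsupp.single_eq_same]
        · rw [hd j, Finsupp.single_apply, if_neg (Fin.succ_ne_zero j).symm]
      have h2 : ((Finsupp.single (0 : Fin (k + 1)) n).prod fun i n =>
          ((Fin.cons Polynomial.X fun _ => 0 :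
          Fin (k + 1) → Polynomial K) i) ^ n) = Polynomial.X ^ n := by
        rw [Finsupp.prod_single_index]
        · rw [Fin.cons_zero]
        · exact pow_zero _
      rw [h1, h2]
      rw [Polynomial.algebraMap_eq, Polynomial.coeff_C_mul_X_pow]
      by_cases he : e = n
      · rw [if_pos he, if_pos (by rw [he])]
      · rw [if_neg he, if_neg]
        intro h
        apply he
        have := DFunLike.congr_fun h 0
        rw [Finsupp.single_eq_same, Finsupp.single_eq_same] at this
        exact this.symm
  | add p q hp hq => rw [map_add, Polynomial.coeff_add, hp, hq, coeff_add]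

theorem shearPsi_shear (c : Fin k → K) (π : MvPolynomial (Fin (k + 1)) K) :
    shearPsi (shear c π) =
      aeval (fun i => Polynomial.C ((Fin.cons 1 c : Fin (k + 1) → K) i) * Polynomial.X) π := by
  have h : (shearPsi (K := K)).comp (shear c) =
      aeval (fun i => Polynomial.C ((Fin.cons 1 c : Fin (k + 1) → K) i) * Polynomial.X) := by
    apply MvPolynomial.algHom_ext
    intro i
    refine Fin.cases ?_ (fun j => ?_) i
    · simp [shear, shearPsi]
    · simp [shear, shearPsi, Polynomial.C_mul']
  exact DFunLike.congr_fun h π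

theorem shear_coeff_aeval (y : Fin (k + 1) → K) (π : MvPolynomial (Fin (k + 1)) K) (e : ℕ) :
    (aeval (fun i => Polynomial.C (y i) * Polynomial.X) π).coeff e =
      eval y (homogeneousComponent e π) := by
  rw [aeval_def, eval₂_eq, Polynomial.finsetSum_coeff, homogeneousComponent_apply, map_sum,
    Finset.sum_filter]
  refine Finset.sum_congr rfl fun d _ => ?_
  have h1 : ∏ i ∈ d.support, (Polynomial.C (y i) * Polynomial.X) ^ d i =
      Polynomial.C (∏ i ∈ d.support, y i ^ d i) * Polynomial.X ^ d.degree := by
    simp only [mul_pow]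
    rw [Finset.prod_mul_distrib, Finset.prod_pow_eq_pow_sum, map_prod]
    simp only [map_pow]
    rfl
  rw [h1, Polynomial.algebraMap_eq, ← mul_assoc, ← Polynomial.C_mul,
    Polynomial.coeff_C_mul_X_pow, eval_monomial]
  by_cases he : d.degree = e
  · rw [if_pos he.symm, if_pos he]
    rfl
  · rw [if_neg (fun h => he h.symm), if_neg he]

/-- For a suitable substitution the power of `X 0` of highest degree appears. The homogeneous
component `π' ≠ 0` of degree `e` of `π` does not vanish at some `(1, c)`: the polynomial
`π' (1, X)` is not zero, and `K` is infinite (`funext`). The coefficient is `π' (1, c)`. -/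
theorem exists_shear [Infinite K] (π : MvPolynomial (Fin (k + 1)) K) (hπ : π ≠ 0) :
    ∃ c : Fin k → K, coeff (Finsupp.single 0 π.totalDegree) (shear c π) ≠ 0 := by
  by_contra hcon
  push Not at hcon
  have h1 : homogeneousComponent π.totalDegree π = 0 := by
    refine shear_zero_of_eval _ π.totalDegree (homogeneousComponent_isHomogeneous _ _)
      fun c => ?_
    rw [← shear_coeff_aeval, ← shearPsi_shear, shearPsi_coeff]
    exact hcon c
  obtain ⟨d, hd, hdeg⟩ : ∃ d ∈ π.support, (d.sum fun _ n => n) = π.totalDegree := by
    have hne : π.support.Nonempty := by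
      rw [Finset.nonempty_iff_ne_empty]
      exact fun h => hπ (MvPolynomial.support_eq_empty.mp h)
    obtain ⟨d, hd, h⟩ := Finset.exists_mem_eq_sup π.support hne fun d => d.sum fun _ n => n
    exact ⟨d, hd, h.symm⟩
  have h2 : coeff d (homogeneousComponent π.totalDegree π) = coeff d π := by
    rw [coeff_homogeneousComponent, if_pos]
    exact hdeg
  rw [h1, coeff_zero] at h2
  exact (MvPolynomial.mem_support_iff.mp hd) h2.symm

end Pool.Agent.H.MP_31a675_nt.W
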