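import Pool.Agent.H.MP_31a675_nt.W.SysM
import Pool.Agent.H.MP_31a675_nt.W.Shear

/-!
# Systems: the affine space, adding a relation
-/

namespace Pool.Agent.H.MP_31a675_nt.W

open MvPolynomial

variable {K : Type} [Field K] {N : ℕ}

/-- The system of the affine space. -/
theorem sys_bot : Sys (⊥ : Ideal (MvPolynomial (Fin N) K)) (X : Fin N → MvPolynomial (Fin N) K)
    (fun _ : Fin 1 => 1) := by
  refine ⟨fun i => ?_, fun j => ?_, fun E g hg => ⟨fun _ => g, fun _ => hg, ?_⟩, fun p hp => ?_⟩
  · rw [totalDegree_X]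
  · rw [totalDegree_one]
    exact Nat.one_pos
  · simp
  · rw [Ideal.mem_bot] at hp
    simp only [Fin.sum_univ_one, mul_one, aeval_X_left_apply] at hp
    funext j
    rw [Fin.eq_zero j, hp]
    rfl

/-- Linear change of the variables `z`: if `z' 0 = z 0` and `z' (i + 1) = z (i + 1) - c i * z 0` then
`aeval z' (shear c p) = aeval z p`. -/
theorem sys_change {I : Ideal (MvPolynomial (Fin N) K)} {k μ : ℕ}
    {z : Fin (k + 1) → MvPolynomial (Fin N) K} {b : Fin μ → MvPolynomial (Fin N) K} (h : Sys I z b)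
    (c : Fin k → K) :
    Sys I (Fin.cons (z 0) fun i => z i.succ - C (c i) * z 0 : Fin (k + 1) → MvPolynomial (Fin N) K) b ∧
      ∀ p, aeval (Fin.cons (z 0) fun i => z i.succ - C (c i) * z 0 :
        Fin (k + 1) → MvPolynomial (Fin N) K) (shear c p) = aeval z p := by
  set z' : Fin (k + 1) → MvPolynomial (Fin N) K :=
    Fin.cons (z 0) fun i => z i.succ - C (c i) * z 0 with hz'
  have key : ∀ p, aeval z' (shear c p) = aeval z p := by
    intro p
    have h1 : (aeval z').comp (shear c) = aeval z := by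
      apply MvPolynomial.algHom_ext
      intro i
      rw [AlgHom.comp_apply, shear, aeval_X, aeval_X]
      refine Fin.cases ?_ (fun i => ?_) i
      · rw [Fin.cons_zero, aeval_X, hz', Fin.cons_zero]
      · rw [Fin.cons_succ, map_add, map_mul, aeval_X, aeval_X, hz', Fin.cons_succ, Fin.cons_zero,
          aeval_C, algebraMap_eq]
        ring
    rw [← h1, AlgHom.comp_apply]
  refine ⟨⟨fun i => ?_, h.bdeg, fun E g hg => ?_, fun p hp => ?_⟩, key⟩
  · refine Fin.cases ?_ (fun i => ?_) i
    · exact h.zdeg 0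
    · rw [hz', Fin.cons_succ]
      refine (totalDegree_sub _ _).trans (max_le (h.zdeg _) ?_)
      refine (totalDegree_mul _ _).trans ?_
      rw [totalDegree_C, zero_add]
      exact h.zdeg 0
  · obtain ⟨p, hp, hpI⟩ := h.span E g hg
    refine ⟨fun j => shear c (p j), fun j => (shear_degree c _).trans (hp j), ?_⟩
    simpa only [key] using hpI
  · have h1 : ∀ j, aeval z' (p j) = aeval z (shear (fun i => -c i) (p j)) := by
      intro j
      have h2 := shear_neg (fun i => -c i) (p j)
      simp only [neg_neg] at h2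
      conv_lhs => rw [← h2]
      exact key _
    simp only [h1] at hp
    have h3 := h.free (fun j => shear (fun i => -c i) (p j)) hp
    funext j
    have h4 := congrFun h3 j
    have h2 := shear_neg (fun i => -c i) (p j)
    simp only [neg_neg] at h2
    simp only [Pi.zero_apply] at h4 ⊢
    rw [← h2, h4, map_zero]

/-- Adding the relation `π (z) = 0`: `exists_shear`, `sys_change`, `sys_monic`. -/
theorem sys_step [Infinite K] {I : Ideal (MvPolynomial (Fin N) K)} {k μ : ℕ}
    {z : Fin (k + 1) → MvPolynomial (Fin N) K} {b : Fin μ → MvPolynomial (Fin N) K} (h : Sys I z b)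
    (π : MvPolynomial (Fin (k + 1)) K) (hπ : 1 ≤ π.totalDegree) :
    ∃ (z' : Fin k → MvPolynomial (Fin N) K)
      (b' : Fin (μ * π.totalDegree) → MvPolynomial (Fin N) K),
      Sys (I ⊔ Ideal.span {aeval z π}) z' b' := by
  have h0 : π ≠ 0 := by
    rintro rfl
    simp at hπ
  obtain ⟨c, hc⟩ := exists_shear π h0
  obtain ⟨hs, hk⟩ := sys_change h c
  obtain ⟨b', hb'⟩ := sys_monic hs (shear c π) π.totalDegree hπ (shear_degree c π) hc
  rw [hk] at hb'
  exact ⟨_, b', hb'⟩

end Pool.Agent.H.MP_31a675_nt.W
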