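import Pool.Agent.H.MP_31a675_nt.W.Div

/-!
# Adding a monic relation to a system
-/

namespace Pool.Agent.H.MP_31a675_nt.W

open MvPolynomial

variable {K : Type} [Field K] {N : ℕ}

theorem sysM_aeval {k : ℕ} (z : Fin (k + 1) → MvPolynomial (Fin N) K) {e : ℕ}
    (r : Fin e → MvPolynomial (Fin k) K) :
    aeval z (∑ i, rename Fin.succ (r i) * X 0 ^ (i : ℕ) : MvPolynomial (Fin (k + 1)) K) =
      ∑ i, aeval (fun i : Fin k => z i.succ) (r i) * z 0 ^ (i : ℕ) := by
  rw [map_sum]
  refine Finset.sum_congr rfl fun i _ => ?_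
  rw [map_mul, map_pow, aeval_X, aeval_rename]
  rfl

theorem sysM_sum {k μ e : ℕ} (z : Fin (k + 1) → MvPolynomial (Fin N) K)
    (b : Fin μ → MvPolynomial (Fin N) K) (p : Fin (μ * e) → MvPolynomial (Fin k) K) :
    ∑ l, aeval (fun i : Fin k => z i.succ) (p l) *
        (z 0 ^ ((finProdFinEquiv.symm l).2 : ℕ) * b (finProdFinEquiv.symm l).1) =
      ∑ j, aeval z (∑ i : Fin e, rename Fin.succ (p (finProdFinEquiv (j, i))) * X 0 ^ (i : ℕ) :
        MvPolynomial (Fin (k + 1)) K) * b j := by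
  rw [← finProdFinEquiv.sum_comp, Fintype.sum_prod_type]
  refine Finset.sum_congr rfl fun j _ => ?_
  rw [sysM_aeval, Finset.sum_mul]
  refine Finset.sum_congr rfl fun i _ => ?_
  rw [Equiv.symm_apply_apply]
  ring

/-- Adding the relation `π (z) = 0` when `π` is monic in the first variable: the new variables are
`z 1, ..., z k` and the new basis is `z 0 ^ i * b j`, `i < e` (`finProdFinEquiv`). Use `exists_div`
for the spanning property and `div_unique` for the freeness: if `∑ r i j * z 0 ^ i * b j = g + s * π (z)`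
with `g ∈ I`, write `s` modulo `I` as `∑ s j * b j`. -/
theorem sys_monic {I : Ideal (MvPolynomial (Fin N) K)} {k μ : ℕ}
    {z : Fin (k + 1) → MvPolynomial (Fin N) K} {b : Fin μ → MvPolynomial (Fin N) K} (h : Sys I z b)
    (π : MvPolynomial (Fin (k + 1)) K) (e : ℕ) (he : 1 ≤ e) (hdeg : π.totalDegree ≤ e)
    (hmon : coeff (Finsupp.single 0 e) π ≠ 0) :
    ∃ b' : Fin (μ * e) → MvPolynomial (Fin N) K,
      Sys (I ⊔ Ideal.span {aeval z π}) (fun i : Fin k => z i.succ) b' := by
  refine ⟨fun l => z 0 ^ ((finProdFinEquiv.symm l).2 : ℕ) * b (finProdFinEquiv.symm l).1,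
    fun i => h.zdeg _, fun l => ?_, fun E g hg => ?_, fun p hp => ?_⟩
  · obtain ⟨⟨j, i⟩, rfl⟩ := finProdFinEquiv.surjective l
    rw [Equiv.symm_apply_apply]
    have h1 := totalDegree_mul (z 0 ^ (i : ℕ)) (b j)
    have h2 := totalDegree_pow (z 0) (i : ℕ)
    have h3 := h.bdeg j
    have h4 := Nat.mul_le_mul_left (i : ℕ) (h.zdeg 0)
    have h5 := i.2
    have h6 : μ + e ≤ μ * e + 1 := by
      obtain ⟨e', rfl⟩ : ∃ e', e = e' + 1 := ⟨e - 1, by omega⟩
      obtain ⟨μ', rfl⟩ : ∃ μ', μ = μ' + 1 := ⟨μ - 1, by omega⟩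
      nlinarith [Nat.zero_le (μ' * e')]
    show (z 0 ^ (i : ℕ) * b j).totalDegree < μ * e
    omega
  · obtain ⟨p, hp, hpI⟩ := h.span E g hg
    choose q r hr hqr using fun j => exists_div π e hdeg hmon E (p j) (hp j)
    refine ⟨fun l => r (finProdFinEquiv.symm l).1 (finProdFinEquiv.symm l).2, fun l => hr _ _, ?_⟩
    rw [sysM_sum]
    have h1 : g - ∑ j, aeval z (∑ i : Fin e, rename Fin.succ
        (r (finProdFinEquiv.symm (finProdFinEquiv (j, i))).1
          (finProdFinEquiv.symm (finProdFinEquiv (j, i))).2) * X 0 ^ (i : ℕ) :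
        MvPolynomial (Fin (k + 1)) K) * b j =
        (g - ∑ j, aeval z (p j) * b j) + (∑ j, aeval z (q j) * b j) * aeval z π := by
      rw [Finset.sum_mul, sub_add_eq_add_sub, eq_sub_iff_add_eq, sub_add_eq_add_sub, sub_eq_iff_eq_add,
        add_assoc, ← Finset.sum_add_distrib]
      congr 1
      refine Finset.sum_congr rfl fun j _ => ?_
      have h2 := congrArg (aeval z) (hqr j)
      rw [h2, map_add, map_mul]
      simp only [Equiv.symm_apply_apply]
      ring
    rw [h1]
    exact add_mem (Ideal.mem_sup_left hpI)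
      (Ideal.mem_sup_right (Ideal.mul_mem_left _ _ (Ideal.mem_span_singleton_self _)))
  · rw [sysM_sum, Submodule.mem_sup] at hp
    obtain ⟨g, hg, y, hy, hgy⟩ := hp
    obtain ⟨s, rfl⟩ := Ideal.mem_span_singleton'.1 hy
    obtain ⟨t, -, ht⟩ := h.span s.totalDegree s le_rfl
    have h1 : ∑ j, aeval z ((∑ i : Fin e, rename Fin.succ (p (finProdFinEquiv (j, i))) *
        X 0 ^ (i : ℕ) : MvPolynomial (Fin (k + 1)) K) - t j * π) * b j ∈ I := by
      have h2 : ∑ j, aeval z ((∑ i : Fin e, rename Fin.succ (p (finProdFinEquiv (j, i))) *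
          X 0 ^ (i : ℕ) : MvPolynomial (Fin (k + 1)) K) - t j * π) * b j =
          g + (s - ∑ j, aeval z (t j) * b j) * aeval z π := by
        rw [sub_mul, Finset.sum_mul, ← add_sub_assoc, hgy, ← Finset.sum_sub_distrib]
        refine Finset.sum_congr rfl fun j _ => ?_
        rw [map_sub, map_mul]
        ring
      rw [h2]
      exact add_mem hg (Ideal.mul_mem_right _ _ ht)
    have h3 := h.free _ h1
    funext l
    obtain ⟨⟨j, i⟩, rfl⟩ := finProdFinEquiv.surjective l
    have h4 := congrFun h3 j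
    have h5 := div_unique π e hdeg hmon (t j) (fun i => p (finProdFinEquiv (j, i)))
      (sub_eq_zero.1 h4).symm
    exact congrFun h5 i

end Pool.Agent.H.MP_31a675_nt.W
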