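import Pool.Agent.H.MP_31a675_nt.W.Char

/-!
# Transcendence degrees
-/

namespace Pool.Agent.H.MP_31a675_nt.W

open MvPolynomial

variable {K : Type} [Field K] {N : ℕ} {L : Type} [Field L] [Algebra K L]

/-- The coordinates of `y` are integral over the algebra generated by the values of the `z i`. -/
theorem trdeg_integral {I : Ideal (MvPolynomial (Fin N) K)} {k μ : ℕ}
    {z : Fin k → MvPolynomial (Fin N) K} {b : Fin μ → MvPolynomial (Fin N) K} (h : Sys I z b)
    (y : Fin N → L) (hy : ∀ g ∈ I, aeval y g = 0) (i : Fin N) :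
    IsIntegral (Algebra.adjoin K (Set.range fun i => aeval y (z i))) (y i) := by
  obtain ⟨χ, hmon, -, -, hχ⟩ := sys_char h (X i) 1 (by simp)
  set S : Subalgebra K L := Algebra.adjoin K (Set.range fun i => aeval y (z i)) with hS
  let g : MvPolynomial (Fin k) K →ₐ[K] S :=
    aeval fun i => ⟨aeval y (z i), Algebra.subset_adjoin ⟨i, rfl⟩⟩
  refine ⟨χ.map g.toRingHom, hmon.map _, ?_⟩
  have hcomp : (algebraMap S L).comp g.toRingHom =
      ((aeval y : MvPolynomial (Fin N) K →ₐ[K] L).toRingHom).comp
        (aeval z : MvPolynomial (Fin k) K →ₐ[K] MvPolynomial (Fin N) K).toRingHom := by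
    apply MvPolynomial.ringHom_ext
    · intro r
      simp [g]
    · intro j
      simp [g]
  rw [Polynomial.eval₂_map, hcomp]
  have h1 := hy _ hχ
  have h2 : (aeval y : MvPolynomial (Fin N) K →ₐ[K] L) (Polynomial.eval₂
      (aeval z : MvPolynomial (Fin k) K →ₐ[K] MvPolynomial (Fin N) K).toRingHom (X i) χ) =
      Polynomial.eval₂ (((aeval y : MvPolynomial (Fin N) K →ₐ[K] L).toRingHom).comp
        (aeval z : MvPolynomial (Fin k) K →ₐ[K] MvPolynomial (Fin N) K).toRingHom) (y i) χ := by
    have := Polynomial.hom_eval₂ χ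
      (aeval z : MvPolynomial (Fin k) K →ₐ[K] MvPolynomial (Fin N) K).toRingHom
      (aeval y : MvPolynomial (Fin N) K →ₐ[K] L).toRingHom (X i)
    simpa using this
  rw [← h2]
  exact h1

/-- Transcendence degrees. The field `K (y)` is algebraic over `K (z (y))` (by `sys_rel` for the powers
of `X i`, or by `sys_char`), so it has transcendence degree at most `k` over `K`; hence `k' > k`
elements `u j` of it are algebraically dependent. -/
theorem exists_rel {I : Ideal (MvPolynomial (Fin N) K)} {k μ : ℕ}
    {z : Fin k → MvPolynomial (Fin N) K} {b : Fin μ → MvPolynomial (Fin N) K} (h : Sys I z b)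
    (y : Fin N → L) (hy : ∀ g ∈ I, aeval y g = 0) {k' : ℕ} (hk : k < k') (u : Fin k' → L) (E : ℕ)
    (hu : ∀ j, Cx K y E (u j)) : ∃ p : MvPolynomial (Fin k') K, p ≠ 0 ∧ aeval u p = 0 := by
  classical
  by_contra hcon
  push Not at hcon
  have hind : AlgebraicIndependent K u := by
    rw [algebraicIndependent_iff]
    intro p hp
    by_contra hne
    exact hcon p hne hp
  set s : Set L := Set.range fun i => aeval y (z i) with hs
  have hint := trdeg_integral h y hy
  have halg : ∀ P : MvPolynomial (Fin N) K, IsAlgebraic (Algebra.adjoin K s) (aeval y P) := by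
    intro P
    apply IsIntegral.isAlgebraic
    induction P using MvPolynomial.induction_on with
    | C a =>
      rw [aeval_C]
      have : algebraMap K L a = algebraMap (Algebra.adjoin K s) L (algebraMap K _ a) := rfl
      rw [this]
      exact isIntegral_algebraMap
    | add p q hp hq =>
      rw [map_add]
      exact hp.add hq
    | mul_X p i hp =>
      rw [map_mul, aeval_X]
      exact hp.mul (hint i)
  have hcl : ∀ j, IsAlgebraic (Algebra.adjoin K s) (u j) := by
    intro j
    obtain ⟨P, Q, -, -, hQ, hPQ⟩ := hu j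
    have : u j = aeval y P * (aeval y Q)⁻¹ := by
      rw [← hPQ, mul_assoc, mul_inv_cancel₀ hQ, mul_one]
    rw [this]
    exact (halg P).mul (halg Q).inv
  have hsub : Set.range u ⊆ (AlgebraicIndependent.matroid K L).closure s := by
    rw [AlgebraicIndependent.matroid_closure_eq]
    rintro _ ⟨j, rfl⟩
    exact hcl j
  have hindr : (AlgebraicIndependent.matroid K L).Indep (Set.range u) := by
    rw [AlgebraicIndependent.matroid_indep_iff]
    exact hind.coe_range
  have h1 := hindr.encard_le_eRk_of_subset hsub
  rw [Matroid.eRk_closure_eq] at h1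
  have h2 : (AlgebraicIndependent.matroid K L).eRk s ≤ s.encard := Matroid.eRk_le_encard _ _
  have h3 : s.encard ≤ (k : ℕ∞) := by
    rw [hs, ← Set.image_univ]
    refine (Set.encard_image_le _ _).trans ?_
    simp
  have h4 : (Set.range u).encard = (k' : ℕ∞) := by
    rw [← Set.image_univ, Set.InjOn.encard_image hind.injective.injOn]
    simp
  rw [h4] at h1
  have h5 := h1.trans (h2.trans h3)
  have h6 : k' ≤ k := by exact_mod_cast h5
  omega

end Pool.Agent.H.MP_31a675_nt.W
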