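import Pool.Agent.H.MP_31a675_nt.G.Window

/-!
# A relation between products of coordinates along a slow orbit: arbitrary lists
-/

namespace Pool.Agent.H.MP_31a675_nt.W

open MvPolynomial NumberField Height

open Pool.Agent.H.MP_31a675_nt.G

/-- Products of coordinates of proportional vectors, with repetitions. -/
theorem wl_prod {R : Type*} [CommRing R] {r : ℕ} {P : Ideal R} [hP : P.IsPrime] {m : ℕ}
    {a b : Fin m → Fin r → R} (h : ∀ i, Prp P (a i) (b i)) (sel : Fin m → Fin 2 → Fin r) :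
    Prp P (fun J : Fin m → Fin 2 => ∏ i, a i (sel i (J i)))
      (fun J : Fin m → Fin 2 => ∏ i, b i (sel i (J i))) := by
  choose u hu v hv huv using h
  refine ⟨∏ i, u i, fun hm => ?_, ∏ i, v i, fun hm => ?_, fun J => ?_⟩
  · obtain ⟨i, -, hi⟩ := (Ideal.IsPrime.prod_mem_iff (p := P)).1 hm
    exact hu i hi
  · obtain ⟨i, -, hi⟩ := (Ideal.IsPrime.prod_mem_iff (p := P)).1 hm
    exact hv i hi
  · rw [← Ideal.Quotient.mk_eq_mk_iff_sub_mem]
    simp only
    rw [← Finset.prod_mul_distrib, ← Finset.prod_mul_distrib, map_prod, map_prod]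
    apply Finset.prod_congr rfl
    intro i _
    exact (Ideal.Quotient.mk_eq_mk_iff_sub_mem _ _).2 (huv i (sel i (J i)))

/-- The numerical condition. -/
theorem wl_num {D R1 d c s m T L lC lc lT : ℝ} (hD : 0 ≤ D) (hR : 0 ≤ R1) (hd : 0 ≤ d) (hc : 0 ≤ c)
    (hs : 0 ≤ s) (hm : 0 ≤ m) (hL : 0 ≤ L) (hlC : 0 ≤ lC) (hlc : 0 ≤ lc) (hlT : 1 ≤ lT)
    (hT : T ≤ lT) :
    D * (s * (lC + c * T + (d + 1) * (R1 * L)) + (lc + 2 * (m * Real.log 2) + 2 * (m * (R1 * L)))) ≤
      (D * (R1 * (d + 1) + lC + c + lc + 2 + 2 * R1)) * (s + m + 1) * (L + lT) := by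
  have h2 : Real.log 2 ≤ 1 := by
    have := Real.log_two_lt_d9
    linarith
  have h20 : 0 ≤ Real.log 2 := Real.log_nonneg (by norm_num)
  have hX1 : 1 ≤ L + lT := by linarith
  have hU : s * (L + lT) ≤ (s + m + 1) * (L + lT) := by nlinarith
  have hV : m * (L + lT) ≤ (s + m + 1) * (L + lT) := by nlinarith
  have hW : 1 ≤ (s + m + 1) * (L + lT) := by nlinarith
  have e1 : s * lC ≤ lC * ((s + m + 1) * (L + lT)) := by
    have h3 : s * 1 ≤ s * (L + lT) := mul_le_mul_of_nonneg_left hX1 hs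
    have h4 : s ≤ (s + m + 1) * (L + lT) := by linarith
    calc s * lC = lC * s := mul_comm _ _
      _ ≤ _ := mul_le_mul_of_nonneg_left h4 hlC
  have e2 : s * (c * T) ≤ c * ((s + m + 1) * (L + lT)) := by
    have h3 : s * T ≤ s * (L + lT) := mul_le_mul_of_nonneg_left (by linarith) hs
    have h4 : s * T ≤ (s + m + 1) * (L + lT) := h3.trans hU
    calc s * (c * T) = c * (s * T) := by ring
      _ ≤ _ := mul_le_mul_of_nonneg_left h4 hc
  have e3 : (d + 1) * (s * (R1 * L)) ≤ (d + 1) * (R1 * ((s + m + 1) * (L + lT))) := by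
    have h3 : s * L ≤ s * (L + lT) := mul_le_mul_of_nonneg_left (by linarith) hs
    have h4 : s * L ≤ (s + m + 1) * (L + lT) := h3.trans hU
    have h5 : s * (R1 * L) ≤ R1 * ((s + m + 1) * (L + lT)) := by
      calc s * (R1 * L) = R1 * (s * L) := by ring
        _ ≤ _ := mul_le_mul_of_nonneg_left h4 hR
    exact mul_le_mul_of_nonneg_left h5 (by linarith)
  have e4 : lc ≤ lc * ((s + m + 1) * (L + lT)) := by
    calc lc = lc * 1 := (mul_one _).symm
      _ ≤ _ := mul_le_mul_of_nonneg_left hW hlc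
  have e5 : m * Real.log 2 ≤ (s + m + 1) * (L + lT) := by
    have h3 : m * Real.log 2 ≤ m * (L + lT) := mul_le_mul_of_nonneg_left (by linarith) hm
    exact h3.trans hV
  have e6 : m * (R1 * L) ≤ R1 * ((s + m + 1) * (L + lT)) := by
    have h3 : m * L ≤ m * (L + lT) := mul_le_mul_of_nonneg_left (by linarith) hm
    calc m * (R1 * L) = R1 * (m * L) := by ring
      _ ≤ _ := mul_le_mul_of_nonneg_left (h3.trans hV) hR
  have h : s * (lC + c * T + (d + 1) * (R1 * L)) +
      (lc + 2 * (m * Real.log 2) + 2 * (m * (R1 * L))) ≤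
      (R1 * (d + 1) + lC + c + lc + 2 + 2 * R1) * ((s + m + 1) * (L + lT)) := by
    have e7 : s * (lC + c * T + (d + 1) * (R1 * L)) = s * lC + s * (c * T) +
      (d + 1) * (s * (R1 * L)) := by ring
    have e8 : (R1 * (d + 1) + lC + c + lc + 2 + 2 * R1) * ((s + m + 1) * (L + lT)) =
      (d + 1) * (R1 * ((s + m + 1) * (L + lT))) + lC * ((s + m + 1) * (L + lT)) +
      c * ((s + m + 1) * (L + lT)) + lc * ((s + m + 1) * (L + lT)) +
      2 * ((s + m + 1) * (L + lT)) + 2 * (R1 * ((s + m + 1) * (L + lT))) := by ring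
    rw [e7, e8]
    linarith
  calc _ ≤ D * ((R1 * (d + 1) + lC + c + lc + 2 + 2 * R1) * ((s + m + 1) * (L + lT))) :=
        mul_le_mul_of_nonneg_left h hD
    _ = _ := by ring

/-- The theorem `G.window` for lists: `m` factors, the `i`-th one is a coordinate of `x (n + tm i)`
chosen by `sel i`; the recursion holds up to nonzero factors `κ n`. The proof is the one of `window`,
with `M n J = ∏ i, w (n + tm i) (sel i (J i))` (`m` factors, so `W ^ m` instead of `W ^ s`) and the same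
`β` (the segments of length `s` decide when the reductions are proportional; `win_prp`, which only
uses `hcross`). -/
theorem windowL {K : Type} [Field K] [NumberField K] {r : ℕ} (d c : ℕ)
    (G : ℕ → Fin r → MvPolynomial (Fin r) K) (hd : 1 ≤ d) (hG : ∀ k i, (G k i).IsHomogeneous d) :
    ∃ C : ℝ, 1 ≤ C ∧ ∀ (x : ℕ → Fin r → K) (κ : ℕ → K), (∀ n, x n ≠ 0) → (∀ n, κ n ≠ 0) →
      (∀ n i, κ n * x (n + 1) i =
        ∑ k ∈ Finset.range (c + 1), (n : K) ^ k * eval (x n) (G k i)) →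
      ∀ (m : ℕ) (tm : Fin m → ℕ) (sel : Fin m → Fin 2 → Fin r) (T s Q : ℕ) (L : ℝ), 0 ≤ L →
        (∀ i, tm i < s) → (∀ n < T + s, logHeight (x n) ≤ L) → 1 ≤ s →
        2 * (Q + 1) ^ (r * Module.finrank ℚ K + 2) ≤ 2 ^ m →
        C * (s + m + 1) * (L + Real.log (T + s + 2)) < Chebyshev.theta Q →
        ∃ ξ : (Fin m → Fin 2) → K, ξ ≠ 0 ∧
          ∀ n ≤ T, ∑ J, ξ J * ∏ i, x (n + tm i) (sel i (J i)) = 0 := by
  classical
  obtain ⟨q, G', hq, hG', hmap⟩ := clear (c := c) G hG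
  obtain ⟨C1, hC1, hval⟩ := house_value c G' hG'
  obtain ⟨c0, hc0, hint⟩ := interp K
  have hlC1 : 0 ≤ Real.log C1 := Real.log_nonneg hC1
  have hlc0 : 0 ≤ Real.log c0 := Real.log_nonneg hc0
  have hD1 : (1 : ℝ) ≤ Module.finrank ℚ K := by
    exact_mod_cast (Module.finrank_pos : 0 < Module.finrank ℚ K)
  refine ⟨Module.finrank ℚ K * (((r : ℝ) + 1) * ((d : ℝ) + 1) + Real.log C1 + c + Real.log c0 + 2 +
    2 * ((r : ℝ) + 1)), ?_, ?_⟩
  · have h1 : (1 : ℝ) ≤ ((r : ℝ) + 1) * ((d : ℝ) + 1) + Real.log C1 + c + Real.log c0 + 2 +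
        2 * ((r : ℝ) + 1) := by
      have h2 : 0 ≤ ((r : ℝ) + 1) * ((d : ℝ) + 1) := by positivity
      have h3 : (0 : ℝ) ≤ c := Nat.cast_nonneg c
      have h4 : (0 : ℝ) ≤ r := Nat.cast_nonneg r
      linarith
    nlinarith
  intro x κ hx hκ hrec m tm sel T s Q L hL htm hht hs hcard htheta
  choose cc w hcc hw hhouse using fun n => exists_repr (x n) (hx n)
  have hwa : ∀ n i, algebraMap (𝓞 K) K (w n i) = cc n * x n i := hw
  have hj : ∀ n, ∃ j, x n j ≠ 0 := fun n => by
    by_contra hcon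
    push Not at hcon
    exact hx n (funext hcon)
  choose j hj using hj
  have hwj : ∀ n, w n (j n) ≠ 0 := fun n h => by
    have h1 := hwa n (j n)
    rw [h, map_zero] at h1
    exact mul_ne_zero (hcc n) (hj n) h1.symm
  have hq' : (q : K) ≠ 0 := by exact_mod_cast hq
  -- the values of the forms
  have hF : ∀ n i, algebraMap (𝓞 K) K (eval (w n) (winForm c G' n i)) =
      q * cc n ^ d * (κ n * x (n + 1) i) := by
    intro n i
    rw [winForm_eval, hrec n i, map_sum, Finset.mul_sum]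
    refine Finset.sum_congr rfl fun k hk => ?_
    have hk' : k ≤ c := by
      have := Finset.mem_range.1 hk
      omega
    have e1 : algebraMap (𝓞 K) K (eval (w n) (G' k i)) = q * (cc n ^ d * eval (x n) (G k i)) := by
      rw [map_eval, hmap k hk' i, map_mul, eval_C]
      have e2 : (⇑(algebraMap (𝓞 K) K) ∘ w n) = fun a => cc n * x n a := funext fun a => hw n a
      rw [e2, win_eval_mul (hG k i)]
    rw [map_mul, map_pow, map_natCast, e1]
    ring
  have hcross : ∀ n i i', eval (w n) (winForm c G' n i) * w (n + 1) i' =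
      eval (w n) (winForm c G' n i') * w (n + 1) i := by
    intro n i i'
    apply RingOfIntegers.coe_injective
    rw [map_mul, map_mul, hF, hF, hwa, hwa]
    ring
  have hfne : ∀ n, eval (w n) (winForm c G' n (j (n + 1))) ≠ 0 := fun n h => by
    have h1 := hF n (j (n + 1))
    rw [h, map_zero] at h1
    exact mul_ne_zero (mul_ne_zero hq' (pow_ne_zero _ (hcc n)))
      (mul_ne_zero (hκ n) (hj (n + 1))) h1.symm
  -- houses
  set W : ℝ := Real.exp (((r : ℝ) + 1) * L) with hWdef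
  have hW1 : 1 ≤ W := Real.one_le_exp (by positivity)
  have hW0 : 0 ≤ W := by linarith
  have hwW : ∀ n < T + s, ∀ i, house ((w n i : 𝓞 K) : K) ≤ W := by
    intro n hn i
    refine (hhouse n i).trans (Real.exp_le_exp.2 ?_)
    exact mul_le_mul_of_nonneg_left (hht n hn) (by positivity)
  set B1 : ℝ := C1 * ((T : ℝ) + s + 1) ^ c * W ^ (d + 1) with hB1def
  have hTs : (1 : ℝ) ≤ (T : ℝ) + s + 1 := by
    have h3 : (0 : ℝ) ≤ T := Nat.cast_nonneg T
    have h4 : (0 : ℝ) ≤ s := Nat.cast_nonneg s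
    linarith
  have hB11 : 1 ≤ B1 := by
    rw [hB1def]
    have h1 : (1 : ℝ) ≤ ((T : ℝ) + s + 1) ^ c := one_le_pow₀ hTs
    have h2 : (1 : ℝ) ≤ W ^ (d + 1) := one_le_pow₀ hW1
    exact one_le_mul_of_one_le_of_one_le (one_le_mul_of_one_le_of_one_le hC1 h1) h2
  have hfac : ∀ n < T + s, house (((w n (j n) * eval (w n) (winForm c G' n (j (n + 1))) :
      𝓞 K) : 𝓞 K) : K) ≤ B1 := by
    intro n hn
    rw [RingOfIntegers.coe_eq_algebraMap, map_mul]
    refine (house_mul_le _ _).trans ?_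
    have h1 := hwW n hn (j n)
    have h2 := hval n (w n) W hW1 (hwW n hn) (j (n + 1))
    rw [← winForm_eval] at h2
    have h3 : C1 * ((n : ℝ) + 1) ^ c * W ^ d ≤ C1 * ((T : ℝ) + s + 1) ^ c * W ^ d := by
      have h4 : (n : ℝ) + 1 ≤ (T : ℝ) + s + 1 := by
        have : (n : ℝ) ≤ ((T + s : ℕ) : ℝ) := by exact_mod_cast hn.le
        push_cast at this
        linarith
      gcongr
    calc house ((w n (j n) : 𝓞 K) : K) *
          house ((eval (w n) (winForm c G' n (j (n + 1))) : 𝓞 K) : K)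
        ≤ W * (C1 * ((T : ℝ) + s + 1) ^ c * W ^ d) :=
          mul_le_mul h1 (h2.trans h3) (house_nonneg _) hW0
      _ = B1 := by rw [hB1def]; ring
  -- states
  obtain ⟨P, σ, hPσ⟩ := win_states K w Q
  set β : ℕ → 𝓞 K := fun n => ∏ i ∈ Finset.range s,
    (w (n + i) (j (n + i)) * eval (w (n + i)) (winForm c G' (n + i) (j (n + i + 1)))) with hβ
  have hβP : ∀ (I : Ideal (𝓞 K)) n, β n ∉ I → ∀ i < s, w (n + i) (j (n + i)) ∉ I ∧
      eval (w (n + i)) (winForm c G' (n + i) (j (n + i + 1))) ∉ I := by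
    intro I n h i hi
    have hdvd := Finset.dvd_prod_of_mem (fun i => w (n + i) (j (n + i)) *
      eval (w (n + i)) (winForm c G' (n + i) (j (n + i + 1)))) (Finset.mem_range.2 hi)
    refine ⟨fun h1 => h (Ideal.mem_of_dvd _ hdvd (Ideal.mul_mem_right _ _ h1)),
      fun h1 => h (Ideal.mem_of_dvd _ hdvd (Ideal.mul_mem_left _ _ h1))⟩
  have k1 : 2 * ((Q + 1) * (Q + 1) ^ (r * Module.finrank ℚ K + 1)) ≤
      Fintype.card (Fin m → Fin 2) := by
    -- number of states
    simp only [Fintype.card_fun, Fintype.card_fin]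
    refine le_trans (le_of_eq ?_) hcard
    ring
  have k2 : ∀ n ≤ T, ∀ J : Fin m → Fin 2,
      house (((∏ i, w (n + tm i) (sel i (J i)) : 𝓞 K) : 𝓞 K) : K) ≤ W ^ m := by
    -- houses of `M`
    intro n hn J
    have h1 := win_house_prod (K := K) (Finset.univ : Finset (Fin m))
      (fun i => w (n + tm i) (sel i (J i))) W hW0
      (fun i _ => hwW _ (by have := htm i; omega) _)
    rwa [Finset.card_univ, Fintype.card_fin] at h1
  have k3 : ∀ n ≤ T, β n ≠ 0 ∧ house ((β n : 𝓞 K) : K) ≤ B1 ^ s := by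
    -- `β`
    intro n hn
    refine ⟨Finset.prod_ne_zero_iff.2 fun i _ => mul_ne_zero (hwj _) (hfne _), ?_⟩
    have h1 := win_house_prod (K := K) (Finset.range s)
      (fun i => w (n + i) (j (n + i)) * eval (w (n + i)) (winForm c G' (n + i) (j (n + i + 1))))
      B1 (by linarith) (fun i hi => hfac (n + i) (by have := Finset.mem_range.1 hi; omega))
    rwa [Finset.card_range] at h1
  have k4 : ∀ p ≤ Q, p.Prime → ∀ n ≤ T, ∀ n' ≤ T, σ p n = σ p n' → β n ∉ P p → β n' ∉ P p →
      ∃ a ∉ P p, ∃ b, ∀ J : Fin m → Fin 2, a * (∏ i, w (n + tm i) (sel i (J i))) -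
        b * (∏ i, w (n' + tm i) (sel i (J i))) ∈ P p := by
    -- proportional
    intro p hp hpp n _ n' _ hσ hbn hbm
    obtain ⟨hprime, -, hpmem, hst⟩ := hPσ p hp hpp
    obtain ⟨hmod, hwm⟩ := hst n n' hσ
    have hnm : (n : 𝓞 K) - n' ∈ P p := by
      have h1 : (p : ℤ) ∣ (n : ℤ) - n' := by
        have h2 : (n' : ℤ) ≡ n [ZMOD p] := by
          rw [Int.ModEq]
          exact_mod_cast hmod.symm
        exact h2.dvd
      obtain ⟨t, ht⟩ := h1
      have h3 : (n : 𝓞 K) - n' = p * (t : 𝓞 K) := by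
        have h4 := congrArg (Int.cast : ℤ → 𝓞 K) ht
        push_cast at h4
        exact h4
      rw [h3]
      exact Ideal.mul_mem_right _ _ hpmem
    have h1 := win_prp hG' w j hcross hnm hwm (hβP _ n hbn) (hβP _ n' hbm)
    obtain ⟨u, hu, v, -, h2⟩ := wl_prod (P := P p) (m := m) (a := fun i => w (n + tm i))
      (b := fun i => w (n' + tm i)) (fun i => h1 (tm i) (htm i)) sel
    exact ⟨u, hu, v, h2⟩
  have k5 : Module.finrank ℚ K * (Real.log (B1 ^ s) +
      Real.log (c0 * (Fintype.card (Fin m → Fin 2) : ℝ) ^ 2 * (W ^ m) ^ 2)) <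
      Chebyshev.theta Q := by
    -- the numerical condition
    refine lt_of_le_of_lt ?_ htheta
    have hs0 : (0 : ℝ) ≤ s := Nat.cast_nonneg s
    have hm0 : (0 : ℝ) ≤ m := Nat.cast_nonneg m
    have hT0 : (0 : ℝ) ≤ T := Nat.cast_nonneg T
    have hs1 : (1 : ℝ) ≤ s := by exact_mod_cast hs
    have hlogW : Real.log W = ((r : ℝ) + 1) * L := Real.log_exp _
    have hWp : 0 < W := by linarith
    have hTsp : (0 : ℝ) < (T : ℝ) + s + 1 := by linarith
    have e1 : Real.log (B1 ^ s) = s * (Real.log C1 + c * Real.log ((T : ℝ) + s + 1) +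
        (d + 1) * (((r : ℝ) + 1) * L)) := by
      rw [Real.log_pow, hB1def, Real.log_mul (by positivity) (by positivity),
        Real.log_mul (by positivity) (by positivity), Real.log_pow, Real.log_pow, hlogW]
      push_cast
      ring
    have e2 : Real.log (c0 * (Fintype.card (Fin m → Fin 2) : ℝ) ^ 2 * (W ^ m) ^ 2) =
        Real.log c0 + 2 * (m * Real.log 2) + 2 * (m * (((r : ℝ) + 1) * L)) := by
      rw [Fintype.card_fun, Fintype.card_fin, Fintype.card_fin]
      push_cast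
      rw [Real.log_mul (by positivity) (by positivity), Real.log_mul (by positivity) (by positivity),
        Real.log_pow, Real.log_pow, Real.log_pow, Real.log_pow, hlogW]
      push_cast
      ring
    rw [e1, e2]
    have h3 : 1 ≤ Real.log ((T : ℝ) + s + 2) := by
      rw [Real.le_log_iff_exp_le (by linarith)]
      have := Real.exp_one_lt_d9
      linarith
    have h4 : Real.log ((T : ℝ) + s + 1) ≤ Real.log ((T : ℝ) + s + 2) :=
      Real.log_le_log hTsp (by linarith)
    exact wl_num (D := Module.finrank ℚ K) (R1 := (r : ℝ) + 1) (d := d) (c := c) (s := s) (m := m)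
      (T := Real.log ((T : ℝ) + s + 1)) (L := L) (lC := Real.log C1) (lc := Real.log c0)
      (lT := Real.log ((T : ℝ) + s + 2)) (by linarith) (by positivity) (Nat.cast_nonneg d)
      (Nat.cast_nonneg c) hs0 hm0 hL hlC1 hlc0 h3 h4
  obtain ⟨ξ, hξ, hsum⟩ := hint (Fin m → Fin 2)
    (fun n J => ∏ i, w (n + tm i) (sel i (J i))) β P _ σ T Q (W ^ m) (B1 ^ s)
    (one_le_pow₀ hW1) (one_le_pow₀ hB11) (pow_pos (Nat.succ_pos _) _) k1
    (fun p hp hpp => ⟨(hPσ p hp hpp).1, (hPσ p hp hpp).2.1⟩) k2 k3 k4 k5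
  refine ⟨fun J => (ξ J : K), ?_, ?_⟩
  · intro h
    apply hξ
    funext J
    have h1 : algebraMap (𝓞 K) K (ξ J) = 0 := congrFun h J
    apply RingOfIntegers.coe_injective
    rw [h1, Pi.zero_apply, map_zero]
  · intro n hn
    have h1 := congrArg (algebraMap (𝓞 K) K) (hsum n hn)
    rw [map_sum, map_zero] at h1
    have h2 : ∀ J : Fin m → Fin 2, algebraMap (𝓞 K) K
        ((∏ i, w (n + tm i) (sel i (J i))) * ξ J) =
        (∏ i, cc (n + tm i)) * ((ξ J : K) * ∏ i, x (n + tm i) (sel i (J i))) := by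
      intro J
      rw [map_mul, map_prod]
      have h3 : ∏ i, algebraMap (𝓞 K) K (w (n + tm i) (sel i (J i))) =
          (∏ i, cc (n + tm i)) * ∏ i, x (n + tm i) (sel i (J i)) := by
        rw [← Finset.prod_mul_distrib]
        exact Finset.prod_congr rfl fun i _ => hw _ _
      rw [h3]
      ring
    simp only [h2] at h1
    rw [← Finset.mul_sum] at h1
    exact (mul_eq_zero.1 h1).resolve_left (Finset.prod_ne_zero_iff.2 fun i _ => hcc _)

end Pool.Agent.H.MP_31a675_nt.W
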